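import Mathlib

/-!
# MP_394d50_gt, virtually special groups: definitions at the level of the complex

`P` is the vertex type, `X : Set (Finset P)` a simplicial complex (non-empty simplices only), `H` a
group acting on `P`. Degrees are counted by cardinality: a simplex `σ` of dimension `d` has
`σ.card = d + 1`. Equivariant functions `c : Finset P → N`, `c (h • σ) = ρ h (c σ)`, play the role
of the cochains (with `dl`) and of the locally finite chains (with `bd`) at the same time.
-/

namespace SingerVS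

open scoped Pointwise

/-- `X` is a simplicial complex with a free action of `H` with finitely many orbits of
simplices. (Then `X` is locally finite, see `nb_finite`.) -/
structure FreeCx (H : Type) [Group H] {P : Type} [DecidableEq P] [MulAction H P]
    (X : Set (Finset P)) : Prop where
  ne : ∀ σ ∈ X, σ.Nonempty
  down : ∀ σ ∈ X, ∀ τ, τ ⊆ σ → τ.Nonempty → τ ∈ X
  inv : ∀ h : H, ∀ σ ∈ X, h • σ ∈ X
  free : ∀ h : H, ∀ σ ∈ X, h • σ = σ → h = 1
  fin : ∃ R : Finset (Finset P), (∀ r ∈ R, r ∈ X) ∧ ∀ σ ∈ X, ∃ h : H, ∃ r ∈ R, σ = h • r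

section

variable {P : Type} [DecidableEq P]

open scoped Classical in
/-- The vertices `p ∉ σ` such that `σ ∪ {p}` is a simplex (when there are finitely many). -/
noncomputable def nb (X : Set (Finset P)) (σ : Finset P) : Finset P :=
  if h : {p | p ∉ σ ∧ insert p σ ∈ X}.Finite then h.toFinset else ∅

variable {N : Type} [AddCommGroup N] [Module (ZMod 2) N]

open scoped Classical in
/-- The coboundary `(dl c) σ = ∑_{p ∈ σ} c (σ \ p)`, for `σ ∈ X`. -/
noncomputable def dl (X : Set (Finset P)) : (Finset P → N) →ₗ[ZMod 2] (Finset P → N) where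
  toFun c := fun σ => if σ ∈ X then ∑ p ∈ σ, c (σ.erase p) else 0
  map_add' c d := by
    funext σ
    simp only [Pi.add_apply]
    split_ifs
    · rw [← Finset.sum_add_distrib]
    · simp
  map_smul' r c := by
    funext σ
    simp only [Pi.smul_apply, RingHom.id_apply]
    split_ifs
    · rw [Finset.smul_sum]
    · simp

open scoped Classical in
/-- The boundary (of locally finite chains) `(bd c) σ = ∑_{p ∉ σ, σ ∪ p ∈ X} c (σ ∪ p)`, for
`σ ∈ X`. -/
noncomputable def bd (X : Set (Finset P)) : (Finset P → N) →ₗ[ZMod 2] (Finset P → N) where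
  toFun c := fun σ => if σ ∈ X then ∑ p ∈ nb X σ, c (insert p σ) else 0
  map_add' c d := by
    funext σ
    simp only [Pi.add_apply]
    split_ifs
    · rw [← Finset.sum_add_distrib]
    · simp
  map_smul' r c := by
    funext σ
    simp only [Pi.smul_apply, RingHom.id_apply]
    split_ifs
    · rw [Finset.smul_sum]
    · simp

/-- The functions supported on the simplices with `k` vertices. -/
def Ch (N : Type) [AddCommGroup N] [Module (ZMod 2) N] (X : Set (Finset P)) (k : ℕ) :
    Submodule (ZMod 2) (Finset P → N) where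
  carrier := {c | ∀ σ, ¬ (σ ∈ X ∧ σ.card = k) → c σ = 0}
  add_mem' := fun {c d} hc hd σ h => by rw [Pi.add_apply, hc σ h, hd σ h, add_zero]
  zero_mem' := fun _ _ => rfl
  smul_mem' := fun r c hc σ h => by rw [Pi.smul_apply, hc σ h, smul_zero]

/-- The `H`-equivariant functions supported on the simplices with `k` vertices. -/
def Co {H : Type} [Group H] [MulAction H P] (ρ : H →* Module.End (ZMod 2) N)
    (X : Set (Finset P)) (k : ℕ) : Submodule (ZMod 2) (Finset P → N) where
  carrier := {c | (∀ σ, ¬ (σ ∈ X ∧ σ.card = k) → c σ = 0) ∧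
    ∀ h : H, ∀ σ ∈ X, c (h • σ) = ρ h (c σ)}
  add_mem' := fun {c d} hc hd => ⟨fun σ h => by rw [Pi.add_apply, hc.1 σ h, hd.1 σ h, add_zero],
    fun h σ hσ => by rw [Pi.add_apply, Pi.add_apply, hc.2 h σ hσ, hd.2 h σ hσ, map_add]⟩
  zero_mem' := ⟨fun _ _ => rfl, fun h σ _ => by rw [Pi.zero_apply, Pi.zero_apply, map_zero]⟩
  smul_mem' := fun r c hc => ⟨fun σ h => by rw [Pi.smul_apply, hc.1 σ h, smul_zero],
    fun h σ hσ => by rw [Pi.smul_apply, Pi.smul_apply, hc.2 h σ hσ, map_smul]⟩

omit [DecidableEq P] in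
theorem mem_Ch {X : Set (Finset P)} {k : ℕ} {c : Finset P → N} :
    c ∈ Ch N X k ↔ ∀ σ, ¬ (σ ∈ X ∧ σ.card = k) → c σ = 0 := Iff.rfl

theorem mem_Co {H : Type} [Group H] [MulAction H P] {ρ : H →* Module.End (ZMod 2) N}
    {X : Set (Finset P)} {k : ℕ} {c : Finset P → N} :
    c ∈ Co ρ X k ↔ (∀ σ, ¬ (σ ∈ X ∧ σ.card = k) → c σ = 0) ∧
      ∀ h : H, ∀ σ ∈ X, c (h • σ) = ρ h (c σ) := Iff.rfl

/-- Exactness of the equivariant cochains at the simplices with `k` vertices: every cocycle is a
coboundary. For `k = 1` it says that every cocycle is zero. -/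
def ExCo {H : Type} [Group H] [MulAction H P] (ρ : H →* Module.End (ZMod 2) N)
    (X : Set (Finset P)) (k : ℕ) : Prop :=
  ∀ c ∈ Co ρ X k, dl X c = 0 → ∃ b ∈ Co ρ X (k - 1), dl X b = c

/-- Exactness of the equivariant locally finite chains at the simplices with `k` vertices: every
cycle is a boundary. For `k = 1` every chain is a cycle. -/
def ExBd {H : Type} [Group H] [MulAction H P] (ρ : H →* Module.End (ZMod 2) N)
    (X : Set (Finset P)) (k : ℕ) : Prop :=
  ∀ c ∈ Co ρ X k, bd X c = 0 → ∃ b ∈ Co ρ X (k + 1), bd X b = c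

/-- `X` has dimension at most `n` and the locally finite homology of `ℝⁿ` over `F₂`. -/
structure LfR (n : ℕ) (X : Set (Finset P)) : Prop where
  dim : ∀ σ ∈ X, σ.card ≤ n + 1
  low : ∀ k, 1 ≤ k → k ≤ n → ∀ c ∈ Ch (ZMod 2) X k, bd X c = 0 →
    ∃ b ∈ Ch (ZMod 2) X (k + 1), bd X b = c
  top : ∃ ξ ∈ Ch (ZMod 2) X (n + 1), ξ ≠ 0 ∧ bd X ξ = 0 ∧
    ∀ c ∈ Ch (ZMod 2) X (n + 1), bd X c = 0 → c = 0 ∨ c = ξ

/-- `X` is acyclic over `F₂` (finitely supported chains). -/
structure Acyc (X : Set (Finset P)) : Prop where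
  pt : ∃ v : P, {v} ∈ X
  conn : ∀ c ∈ Ch (ZMod 2) X 1, (Function.support c).Finite → ∑ᶠ v : P, c {v} = 0 →
    ∃ b ∈ Ch (ZMod 2) X 2, (Function.support b).Finite ∧ bd X b = c
  high : ∀ k, 2 ≤ k → ∀ c ∈ Ch (ZMod 2) X k, (Function.support c).Finite → bd X c = 0 →
    ∃ b ∈ Ch (ZMod 2) X (k + 1), (Function.support b).Finite ∧ bd X b = c

end

end SingerVS
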