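import Mathlib
import Pool.Agent.Lib_MP_394d50_vs.VDefs

/-!
# Basic facts on the equivariant functions on a free complex
-/

namespace SingerVS

open scoped Pointwise

section Loc

variable {H P : Type} [Group H] [DecidableEq P] [MulAction H P] {X : Set (Finset P)}

theorem FreeCx.empty_notMem (hX : FreeCx H X) : (∅ : Finset P) ∉ X := fun h =>
  Finset.not_nonempty_empty (hX.ne ∅ h)

theorem FreeCx.smul_mem_iff (hX : FreeCx H X) (h : H) (σ : Finset P) : h • σ ∈ X ↔ σ ∈ X :=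
  ⟨fun h1 => by simpa using hX.inv h⁻¹ _ h1, hX.inv h σ⟩

theorem FreeCx.smul_inj (hX : FreeCx H X) {h h' : H} {σ : Finset P} (hσ : σ ∈ X)
    (e : h • σ = h' • σ) : h = h' := by
  have h1 : (h'⁻¹ * h) • σ = σ := by rw [mul_smul, e, inv_smul_smul]
  have h2 := hX.free _ σ hσ h1
  exact (inv_mul_eq_one.mp h2).symm

theorem FreeCx.single_mem (hX : FreeCx H X) {σ : Finset P} (hσ : σ ∈ X) {p : P} (hp : p ∈ σ) :
    {p} ∈ X := hX.down σ hσ {p} (Finset.singleton_subset_iff.mpr hp) (Finset.singleton_nonempty p)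

theorem FreeCx.vfree (hX : FreeCx H X) {p : P} (hp : {p} ∈ X) {h h' : H} (e : h • p = h' • p) :
    h = h' := hX.smul_inj hp (by rw [Finset.smul_finset_singleton, Finset.smul_finset_singleton, e])

theorem FreeCx.star_finite (hX : FreeCx H X) (v : P) : {τ | τ ∈ X ∧ v ∈ τ}.Finite := by
  obtain ⟨R, hR, hR'⟩ := hX.fin
  have h1 : {τ | τ ∈ X ∧ v ∈ τ} ⊆
      ⋃ r ∈ (R : Set (Finset P)), ⋃ w ∈ (r : Set P), {τ | ∃ h : H, h • w = v ∧ τ = h • r} := by
    rintro τ ⟨hτ, hv⟩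
    obtain ⟨h, r, hr, rfl⟩ := hR' τ hτ
    obtain ⟨w, hw, rfl⟩ := Finset.mem_smul_finset.mp hv
    exact Set.mem_iUnion₂.mpr ⟨r, hr, Set.mem_iUnion₂.mpr ⟨w, hw, h, rfl, rfl⟩⟩
  refine Set.Finite.subset (Set.Finite.biUnion R.finite_toSet fun r hr =>
    Set.Finite.biUnion r.finite_toSet fun w hw => ?_) h1
  refine Set.Subsingleton.finite ?_
  rintro _ ⟨h, e, rfl⟩ _ ⟨h', e', rfl⟩
  have hw' : {w} ∈ X := hX.single_mem (hR r hr) hw
  rw [hX.vfree hw' (e.trans e'.symm)]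

theorem FreeCx.cof_finite (hX : FreeCx H X) {σ : Finset P} (hσ : σ ∈ X) :
    {τ | τ ∈ X ∧ σ ⊆ τ}.Finite := by
  obtain ⟨v, hv⟩ := hX.ne σ hσ
  exact (hX.star_finite v).subset fun τ hτ => ⟨hτ.1, hτ.2 hv⟩

theorem FreeCx.nb_finite (hX : FreeCx H X) {σ : Finset P} (hσ : σ ∈ X) :
    {p | p ∉ σ ∧ insert p σ ∈ X}.Finite := by
  refine Set.Finite.of_finite_image ((hX.cof_finite hσ).subset ?_) (f := fun p => insert p σ) ?_
  · rintro _ ⟨p, hp, rfl⟩
    exact ⟨hp.2, Finset.subset_insert p σ⟩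
  · intro p hp q hq e
    have h1 : p ∈ insert q σ := by
      have h2 : insert p σ = insert q σ := e
      rw [← h2]
      exact Finset.mem_insert_self p σ
    exact (Finset.mem_insert.mp h1).resolve_right hp.1

theorem FreeCx.mem_nb (hX : FreeCx H X) {σ : Finset P} (hσ : σ ∈ X) {p : P} :
    p ∈ nb X σ ↔ p ∉ σ ∧ insert p σ ∈ X := by
  unfold nb
  rw [dif_pos (hX.nb_finite hσ), Set.Finite.mem_toFinset]
  rfl

theorem FreeCx.nb_smul (hX : FreeCx H X) (h : H) {σ : Finset P} (hσ : σ ∈ X) :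
    nb X (h • σ) = h • nb X σ := by
  ext p
  rw [hX.mem_nb ((hX.smul_mem_iff h σ).mpr hσ), ← Finset.inv_smul_mem_iff,
    ← Finset.inv_smul_mem_iff, hX.mem_nb hσ]
  refine and_congr Iff.rfl ?_
  rw [← hX.smul_mem_iff h (insert (h⁻¹ • p) σ), Finset.smul_finset_insert, smul_inv_smul]

theorem smul_erase (h : H) (σ : Finset P) (p : P) : h • σ.erase p = (h • σ).erase (h • p) := by
  rw [Finset.erase_eq, Finset.smul_finset_sdiff, Finset.smul_finset_singleton, Finset.erase_eq]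

theorem card_smul (h : H) (σ : Finset P) : (h • σ).card = σ.card := Finset.card_smul_finset h σ

end Loc

section Ops

variable {H P : Type} [Group H] [DecidableEq P] [MulAction H P] {X : Set (Finset P)}
variable {N : Type} [AddCommGroup N] [Module (ZMod 2) N]

theorem dl_apply {c : Finset P → N} {σ : Finset P} (hσ : σ ∈ X) :
    dl X c σ = ∑ p ∈ σ, c (σ.erase p) := if_pos hσ

theorem dl_apply_not {c : Finset P → N} {σ : Finset P} (hσ : σ ∉ X) : dl X c σ = 0 := if_neg hσ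

theorem bd_apply {c : Finset P → N} {σ : Finset P} (hσ : σ ∈ X) :
    bd X c σ = ∑ p ∈ nb X σ, c (insert p σ) := if_pos hσ

theorem bd_apply_not {c : Finset P → N} {σ : Finset P} (hσ : σ ∉ X) : bd X c σ = 0 := if_neg hσ

theorem sum_pairs_zero {ι : Type} (s : Finset ι) (t : ι → Finset ι) (f : ι → ι → N)
    (h1 : ∀ p ∈ s, ∀ q ∈ t p, q ∈ s ∧ p ∈ t q ∧ q ≠ p) (h2 : ∀ p q, f p q = f q p) :
    ∑ p ∈ s, ∑ q ∈ t p, f p q = 0 := by
  rw [Finset.sum_sigma']
  refine Finset.sum_involution (fun (a : (_ : ι) × ι) _ => (⟨a.2, a.1⟩ : (_ : ι) × ι)) ?_ ?_ ?_ ?_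
  · rintro ⟨p, q⟩ _
    show f p q + f q p = 0
    rw [h2 q p]
    exact ZModModule.add_self _
  · rintro ⟨p, q⟩ hm _ e
    obtain ⟨hp, hq⟩ := Finset.mem_sigma.mp hm
    exact (h1 p hp q hq).2.2 (congrArg Sigma.fst e)
  · rintro ⟨p, q⟩ hm
    obtain ⟨hp, hq⟩ := Finset.mem_sigma.mp hm
    exact Finset.mem_sigma.mpr ⟨(h1 p hp q hq).1, (h1 p hp q hq).2.1⟩
  · rintro ⟨p, q⟩ _
    rfl

theorem FreeCx.dl_dl (hX : FreeCx H X) (c : Finset P → N) : dl X (dl X c) = 0 := by
  funext σ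
  by_cases hσ : σ ∈ X
  · rw [dl_apply hσ]
    have h1 : ∀ p ∈ σ, dl X c (σ.erase p) = ∑ q ∈ σ.erase p, c ((σ.erase p).erase q) := by
      intro p _
      by_cases hp : (σ.erase p).Nonempty
      · exact dl_apply (hX.down σ hσ _ (Finset.erase_subset p σ) hp)
      · rw [Finset.not_nonempty_iff_eq_empty.mp hp, dl_apply_not hX.empty_notMem,
          Finset.sum_empty]
    rw [Finset.sum_congr rfl h1]
    show _ = (0 : N)
    refine sum_pairs_zero σ (fun p => σ.erase p) (fun p q => c ((σ.erase p).erase q)) ?_ ?_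
    · intro p hp q hq
      exact ⟨Finset.mem_of_mem_erase hq, Finset.mem_erase.mpr
        ⟨(Finset.ne_of_mem_erase hq).symm, hp⟩, Finset.ne_of_mem_erase hq⟩
    · intro p q
      rw [Finset.erase_right_comm]
  · exact dl_apply_not hσ

theorem FreeCx.bd_bd (hX : FreeCx H X) (c : Finset P → N) : bd X (bd X c) = 0 := by
  funext σ
  by_cases hσ : σ ∈ X
  · rw [bd_apply hσ]
    have h1 : ∀ p ∈ nb X σ, bd X c (insert p σ) =
        ∑ q ∈ nb X (insert p σ), c (insert q (insert p σ)) := fun p hp =>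
      bd_apply ((hX.mem_nb hσ).mp hp).2
    rw [Finset.sum_congr rfl h1]
    show _ = (0 : N)
    refine sum_pairs_zero (nb X σ) (fun p => nb X (insert p σ))
      (fun p q => c (insert q (insert p σ))) ?_ ?_
    · intro p hp q hq
      obtain ⟨hp1, hp2⟩ := (hX.mem_nb hσ).mp hp
      obtain ⟨hq1, hq2⟩ := (hX.mem_nb hp2).mp hq
      rw [Finset.mem_insert, not_or] at hq1
      have e : insert q σ ∈ X := hX.down _ hq2 _ (Finset.insert_subset_insert q
        (Finset.subset_insert p σ)) (Finset.insert_nonempty q σ)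
      refine ⟨(hX.mem_nb hσ).mpr ⟨hq1.2, e⟩, (hX.mem_nb e).mpr ⟨?_, ?_⟩, hq1.1⟩
      · rw [Finset.mem_insert, not_or]
        exact ⟨Ne.symm hq1.1, hp1⟩
      · rw [Finset.insert_comm]
        exact hq2
    · intro p q
      show c (insert q (insert p σ)) = c (insert p (insert q σ))
      rw [Finset.insert_comm]
  · exact bd_apply_not hσ

variable {ρ : H →* Module.End (ZMod 2) N} {k : ℕ}

theorem FreeCx.co_eqv (hX : FreeCx H X) {c : Finset P → N} (hc : c ∈ Co ρ X k) (h : H)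
    (σ : Finset P) : c (h • σ) = ρ h (c σ) := by
  by_cases hσ : σ ∈ X
  · exact hc.2 h σ hσ
  · rw [hc.1 σ (fun h1 => hσ h1.1), map_zero, hc.1 _ (fun h1 => hσ ((hX.smul_mem_iff h σ).mp h1.1))]

theorem co_le_ch {c : Finset P → N} (hc : c ∈ Co ρ X k) : c ∈ Ch N X k := hc.1

theorem FreeCx.ch_dl (hX : FreeCx H X) {c : Finset P → N} (hc : c ∈ Ch N X k) :
    dl X c ∈ Ch N X (k + 1) := by
  intro σ hσ
  by_cases h1 : σ ∈ X
  · rw [dl_apply h1]
    refine Finset.sum_eq_zero fun p hp => hc _ ?_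
    rintro ⟨_, h3⟩
    rw [Finset.card_erase_of_mem hp] at h3
    have h4 := Finset.card_pos.mpr (hX.ne σ h1)
    exact hσ ⟨h1, by omega⟩
  · exact dl_apply_not h1

theorem FreeCx.ch_bd (hX : FreeCx H X) {c : Finset P → N} (hc : c ∈ Ch N X (k + 1)) :
    bd X c ∈ Ch N X k := by
  intro σ hσ
  by_cases h1 : σ ∈ X
  · rw [bd_apply h1]
    refine Finset.sum_eq_zero fun p hp => hc _ ?_
    rintro ⟨_, h3⟩
    rw [Finset.card_insert_of_notMem ((hX.mem_nb h1).mp hp).1] at h3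
    exact hσ ⟨h1, by omega⟩
  · exact bd_apply_not h1

theorem FreeCx.dl_smul (hX : FreeCx H X) {c : Finset P → N} (hc : c ∈ Co ρ X k) (h : H)
    (σ : Finset P) (hσ : σ ∈ X) : dl X c (h • σ) = ρ h (dl X c σ) := by
  rw [dl_apply hσ, dl_apply ((hX.smul_mem_iff h σ).mpr hσ), map_sum]
  have h1 : h • σ = σ.image (fun x => h • x) := rfl
  conv_lhs => rw [h1]
  rw [Finset.sum_image (fun x _ y _ e => MulAction.injective h e)]
  refine Finset.sum_congr rfl fun p _ => ?_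
  rw [← h1, ← smul_erase, hX.co_eqv hc]

theorem FreeCx.bd_smul (hX : FreeCx H X) {c : Finset P → N} (hc : c ∈ Co ρ X k) (h : H)
    (σ : Finset P) (hσ : σ ∈ X) : bd X c (h • σ) = ρ h (bd X c σ) := by
  rw [bd_apply hσ, bd_apply ((hX.smul_mem_iff h σ).mpr hσ), map_sum, hX.nb_smul h hσ]
  have h1 : h • nb X σ = (nb X σ).image (fun x => h • x) := rfl
  rw [h1, Finset.sum_image (fun x _ y _ e => MulAction.injective h e)]
  refine Finset.sum_congr rfl fun p _ => ?_
  rw [← Finset.smul_finset_insert, hX.co_eqv hc]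

theorem FreeCx.co_dl (hX : FreeCx H X) {c : Finset P → N} (hc : c ∈ Co ρ X k) :
    dl X c ∈ Co ρ X (k + 1) :=
  ⟨hX.ch_dl (co_le_ch hc), fun h σ hσ => hX.dl_smul hc h σ hσ⟩

theorem FreeCx.co_bd (hX : FreeCx H X) {c : Finset P → N} (hc : c ∈ Co ρ X (k + 1)) :
    bd X c ∈ Co ρ X k :=
  ⟨hX.ch_bd (co_le_ch hc), fun h σ hσ => hX.bd_smul hc h σ hσ⟩

theorem FreeCx.co_zero (hX : FreeCx H X) {c : Finset P → N} (hc : c ∈ Co ρ X 0) : c = 0 := by
  funext σ
  refine hc.1 σ ?_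
  rintro ⟨h1, h2⟩
  exact (Finset.card_pos.mpr (hX.ne σ h1)).ne' h2

end Ops

/-! ## Orbit representatives -/

section Reps

variable {H P : Type} [Group H] [DecidableEq P] [MulAction H P] {X : Set (Finset P)}

/-- `R` is a finite set of representatives of the orbits of simplices. -/
structure Reps (H : Type) [Group H] {P : Type} [DecidableEq P] [MulAction H P]
    (X : Set (Finset P)) (R : Finset (Finset P)) : Prop where
  mem : ∀ r ∈ R, r ∈ X
  cov : ∀ σ ∈ X, ∃ h : H, ∃ r ∈ R, σ = h • r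
  inj : ∀ r ∈ R, ∀ r' ∈ R, ∀ h : H, h • r = r' → r = r'

theorem FreeCx.exists_reps (hX : FreeCx H X) : ∃ R : Finset (Finset P), Reps H X R := by
  classical
  obtain ⟨R, hR, hR'⟩ := hX.fin
  have h1 : ∀ r : Finset P, ∃ h : H,
      Quotient.out (Quotient.mk (MulAction.orbitRel H (Finset P)) r) = h • r := by
    intro r
    have h2 := Quotient.mk_out (s := MulAction.orbitRel H (Finset P)) r
    obtain ⟨h, hh⟩ := h2
    exact ⟨h, hh.symm⟩
  refine ⟨R.image (fun r => Quotient.out (Quotient.mk (MulAction.orbitRel H (Finset P)) r)),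
    ?_, ?_, ?_⟩
  · intro r hr
    obtain ⟨s, hs, rfl⟩ := Finset.mem_image.mp hr
    obtain ⟨h, hh⟩ := h1 s
    rw [hh]
    exact hX.inv h s (hR s hs)
  · intro σ hσ
    obtain ⟨h, r, hr, rfl⟩ := hR' σ hσ
    obtain ⟨h', hh'⟩ := h1 r
    refine ⟨h * h'⁻¹, _, Finset.mem_image_of_mem _ hr, ?_⟩
    rw [hh', mul_smul, inv_smul_smul]
  · intro r hr r' hr' h e
    obtain ⟨s, hs, rfl⟩ := Finset.mem_image.mp hr
    obtain ⟨s', hs', rfl⟩ := Finset.mem_image.mp hr'
    have h2 : Quotient.mk (MulAction.orbitRel H (Finset P)) s =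
        Quotient.mk (MulAction.orbitRel H (Finset P)) s' := by
      obtain ⟨g, hg⟩ := h1 s
      obtain ⟨g', hg'⟩ := h1 s'
      rw [hg, hg'] at e
      apply Quotient.sound
      refine ⟨g⁻¹ * h⁻¹ * g', ?_⟩
      show (g⁻¹ * h⁻¹ * g') • s' = s
      rw [mul_smul, ← e, mul_smul, inv_smul_smul, inv_smul_smul]
    rw [h2]

namespace Reps

variable {R : Finset (Finset P)}

open scoped Classical in
/-- The representative of the orbit of `σ`. -/
noncomputable def rep (hR : Reps H X R) (σ : Finset P) : Finset P :=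
  if h : σ ∈ X then (hR.cov σ h).choose_spec.choose else ∅

open scoped Classical in
/-- The element of `H` which moves the representative to `σ`. -/
noncomputable def el (hR : Reps H X R) (σ : Finset P) : H :=
  if h : σ ∈ X then (hR.cov σ h).choose else 1

theorem rep_mem (hR : Reps H X R) {σ : Finset P} (hσ : σ ∈ X) : hR.rep σ ∈ R := by
  unfold rep
  rw [dif_pos hσ]
  exact (hR.cov σ hσ).choose_spec.choose_spec.1

theorem el_rep (hR : Reps H X R) {σ : Finset P} (hσ : σ ∈ X) : hR.el σ • hR.rep σ = σ := by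
  unfold rep el
  rw [dif_pos hσ, dif_pos hσ]
  exact (hR.cov σ hσ).choose_spec.choose_spec.2.symm

theorem rep_card (hR : Reps H X R) {σ : Finset P} (hσ : σ ∈ X) : (hR.rep σ).card = σ.card := by
  conv_rhs => rw [← hR.el_rep hσ, card_smul]

theorem rep_smul (hX : FreeCx H X) (hR : Reps H X R) (h : H) {σ : Finset P} (hσ : σ ∈ X) :
    hR.rep (h • σ) = hR.rep σ := by
  have h1 := hX.inv h σ hσ
  refine hR.inj _ (hR.rep_mem h1) _ (hR.rep_mem hσ) ((hR.el σ)⁻¹ * h⁻¹ * hR.el (h • σ)) ?_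
  rw [mul_smul, hR.el_rep h1, mul_smul, inv_smul_smul]
  nth_rewrite 2 [← hR.el_rep hσ]
  rw [inv_smul_smul]

theorem el_smul (hX : FreeCx H X) (hR : Reps H X R) (h : H) {σ : Finset P} (hσ : σ ∈ X) :
    hR.el (h • σ) = h * hR.el σ := by
  have h1 := hX.inv h σ hσ
  refine hX.smul_inj (hR.mem _ (hR.rep_mem hσ)) ?_
  rw [mul_smul, hR.el_rep hσ]
  nth_rewrite 1 [← hR.rep_smul hX h hσ]
  exact hR.el_rep h1

theorem rep_self (hR : Reps H X R) {r : Finset P} (hr : r ∈ R) : hR.rep r = r :=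
  hR.inj _ (hR.rep_mem (hR.mem r hr)) _ hr (hR.el r) (hR.el_rep (hR.mem r hr))

theorem el_self (hX : FreeCx H X) (hR : Reps H X R) {r : Finset P} (hr : r ∈ R) :
    hR.el r = 1 := by
  refine hX.smul_inj (hR.mem r hr) ?_
  rw [one_smul]
  nth_rewrite 1 [← hR.rep_self hr]
  rw [hR.rep_self hr]
  nth_rewrite 2 [← hR.rep_self hr]
  exact hR.el_rep (hR.mem r hr)

end Reps

variable {N : Type} [AddCommGroup N] [Module (ZMod 2) N] {ρ : H →* Module.End (ZMod 2) N}
  {R : Finset (Finset P)}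

/-- An equivariant function is determined by its values at the representatives. -/
theorem FreeCx.co_ext (_ : FreeCx H X) (hR : Reps H X R) {k : ℕ} {c d : Finset P → N}
    (hc : c ∈ Co ρ X k) (hd : d ∈ Co ρ X k) (h : ∀ r ∈ R, r.card = k → c r = d r) : c = d := by
  funext σ
  by_cases hσ : σ ∈ X ∧ σ.card = k
  · have h1 := hR.mem _ (hR.rep_mem hσ.1)
    have h2 := hR.el_rep hσ.1
    calc c σ = c (hR.el σ • hR.rep σ) := by rw [h2]
      _ = ρ (hR.el σ) (c (hR.rep σ)) := hc.2 _ _ h1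
      _ = ρ (hR.el σ) (d (hR.rep σ)) := by
          rw [h _ (hR.rep_mem hσ.1) ((hR.rep_card hσ.1).trans hσ.2)]
      _ = d (hR.el σ • hR.rep σ) := (hd.2 _ _ h1).symm
      _ = d σ := by rw [h2]
  · rw [hc.1 σ hσ, hd.1 σ hσ]

open scoped Classical in
/-- The equivariant function with given values at the representatives. -/
noncomputable def coE (ρ : H →* Module.End (ZMod 2) N) (hR : Reps H X R) (k : ℕ)
    (f : Finset P → N) : Finset P → N := fun σ =>
  if σ ∈ X ∧ σ.card = k then ρ (hR.el σ) (f (hR.rep σ)) else 0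

theorem FreeCx.coE_mem (hX : FreeCx H X) (hR : Reps H X R) (k : ℕ) (f : Finset P → N) :
    coE ρ hR k f ∈ Co ρ X k := by
  refine ⟨fun σ hσ => if_neg hσ, fun h σ hσ => ?_⟩
  unfold coE
  by_cases h1 : σ.card = k
  · rw [if_pos ⟨hX.inv h σ hσ, (card_smul h σ).trans h1⟩, if_pos ⟨hσ, h1⟩, hR.el_smul hX h hσ,
      hR.rep_smul hX h hσ, map_mul]
    rfl
  · rw [if_neg (fun h2 => h1 ((card_smul h σ).symm.trans h2.2)), if_neg (fun h2 => h1 h2.2),
      map_zero]

theorem FreeCx.coE_rep (hX : FreeCx H X) (hR : Reps H X R) (k : ℕ) (f : Finset P → N)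
    {r : Finset P} (hr : r ∈ R) (hk : r.card = k) : coE ρ hR k f r = f r := by
  unfold coE
  rw [if_pos ⟨hR.mem r hr, hk⟩, hR.el_self hX hr, hR.rep_self hr, map_one]
  rfl

end Reps

end SingerVS
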