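import Mathlib

/-!
# Block L: the operator `1 - L⁻¹ (D D* + D* D)` on a Hilbert space (abstract part)
-/

namespace SingerVS

open Filter Topology

variable {E : Type} [NormedAddCommGroup E] [InnerProductSpace ℝ E] [CompleteSpace E]

/-- The operator `1 - L⁻¹ (D D* + D* D)`. -/
noncomputable def opT (D : E →L[ℝ] E) (L : ℝ) : E →L[ℝ] E :=
  1 - L⁻¹ • (D * ContinuousLinearMap.adjoint D + ContinuousLinearMap.adjoint D * D)

theorem opT_apply (D : E →L[ℝ] E) (L : ℝ) (x : E) : opT D L x =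
    x - L⁻¹ • (D (ContinuousLinearMap.adjoint D x) + ContinuousLinearMap.adjoint D (D x)) := rfl

/-- `⟨Δ x, y⟩ = ⟨D* x, D* y⟩ + ⟨D x, D y⟩`. -/
theorem le_inner (D : E →L[ℝ] E) (x y : E) :
    inner ℝ (D (ContinuousLinearMap.adjoint D x) + ContinuousLinearMap.adjoint D (D x)) y =
      inner ℝ (ContinuousLinearMap.adjoint D x) (ContinuousLinearMap.adjoint D y) +
        inner ℝ (D x) (D y) := by
  rw [inner_add_left, ContinuousLinearMap.adjoint_inner_left,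
    ContinuousLinearMap.adjoint_inner_right]

theorem le_symm (D : E →L[ℝ] E) (L : ℝ) (x y : E) :
    inner ℝ (opT D L x) y = inner ℝ x (opT D L y) := by
  rw [opT_apply, opT_apply, inner_sub_left, inner_sub_right, inner_smul_left, inner_smul_right,
    le_inner, real_inner_comm (D _ + _) x, le_inner, real_inner_comm (D x) (D y),
    real_inner_comm (ContinuousLinearMap.adjoint D x) (ContinuousLinearMap.adjoint D y)]
  simp

theorem le_norm (D : E →L[ℝ] E) (L R : ℝ) (hD : ‖D‖ ≤ R) (hL : 0 < L) (hRL : R ^ 2 ≤ L)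
    (x : E) : ‖opT D L x‖ ≤ ‖x‖ := by
  have hR : 0 ≤ R := (norm_nonneg _).trans hD
  set D' := ContinuousLinearMap.adjoint D with hD'
  have hD'n : ‖D'‖ ≤ R := by
    rw [hD', LinearIsometryEquiv.norm_map]
    exact hD
  set u := D (D' x) with hu
  set v := D' (D x) with hv
  have h1 : ‖u‖ ≤ R * ‖D' x‖ := (D.le_opNorm _).trans (mul_le_mul_of_nonneg_right hD (norm_nonneg _))
  have h2 : ‖v‖ ≤ R * ‖D x‖ := (D'.le_opNorm _).trans (mul_le_mul_of_nonneg_right hD'n (norm_nonneg _))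
  have h3 : ‖u + v‖ ^ 2 ≤ 2 * R ^ 2 * (‖D' x‖ ^ 2 + ‖D x‖ ^ 2) := by
    have h4 : ‖u + v‖ ≤ ‖u‖ + ‖v‖ := norm_add_le _ _
    have h5 : ‖u + v‖ ^ 2 ≤ (‖u‖ + ‖v‖) ^ 2 := pow_le_pow_left₀ (norm_nonneg _) h4 2
    have h6 : (‖u‖ + ‖v‖) ^ 2 ≤ 2 * (‖u‖ ^ 2 + ‖v‖ ^ 2) := by nlinarith [sq_nonneg (‖u‖ - ‖v‖)]
    have h7 : ‖u‖ ^ 2 ≤ (R * ‖D' x‖) ^ 2 := pow_le_pow_left₀ (norm_nonneg _) h1 2
    have h8 : ‖v‖ ^ 2 ≤ (R * ‖D x‖) ^ 2 := pow_le_pow_left₀ (norm_nonneg _) h2 2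
    nlinarith
  have h9 : inner ℝ x (u + v) = ‖D' x‖ ^ 2 + ‖D x‖ ^ 2 := by
    rw [real_inner_comm, hu, hv, hD', le_inner, real_inner_self_eq_norm_sq,
      real_inner_self_eq_norm_sq]
  have h10 : ‖opT D L x‖ ^ 2 ≤ ‖x‖ ^ 2 := by
    rw [opT_apply, ← hD', ← hu, ← hv, norm_sub_sq_real, inner_smul_right, h9, norm_smul, mul_pow,
      Real.norm_eq_abs, sq_abs]
    have h11 : 0 ≤ ‖D' x‖ ^ 2 + ‖D x‖ ^ 2 := by positivity
    have h12 : L⁻¹ ^ 2 * ‖u + v‖ ^ 2 ≤ L⁻¹ ^ 2 * (2 * R ^ 2 * (‖D' x‖ ^ 2 + ‖D x‖ ^ 2)) :=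
      mul_le_mul_of_nonneg_left h3 (by positivity)
    have h13 : L⁻¹ ^ 2 * (2 * R ^ 2 * (‖D' x‖ ^ 2 + ‖D x‖ ^ 2)) ≤
        2 * (L⁻¹ * (‖D' x‖ ^ 2 + ‖D x‖ ^ 2)) := by
      have h14 : L⁻¹ * R ^ 2 ≤ 1 := by
        rw [inv_mul_le_iff₀ hL, mul_one]
        exact hRL
      have h15 : 0 ≤ L⁻¹ * (‖D' x‖ ^ 2 + ‖D x‖ ^ 2) := by positivity
      calc L⁻¹ ^ 2 * (2 * R ^ 2 * (‖D' x‖ ^ 2 + ‖D x‖ ^ 2))
          = 2 * (L⁻¹ * R ^ 2) * (L⁻¹ * (‖D' x‖ ^ 2 + ‖D x‖ ^ 2)) := by ring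
        _ ≤ 2 * 1 * (L⁻¹ * (‖D' x‖ ^ 2 + ‖D x‖ ^ 2)) := by
            refine mul_le_mul_of_nonneg_right ?_ h15
            linarith
        _ = _ := by ring
    linarith
  exact le_of_sq_le_sq h10 (norm_nonneg _)

theorem le_opNorm (D : E →L[ℝ] E) (L R : ℝ) (hD : ‖D‖ ≤ R) (hL : 0 < L)
    (hRL : R ^ 2 ≤ L) : ‖opT D L‖ ≤ 1 :=
  ContinuousLinearMap.opNorm_le_bound _ zero_le_one fun x => by
    rw [one_mul]
    exact le_norm D L R hD hL hRL x

theorem le_symm_pow (D : E →L[ℝ] E) (L : ℝ) (m : ℕ) (x y : E) :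
    inner ℝ ((opT D L ^ m) x) y = inner ℝ x ((opT D L ^ m) y) := by
  induction m generalizing x y with
  | zero => rfl
  | succ m ih =>
    have h1 : (opT D L ^ (m + 1)) x = (opT D L ^ m) (opT D L x) := by rw [pow_succ]; rfl
    have h2 : (opT D L ^ (m + 1)) y = opT D L ((opT D L ^ m) y) := by rw [pow_succ']; rfl
    rw [h1, h2, ih, le_symm]

/-- `T x = x` iff `D x = 0` and `D* x = 0`. -/
theorem le_fix (D : E →L[ℝ] E) (L : ℝ) (hL : 0 < L) (x : E) :
    opT D L x = x ↔ D x = 0 ∧ ContinuousLinearMap.adjoint D x = 0 := by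
  constructor
  · intro h
    rw [opT_apply, sub_eq_self, smul_eq_zero] at h
    rcases h with h | h
    · exact absurd h (inv_ne_zero hL.ne')
    · have h1 := le_inner D x x
      rw [h, inner_zero_left, real_inner_self_eq_norm_sq, real_inner_self_eq_norm_sq] at h1
      have h2 : ‖D x‖ ^ 2 = 0 := by
        have := sq_nonneg ‖D x‖
        have := sq_nonneg ‖ContinuousLinearMap.adjoint D x‖
        linarith
      have h3 : ‖ContinuousLinearMap.adjoint D x‖ ^ 2 = 0 := by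
        have := sq_nonneg ‖D x‖
        have := sq_nonneg ‖ContinuousLinearMap.adjoint D x‖
        linarith
      exact ⟨norm_eq_zero.mp (pow_eq_zero_iff (two_ne_zero) |>.mp h2),
        norm_eq_zero.mp (pow_eq_zero_iff (two_ne_zero) |>.mp h3)⟩
  · rintro ⟨h1, h2⟩
    rw [opT_apply, h1, h2, map_zero, map_zero, add_zero, smul_zero, sub_zero]

/-- Projection of the powers. -/
theorem le_proj (D : E →L[ℝ] E) (L : ℝ) (K : Submodule ℝ E) [K.HasOrthogonalProjection]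
    (hK : ∀ x ∈ K, opT D L x = x) (m : ℕ) (x : E) :
    K.starProjection ((opT D L ^ m) x) = K.starProjection x := by
  have h1 : ∀ k ∈ K, ∀ m : ℕ, (opT D L ^ m) k = k := by
    intro k hk m
    induction m with
    | zero => rfl
    | succ m ih =>
      have h2 : (opT D L ^ (m + 1)) k = (opT D L ^ m) (opT D L k) := by rw [pow_succ]; rfl
      rw [h2, hK k hk, ih]
  rw [← sub_eq_zero, ← map_sub, Submodule.starProjection_apply_eq_zero_iff]
  rw [Submodule.mem_orthogonal]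
  intro k hk
  rw [inner_sub_right, ← le_symm_pow, h1 k hk m, sub_self]

omit [CompleteSpace E] in
theorem le_self (K : Submodule ℝ E) [K.HasOrthogonalProjection] (x : E) :
    inner ℝ (K.starProjection x) x = ‖K.starProjection x‖ ^ 2 := by
  have h := K.starProjection_inner_eq_zero x (K.starProjection x) (K.starProjection_apply_mem x)
  rw [inner_sub_left, sub_eq_zero, real_inner_self_eq_norm_sq] at h
  rw [real_inner_comm]
  exact h

theorem le_le (D : E →L[ℝ] E) (L : ℝ)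
    (K : Submodule ℝ E) [K.HasOrthogonalProjection] (hK : ∀ x ∈ K, opT D L x = x) (m : ℕ)
    (x : E) : inner ℝ (K.starProjection x) x ≤ inner ℝ ((opT D L ^ (2 * m)) x) x := by
  have h1 : (opT D L ^ (2 * m)) x = (opT D L ^ m) ((opT D L ^ m) x) := by
    rw [two_mul, pow_add]; rfl
  rw [h1, le_symm_pow, real_inner_self_eq_norm_sq]
  rw [le_self K x, ← le_proj D L K hK m x]
  exact pow_le_pow_left₀ (norm_nonneg _) (Submodule.norm_starProjection_apply_le K _) 2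

omit [CompleteSpace E] in
theorem le_iter (T : E →L[ℝ] E) (j : ℕ) (x : E) : T^[j] x = (T ^ j) x := by
  induction j with
  | zero => rfl
  | succ j ih =>
    rw [Function.iterate_succ_apply', ih, pow_succ']
    rfl

/-- The mean ergodic theorem. -/
theorem le_lim (D : E →L[ℝ] E) (L R : ℝ) (hD : ‖D‖ ≤ R) (hL : 0 < L) (hRL : R ^ 2 ≤ L)
    (K : Submodule ℝ E) [K.HasOrthogonalProjection] (hK : ∀ x, x ∈ K ↔ opT D L x = x) (x : E) :
    Tendsto (fun N : ℕ => (N : ℝ)⁻¹ * ∑ j ∈ Finset.range N, inner ℝ ((opT D L ^ j) x) x) atTop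
      (𝓝 (inner ℝ (K.starProjection x) x)) := by
  have h1 := ContinuousLinearMap.tendsto_birkhoffAverage_orthogonalProjection (opT D L)
    (le_opNorm D L R hD hL hRL) x
  have hKe : K = (opT D L).eqLocus (1 : E →L[ℝ] E) := by
    ext y
    rw [hK]
    rfl
  have h2 : K.starProjection x =
      ((opT D L).eqLocus (1 : E →L[ℝ] E)).orthogonalProjectionOnto x := by
    subst hKe
    rfl
  rw [h2]
  have h3 := (h1.inner (tendsto_const_nhds (x := x) (f := atTop) : Tendsto (fun _ : ℕ => x) _ _)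
    (𝕜 := ℝ))
  refine h3.congr fun N => ?_
  unfold birkhoffAverage birkhoffSum
  rw [inner_smul_left, sum_inner]
  simp only [RCLike.conj_to_real, id_eq]
  congr 1
  refine Finset.sum_congr rfl fun j _ => ?_
  rw [le_iter]

end SingerVS
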