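import Mathlib

/-!
# Block L: `ℓ²`-Betti numbers of a free cofinite cell complex (definitions)

A cell structure on the type `C` of cells consists of the dimensions and of the incidence numbers
`inc p q = [q : p]` (the coefficient of `p` in the boundary of `q`).
-/

namespace SingerVS

/-- Cells with dimensions and incidence numbers: `inc p q` is the coefficient of `p` in the
boundary of `q`. -/
structure CellCx (C : Type) where
  /-- the dimension of a cell -/
  dim : C → ℕ
  /-- the incidence number `[q : p]` -/
  inc : C → C → ℤ

/-- The Hilbert space of the square-summable real chains (of all dimensions). -/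
abbrev L2 (C : Type) : Type := lp (fun _ : C => ℝ) 2

/-- `z` is the boundary of a cell. -/
def IsBd {C : Type} (I : CellCx C) (z : L2 C) : Prop := ∃ q, ∀ p, z p = (I.inc p q : ℝ)

/-- `z` is the coboundary of a cell. -/
def IsCobd {C : Type} (I : CellCx C) (z : L2 C) : Prop := ∃ p, ∀ q, z q = (I.inc p q : ℝ)

/-- The space of the harmonic square-summable chains: the chains orthogonal to the boundaries and
to the coboundaries of all cells, that is the `c` with `∂ c = 0` and `∂* c = 0`. It is isomorphic
to the reduced `ℓ²`-homology. -/
noncomputable def harm {C : Type} (I : CellCx C) : Submodule ℝ (L2 C) :=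
  (Submodule.span ℝ {z | IsBd I z ∨ IsCobd I z})ᗮ

instance instProjHarm {C : Type} (I : CellCx C) : (harm I).HasOrthogonalProjection := by
  unfold harm
  infer_instance

open scoped Classical in
/-- The unit chain of a cell. -/
noncomputable def delta {C : Type} (c : C) : L2 C := lp.single 2 c (1 : ℝ)

/-- The local dimension `⟨P δ_c, δ_c⟩` at the cell `c`, where `P` is the orthogonal projection on
the space of the harmonic chains. -/
noncomputable def locDim {C : Type} (I : CellCx C) (c : C) : ℝ :=
  inner ℝ ((harm I).starProjection (delta c)) (delta c)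

open scoped Classical in
/-- The `k`-th `ℓ²`-Betti number: the sum over the orbits of `k`-cells `c` of `⟨P δ_c, δ_c⟩`. -/
noncomputable def l2Betti {C : Type} (H : Type) [Group H] [MulAction H C] (I : CellCx C)
    (k : ℕ) : ℝ :=
  ∑ᶠ o : MulAction.orbitRel.Quotient H C, if I.dim o.out = k then locDim I o.out else 0

/-- The Euler characteristic of the quotient: the alternating number of orbits of cells. -/
noncomputable def chi {C : Type} (H : Type) [Group H] [MulAction H C] (I : CellCx C) : ℤ :=
  ∑ᶠ o : MulAction.orbitRel.Quotient H C, (-1 : ℤ) ^ I.dim o.out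

/-- `H` acts freely on the cell complex `I`, with finitely many orbits. -/
structure FreeCell {C : Type} (H : Type) [Group H] [MulAction H C] (I : CellCx C) : Prop where
  dim_smul : ∀ (h : H) c, I.dim (h • c) = I.dim c
  inc_smul : ∀ (h : H) p q, I.inc (h • p) (h • q) = I.inc p q
  inc_dim : ∀ p q, I.inc p q ≠ 0 → I.dim q = I.dim p + 1
  abs_inc : ∀ p q, |I.inc p q| ≤ 1
  faces : ∀ q, {p | I.inc p q ≠ 0}.Finite
  cofaces : ∀ p, {q | I.inc p q ≠ 0}.Finite
  sq : ∀ p r, ∑ᶠ q, I.inc p q * I.inc q r = 0
  free : ∀ (h : H) (c : C), h • c = c → h = 1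
  cofin : Finite (MulAction.orbitRel.Quotient H C)

/-! ## The boundary matrices over the group ring -/

/-- The type of the orbits of cells. -/
abbrev Orb (H C : Type) [Group H] [MulAction H C] : Type := MulAction.orbitRel.Quotient H C

/-- The orbits of cells of dimension `k`. The chosen representative of `o : Ob H I k` is
`o.1.out`. -/
abbrev Ob (H : Type) {C : Type} [Group H] [MulAction H C] (I : CellCx C) (k : ℕ) : Type :=
  {o : Orb H C // I.dim o.out = k}

/-- The boundary matrix over the group ring: the `(o, o')` entry is `∑_h [h o' : o] h` (for the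
chosen representatives of the orbits). -/
noncomputable def incM (R H : Type) [CommRing R] {C : Type} [Group H] [MulAction H C]
    (I : CellCx C) : Matrix (Orb H C) (Orb H C) (MonoidAlgebra R H) :=
  fun o o' => ∑ᶠ h : H, MonoidAlgebra.single h ((I.inc o.out (h • o'.out) : ℤ) : R)

/-- The block of the boundary matrix in dimensions `j`, `k`. -/
noncomputable def dm (R H : Type) [CommRing R] {C : Type} [Group H] [MulAction H C]
    (I : CellCx C) (j k : ℕ) : Matrix (Ob H I j) (Ob H I k) (MonoidAlgebra R H) :=
  (incM R H I).submatrix Subtype.val Subtype.val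

/-- The regular representation of a matrix over `R[H]` on a quotient `Q` of `H`. -/
noncomputable def rgM {R : Type} [CommRing R] {H Q : Type} [Group H] [Group Q] (f : H →* Q)
    {a b : Type} (B : Matrix a b (MonoidAlgebra R H)) : Matrix (a × Q) (b × Q) R :=
  fun x y => (MonoidAlgebra.mapDomain f (B x.1 y.1)).coeff (x.2⁻¹ * y.2)

/-- The boundary matrices modulo 2 of the finite covering belonging to `f : H → Q`. -/
noncomputable def dQ {H C : Type} [Group H] [MulAction H C] (I : CellCx C) {Q : Type} [Group Q]
    (f : H →* Q) (j k : ℕ) : Matrix (Ob H I j × Q) (Ob H I k × Q) (ZMod 2) :=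
  rgM f (dm (ZMod 2) H I j k)

/-- `H` has small `F₂`-homology gradient in degree `k`: for every finite set `S` of elements and
every `ε > 0` there is a homomorphism `f` to a finite group `Q`, non-trivial on the non-trivial
elements of `S`, such that the `k`-th `F₂`-Betti number of the covering belonging to `f` is at most
`ε |Q|`. -/
def SmallH (H : Type) {C : Type} [Group H] [MulAction H C] (I : CellCx C) (k : ℕ) : Prop :=
  ∀ (_ : Fintype (Orb H C)) (S : Finset H) (ε : ℝ), 0 < ε →
    ∃ (Q : Type) (_ : Group Q) (_ : Fintype Q) (f : H →* Q), (∀ h ∈ S, h ≠ 1 → f h ≠ 1) ∧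
      ((Fintype.card (Ob H I k) : ℝ) - ε) * Fintype.card Q ≤
        (dQ I f (k - 1) k).rank + (dQ I f k (k + 1)).rank

end SingerVS
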