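import Mathlib
import Pool.Agent.Lib_MP_394d50_vs.LDefs

/-!
# Block L: matrices over group rings and their regular representations
-/

namespace SingerVS

open MonoidAlgebra

section Reg

variable {R : Type} [CommRing R] {H Q : Type} [Group H] [Group Q]

theorem la_coeff_single_mul (a : Q) (r : R) (y : MonoidAlgebra R Q) (g : Q) :
    (single a r * y).coeff g = r * y.coeff (a⁻¹ * g) := coeff_single_mul_apply y r a g

/-- Convolution over a finite group. -/
theorem la_coeff_mul [Fintype Q] (x y : MonoidAlgebra R Q) (g : Q) :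
    (x * y).coeff g = ∑ a : Q, x.coeff a * y.coeff (a⁻¹ * g) := by
  classical
  induction x using MonoidAlgebra.induction_linear with
  | zero => simp
  | add x x' hx hx' =>
    rw [add_mul, coeff_add, Finsupp.add_apply, hx, hx', ← Finset.sum_add_distrib]
    refine Finset.sum_congr rfl fun a _ => ?_
    rw [coeff_add, Finsupp.add_apply]
    ring
  | single m r =>
    rw [la_coeff_single_mul, Finset.sum_eq_single m]
    · rw [coeff_single, Finsupp.single_eq_same]
    · intro a _ ha
      rw [coeff_single, Finsupp.single_eq_of_ne ha, zero_mul]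
    · intro h
      exact absurd (Finset.mem_univ _) h

/-- The regular representation of `R[H]` on the finite quotient `Q`. -/
noncomputable def regH [Fintype Q] [DecidableEq Q] (f : H →* Q) :
    MonoidAlgebra R H →+* Matrix Q Q R where
  toFun x := fun q q' => (mapDomain f x).coeff (q⁻¹ * q')
  map_zero' := by
    ext q q'
    rw [mapDomain_zero]
    rfl
  map_add' x y := by
    ext q q'
    rw [mapDomain_add]
    rfl
  map_one' := by
    ext q q'
    rw [mapDomain_one, one_def, coeff_single, Finsupp.single_apply, Matrix.one_apply]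
    by_cases h : q = q'
    · rw [if_pos h, if_pos]
      rw [h, inv_mul_cancel]
    · rw [if_neg h, if_neg]
      intro h'
      exact h (inv_mul_eq_one.mp h'.symm)
  map_mul' x y := by
    ext q q'
    rw [mapDomain_mul, la_coeff_mul, Matrix.mul_apply]
    refine Fintype.sum_equiv (Equiv.mulLeft q) _ _ fun a => ?_
    show (mapDomain f x).coeff a * (mapDomain f y).coeff (a⁻¹ * (q⁻¹ * q')) =
      (mapDomain f x).coeff (q⁻¹ * (q * a)) * (mapDomain f y).coeff ((q * a)⁻¹ * q')
    rw [inv_mul_cancel_left, mul_inv_rev, mul_assoc]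

theorem regH_apply [Fintype Q] [DecidableEq Q] (f : H →* Q) (x : MonoidAlgebra R H) (q q' : Q) :
    regH f x q q' = (mapDomain f x).coeff (q⁻¹ * q') := rfl

theorem rgM_apply [Fintype Q] [DecidableEq Q] (f : H →* Q) {a b : Type}
    (B : Matrix a b (MonoidAlgebra R H)) (x : a × Q) (y : b × Q) :
    rgM f B x y = regH f (B x.1 y.1) x.2 y.2 := rfl

theorem rgM_add (f : H →* Q) {a b : Type} (A B : Matrix a b (MonoidAlgebra R H)) :
    rgM f (A + B) = rgM f A + rgM f B := by
  ext x y
  unfold rgM
  rw [Matrix.add_apply, Matrix.add_apply, mapDomain_add]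
  rfl

theorem rgM_zero (f : H →* Q) {a b : Type} :
    rgM f (0 : Matrix a b (MonoidAlgebra R H)) = 0 := by
  ext x y
  unfold rgM
  rw [Matrix.zero_apply, Matrix.zero_apply, mapDomain_zero]
  rfl

theorem rgM_mul [Fintype Q] (f : H →* Q) {a b c : Type} [Fintype b]
    (A : Matrix a b (MonoidAlgebra R H)) (B : Matrix b c (MonoidAlgebra R H)) :
    rgM f (A * B) = rgM f A * rgM f B := by
  classical
  ext x y
  rw [rgM_apply, Matrix.mul_apply, map_sum, Matrix.mul_apply, Fintype.sum_prod_type,
    Matrix.sum_apply]
  refine Finset.sum_congr rfl fun j _ => ?_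
  rw [map_mul, Matrix.mul_apply]
  rfl

theorem rgM_one (f : H →* Q) {a : Type} [DecidableEq a] [DecidableEq Q] [Fintype Q] :
    rgM f (1 : Matrix a a (MonoidAlgebra R H)) = 1 := by
  ext x y
  rw [rgM_apply, Matrix.one_apply, Matrix.one_apply]
  by_cases h : x.1 = y.1
  · rw [if_pos h, map_one, Matrix.one_apply]
    by_cases h2 : x.2 = y.2
    · rw [if_pos h2, if_pos (Prod.ext h h2)]
    · rw [if_neg h2, if_neg (fun h' => h2 (by rw [h']))]
  · rw [if_neg h, map_zero, if_neg (fun h' => h (by rw [h']))]
    rfl

theorem rgM_smul (f : H →* Q) {a b : Type} (r : R) (A : Matrix a b (MonoidAlgebra R H)) :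
    rgM f (r • A) = r • rgM f A := by
  ext x y
  unfold rgM
  rw [Matrix.smul_apply, Matrix.smul_apply]
  show (Finsupp.mapDomain f (r • (A x.1 y.1).coeff)) _ = r • (Finsupp.mapDomain f (A x.1 y.1).coeff) _
  rw [Finsupp.mapDomain_smul]
  rfl

theorem rgM_pow (f : H →* Q) {a : Type} [Fintype a] [DecidableEq a] [Fintype Q] [DecidableEq Q]
    (A : Matrix a a (MonoidAlgebra R H)) (n : ℕ) : rgM f (A ^ n) = rgM f A ^ n := by
  induction n with
  | zero => rw [pow_zero, pow_zero, rgM_one]
  | succ n ih => rw [pow_succ, pow_succ, rgM_mul, ih]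

theorem rgM_sub (f : H →* Q) {a b : Type} (A B : Matrix a b (MonoidAlgebra R H)) :
    rgM f (A - B) = rgM f A - rgM f B := by
  have h := rgM_add f (A - B) B
  rw [sub_add_cancel] at h
  rw [h, add_sub_cancel_right]

/-- The trace of the regular representation. -/
theorem trace_rgM (f : H →* Q) {a : Type} [Fintype a] [Fintype Q]
    (A : Matrix a a (MonoidAlgebra R H)) :
    Matrix.trace (rgM f A) = Fintype.card Q * ∑ i, (mapDomain f (A i i)).coeff 1 := by
  unfold Matrix.trace
  rw [Fintype.sum_prod_type, Finset.mul_sum]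
  refine Finset.sum_congr rfl fun i _ => ?_
  have h : ∀ q : Q, (rgM f A).diag (i, q) = (mapDomain f (A i i)).coeff 1 := by
    intro q
    rw [Matrix.diag_apply]
    show (mapDomain f (A i i)).coeff (q⁻¹ * q) = _
    rw [inv_mul_cancel]
  rw [Finset.sum_congr rfl fun q _ => h q, Finset.sum_const, Finset.card_univ, nsmul_eq_mul]

/-- When `f` does not kill the non-trivial elements of the support, the coefficient at `1` is
preserved. -/
theorem coeff_mapDomain_one (f : H →* Q) (x : MonoidAlgebra R H)
    (h : ∀ g ∈ x.coeff.support, g ≠ 1 → f g ≠ 1) : (mapDomain f x).coeff 1 = x.coeff 1 := by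
  classical
  show (Finsupp.mapDomain f x.coeff) 1 = x.coeff 1
  unfold Finsupp.mapDomain Finsupp.sum
  rw [Finsupp.finsetSum_apply]
  by_cases h1 : (1 : H) ∈ x.coeff.support
  · rw [Finset.sum_eq_single (1 : H)]
    · show (Finsupp.single (f 1) (x.coeff 1)) 1 = x.coeff 1
      rw [MonoidHom.map_one f, Finsupp.single_eq_same]
    · intro g hg hg1
      exact Finsupp.single_eq_of_ne (h g hg hg1).symm
    · intro h2
      exact absurd h1 h2
  · rw [Finsupp.notMem_support_iff.mp h1]
    refine Finset.sum_eq_zero fun g hg => ?_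
    refine Finsupp.single_eq_of_ne (h g hg ?_).symm
    rintro rfl
    exact h1 hg

end Reg

section Trace

variable {R : Type} [CommRing R] {H : Type} [Group H]

/-- The coefficient at `1` is a trace on the group ring. -/
theorem coeff_one_mul_comm (x y : MonoidAlgebra R H) : (x * y).coeff 1 = (y * x).coeff 1 := by
  induction x using MonoidAlgebra.induction_linear with
  | zero => simp
  | add x x' hx hx' =>
    rw [add_mul, mul_add, coeff_add, coeff_add, Finsupp.add_apply, Finsupp.add_apply, hx, hx']
  | single m r =>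
    rw [coeff_single_mul_apply, coeff_mul_single_apply, mul_one, one_mul, mul_comm]

/-- The trace of a matrix over the group ring. -/
noncomputable def tau {a : Type} [Fintype a] (A : Matrix a a (MonoidAlgebra R H)) : R :=
  ∑ i, (A i i).coeff 1

theorem tau_add {a : Type} [Fintype a] (A B : Matrix a a (MonoidAlgebra R H)) :
    tau (A + B) = tau A + tau B := by
  unfold tau
  rw [← Finset.sum_add_distrib]
  exact Finset.sum_congr rfl fun i _ => rfl

theorem tau_smul {a : Type} [Fintype a] (r : R) (A : Matrix a a (MonoidAlgebra R H)) :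
    tau (r • A) = r * tau A := by
  unfold tau
  rw [Finset.mul_sum]
  exact Finset.sum_congr rfl fun i _ => rfl

theorem tau_mul_comm {a b : Type} [Fintype a] [Fintype b] (A : Matrix a b (MonoidAlgebra R H))
    (B : Matrix b a (MonoidAlgebra R H)) : tau (A * B) = tau (B * A) := by
  unfold tau
  have h1 : ∀ i, ((A * B) i i).coeff 1 = ∑ j, (A i j * B j i).coeff 1 := by
    intro i
    rw [Matrix.mul_apply, coeff_sum, Finsupp.finsetSum_apply]
  have h2 : ∀ j, ((B * A) j j).coeff 1 = ∑ i, (B j i * A i j).coeff 1 := by
    intro j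
    rw [Matrix.mul_apply, coeff_sum, Finsupp.finsetSum_apply]
  simp_rw [h1, h2]
  rw [Finset.sum_comm]
  refine Finset.sum_congr rfl fun j _ => Finset.sum_congr rfl fun i _ => ?_
  exact coeff_one_mul_comm _ _

end Trace

section Block

/-- Powers of a block diagonal matrix. -/
theorem pow_block {a S : Type} [Fintype a] [DecidableEq a] [Ring S] (p : a → Prop)
    [Fintype {i // p i}] [DecidableEq {i // p i}] (A : Matrix a a S)
    (h : ∀ i j, p i → ¬ p j → A i j = 0) (n : ℕ) :
    (A ^ n).submatrix (Subtype.val : {i // p i} → a) (Subtype.val : {i // p i} → a) =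
      (A.submatrix (Subtype.val : {i // p i} → a) (Subtype.val : {i // p i} → a)) ^ n := by
  classical
  have hn : ∀ n : ℕ, ∀ i j, p i → ¬ p j → (A ^ n) i j = 0 := by
    intro n
    induction n with
    | zero =>
      intro i j hi hj
      rw [pow_zero, Matrix.one_apply_ne]
      rintro rfl
      exact hj hi
    | succ n ih =>
      intro i j hi hj
      rw [pow_succ, Matrix.mul_apply]
      refine Finset.sum_eq_zero fun k _ => ?_
      by_cases hk : p k
      · rw [h k j hk hj, mul_zero]
      · rw [ih i k hi hk, zero_mul]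
  induction n with
  | zero =>
    ext i j
    rw [pow_zero, pow_zero, Matrix.submatrix_apply, Matrix.one_apply, Matrix.one_apply]
    simp only [Subtype.ext_iff]
  | succ n ih =>
    rw [pow_succ, pow_succ, ← ih]
    ext i j
    rw [Matrix.submatrix_apply, Matrix.mul_apply, Matrix.mul_apply]
    symm
    refine Fintype.sum_of_injective (Subtype.val : {i // p i} → a) Subtype.val_injective _ _ ?_ ?_
    · intro k hk
      have hk' : ¬ p k := fun h' => hk ⟨⟨k, h'⟩, rfl⟩
      rw [hn n i.1 k i.2 hk', zero_mul]
    · intro k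
      rfl

end Block

end SingerVS
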