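import Mathlib
import Pool.Agent.Lib_MP_394d50_vs.LDefs
import Pool.Agent.Lib_MP_394d50_vs.LAlg
import Pool.Agent.Lib_MP_394d50_gt.BOp

/-!
# Block L: the boundary matrices over the group ring and the boundary operator
-/

namespace SingerVS

open MonoidAlgebra

section Orbits

variable {H C : Type} [Group H] [MulAction H C]

theorem exists_rep (c : C) : ∃ (h : H) (o : Orb H C), c = h • o.out := by
  have h1 : (MulAction.orbitRel H C).r c (Quotient.out (Quotient.mk (MulAction.orbitRel H C) c)) :=
    Quotient.exact (Quotient.out_eq (Quotient.mk (MulAction.orbitRel H C) c)).symm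
  have h2 : c ∈ MulAction.orbit H (Quotient.out (Quotient.mk (MulAction.orbitRel H C) c)) := h1
  obtain ⟨h, hh⟩ := h2
  exact ⟨h, Quotient.mk (MulAction.orbitRel H C) c, hh.symm⟩

theorem rep_inj (free : ∀ (h : H) (c : C), h • c = c → h = 1) {h h' : H} {o o' : Orb H C}
    (e : h • o.out = h' • o'.out) : h = h' ∧ o = o' := by
  have ho : o = o' := by
    have h1 : (MulAction.orbitRel H C).r o.out o'.out := by
      show o.out ∈ MulAction.orbit H o'.out
      refine ⟨h⁻¹ * h', ?_⟩
      show (h⁻¹ * h') • o'.out = o.out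
      rw [mul_smul, ← e, inv_smul_smul]
    have h2 := Quotient.sound (s := MulAction.orbitRel H C) h1
    rw [Quotient.out_eq, Quotient.out_eq] at h2
    exact h2
  subst ho
  refine ⟨?_, rfl⟩
  have h1 : (h'⁻¹ * h) • o.out = o.out := by rw [mul_smul, e, inv_smul_smul]
  have h2 := free _ _ h1
  rw [inv_mul_eq_one] at h2
  exact h2.symm

end Orbits

section Mat

variable {H C : Type} [Group H] [MulAction H C] {I : CellCx C}

/-- The coboundary matrix over the group ring. -/
noncomputable def incT (R H : Type) [CommRing R] {C : Type} [Group H] [MulAction H C]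
    (I : CellCx C) : Matrix (Orb H C) (Orb H C) (MonoidAlgebra R H) :=
  fun o o' => ∑ᶠ h : H, single h ((I.inc (h • o'.out) o.out : ℤ) : R)

theorem coeff_finsum_single {R : Type} [CommRing R] (g : H → R) (hg : {h | g h ≠ 0}.Finite)
    (x : H) : (∑ᶠ h : H, single h (g h) : MonoidAlgebra R H).coeff x = g x := by
  classical
  rw [finsum_eq_sum_of_support_subset (s := hg.toFinset)]
  · rw [coeff_sum, Finsupp.finsetSum_apply]
    by_cases hx : x ∈ hg.toFinset
    · rw [Finset.sum_eq_single x]
      · rw [coeff_single, Finsupp.single_eq_same]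
      · intro h _ hh
        rw [coeff_single, Finsupp.single_eq_of_ne hh.symm]
      · intro h
        exact absurd hx h
    · have h0 : g x = 0 := by
        by_contra h
        exact hx (hg.mem_toFinset.mpr h)
      rw [h0]
      refine Finset.sum_eq_zero fun h hh => ?_
      rw [coeff_single, Finsupp.single_eq_of_ne]
      rintro rfl
      exact hx hh
  · intro h hh
    rw [Function.mem_support] at hh
    rw [Finset.mem_coe, hg.mem_toFinset]
    intro h0
    apply hh
    rw [h0, single_zero]

theorem finite_inc (hF : FreeCell H I) (o o' : Orb H C) :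
    {h : H | I.inc o.out (h • o'.out) ≠ 0}.Finite := by
  refine Set.Finite.preimage (f := fun h : H => h • o'.out) ?_ (hF.cofaces o.out)
  intro h _ h' _ e
  exact (rep_inj hF.free e).1

theorem finite_incT (hF : FreeCell H I) (o o' : Orb H C) :
    {h : H | I.inc (h • o'.out) o.out ≠ 0}.Finite := by
  refine Set.Finite.preimage (f := fun h : H => h • o'.out) ?_ (hF.faces o.out)
  intro h _ h' _ e
  exact (rep_inj hF.free e).1

theorem coeff_incM {R : Type} [CommRing R] (hF : FreeCell H I) (o o' : Orb H C) (h : H) :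
    (incM R H I o o').coeff h = ((I.inc o.out (h • o'.out) : ℤ) : R) := by
  refine coeff_finsum_single (fun h : H => ((I.inc o.out (h • o'.out) : ℤ) : R)) ?_ h
  refine (finite_inc hF o o').subset fun h hh => ?_
  intro h0
  apply hh
  show ((I.inc o.out (h • o'.out) : ℤ) : R) = 0
  rw [h0, Int.cast_zero]

theorem coeff_incT {R : Type} [CommRing R] (hF : FreeCell H I) (o o' : Orb H C) (h : H) :
    (incT R H I o o').coeff h = ((I.inc (h • o'.out) o.out : ℤ) : R) := by
  refine coeff_finsum_single (fun h : H => ((I.inc (h • o'.out) o.out : ℤ) : R)) ?_ h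
  refine (finite_incT hF o o').subset fun h hh => ?_
  intro h0
  apply hh
  show ((I.inc (h • o'.out) o.out : ℤ) : R) = 0
  rw [h0, Int.cast_zero]

theorem incM_eq_zero {R : Type} [CommRing R] (hF : FreeCell H I) (o o' : Orb H C)
    (h : I.dim o'.out ≠ I.dim o.out + 1) : incM R H I o o' = 0 := by
  ext x
  rw [coeff_incM hF]
  by_contra h0
  have h1 : I.inc o.out (x • o'.out) ≠ 0 := by
    intro h1
    apply h0
    rw [h1, Int.cast_zero]
    rfl
  have h2 := hF.inc_dim _ _ h1
  rw [hF.dim_smul] at h2
  exact h h2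

theorem incT_eq_zero {R : Type} [CommRing R] (hF : FreeCell H I) (o o' : Orb H C)
    (h : I.dim o.out ≠ I.dim o'.out + 1) : incT R H I o o' = 0 := by
  ext x
  rw [coeff_incT hF]
  by_contra h0
  have h1 : I.inc (x • o'.out) o.out ≠ 0 := by
    intro h1
    apply h0
    rw [h1, Int.cast_zero]
    rfl
  have h2 := hF.inc_dim _ _ h1
  rw [hF.dim_smul] at h2
  exact h h2

/-- `incT` is the adjoint of `incM`. -/
theorem incT_coeff_inv {R : Type} [CommRing R] (hF : FreeCell H I) (o o' : Orb H C) (h : H) :
    (incT R H I o o').coeff h = (incM R H I o' o).coeff h⁻¹ := by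
  rw [coeff_incT hF, coeff_incM hF, ← hF.inc_smul h⁻¹, inv_smul_smul]

theorem map_incM {R S : Type} [CommRing R] [CommRing S] (φ : R →+* S) (hF : FreeCell H I) :
    (incM R H I).map (mapRingHom H φ) = incM S H I := by
  ext o o' x
  rw [Matrix.map_apply, coeff_mapRingHom, coeff_incM hF, coeff_incM hF, map_intCast]

theorem map_incT {R S : Type} [CommRing R] [CommRing S] (φ : R →+* S) (hF : FreeCell H I) :
    (incT R H I).map (mapRingHom H φ) = incT S H I := by
  ext o o' x
  rw [Matrix.map_apply, coeff_mapRingHom, coeff_incT hF, coeff_incT hF, map_intCast]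

/-- Uniform bound for the numbers of faces and cofaces. -/
theorem exists_bound (hF : FreeCell H I) :
    ∃ R : ℕ, ∀ c, {q | I.inc c q ≠ 0}.ncard ≤ R ∧ {p | I.inc p c ≠ 0}.ncard ≤ R := by
  classical
  have := hF.cofin
  have hfin : Fintype (Orb H C) := Fintype.ofFinite _
  refine ⟨∑ o : Orb H C, ({q | I.inc o.out q ≠ 0}.ncard + {p | I.inc p o.out ≠ 0}.ncard),
    fun c => ?_⟩
  obtain ⟨h, o, rfl⟩ := exists_rep (H := H) c
  have h1 : ({q | I.inc o.out q ≠ 0}.ncard + {p | I.inc p o.out ≠ 0}.ncard) ≤
      ∑ o : Orb H C, ({q | I.inc o.out q ≠ 0}.ncard + {p | I.inc p o.out ≠ 0}.ncard) :=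
    Finset.single_le_sum (f := fun o : Orb H C =>
      ({q | I.inc o.out q ≠ 0}.ncard + {p | I.inc p o.out ≠ 0}.ncard))
      (fun _ _ => Nat.zero_le _) (Finset.mem_univ o)
  have h2 : {q | I.inc (h • o.out) q ≠ 0}.ncard ≤ {q | I.inc o.out q ≠ 0}.ncard := by
    refine Set.ncard_le_ncard_of_injOn (fun q => h⁻¹ • q) ?_ ?_ (hF.cofaces _)
    · intro q hq
      show I.inc o.out (h⁻¹ • q) ≠ 0
      rw [← hF.inc_smul h, smul_inv_smul]
      exact hq
    · intro a _ b _ e
      exact smul_left_cancel _ e
  have h3 : {p | I.inc p (h • o.out) ≠ 0}.ncard ≤ {p | I.inc p o.out ≠ 0}.ncard := by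
    refine Set.ncard_le_ncard_of_injOn (fun q => h⁻¹ • q) ?_ ?_ (hF.faces _)
    · intro q hq
      show I.inc (h⁻¹ • q) o.out ≠ 0
      rw [← hF.inc_smul h, smul_inv_smul]
      exact hq
    · intro a _ b _ e
      exact smul_left_cancel _ e
  omega

end Mat

section Op

variable {H C : Type} [Group H] [MulAction H C] {I : CellCx C}

theorem l2_ext (f g : L2 C) (h : ∀ c, f c = g c) : f = g := lp.ext (funext h)

theorem delta_inner (c : C) (f : L2 C) : inner ℝ (delta c) f = f c := by
  classical
  unfold delta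
  rw [lp.inner_single_left]
  simp

theorem delta_self (c : C) : (delta c : L2 C) c = 1 := by
  classical
  unfold delta
  rw [lp.single_apply_self]

theorem delta_ne {c p : C} (h : p ≠ c) : (delta c : L2 C) p = 0 := by
  classical
  unfold delta
  rw [lp.single_apply_ne _ _ _ h]

/-- The boundary operator. -/
theorem exists_bdOp (hF : FreeCell H I) : ∃ (D : L2 C →L[ℝ] L2 C) (R : ℕ),
    (∀ p q, (D (delta q)) p = (I.inc p q : ℝ)) ∧ ‖D‖ ≤ R := by
  classical
  obtain ⟨R, hR⟩ := exists_bound hF
  have h1 : ∀ p q : C, (I.inc p q : ℝ) ≠ 0 ↔ I.inc p q ≠ 0 := fun p q => Int.cast_ne_zero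
  obtain ⟨D, hD, hDn⟩ := SingerRA.exists_op (fun p q : C => (I.inc p q : ℝ)) R (by
      intro p q
      have := hF.abs_inc p q
      exact_mod_cast this) (by
      intro p
      simp only [h1]
      exact ⟨hF.cofaces p, (hR p).1⟩) (by
      intro q
      simp only [h1]
      exact ⟨hF.faces q, (hR q).2⟩)
  refine ⟨D, R, ?_, hDn⟩
  intro p q
  rw [hD, finsum_eq_single _ q]
  · rw [delta_self, mul_one]
  · intro q' hq'
    rw [delta_ne hq', mul_zero]

theorem adj_delta (D : L2 C →L[ℝ] L2 C)
    (hD : ∀ p q, (D (delta q)) p = (I.inc p q : ℝ)) (p q : C) :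
    (ContinuousLinearMap.adjoint D (delta p)) q = (I.inc p q : ℝ) := by
  rw [← delta_inner q, ContinuousLinearMap.adjoint_inner_right, real_inner_comm,
    delta_inner, hD]

/-- The chain of a column vector over the group ring. -/
noncomputable def psi (H : Type) {C : Type} [Group H] [MulAction H C] [Fintype (Orb H C)]
    (u : Orb H C → MonoidAlgebra ℝ H) : L2 C :=
  ∑ o : Orb H C, (u o).coeff.sum fun x r => r • delta (x⁻¹ • o.out)

theorem psi_add [Fintype (Orb H C)] (u v : Orb H C → MonoidAlgebra ℝ H) :
    psi H (u + v) = psi H u + psi H v := by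
  classical
  unfold psi
  rw [← Finset.sum_add_distrib]
  refine Finset.sum_congr rfl fun o _ => ?_
  rw [Pi.add_apply, coeff_add, Finsupp.sum_add_index']
  · intro x; rw [zero_smul]
  · intro x r s; rw [add_smul]

theorem psi_zero [Fintype (Orb H C)] : psi H (0 : Orb H C → MonoidAlgebra ℝ H) = 0 := by
  unfold psi
  refine Finset.sum_eq_zero fun o _ => ?_
  rw [Pi.zero_apply, coeff_zero, Finsupp.sum_zero_index]

theorem psi_smul [Fintype (Orb H C)] (r : ℝ) (u : Orb H C → MonoidAlgebra ℝ H) :
    psi H (r • u) = r • psi H u := by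
  classical
  unfold psi
  rw [Finset.smul_sum]
  refine Finset.sum_congr rfl fun o _ => ?_
  rw [Pi.smul_apply, coeff_smul, Finsupp.smul_sum]
  rw [Finsupp.sum_smul_index']
  · refine Finset.sum_congr rfl fun x _ => ?_
    show (r • (u o).coeff x) • _ = r • _
    rw [smul_eq_mul, mul_smul]
  · intro x
    rw [zero_smul]

/-- The coordinates of the chain of a vector. -/
theorem psi_apply [Fintype (Orb H C)] (hF : FreeCell H I) (u : Orb H C → MonoidAlgebra ℝ H)
    (h : H) (o : Orb H C) : (psi H u) (h • o.out) = (u o).coeff h⁻¹ := by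
  classical
  have key : ∀ (o1 : Orb H C) (z : H →₀ ℝ),
      ((z.sum fun x r => r • delta (x⁻¹ • o1.out) : L2 C)) (h • o.out) =
        if o1 = o then z h⁻¹ else 0 := by
    intro o1 z
    induction z using Finsupp.induction_linear with
    | zero =>
      rw [Finsupp.sum_zero_index]
      split_ifs <;> rfl
    | add z z' hz hz' =>
      rw [Finsupp.sum_add_index']
      · show (z.sum fun x r => r • delta (x⁻¹ • o1.out) : L2 C) (h • o.out) +
          (z'.sum fun x r => r • delta (x⁻¹ • o1.out) : L2 C) (h • o.out) = _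
        rw [hz, hz']
        split_ifs
        · rfl
        · rw [add_zero]
      · intro x; rw [zero_smul]
      · intro x r s; rw [add_smul]
    | single x r =>
      rw [Finsupp.sum_single_index (by rw [zero_smul])]
      show r * (delta (x⁻¹ • o1.out) : L2 C) (h • o.out) = _
      by_cases ho : o1 = o
      · subst ho
        rw [if_pos rfl]
        by_cases hx : x = h⁻¹
        · subst hx
          rw [inv_inv, delta_self, mul_one, Finsupp.single_eq_same]
        · rw [delta_ne, mul_zero, Finsupp.single_eq_of_ne (Ne.symm hx)]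
          intro e
          have := (rep_inj hF.free e).1
          exact hx (by rw [this, inv_inv])
      · rw [if_neg ho, delta_ne, mul_zero]
        intro e
        exact ho (rep_inj hF.free e).2.symm
  unfold psi
  have h1 : (∑ o1 : Orb H C, ((u o1).coeff.sum fun x r => r • delta (x⁻¹ • o1.out)) : L2 C)
      (h • o.out) = ∑ o1 : Orb H C,
        ((u o1).coeff.sum fun x r => r • delta (x⁻¹ • o1.out) : L2 C) (h • o.out) := by
    rw [lp.coeFn_sum, Finset.sum_apply]
  rw [h1, Finset.sum_congr rfl fun o1 _ => key o1 (u o1).coeff, Finset.sum_ite_eq' Finset.univ o,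
    if_pos (Finset.mem_univ _)]

end Op

end SingerVS
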