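import Mathlib
import Pool.Agent.Lib_MP_394d50_vs.LMat
import Pool.Agent.Lib_MP_394d50_vs.LErg

/-!
# Block L: the harmonic projection and the powers of `1 - L⁻¹ Δ` over the group ring
-/

namespace SingerVS

open MonoidAlgebra Filter Topology

variable {H C : Type} [Group H] [MulAction H C] {I : CellCx C}

/-- The chain of an element of the group ring, in one orbit. -/
noncomputable def psi1 {H C : Type} [Group H] [MulAction H C] (o1 : Orb H C)
    (z : MonoidAlgebra ℝ H) : L2 C :=
  z.coeff.sum fun x r => r • delta (x⁻¹ • o1.out)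

theorem psi1_add (o1 : Orb H C) (z z' : MonoidAlgebra ℝ H) :
    psi1 o1 (z + z') = psi1 o1 z + psi1 o1 z' := by
  classical
  unfold psi1
  rw [coeff_add, Finsupp.sum_add_index']
  · intro x; rw [zero_smul]
  · intro x r s; rw [add_smul]

theorem psi1_zero (o1 : Orb H C) : psi1 o1 (0 : MonoidAlgebra ℝ H) = 0 := by
  unfold psi1
  rw [coeff_zero, Finsupp.sum_zero_index]

theorem psi1_single (o1 : Orb H C) (x : H) (r : ℝ) :
    psi1 o1 (single x r) = r • delta (x⁻¹ • o1.out) := by
  unfold psi1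
  rw [coeff_single, Finsupp.sum_single_index (by rw [zero_smul])]

theorem psi_eq [Fintype (Orb H C)] (u : Orb H C → MonoidAlgebra ℝ H) :
    psi H u = ∑ o1, psi1 o1 (u o1) := rfl

theorem D_psi1 (hF : FreeCell H I) (D : L2 C →L[ℝ] L2 C)
    (hD : ∀ p q, (D (delta q)) p = (I.inc p q : ℝ)) (o o1 : Orb H C) (h : H)
    (z : MonoidAlgebra ℝ H) :
    (D (psi1 o1 z)) (h • o.out) = (incM ℝ H I o o1 * z).coeff h⁻¹ := by
  induction z using MonoidAlgebra.induction_linear with
  | zero =>
    rw [psi1_zero, map_zero, mul_zero]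
    rfl
  | add z z' hz hz' =>
    rw [psi1_add, map_add, mul_add, coeff_add, Finsupp.add_apply, ← hz, ← hz']
    rfl
  | single x r =>
    rw [psi1_single, map_smul, coeff_mul_single_apply]
    show r * (D (delta (x⁻¹ • o1.out))) (h • o.out) = _
    rw [hD, coeff_incM hF, mul_comm, ← hF.inc_smul h⁻¹, inv_smul_smul, mul_smul]

theorem D'_psi1 (hF : FreeCell H I) (D : L2 C →L[ℝ] L2 C)
    (hD : ∀ p q, (D (delta q)) p = (I.inc p q : ℝ)) (o o1 : Orb H C) (h : H)
    (z : MonoidAlgebra ℝ H) :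
    (ContinuousLinearMap.adjoint D (psi1 o1 z)) (h • o.out) =
      (incT ℝ H I o o1 * z).coeff h⁻¹ := by
  induction z using MonoidAlgebra.induction_linear with
  | zero =>
    rw [psi1_zero, map_zero, mul_zero]
    rfl
  | add z z' hz hz' =>
    rw [psi1_add, map_add, mul_add, coeff_add, Finsupp.add_apply, ← hz, ← hz']
    rfl
  | single x r =>
    rw [psi1_single, map_smul, coeff_mul_single_apply]
    show r * (ContinuousLinearMap.adjoint D (delta (x⁻¹ • o1.out))) (h • o.out) = _
    rw [adj_delta D hD, coeff_incT hF, mul_comm, ← hF.inc_smul h⁻¹, inv_smul_smul, mul_smul]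

theorem l2_sum_apply {ι : Type} (s : Finset ι) (f : ι → L2 C) (c : C) :
    (∑ i ∈ s, f i : L2 C) c = ∑ i ∈ s, f i c := by
  rw [lp.coeFn_sum, Finset.sum_apply]

theorem D_psi [Fintype (Orb H C)] (hF : FreeCell H I) (D : L2 C →L[ℝ] L2 C)
    (hD : ∀ p q, (D (delta q)) p = (I.inc p q : ℝ)) (u : Orb H C → MonoidAlgebra ℝ H) :
    D (psi H u) = psi H ((incM ℝ H I).mulVec u) := by
  apply l2_ext
  intro c
  obtain ⟨h, o, rfl⟩ := exists_rep (H := H) c
  rw [psi_apply hF, psi_eq, map_sum, l2_sum_apply]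
  show _ = (∑ o1, incM ℝ H I o o1 * u o1).coeff h⁻¹
  rw [coeff_sum, Finsupp.finsetSum_apply]
  exact Finset.sum_congr rfl fun o1 _ => D_psi1 hF D hD o o1 h (u o1)

theorem D'_psi [Fintype (Orb H C)] (hF : FreeCell H I) (D : L2 C →L[ℝ] L2 C)
    (hD : ∀ p q, (D (delta q)) p = (I.inc p q : ℝ)) (u : Orb H C → MonoidAlgebra ℝ H) :
    ContinuousLinearMap.adjoint D (psi H u) = psi H ((incT ℝ H I).mulVec u) := by
  apply l2_ext
  intro c
  obtain ⟨h, o, rfl⟩ := exists_rep (H := H) c
  rw [psi_apply hF, psi_eq, map_sum, l2_sum_apply]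
  show _ = (∑ o1, incT ℝ H I o o1 * u o1).coeff h⁻¹
  rw [coeff_sum, Finsupp.finsetSum_apply]
  exact Finset.sum_congr rfl fun o1 _ => D'_psi1 hF D hD o o1 h (u o1)

/-- The Laplacian over the group ring. -/
noncomputable def lapM (R H : Type) [CommRing R] {C : Type} [Group H] [MulAction H C]
    [Fintype (Orb H C)] (I : CellCx C) : Matrix (Orb H C) (Orb H C) (MonoidAlgebra R H) :=
  incM R H I * incT R H I + incT R H I * incM R H I

/-- `1 - L⁻¹ Δ` over the group ring. -/
noncomputable def matT (H : Type) {C : Type} [Group H] [MulAction H C]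
    [Fintype (Orb H C)] [DecidableEq (Orb H C)] (I : CellCx C) (L : ℝ) :
    Matrix (Orb H C) (Orb H C) (MonoidAlgebra ℝ H) :=
  1 - L⁻¹ • lapM ℝ H I

theorem T_psi [Fintype (Orb H C)] [DecidableEq (Orb H C)] (hF : FreeCell H I)
    (D : L2 C →L[ℝ] L2 C) (hD : ∀ p q, (D (delta q)) p = (I.inc p q : ℝ)) (L : ℝ)
    (u : Orb H C → MonoidAlgebra ℝ H) :
    opT D L (psi H u) = psi H ((matT H I L).mulVec u) := by
  have h1 : (matT H I L).mulVec u = u - L⁻¹ • ((incM ℝ H I).mulVec ((incT ℝ H I).mulVec u) +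
      (incT ℝ H I).mulVec ((incM ℝ H I).mulVec u)) := by
    unfold matT lapM
    rw [Matrix.sub_mulVec, Matrix.one_mulVec, Matrix.smul_mulVec, Matrix.add_mulVec,
      Matrix.mulVec_mulVec, Matrix.mulVec_mulVec]
  have h2 : ∀ v w : Orb H C → MonoidAlgebra ℝ H, psi H (v - w) = psi H v - psi H w := by
    intro v w
    have := psi_add (v - w) w
    rw [sub_add_cancel] at this
    rw [this, add_sub_cancel_right]
  rw [opT_apply, h1, h2, psi_smul, psi_add, D'_psi hF D hD, D_psi hF D hD, D_psi hF D hD,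
    D'_psi hF D hD]

theorem T_pow_psi [Fintype (Orb H C)] [DecidableEq (Orb H C)] (hF : FreeCell H I)
    (D : L2 C →L[ℝ] L2 C) (hD : ∀ p q, (D (delta q)) p = (I.inc p q : ℝ)) (L : ℝ) (j : ℕ)
    (u : Orb H C → MonoidAlgebra ℝ H) :
    (opT D L ^ j) (psi H u) = psi H ((matT H I L ^ j).mulVec u) := by
  induction j with
  | zero => rw [pow_zero, pow_zero, Matrix.one_mulVec]; rfl
  | succ j ih =>
    rw [pow_succ', pow_succ', ← Matrix.mulVec_mulVec, ← T_psi hF D hD, ← ih]
    rfl

theorem psi_single [Fintype (Orb H C)] [DecidableEq (Orb H C)] (o : Orb H C) (h : H) :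
    psi H (Pi.single o (single h⁻¹ 1)) = delta (h • o.out) := by
  rw [psi_eq, Finset.sum_eq_single o]
  · rw [Pi.single_eq_same, psi1_single, one_smul, inv_inv]
  · intro o1 _ ho
    rw [Pi.single_eq_of_ne ho, psi1_zero]
  · intro h'
    exact absurd (Finset.mem_univ _) h'

/-- The diagonal coefficients of the powers of `1 - L⁻¹ Δ`. -/
theorem kap_eq [Fintype (Orb H C)] [DecidableEq (Orb H C)] (hF : FreeCell H I)
    (D : L2 C →L[ℝ] L2 C) (hD : ∀ p q, (D (delta q)) p = (I.inc p q : ℝ)) (L : ℝ) (j : ℕ)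
    (o : Orb H C) (h : H) :
    inner ℝ ((opT D L ^ j) (delta (h • o.out))) (delta (h • o.out)) =
      ((matT H I L ^ j) o o).coeff 1 := by
  rw [real_inner_comm, delta_inner, ← psi_single, T_pow_psi hF D hD, psi_apply hF]
  have h1 : ((matT H I L ^ j).mulVec (Pi.single o (single h⁻¹ 1))) o =
      (matT H I L ^ j) o o * single h⁻¹ 1 := by
    show ∑ o1, (matT H I L ^ j) o o1 *
      (Pi.single o (single h⁻¹ 1) : Orb H C → MonoidAlgebra ℝ H) o1 = _
    rw [Finset.sum_eq_single o]
    · rw [Pi.single_eq_same]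
    · intro o1 _ ho
      rw [Pi.single_eq_of_ne ho, mul_zero]
    · intro h'
      exact absurd (Finset.mem_univ _) h'
  rw [h1, coeff_mul_single_apply, mul_one, inv_inv, inv_mul_cancel]

theorem harm_iff (D : L2 C →L[ℝ] L2 C)
    (hD : ∀ p q, (D (delta q)) p = (I.inc p q : ℝ)) (x : L2 C) :
    x ∈ harm I ↔ D x = 0 ∧ ContinuousLinearMap.adjoint D x = 0 := by
  unfold harm
  rw [Submodule.mem_orthogonal]
  constructor
  · intro h
    constructor
    · apply l2_ext
      intro p
      rw [← delta_inner p (D x), ← ContinuousLinearMap.adjoint_inner_left]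
      exact h _ (Submodule.subset_span (Or.inr ⟨p, fun q => adj_delta D hD p q⟩))
    · apply l2_ext
      intro q
      rw [← delta_inner q, ContinuousLinearMap.adjoint_inner_right]
      exact h _ (Submodule.subset_span (Or.inl ⟨q, fun p => hD p q⟩))
  · rintro ⟨h1, h2⟩ u hu
    induction hu using Submodule.span_induction with
    | mem z hz =>
      rcases hz with ⟨q, hq⟩ | ⟨p, hp⟩
      · have hz : z = D (delta q) := l2_ext _ _ fun p => by rw [hq, hD]
        rw [hz, ← ContinuousLinearMap.adjoint_inner_right, h2, inner_zero_right]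
      · have hz : z = ContinuousLinearMap.adjoint D (delta p) :=
          l2_ext _ _ fun q => by rw [hp, adj_delta D hD]
        rw [hz, ContinuousLinearMap.adjoint_inner_left, h1, inner_zero_right]
    | zero => rw [inner_zero_left]
    | add a b _ _ ha hb => rw [inner_add_left, ha, hb, add_zero]
    | smul r a _ ha => rw [inner_smul_left, ha, mul_zero]

theorem locDim_nonneg (c : C) : 0 ≤ locDim I c := by
  unfold locDim
  rw [le_self]
  positivity

theorem harm_le [Fintype (Orb H C)] [DecidableEq (Orb H C)] (hF : FreeCell H I) (L : ℝ)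
    (hL : 0 < L) (o : Orb H C) (h : H) (m : ℕ) :
    locDim I (h • o.out) ≤ ((matT H I L ^ (2 * m)) o o).coeff 1 := by
  obtain ⟨D, R, hD, _⟩ := exists_bdOp hF
  rw [← kap_eq hF D hD L (2 * m) o h]
  exact le_le D L (harm I)
    (fun x hx => (le_fix D L hL x).mpr ((harm_iff D hD x).mp hx)) m (delta (h • o.out))

/-- The mean ergodic theorem for the diagonal coefficients. -/
theorem harm_lim [Fintype (Orb H C)] [DecidableEq (Orb H C)] (hF : FreeCell H I) :
    ∃ L0 : ℝ, ∀ L : ℝ, L0 ≤ L → 0 < L → ∀ (o : Orb H C) (h : H),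
    Tendsto (fun N : ℕ => (N : ℝ)⁻¹ * ∑ j ∈ Finset.range N, ((matT H I L ^ j) o o).coeff 1) atTop
      (𝓝 (locDim I (h • o.out))) := by
  obtain ⟨D, R, hD, hDn⟩ := exists_bdOp hF
  refine ⟨(R : ℝ) ^ 2, fun L hRL hL o h => ?_⟩
  have h1 := le_lim D L R hDn hL hRL (harm I)
    (fun x => (harm_iff D hD x).trans (le_fix D L hL x).symm) (delta (h • o.out))
  simp only [kap_eq hF D hD] at h1
  exact h1

/-- `D D = 0`. -/
theorem D_D (hF : FreeCell H I) (D : L2 C →L[ℝ] L2 C)
    (hD : ∀ p q, (D (delta q)) p = (I.inc p q : ℝ)) (c : C) : D (D (delta c)) = 0 := by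
  classical
  have h0 : D (delta c) = ∑ q ∈ (hF.faces c).toFinset, (I.inc q c : ℝ) • delta q := by
    apply l2_ext
    intro p
    rw [hD, l2_sum_apply]
    by_cases hp : I.inc p c = 0
    · rw [hp, Int.cast_zero]
      symm
      refine Finset.sum_eq_zero fun q hq => ?_
      show (I.inc q c : ℝ) * (delta q : L2 C) p = 0
      rw [delta_ne, mul_zero]
      rintro rfl
      exact ((hF.faces c).mem_toFinset.mp hq) hp
    · rw [Finset.sum_eq_single p]
      · show _ = (I.inc p c : ℝ) * (delta p : L2 C) p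
        rw [delta_self, mul_one]
      · intro q _ hq
        show (I.inc q c : ℝ) * (delta q : L2 C) p = 0
        rw [delta_ne (Ne.symm hq), mul_zero]
      · intro h
        exact absurd ((hF.faces c).mem_toFinset.mpr hp) h
  rw [h0, map_sum]
  apply l2_ext
  intro p
  rw [l2_sum_apply]
  have h1 := hF.sq p c
  rw [finsum_eq_sum_of_support_subset (s := (hF.faces c).toFinset)] at h1
  · have h2 : ∑ q ∈ (hF.faces c).toFinset, ((I.inc p q * I.inc q c : ℤ) : ℝ) = 0 := by
      rw [← Int.cast_sum, h1, Int.cast_zero]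
    show ∑ q ∈ (hF.faces c).toFinset, (D ((I.inc q c : ℝ) • delta q)) p = 0
    rw [← h2]
    refine Finset.sum_congr rfl fun q _ => ?_
    rw [map_smul]
    show (I.inc q c : ℝ) * (D (delta q)) p = _
    rw [hD, Int.cast_mul, mul_comm]
  · intro q hq
    rw [Finset.mem_coe, (hF.faces c).mem_toFinset]
    intro h
    apply hq
    show I.inc p q * I.inc q c = 0
    rw [h, mul_zero]

/-- The boundary matrix has square zero. -/
theorem incM_sq (hF : FreeCell H I) [Fintype (Orb H C)] :
    incM ℝ H I * incM ℝ H I = 0 := by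
  classical
  obtain ⟨D, R, hD, hDn⟩ := exists_bdOp hF
  ext o o' x
  have h1 := D_D hF D hD o'.out
  have h2 : (delta o'.out : L2 C) = psi H (Pi.single o' 1) := by
    have := psi_single (H := H) (C := C) o' 1
    rw [one_smul, inv_one] at this
    exact this.symm
  rw [h2, D_psi hF D hD, D_psi hF D hD, Matrix.mulVec_mulVec] at h1
  have h3 := psi_apply hF ((incM ℝ H I * incM ℝ H I).mulVec (Pi.single o' 1)) x⁻¹ o
  rw [h1, inv_inv] at h3
  have h4 : ((incM ℝ H I * incM ℝ H I).mulVec (Pi.single o' 1)) o =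
      (incM ℝ H I * incM ℝ H I) o o' := by
    show ∑ o1, (incM ℝ H I * incM ℝ H I) o o1 *
      (Pi.single o' 1 : Orb H C → MonoidAlgebra ℝ H) o1 = _
    rw [Finset.sum_eq_single o']
    · rw [Pi.single_eq_same, mul_one]
    · intro o1 _ ho
      rw [Pi.single_eq_of_ne ho, mul_zero]
    · intro h'
      exact absurd (Finset.mem_univ _) h'
  rw [h4] at h3
  rw [← h3]
  rfl

/-- The boundary matrix has square zero (over every ring). -/
theorem incM_sq' {R : Type} [CommRing R] (hF : FreeCell H I) [Fintype (Orb H C)] :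
    incM R H I * incM R H I = 0 := by
  have hZ : incM ℤ H I * incM ℤ H I = 0 := by
    have h1 : (incM ℤ H I * incM ℤ H I).map (mapRingHom H (Int.castRingHom ℝ)) = 0 := by
      rw [Matrix.map_mul, map_incM _ hF, incM_sq hF]
    ext o o' x
    have h2 := congrArg (fun M : Matrix (Orb H C) (Orb H C) (MonoidAlgebra ℝ H) =>
      (M o o').coeff x) h1
    simp only [Matrix.map_apply, coeff_mapRingHom, Matrix.zero_apply] at h2
    have h3 : (((incM ℤ H I * incM ℤ H I) o o').coeff x : ℝ) = 0 := h2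
    exact_mod_cast h3
  have h1 := congrArg (fun M : Matrix (Orb H C) (Orb H C) (MonoidAlgebra ℤ H) =>
    M.map (mapRingHom H (Int.castRingHom R))) hZ
  simp only [Matrix.map_mul, map_incM _ hF] at h1
  rw [h1]
  ext o o' x
  rw [Matrix.map_apply, Matrix.zero_apply, map_zero, Matrix.zero_apply]

end SingerVS
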