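import Mathlib
import Pool.Agent.Lib_MP_394d50_vs.LHarm
import Pool.Agent.Lib_MP_394d50_gt.BSpec
import Pool.Agent.Lib_MP_394d50_gt.BRank

/-!
# Block L: the bound for the traces by the finite quotients
-/

namespace SingerVS

open MonoidAlgebra

section Antipode

variable {R : Type} [CommRing R] {H Q : Type} [Group H] [Group Q]

theorem coeff_mapDomain_inv (x : MonoidAlgebra R H) (h : H) :
    (mapDomain (fun g : H => g⁻¹) x).coeff h = x.coeff h⁻¹ := by
  show (Finsupp.mapDomain (Equiv.inv H) x.coeff) h = _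
  rw [Finsupp.mapDomain_equiv_apply]
  rfl

/-- The transpose of the regular representation. -/
theorem rgM_transpose (f : H →* Q) {a b : Type} (A : Matrix a b (MonoidAlgebra R H))
    (B : Matrix b a (MonoidAlgebra R H))
    (h : ∀ i j g, (B j i).coeff g = (A i j).coeff g⁻¹) : rgM f B = (rgM f A).transpose := by
  ext x y
  rw [Matrix.transpose_apply]
  show (mapDomain f (B x.1 y.1)).coeff (x.2⁻¹ * y.2) = (mapDomain f (A y.1 x.1)).coeff (y.2⁻¹ * x.2)
  have h1 : B x.1 y.1 = mapDomain (fun g : H => g⁻¹) (A y.1 x.1) := by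
    ext g
    rw [coeff_mapDomain_inv, h]
  have h2 : mapDomain f (mapDomain (fun g : H => g⁻¹) (A y.1 x.1)) =
      mapDomain (fun g : Q => g⁻¹) (mapDomain f (A y.1 x.1)) := by
    show MonoidAlgebra.ofCoeff (Finsupp.mapDomain f (Finsupp.mapDomain (fun g : H => g⁻¹)
      (A y.1 x.1).coeff)) = MonoidAlgebra.ofCoeff (Finsupp.mapDomain (fun g : Q => g⁻¹)
      (Finsupp.mapDomain f (A y.1 x.1).coeff))
    rw [← Finsupp.mapDomain_comp, ← Finsupp.mapDomain_comp]
    congr 2
    funext g
    exact map_inv f g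
  rw [h1, h2, coeff_mapDomain_inv, mul_inv_rev, inv_inv]

end Antipode

section Norm

variable {H Q : Type} [Group H] [Group Q]

/-- The `ℓ¹`-norm of an element of the group ring. -/
noncomputable def nrm (x : MonoidAlgebra ℝ H) : ℝ := ∑ h ∈ x.coeff.support, |x.coeff h|

theorem nrm_nonneg (x : MonoidAlgebra ℝ H) : 0 ≤ nrm x :=
  Finset.sum_nonneg fun _ _ => abs_nonneg _

theorem sum_abs_mapDomain [Fintype Q] (f : H →* Q) (x : MonoidAlgebra ℝ H) :
    ∑ g : Q, |(mapDomain f x).coeff g| ≤ nrm x := by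
  classical
  have h1 : ∀ g : Q, (mapDomain f x).coeff g =
      ∑ h ∈ x.coeff.support, if f h = g then x.coeff h else 0 := by
    intro g
    show (Finsupp.mapDomain f x.coeff) g = _
    unfold Finsupp.mapDomain Finsupp.sum
    rw [Finsupp.finsetSum_apply]
    exact Finset.sum_congr rfl fun h _ => Finsupp.single_apply
  calc ∑ g : Q, |(mapDomain f x).coeff g|
      ≤ ∑ g : Q, ∑ h ∈ x.coeff.support, |if f h = g then x.coeff h else 0| := by
        refine Finset.sum_le_sum fun g _ => ?_
        rw [h1]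
        exact Finset.abs_sum_le_sum_abs _ _
    _ = ∑ h ∈ x.coeff.support, ∑ g : Q, |if f h = g then x.coeff h else 0| := Finset.sum_comm
    _ = nrm x := by
        refine Finset.sum_congr rfl fun h _ => ?_
        rw [Finset.sum_eq_single (f h)]
        · rw [if_pos rfl]
        · intro g _ hg
          rw [if_neg (Ne.symm hg), abs_zero]
        · intro h'
          exact absurd (Finset.mem_univ _) h'

/-- The rows of the regular representation. -/
theorem row_rgM [Fintype Q] (f : H →* Q) {a b : Type} [Fintype b]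
    (A : Matrix a b (MonoidAlgebra ℝ H)) (x : a × Q) :
    ∑ y : b × Q, |rgM f A x y| ≤ ∑ j, nrm (A x.1 j) := by
  rw [Fintype.sum_prod_type]
  refine Finset.sum_le_sum fun j _ => ?_
  refine le_trans (le_of_eq ?_) (sum_abs_mapDomain f (A x.1 j))
  exact Fintype.sum_equiv (Equiv.mulLeft x.2⁻¹) _ _ fun q => rfl

open Matrix in
/-- The quadratic form of a symmetric matrix with bounded rows. -/
theorem quad_row {N : Type} [Fintype N] (S : Matrix N N ℝ) (hS : S.transpose = S) (L : ℝ)
    (hL : ∀ i, ∑ j, |S i j| ≤ L) (x : N → ℝ) : x ⬝ᵥ (S *ᵥ x) ≤ L * (x ⬝ᵥ x) := by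
  have h1 : x ⬝ᵥ (S *ᵥ x) = ∑ i, ∑ j, S i j * (x i * x j) := by
    unfold dotProduct Matrix.mulVec dotProduct
    refine Finset.sum_congr rfl fun i _ => ?_
    rw [Finset.mul_sum]
    exact Finset.sum_congr rfl fun j _ => by ring
  have h2 : ∀ i j, S i j * (x i * x j) ≤ |S i j| * x i ^ 2 / 2 + |S j i| * x j ^ 2 / 2 := by
    intro i j
    have e : S j i = S i j := by
      have := congrFun (congrFun hS i) j
      exact this
    rw [e]
    have h3 : S i j * (x i * x j) ≤ |S i j| * |x i * x j| := by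
      rw [← abs_mul]
      exact le_abs_self _
    have h4 : |x i * x j| ≤ (x i ^ 2 + x j ^ 2) / 2 := by
      rw [abs_le]
      constructor
      · nlinarith [sq_nonneg (x i + x j)]
      · nlinarith [sq_nonneg (x i - x j)]
    have h5 : |S i j| * |x i * x j| ≤ |S i j| * ((x i ^ 2 + x j ^ 2) / 2) :=
      mul_le_mul_of_nonneg_left h4 (abs_nonneg _)
    linarith
  have h6 : ∑ i, ∑ j, S i j * (x i * x j) ≤
      ∑ i, ∑ j, (|S i j| * x i ^ 2 / 2 + |S j i| * x j ^ 2 / 2) :=
    Finset.sum_le_sum fun i _ => Finset.sum_le_sum fun j _ => h2 i j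
  have h7 : ∑ i, ∑ j, (|S i j| * x i ^ 2 / 2 + |S j i| * x j ^ 2 / 2) =
      ∑ i, (∑ j, |S i j|) * x i ^ 2 := by
    have e1 : ∑ i, ∑ j, |S j i| * x j ^ 2 / 2 = ∑ i, ∑ j, |S i j| * x i ^ 2 / 2 := by
      rw [Finset.sum_comm]
    simp only [Finset.sum_add_distrib]
    rw [e1, ← Finset.sum_add_distrib]
    refine Finset.sum_congr rfl fun i _ => ?_
    rw [← Finset.sum_add_distrib, Finset.sum_mul]
    refine Finset.sum_congr rfl fun j _ => ?_
    ring
  rw [h1]
  refine h6.trans ?_
  rw [h7]
  have h8 : x ⬝ᵥ x = ∑ i, x i ^ 2 := by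
    unfold dotProduct
    exact Finset.sum_congr rfl fun i _ => by ring
  rw [h8, Finset.mul_sum]
  exact Finset.sum_le_sum fun i _ => mul_le_mul_of_nonneg_right (hL i) (sq_nonneg _)

end Norm

section Block

variable {H C : Type} [Group H] [MulAction H C] {I : CellCx C}

/-- The block of the coboundary matrix in dimensions `k`, `j`. -/
noncomputable def dt (R H : Type) [CommRing R] {C : Type} [Group H] [MulAction H C]
    (I : CellCx C) (k j : ℕ) : Matrix (Ob H I k) (Ob H I j) (MonoidAlgebra R H) :=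
  (incT R H I).submatrix Subtype.val Subtype.val

/-- Sums over the orbits of `k`-cells. -/
theorem sum_Ob [Fintype (Orb H C)] {M : Type} [AddCommMonoid M] (k : ℕ) (g : Orb H C → M)
    (hg : ∀ o, I.dim o.out ≠ k → g o = 0) : ∑ o : Orb H C, g o = ∑ o : Ob H I k, g o.1 := by
  symm
  refine Fintype.sum_of_injective (Subtype.val : Ob H I k → Orb H C) ?_ _ _ ?_ ?_
  · intro a b h
    exact Subtype.ext h
  · intro o ho
    refine hg o fun h => ho ⟨⟨o, h⟩, rfl⟩
  · intro o
    rfl

/-- The Laplacian in dimension `k`. -/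
noncomputable def lapK (R H : Type) [CommRing R] {C : Type} [Group H] [MulAction H C]
    [Fintype (Orb H C)] (I : CellCx C) (k : ℕ) : Matrix (Ob H I k) (Ob H I k) (MonoidAlgebra R H) :=
  dt R H I k (k - 1) * dm R H I (k - 1) k + dm R H I k (k + 1) * dt R H I (k + 1) k

theorem lapM_block {R : Type} [CommRing R] [Fintype (Orb H C)] (hF : FreeCell H I) (k : ℕ) :
    (lapM R H I).submatrix (Subtype.val : Ob H I k → _) (Subtype.val : Ob H I k → _) =
      lapK R H I k := by
  ext1 o o'
  show (incM R H I * incT R H I + incT R H I * incM R H I) o.1 o'.1 = _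
  rw [Matrix.add_apply, Matrix.mul_apply, Matrix.mul_apply, add_comm]
  unfold lapK
  rw [Matrix.add_apply, Matrix.mul_apply, Matrix.mul_apply]
  congr 1
  · refine sum_Ob (k - 1) (fun o1 => incT R H I o.1 o1 * incM R H I o1 o'.1) fun o1 h1 => ?_
    show incT R H I o.1 o1 * incM R H I o1 o'.1 = 0
    rw [incM_eq_zero hF, mul_zero]
    have h2 : I.dim o'.1.out = k := o'.2
    rw [h2]
    intro h3
    apply h1
    omega
  · refine sum_Ob (k + 1) (fun o1 => incM R H I o.1 o1 * incT R H I o1 o'.1) fun o1 h1 => ?_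
    show incM R H I o.1 o1 * incT R H I o1 o'.1 = 0
    rw [incM_eq_zero hF, zero_mul]
    have h2 : I.dim o.1.out = k := o.2
    rw [h2]
    exact h1

theorem lapM_off {R : Type} [CommRing R] [Fintype (Orb H C)] (hF : FreeCell H I)
    (o o' : Orb H C) (h : I.dim o.out ≠ I.dim o'.out) : lapM R H I o o' = 0 := by
  unfold lapM
  rw [Matrix.add_apply, Matrix.mul_apply, Matrix.mul_apply]
  have h1 : ∑ o1, incM R H I o o1 * incT R H I o1 o' = 0 := by
    refine Finset.sum_eq_zero fun o1 _ => ?_
    by_cases h2 : I.dim o1.out = I.dim o.out + 1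
    · rw [incT_eq_zero hF o1 o', mul_zero]
      omega
    · rw [incM_eq_zero hF o o1 h2, zero_mul]
  have h2 : ∑ o1, incT R H I o o1 * incM R H I o1 o' = 0 := by
    refine Finset.sum_eq_zero fun o1 _ => ?_
    by_cases h2 : I.dim o.out = I.dim o1.out + 1
    · rw [incM_eq_zero hF o1 o', mul_zero]
      omega
    · rw [incT_eq_zero hF o o1 h2, zero_mul]
  rw [h1, h2, add_zero]

/-- The block of the powers of `matT`. -/
theorem matT_pow_block [Fintype (Orb H C)] [DecidableEq (Orb H C)] (hF : FreeCell H I) (L : ℝ)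
    (k n : ℕ) (o : Ob H I k) :
    (matT H I L ^ n) o.1 o.1 = ((1 - L⁻¹ • lapK ℝ H I k) ^ n) o o := by
  have hoff : ∀ i j : Orb H C, I.dim i.out = k → ¬ I.dim j.out = k → matT H I L i j = 0 := by
    intro i j hi hj
    have hij : I.dim i.out ≠ I.dim j.out := by
      intro h
      exact hj (h ▸ hi)
    unfold matT
    rw [Matrix.sub_apply, Matrix.smul_apply, lapM_off hF i j hij, smul_zero, sub_zero,
      Matrix.one_apply_ne]
    rintro rfl
    exact hij rfl
  have h1 := pow_block (fun o : Orb H C => I.dim o.out = k) (matT H I L) hoff n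
  have h2 : (matT H I L).submatrix (Subtype.val : {o : Orb H C // I.dim o.out = k} → Orb H C)
      (Subtype.val : {o : Orb H C // I.dim o.out = k} → Orb H C) =
      1 - L⁻¹ • lapK ℝ H I k := by
    rw [← lapM_block hF]
    ext1 i j
    rw [Matrix.submatrix_apply]
    unfold matT
    rw [Matrix.sub_apply, Matrix.smul_apply, Matrix.sub_apply, Matrix.smul_apply,
      Matrix.submatrix_apply, Matrix.one_apply, Matrix.one_apply]
    congr 1
    by_cases h : i = j
    · rw [if_pos h, if_pos (congrArg Subtype.val h)]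
    · rw [if_neg h, if_neg (fun h' => h (Subtype.ext h'))]
  rw [h2] at h1
  exact congrFun (congrFun h1 o) o

end Block

end SingerVS
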