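import Mathlib
import Pool.Agent.Lib_MP_394d50_vs.LFin

/-!
# Block L: Lück's argument
-/

namespace SingerVS

open MonoidAlgebra

section Map

variable {R S : Type} [CommRing R] [CommRing S] {H Q : Type} [Group H] [Group Q]

theorem map_rgM (φ : R →+* S) (f : H →* Q) {a b : Type} (A : Matrix a b (MonoidAlgebra R H)) :
    (rgM f A).map φ = rgM f (A.map (mapRingHom H φ)) := by
  ext x y
  rw [Matrix.map_apply]
  show φ ((mapDomain f (A x.1 y.1)).coeff _) =
    (mapDomain f ((A.map (mapRingHom H φ)) x.1 y.1)).coeff _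
  rw [Matrix.map_apply, ← coeff_mapRingHom]
  have h := congrArg (fun g : MonoidAlgebra R H →+* MonoidAlgebra S Q => g (A x.1 y.1))
    (mapRingHom_comp_mapDomainRingHom φ f)
  simp only [RingHom.comp_apply] at h
  exact congrArg (fun z : MonoidAlgebra S Q => z.coeff (x.2⁻¹ * y.2)) h

end Map

section Core

variable {H C : Type} [Group H] [MulAction H C] {I : CellCx C} [Fintype (Orb H C)]
  [DecidableEq (Orb H C)]

omit [Fintype (Orb H C)] [DecidableEq (Orb H C)] in
theorem map_dm {R S : Type} [CommRing R] [CommRing S] (φ : R →+* S) (hF : FreeCell H I)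
    (j k : ℕ) : (dm R H I j k).map (mapRingHom H φ) = dm S H I j k := by
  unfold dm
  rw [← map_incM φ hF]
  rfl

omit [Fintype (Orb H C)] [DecidableEq (Orb H C)] in
theorem map_dt {R S : Type} [CommRing R] [CommRing S] (φ : R →+* S) (hF : FreeCell H I)
    (j k : ℕ) : (dt R H I j k).map (mapRingHom H φ) = dt S H I j k := by
  unfold dt
  rw [← map_incT φ hF]
  rfl

omit [DecidableEq (Orb H C)] in
theorem map_lapK {R S : Type} [CommRing R] [CommRing S] (φ : R →+* S) (hF : FreeCell H I)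
    (k : ℕ) : (lapK R H I k).map (mapRingHom H φ) = lapK S H I k := by
  unfold lapK
  rw [Matrix.map_add _ (map_add _), Matrix.map_mul, Matrix.map_mul, map_dm φ hF, map_dm φ hF,
    map_dt φ hF, map_dt φ hF]

omit [DecidableEq (Orb H C)] in
theorem dm_dm {R : Type} [CommRing R] (hF : FreeCell H I) (j k : ℕ) :
    dm R H I j k * dm R H I k (k + 1) = 0 := by
  ext1 o o'
  rw [Matrix.mul_apply]
  show ∑ o1 : Ob H I k, incM R H I o.1 o1.1 * incM R H I o1.1 o'.1 = _
  rw [← sum_Ob k (fun o1 => incM R H I o.1 o1 * incM R H I o1 o'.1)]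
  · have h := congrFun (congrFun (incM_sq' (R := R) hF) o.1) o'.1
    rw [Matrix.mul_apply] at h
    rw [h]
    rfl
  · intro o1 h1
    show incM R H I o.1 o1 * incM R H I o1 o'.1 = 0
    rw [incM_eq_zero hF o1 o'.1, mul_zero]
    have h2 : I.dim o'.1.out = k + 1 := o'.2
    rw [h2]
    omega

omit [Fintype (Orb H C)] [DecidableEq (Orb H C)] in
theorem rgM_dt {R : Type} [CommRing R] {Q : Type} [Group Q] (hF : FreeCell H I) (f : H →* Q)
    (j k : ℕ) : rgM f (dt R H I k j) = (rgM f (dm R H I j k)).transpose :=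
  rgM_transpose f _ _ fun _ _ g => incT_coeff_inv hF _ _ g

/-- The constant of the argument. -/
noncomputable def L1 (H : Type) {C : Type} [Group H] [MulAction H C] [Fintype (Orb H C)]
    (I : CellCx C) : ℝ := 1 + ∑ o : Orb H C, ∑ o' : Orb H C, nrm (lapM ℝ H I o o')

omit [DecidableEq (Orb H C)] in
theorem one_le_L1 : 1 ≤ L1 H I := by
  unfold L1
  have : 0 ≤ ∑ o : Orb H C, ∑ o' : Orb H C, nrm (lapM ℝ H I o o') :=
    Finset.sum_nonneg fun o _ => Finset.sum_nonneg fun o' _ => nrm_nonneg _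
  linarith

omit [DecidableEq (Orb H C)] in
theorem row_le_L1 (hF : FreeCell H I) (k : ℕ) (o : Ob H I k) :
    ∑ o' : Ob H I k, nrm (lapK ℝ H I k o o') ≤ L1 H I := by
  classical
  have h1 : ∑ o' : Ob H I k, nrm (lapK ℝ H I k o o') =
      ∑ o' : Ob H I k, nrm (lapM ℝ H I o.1 o'.1) := by
    refine Finset.sum_congr rfl fun o' _ => ?_
    rw [← lapM_block hF]
    rfl
  have h2 : ∑ o' : Ob H I k, nrm (lapM ℝ H I o.1 o'.1) ≤
      ∑ o' : Orb H C, nrm (lapM ℝ H I o.1 o') := by
    have h3 : ∑ o' : Ob H I k, nrm (lapM ℝ H I o.1 o'.1) =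
        ∑ o' ∈ Finset.univ.map (Function.Embedding.subtype fun o : Orb H C => I.dim o.out = k),
          nrm (lapM ℝ H I o.1 o') := by
      rw [Finset.sum_map]
      rfl
    rw [h3]
    exact Finset.sum_le_sum_of_subset_of_nonneg (Finset.subset_univ _)
      fun _ _ _ => nrm_nonneg _
  have h4 : ∑ o' : Orb H C, nrm (lapM ℝ H I o.1 o') ≤
      ∑ o : Orb H C, ∑ o' : Orb H C, nrm (lapM ℝ H I o o') :=
    Finset.single_le_sum (f := fun o : Orb H C => ∑ o' : Orb H C, nrm (lapM ℝ H I o o'))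
      (fun o _ => Finset.sum_nonneg fun o' _ => nrm_nonneg _) (Finset.mem_univ o.1)
  unfold L1
  linarith

open Matrix in
/-- The bound for the trace of the powers of `1 - L⁻¹ Δ_k` by a finite quotient. -/
theorem trace_bound (hF : FreeCell H I) (k m : ℕ) (δ : ℝ) (h0 : 0 < δ) (h1 : δ < 1)
    {Q : Type} [Group Q] [Fintype Q] (f : H →* Q)
    (hf : ∀ o : Ob H I k, ∀ g ∈ ((matT H I (L1 H I) ^ (2 * m)) o.1 o.1).coeff.support,
      g ≠ 1 → f g ≠ 1) :
    (Fintype.card Q : ℝ) * ∑ o : Ob H I k, ((matT H I (L1 H I) ^ (2 * m)) o.1 o.1).coeff 1 +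
      (dQ I f (k - 1) k).rank + (dQ I f k (k + 1)).rank ≤
      Fintype.card (Ob H I k) * Fintype.card Q + Fintype.card (Ob H I k) * Fintype.card Q *
        (Real.log (L1 H I) / Real.log (1 / δ) + (1 - δ / L1 H I) ^ (2 * m)) := by
  classical
  set L := L1 H I with hLdef
  set E := rgM f (dm ℤ H I (k - 1) k) with hE
  set D := rgM f (dm ℤ H I k (k + 1)) with hD
  have hED : E * D = 0 := by
    rw [hE, hD, ← rgM_mul, dm_dm hF, rgM_zero]
  have hB : rgM f (lapK ℤ H I k) = Eᵀ * E + D * Dᵀ := by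
    unfold lapK
    rw [rgM_add, rgM_mul, rgM_mul, rgM_dt hF, rgM_dt hF]
  set B := rgM f (lapK ℤ H I k) with hBdef
  have hBr : B.map (Int.cast : ℤ → ℝ) = rgM f (lapK ℝ H I k) := by
    have := map_rgM (Int.castRingHom ℝ) f (lapK ℤ H I k)
    rw [map_lapK _ hF] at this
    exact this
  have hmapmul : ∀ {a b c : Type} [Fintype b] (P : Matrix a b ℤ) (Q : Matrix b c ℤ),
      (P * Q).map (Int.cast : ℤ → ℝ) = P.map (Int.cast : ℤ → ℝ) * Q.map (Int.cast : ℤ → ℝ) := by
    intro a b c _ P Q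
    exact Matrix.map_mul (f := Int.castRingHom ℝ)
  have hpsd : (B.map (Int.cast : ℤ → ℝ)).PosSemidef := by
    have e : B.map (Int.cast : ℤ → ℝ) =
        (E.map (Int.cast : ℤ → ℝ))ᴴ * (E.map (Int.cast : ℤ → ℝ)) +
        (D.map (Int.cast : ℤ → ℝ)) * (D.map (Int.cast : ℤ → ℝ))ᴴ := by
      rw [hB, Matrix.map_add _ (by intro a b; push_cast; rfl), hmapmul, hmapmul]
      congr 1
    rw [e]
    exact (Matrix.posSemidef_conjTranspose_mul_self _).add
      (Matrix.posSemidef_self_mul_conjTranspose _)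
  have hsymm : (B.map (Int.cast : ℤ → ℝ)).transpose = B.map (Int.cast : ℤ → ℝ) := by
    have := hpsd.isHermitian
    unfold Matrix.IsHermitian at this
    rwa [Matrix.conjTranspose_eq_transpose_of_trivial] at this
  have hquad : ∀ x : Ob H I k × Q → ℝ,
      x ⬝ᵥ ((B.map (Int.cast : ℤ → ℝ)) *ᵥ x) ≤ L * (x ⬝ᵥ x) := by
    intro x
    refine quad_row _ hsymm L (fun i => ?_) x
    rw [hBr]
    exact (row_rgM f (lapK ℝ H I k) i).trans (row_le_L1 hF k i.1)
  have hs := SingerRA.spectral_bound B hpsd L one_le_L1 hquad δ h0 h1 m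
  have hn := SingerRA.nullity_le E D hED
  rw [← hB] at hn
  have hE2 : E.map (Int.cast : ℤ → ZMod 2) = dQ I f (k - 1) k := by
    have := map_rgM (Int.castRingHom (ZMod 2)) f (dm ℤ H I (k - 1) k)
    rw [map_dm _ hF] at this
    exact this
  have hD2 : D.map (Int.cast : ℤ → ZMod 2) = dQ I f k (k + 1) := by
    have := map_rgM (Int.castRingHom (ZMod 2)) f (dm ℤ H I k (k + 1))
    rw [map_dm _ hF] at this
    exact this
  rw [hE2, hD2] at hn
  have htr : Matrix.trace ((1 - L⁻¹ • B.map (Int.cast : ℤ → ℝ)) ^ (2 * m)) =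
      Fintype.card Q * ∑ o : Ob H I k, ((matT H I L ^ (2 * m)) o.1 o.1).coeff 1 := by
    have e1 : (1 - L⁻¹ • B.map (Int.cast : ℤ → ℝ)) ^ (2 * m) =
        rgM f ((1 - L⁻¹ • lapK ℝ H I k) ^ (2 * m)) := by
      rw [rgM_pow, rgM_sub, rgM_one, rgM_smul, hBr]
    rw [e1, trace_rgM]
    congr 1
    refine Finset.sum_congr rfl fun o _ => ?_
    rw [← matT_pow_block hF]
    exact coeff_mapDomain_one f _ (hf o)
  rw [htr, Fintype.card_prod] at hs
  have hn' : (Module.finrank ℝ (LinearMap.ker (B.map (Int.cast : ℤ → ℝ)).mulVecLin) : ℝ) +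
      (dQ I f (k - 1) k).rank + (dQ I f k (k + 1)).rank ≤
      Fintype.card (Ob H I k) * Fintype.card Q := by
    rw [Fintype.card_prod] at hn
    exact_mod_cast hn
  push_cast at hs
  linarith

end Core

section Vanish

variable {H C : Type} [Group H] [MulAction H C] {I : CellCx C}

/-- Lück's argument: small `F₂`-homology gradient implies that the `ℓ²`-homology vanishes. -/
theorem locDim_eq_zero_of_rk (hF : FreeCell H I) (k : ℕ) (hS : SmallH H I k) (c : C)
    (hc : I.dim c = k) : locDim I c = 0 := by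
  classical
  have hfin := hF.cofin
  have : Fintype (Orb H C) := Fintype.ofFinite _
  apply le_antisymm _ (locDim_nonneg c)
  apply le_of_forall_pos_le_add
  intro η hη
  rw [zero_add]
  obtain ⟨h, o, rfl⟩ := exists_rep (H := H) c
  have ho : I.dim o.out = k := by rw [← hF.dim_smul h]; exact hc
  set L := L1 H I with hL
  have hL1 : 1 ≤ L := one_le_L1
  have hLpos : 0 < L := by linarith
  set n : ℝ := ((Fintype.card (Ob H I k) : ℕ) : ℝ) with hn
  have hnpos : 0 < n := by
    have h1 : 0 < Fintype.card (Ob H I k) := Fintype.card_pos_iff.mpr ⟨⟨o, ho⟩⟩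
    rw [hn]
    exact_mod_cast h1
  have hlog : 0 ≤ Real.log L := Real.log_nonneg hL1
  -- choice of `δ`
  set t : ℝ := 3 * n * Real.log L / η + 1 with ht
  have ht1 : 1 ≤ t := by
    rw [ht]
    have : 0 ≤ 3 * n * Real.log L / η := by positivity
    linarith
  set δ : ℝ := Real.exp (-t) with hδ
  have h0 : 0 < δ := Real.exp_pos _
  have h1 : δ < 1 := by
    rw [hδ, Real.exp_lt_one_iff]
    linarith
  have hlogδ : Real.log (1 / δ) = t := by
    rw [one_div, Real.log_inv, hδ, Real.log_exp]; ring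
  have hterm1 : n * (Real.log L / Real.log (1 / δ)) ≤ η / 3 := by
    rw [hlogδ, ← mul_div_assoc, div_le_iff₀ (by linarith)]
    rw [ht]
    have e : η / 3 * (3 * n * Real.log L / η + 1) = n * Real.log L + η / 3 := by
      field_simp
    rw [e]
    linarith
  -- choice of `m`
  have hx0 : 0 ≤ 1 - δ / L := by
    rw [sub_nonneg, div_le_one hLpos]
    linarith
  have hx1 : 1 - δ / L < 1 := by
    have : 0 < δ / L := div_pos h0 hLpos
    linarith
  obtain ⟨m, hm⟩ := exists_pow_lt_of_lt_one (show 0 < η / (3 * n) by positivity) hx1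
  have hterm2 : n * (1 - δ / L) ^ (2 * m) ≤ η / 3 := by
    have h2 : (1 - δ / L) ^ (2 * m) ≤ (1 - δ / L) ^ m :=
      pow_le_pow_of_le_one hx0 hx1.le (by omega)
    calc n * (1 - δ / L) ^ (2 * m) ≤ n * (η / (3 * n)) :=
          mul_le_mul_of_nonneg_left (h2.trans hm.le) hnpos.le
      _ = η / 3 := by field_simp
  -- the finite quotient
  obtain ⟨Q, _, _, f, hf, hrk⟩ := hS inferInstance
    (Finset.univ.biUnion fun o : Ob H I k =>
      ((matT H I L ^ (2 * m)) o.1 o.1).coeff.support) (η / 3) (by positivity)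
  have hb := trace_bound hF k m δ h0 h1 f (fun o g hg => hf g
    (Finset.mem_biUnion.mpr ⟨o, Finset.mem_univ _, hg⟩))
  rw [← hL] at hb
  have hQ : (0 : ℝ) < Fintype.card Q := by exact_mod_cast Fintype.card_pos
  have hsum : ∑ o : Ob H I k, ((matT H I L ^ (2 * m)) o.1 o.1).coeff 1 ≤ η := by
    have h3 : (Fintype.card Q : ℝ) *
        ∑ o : Ob H I k, ((matT H I L ^ (2 * m)) o.1 o.1).coeff 1 ≤ Fintype.card Q * η := by
      have e1 : (Fintype.card Q : ℝ) * (n * (Real.log L / Real.log (1 / δ))) ≤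
          Fintype.card Q * (η / 3) := mul_le_mul_of_nonneg_left hterm1 hQ.le
      have e2 : (Fintype.card Q : ℝ) * (n * (1 - δ / L) ^ (2 * m)) ≤
          Fintype.card Q * (η / 3) := mul_le_mul_of_nonneg_left hterm2 hQ.le
      rw [← hn] at hb hrk
      nlinarith
    exact le_of_mul_le_mul_left h3 hQ
  have hle : ((matT H I L ^ (2 * m)) o o).coeff 1 ≤
      ∑ o : Ob H I k, ((matT H I L ^ (2 * m)) o.1 o.1).coeff 1 := by
    refine Finset.single_le_sum (f := fun o : Ob H I k =>
      ((matT H I L ^ (2 * m)) o.1 o.1).coeff 1) (fun o' _ => ?_) (Finset.mem_univ ⟨o, ho⟩)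
    exact (locDim_nonneg _).trans (harm_le hF L hLpos o'.1 1 m)
  exact (harm_le hF L hLpos o h m).trans (hle.trans hsum)

end Vanish

end SingerVS
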