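import Mathlib
import Pool.Agent.Lib_MP_394d50_vs.LTr

/-!
# Block L: Atiyah's formula for the Euler characteristic; passage to subgroups of finite index
-/

namespace SingerVS

open MonoidAlgebra Filter Topology

section Atiyah

variable {H C : Type} [Group H] [MulAction H C] {I : CellCx C}

/-- The coboundary matrix has square zero. -/
theorem incT_sq (hF : FreeCell H I) [Fintype (Orb H C)] :
    incT ℝ H I * incT ℝ H I = 0 := by
  classical
  obtain ⟨D, R, hD, hDn⟩ := exists_bdOp hF
  ext o o' x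
  have h1 : ContinuousLinearMap.adjoint D (ContinuousLinearMap.adjoint D
      (delta o'.out : L2 C)) = 0 := by
    apply l2_ext
    intro p
    rw [← delta_inner p, ContinuousLinearMap.adjoint_inner_right,
      ContinuousLinearMap.adjoint_inner_right, D_D hF D hD, inner_zero_left]
    rfl
  have h2 : (delta o'.out : L2 C) = psi H (Pi.single o' 1) := by
    have := psi_single (H := H) (C := C) o' 1
    rw [one_smul, inv_one] at this
    exact this.symm
  rw [h2, D'_psi hF D hD, D'_psi hF D hD, Matrix.mulVec_mulVec] at h1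
  have h3 := psi_apply hF ((incT ℝ H I * incT ℝ H I).mulVec (Pi.single o' 1)) x⁻¹ o
  rw [h1, inv_inv] at h3
  have h4 : ((incT ℝ H I * incT ℝ H I).mulVec (Pi.single o' 1)) o =
      (incT ℝ H I * incT ℝ H I) o o' := by
    show ∑ o1, (incT ℝ H I * incT ℝ H I) o o1 *
      (Pi.single o' 1 : Orb H C → MonoidAlgebra ℝ H) o1 = _
    rw [Finset.sum_eq_single o']
    · rw [Pi.single_eq_same, mul_one]
    · intro o1 _ ho
      rw [Pi.single_eq_of_ne ho, mul_zero]
    · intro h'
      exact absurd (Finset.mem_univ _) h'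
  rw [h4] at h3
  rw [← h3]
  rfl

/-- The sign matrix. -/
noncomputable def sgnM (H : Type) {C : Type} [Group H] [MulAction H C] [DecidableEq (Orb H C)]
    (I : CellCx C) : Matrix (Orb H C) (Orb H C) (MonoidAlgebra ℝ H) :=
  Matrix.diagonal fun o => (-1) ^ I.dim o.out

theorem sgn_comm [Fintype (Orb H C)] [DecidableEq (Orb H C)]
    (A : Matrix (Orb H C) (Orb H C) (MonoidAlgebra ℝ H))
    (hA : ∀ o o', A o o' ≠ 0 → I.dim o'.out = I.dim o.out + 1 ∨ I.dim o.out = I.dim o'.out + 1) :
    sgnM H I * A = - (A * sgnM H I) := by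
  unfold sgnM
  ext1 o o'
  rw [Matrix.diagonal_mul, Matrix.neg_apply, Matrix.mul_diagonal]
  by_cases h : A o o' = 0
  · rw [h, mul_zero, zero_mul, neg_zero]
  · have hc : A o o' * (-1) ^ I.dim o'.out = (-1) ^ I.dim o'.out * A o o' :=
      (((Commute.neg_one_left (A o o')).pow_left _).eq).symm
    rw [hc]
    rcases hA o o' h with h1 | h1
    · rw [h1, pow_succ]
      simp
    · rw [h1, pow_succ]
      simp

theorem tau_neg {a : Type} [Fintype a] (A : Matrix a a (MonoidAlgebra ℝ H)) :
    tau (-A) = - tau A := by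
  have h := tau_smul (-1 : ℝ) A
  rw [neg_one_smul, neg_one_mul] at h
  exact h

theorem str_lap [Fintype (Orb H C)] [DecidableEq (Orb H C)] (hF : FreeCell H I)
    (X : Matrix (Orb H C) (Orb H C) (MonoidAlgebra ℝ H))
    (h1 : incM ℝ H I * X = X * incM ℝ H I) :
    tau (sgnM H I * (lapM ℝ H I * X)) = 0 := by
  set B := incM ℝ H I with hB
  set T := incT ℝ H I with hT
  set S := sgnM H I with hS
  have hSB : S * B = - (B * S) := by
    refine sgn_comm B fun o o' h => Or.inl ?_
    by_contra h'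
    exact h (incM_eq_zero hF o o' h')
  have e1 : S * (lapM ℝ H I * X) = S * B * T * X + S * T * B * X := by
    unfold lapM
    rw [← hB, ← hT, Matrix.add_mul, Matrix.mul_add]
    simp only [Matrix.mul_assoc]
  have e2 : tau (S * B * T * X) = - tau (S * T * B * X) := by
    rw [hSB]
    have e3 : -(B * S) * T * X = -(B * (S * T * X)) := by
      simp only [Matrix.neg_mul, Matrix.mul_assoc]
    rw [e3, tau_neg, tau_mul_comm, Matrix.mul_assoc, ← h1]
    simp only [Matrix.mul_assoc]
  rw [e1, tau_add, e2, neg_add_cancel]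

theorem matT_comm [Fintype (Orb H C)] [DecidableEq (Orb H C)] (hF : FreeCell H I) (L : ℝ)
    (j : ℕ) : incM ℝ H I * matT H I L ^ j = matT H I L ^ j * incM ℝ H I := by
  have h1 : incM ℝ H I * matT H I L = matT H I L * incM ℝ H I := by
    unfold matT lapM
    rw [Matrix.mul_sub, Matrix.sub_mul, Matrix.mul_one, Matrix.one_mul, Matrix.mul_smul,
      Matrix.smul_mul]
    congr 2
    rw [Matrix.mul_add, Matrix.add_mul, ← Matrix.mul_assoc, incM_sq hF, Matrix.zero_mul, zero_add,
      Matrix.mul_assoc (incT ℝ H I), incM_sq hF, Matrix.mul_zero, add_zero, Matrix.mul_assoc]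
  exact (Commute.pow_right (show Commute (incM ℝ H I) (matT H I L) from h1) j).eq

theorem str_pow [Fintype (Orb H C)] [DecidableEq (Orb H C)] (hF : FreeCell H I) (L : ℝ)
    (j : ℕ) : tau (sgnM H I * matT H I L ^ j) = tau (sgnM H I) := by
  induction j with
  | zero => rw [pow_zero, mul_one]
  | succ j ih =>
    have e : sgnM H I * matT H I L ^ (j + 1) =
        sgnM H I * matT H I L ^ j + (-L⁻¹) • (sgnM H I * (lapM ℝ H I * matT H I L ^ j)) := by
      rw [pow_succ']
      have e1 : matT H I L * matT H I L ^ j =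
          matT H I L ^ j + (-L⁻¹) • (lapM ℝ H I * matT H I L ^ j) := by
        conv_lhs =>
          rw [show matT H I L * matT H I L ^ j = (1 - L⁻¹ • lapM ℝ H I) * matT H I L ^ j from rfl]
        rw [Matrix.sub_mul, Matrix.one_mul, Matrix.smul_mul, neg_smul, sub_eq_add_neg]
      rw [e1, Matrix.mul_add, Matrix.mul_smul]
    rw [e, tau_add, tau_smul, str_lap hF _ (matT_comm hF L j), mul_zero, add_zero, ih]

theorem tau_sgn [Fintype (Orb H C)] [DecidableEq (Orb H C)]
    (A : Matrix (Orb H C) (Orb H C) (MonoidAlgebra ℝ H)) :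
    tau (sgnM H I * A) = ∑ o : Orb H C, (-1 : ℝ) ^ I.dim o.out * (A o o).coeff 1 := by
  unfold tau sgnM
  refine Finset.sum_congr rfl fun o _ => ?_
  rw [Matrix.diagonal_mul]
  have h : ((-1 : MonoidAlgebra ℝ H) ^ I.dim o.out) = single 1 ((-1 : ℝ) ^ I.dim o.out) := by
    rw [← one_pow (M := H) (I.dim o.out), ← single_pow]
    congr 1
    rw [one_def, ← single_neg]
  rw [h, coeff_single_mul_apply, inv_one, one_mul]

/-- Atiyah's formula, as a sum over the orbits. -/
theorem sum_locDim [Fintype (Orb H C)] (hF : FreeCell H I) :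
    ∑ o : Orb H C, (-1 : ℝ) ^ I.dim o.out * locDim I o.out =
      ∑ o : Orb H C, (-1 : ℝ) ^ I.dim o.out := by
  classical
  obtain ⟨L0, hL0⟩ := harm_lim hF
  set L := max L0 1 with hL
  have hlim := hL0 L (le_max_left _ _) (lt_of_lt_of_le zero_lt_one (le_max_right _ _))
  have h1 : Tendsto (fun N : ℕ => ∑ o : Orb H C, (-1 : ℝ) ^ I.dim o.out *
      ((N : ℝ)⁻¹ * ∑ j ∈ Finset.range N, ((matT H I L ^ j) o o).coeff 1)) atTop
      (𝓝 (∑ o : Orb H C, (-1 : ℝ) ^ I.dim o.out * locDim I o.out)) := by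
    apply tendsto_finsetSum
    intro o _
    have := hlim o 1
    rw [one_smul] at this
    exact this.const_mul _
  have h2 : Tendsto (fun N : ℕ => ∑ o : Orb H C, (-1 : ℝ) ^ I.dim o.out *
      ((N : ℝ)⁻¹ * ∑ j ∈ Finset.range N, ((matT H I L ^ j) o o).coeff 1)) atTop
      (𝓝 (∑ o : Orb H C, (-1 : ℝ) ^ I.dim o.out)) := by
    apply tendsto_const_nhds.congr'
    filter_upwards [eventually_gt_atTop 0] with N hN
    have hN' : (N : ℝ) ≠ 0 := by exact_mod_cast hN.ne'
    have e : ∀ o : Orb H C, (-1 : ℝ) ^ I.dim o.out *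
        ((N : ℝ)⁻¹ * ∑ j ∈ Finset.range N, ((matT H I L ^ j) o o).coeff 1) =
        (N : ℝ)⁻¹ * ∑ j ∈ Finset.range N,
          ((-1 : ℝ) ^ I.dim o.out * ((matT H I L ^ j) o o).coeff 1) := by
      intro o
      rw [← Finset.mul_sum]
      ring
    simp_rw [e]
    rw [← Finset.mul_sum, Finset.sum_comm]
    have e2 : ∀ j, ∑ o : Orb H C, (-1 : ℝ) ^ I.dim o.out * ((matT H I L ^ j) o o).coeff 1 =
        ∑ o : Orb H C, (-1 : ℝ) ^ I.dim o.out := by
      intro j
      rw [← tau_sgn, str_pow hF, ← mul_one (sgnM H I), tau_sgn]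
      refine Finset.sum_congr rfl fun o _ => ?_
      rw [Matrix.one_apply_eq, coeff_one_one, mul_one]
    simp_rw [e2]
    rw [Finset.sum_const, Finset.card_range, nsmul_eq_mul, ← mul_assoc, inv_mul_cancel₀ hN',
      one_mul]
  exact tendsto_nhds_unique h1 h2

end Atiyah

end SingerVS
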