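import Mathlib
import Pool.Agent.Lib_MP_394d50_vs.LAt

/-!
# Block L: the local dimensions do not depend on the orientations of the cells
-/

namespace SingerVS

section Twist

variable {C C' : Type}

/-- Squares of the signs. -/
theorem lo_sq {s : C → ℝ} (hs : ∀ c, s c = 1 ∨ s c = -1) (c : C) : s c * s c = 1 := by
  rcases hs c with h | h <;> rw [h] <;> norm_num

theorem lo_abs {s : C → ℝ} (hs : ∀ c, s c = 1 ∨ s c = -1) (c : C) : |s c| = 1 := by
  rcases hs c with h | h <;> rw [h] <;> simp

theorem lo_mem (e : C ≃ C') (s : C → ℝ) (hs : ∀ c, s c = 1 ∨ s c = -1) (z : L2 C) :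
    Memℓp (fun c' : C' => s (e.symm c') * z (e.symm c')) 2 := by
  have h1 : Summable fun c : C => ‖z c‖ ^ (2 : ENNReal).toReal :=
    (lp.memℓp z).summable (by norm_num)
  refine memℓp_gen ?_
  have h2 := (e.symm.summable_iff (f := fun c : C => ‖z c‖ ^ (2 : ENNReal).toReal)).mpr h1
  refine h2.congr fun c' => ?_
  rw [Function.comp_apply, norm_mul, Real.norm_eq_abs (s _), lo_abs hs, one_mul]

/-- The isometry given by a bijection of the cells and signs. -/
noncomputable def twL (e : C ≃ C') (s : C → ℝ) (hs : ∀ c, s c = 1 ∨ s c = -1) :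
    L2 C →ₗᵢ[ℝ] L2 C' where
  toFun z := ⟨fun c' : C' => s (e.symm c') * z (e.symm c'), lo_mem e s hs z⟩
  map_add' z w := by
    apply lp.ext
    funext c'
    show s (e.symm c') * (z (e.symm c') + w (e.symm c')) = _
    rw [mul_add]
    rfl
  map_smul' r z := by
    apply lp.ext
    funext c'
    show s (e.symm c') * (r * z (e.symm c')) = r * (s (e.symm c') * z (e.symm c'))
    ring
  norm_map' z := by
    have h1 := lp.norm_rpow_eq_tsum (p := 2) (by norm_num) z
    have h2 := lp.norm_rpow_eq_tsum (p := 2) (by norm_num)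
      (⟨fun c' : C' => s (e.symm c') * z (e.symm c'), lo_mem e s hs z⟩ : L2 C')
    have h3 : ∑' c' : C', ‖s (e.symm c') * z (e.symm c')‖ ^ (2 : ENNReal).toReal =
        ∑' c : C, ‖z c‖ ^ (2 : ENNReal).toReal := by
      rw [← e.symm.tsum_eq (fun c : C => ‖z c‖ ^ (2 : ENNReal).toReal)]
      refine tsum_congr fun c' => ?_
      rw [norm_mul, Real.norm_eq_abs (s _), lo_abs hs, one_mul]
    have h4 : ‖(⟨fun c' : C' => s (e.symm c') * z (e.symm c'), lo_mem e s hs z⟩ : L2 C')‖ ^
        (2 : ENNReal).toReal = ‖z‖ ^ (2 : ENNReal).toReal := by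
      rw [h1, h2]
      exact h3
    exact (Real.rpow_left_inj (norm_nonneg _) (norm_nonneg _) (by norm_num)).mp h4

theorem twL_apply (e : C ≃ C') (s : C → ℝ) (hs : ∀ c, s c = 1 ∨ s c = -1) (z : L2 C) (c : C) :
    twL e s hs z (e c) = s c * z c := by
  show s (e.symm (e c)) * z (e.symm (e c)) = _
  rw [e.symm_apply_apply]

/-- The isometric equivalence given by a bijection of the cells and signs. -/
noncomputable def twE (e : C ≃ C') (s : C → ℝ) (hs : ∀ c, s c = 1 ∨ s c = -1) :
    L2 C ≃ₗᵢ[ℝ] L2 C' :=
  LinearIsometryEquiv.ofSurjective (twL e s hs) (by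
    intro w
    refine ⟨twL e.symm (fun c' => s (e.symm c')) (fun c' => hs _) w, ?_⟩
    apply lp.ext
    funext c'
    obtain ⟨c, rfl⟩ := e.surjective c'
    rw [twL_apply]
    show s c * (s (e.symm (e.symm.symm c)) * w (e.symm.symm c)) = w (e c)
    rw [Equiv.symm_symm, e.symm_apply_apply, ← mul_assoc, lo_sq hs, one_mul])

theorem twE_apply (e : C ≃ C') (s : C → ℝ) (hs : ∀ c, s c = 1 ∨ s c = -1) (z : L2 C) (c : C) :
    twE e s hs z (e c) = s c * z c := twL_apply e s hs z c

theorem twE_delta (e : C ≃ C') (s : C → ℝ) (hs : ∀ c, s c = 1 ∨ s c = -1) (c : C) :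
    twE e s hs (delta c) = s c • delta (e c) := by
  apply l2_ext
  intro c'
  obtain ⟨c1, rfl⟩ := e.surjective c'
  rw [twE_apply]
  show _ = s c * (delta (e c) : L2 C') (e c1)
  by_cases h : c1 = c
  · rw [h, delta_self, delta_self]
  · rw [delta_ne h, delta_ne (fun h' => h (e.injective h')), mul_zero, mul_zero]

/-- The local dimensions do not depend on the orientations, and are transported by
isomorphisms. -/
theorem locDim_twist (I : CellCx C) (I' : CellCx C') (e : C ≃ C') (s : C → ℤ)
    (hs : ∀ c, s c = 1 ∨ s c = -1) (h : ∀ p q, I'.inc (e p) (e q) = s p * s q * I.inc p q) (c : C) :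
    locDim I' (e c) = locDim I c := by
  set t : C → ℝ := fun c => (s c : ℝ) with ht
  have hs' : ∀ c, t c = 1 ∨ t c = -1 := by
    intro c
    rcases hs c with h | h
    · left; rw [ht]; show ((s c : ℤ) : ℝ) = 1; rw [h]; norm_num
    · right; rw [ht]; show ((s c : ℤ) : ℝ) = -1; rw [h]; norm_num
  have h' : ∀ p q, (I'.inc (e p) (e q) : ℝ) = t p * t q * I.inc p q := by
    intro p q
    rw [h, ht]
    push_cast
    ring
  set U := twE e t hs' with hU
  have hsgn : ∀ (c : C) (x : ℝ), t c * (t c * x) = x := by
    intro c x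
    rw [← mul_assoc, lo_sq hs', one_mul]
  -- the image of the span
  have hspan : Submodule.map (U.toLinearEquiv : L2 C →ₗ[ℝ] L2 C')
      (Submodule.span ℝ {z | IsBd I z ∨ IsCobd I z}) =
      Submodule.span ℝ {z | IsBd I' z ∨ IsCobd I' z} := by
    apply le_antisymm
    · rw [Submodule.map_span, Submodule.span_le]
      rintro _ ⟨z, hz, rfl⟩
      rcases hz with ⟨q, hq⟩ | ⟨p, hp⟩
      · have h1 : IsBd I' (t q • U z) := by
          refine ⟨e q, fun p' => ?_⟩
          obtain ⟨p, rfl⟩ := e.surjective p'
          show t q * (U z) (e p) = _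
          rw [hU, twE_apply, hq, h']
          ring
        have h2 : (U z : L2 C') = t q • (t q • U z) := by
          rw [smul_smul, lo_sq hs', one_smul]
        show U z ∈ Submodule.span ℝ {z | IsBd I' z ∨ IsCobd I' z}
        rw [h2]
        exact Submodule.smul_mem _ _ (Submodule.subset_span (Or.inl h1))
      · have h1 : IsCobd I' (t p • U z) := by
          refine ⟨e p, fun q' => ?_⟩
          obtain ⟨q, rfl⟩ := e.surjective q'
          show t p * (U z) (e q) = _
          rw [hU, twE_apply, hp, h']
          ring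
        have h2 : (U z : L2 C') = t p • (t p • U z) := by
          rw [smul_smul, lo_sq hs', one_smul]
        show U z ∈ Submodule.span ℝ {z | IsBd I' z ∨ IsCobd I' z}
        rw [h2]
        exact Submodule.smul_mem _ _ (Submodule.subset_span (Or.inr h1))
    · rw [Submodule.span_le]
      rintro w hw
      obtain ⟨z, rfl⟩ := U.surjective w
      rcases hw with ⟨q', hq⟩ | ⟨p', hp⟩
      · obtain ⟨q, rfl⟩ := e.surjective q'
        have h1 : IsBd I (t q • z) := by
          refine ⟨q, fun p => ?_⟩
          have h3 := hq (e p)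
          rw [hU, twE_apply, h'] at h3
          show t q * z p = _
          have h4 : t p * (t p * z p) = t p * (t p * t q * (I.inc p q : ℝ)) := by rw [h3]
          rw [hsgn] at h4
          rw [h4]
          have : t q * (t p * (t p * t q * (I.inc p q : ℝ))) =
              t p * (t p * (t q * (t q * (I.inc p q : ℝ)))) := by ring
          rw [this, hsgn, hsgn]
        have h2 : z = t q • (t q • z) := by
          rw [smul_smul, lo_sq hs', one_smul]
        refine ⟨z, ?_, rfl⟩
        rw [h2]
        exact Submodule.smul_mem _ _ (Submodule.subset_span (Or.inl h1))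
      · obtain ⟨p, rfl⟩ := e.surjective p'
        have h1 : IsCobd I (t p • z) := by
          refine ⟨p, fun q => ?_⟩
          have h3 := hp (e q)
          rw [hU, twE_apply, h'] at h3
          show t p * z q = _
          have h4 : t q * (t q * z q) = t q * (t p * t q * (I.inc p q : ℝ)) := by rw [h3]
          rw [hsgn] at h4
          rw [h4]
          have : t p * (t q * (t p * t q * (I.inc p q : ℝ))) =
              t p * (t p * (t q * (t q * (I.inc p q : ℝ)))) := by ring
          rw [this, hsgn, hsgn]
        have h2 : z = t p • (t p • z) := by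
          rw [smul_smul, lo_sq hs', one_smul]
        refine ⟨z, ?_, rfl⟩
        rw [h2]
        exact Submodule.smul_mem _ _ (Submodule.subset_span (Or.inr h1))
  have hharm : harm I' = Submodule.map (U.toLinearEquiv : L2 C →ₗ[ℝ] L2 C') (harm I) := by
    unfold harm
    rw [← hspan]
    exact (Submodule.map_orthogonal_equiv _ U).symm
  have hproj : ∀ x : L2 C, (harm I').starProjection (U x) = U ((harm I).starProjection x) := by
    intro x
    have hx : ∀ y ∈ harm I', inner ℝ (U x - U ((harm I).starProjection x)) y = 0 := by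
      intro y hy
      rw [hharm] at hy
      obtain ⟨z, hz, rfl⟩ := hy
      show inner ℝ (U x - U ((harm I).starProjection x)) (U z) = 0
      rw [← map_sub, U.inner_map_map]
      exact (harm I).starProjection_inner_eq_zero x z hz
    refine Submodule.eq_starProjection_of_mem_of_inner_eq_zero ?_ hx
    rw [hharm]
    exact ⟨_, Submodule.starProjection_apply_mem _ x, rfl⟩
  have hd : delta (e c) = t c • U (delta c) := by
    rw [hU, twE_delta, smul_smul, lo_sq hs', one_smul]
  unfold locDim
  rw [hd, map_smul, hproj, inner_smul_left, inner_smul_right, U.inner_map_map]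
  simp only [RCLike.conj_to_real]
  rw [hsgn]

end Twist

end SingerVS
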