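import Mathlib
import Pool.Agent.Lib_MP_394d50_vs.LDefs

/-!
# Block L: the cell complex of a simplicial complex (definitions)
-/

namespace SingerVS

open scoped Pointwise

section

variable {P : Type} [DecidableEq P]

open scoped Classical in
/-- The incidence number `[τ : σ]` for the orientations given by the order `r` of the vertices: it
is `(-1) ^ j` if `σ` is obtained from `τ` by deleting the vertex which is preceded by `j` vertices
of `τ`, and zero if `σ` is not a facet of `τ`. -/
noncomputable def simpInc (r : P → P → Prop) (σ τ : Finset P) : ℤ :=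
  ∑ v ∈ τ, if σ = τ.erase v then (-1 : ℤ) ^ (τ.filter (fun u => r u v)).card else 0

/-- The cell complex of the simplices of `X`, oriented by the order `r` of the vertices. -/
noncomputable def simpCx (X : Set (Finset P)) (r : P → P → Prop) :
    CellCx {σ : Finset P // σ ∈ X} where
  dim σ := σ.1.card - 1
  inc σ τ := simpInc r σ.1 τ.1

/-- The action on the simplices. -/
abbrev simpAct {H : Type} [Group H] [MulAction H P] {X : Set (Finset P)}
    (hinv : ∀ h : H, ∀ σ ∈ X, h • σ ∈ X) : MulAction H {σ : Finset P // σ ∈ X} where
  smul h σ := ⟨h • σ.1, hinv h σ.1 σ.2⟩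
  one_smul σ := Subtype.ext (one_smul H σ.1)
  mul_smul g h σ := Subtype.ext (mul_smul g h σ.1)

end

end SingerVS
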