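import Mathlib
import Pool.Agent.Lib_MP_394d50_vs.LSDefs
import Pool.Agent.Lib_MP_394d50_vs.LOr
import Pool.Agent.Lib_MP_394d50_vs.VBase

/-!
# Block L: the cell complex of a simplicial complex
-/

namespace SingerVS

open scoped Pointwise

section Inc

variable {P : Type} [DecidableEq P]

/-- `r` is irreflexive, antisymmetric and total on `τ`. -/
def TotOn (r : P → P → Prop) (τ : Finset P) : Prop :=
  (∀ x ∈ τ, ¬ r x x) ∧ ∀ x ∈ τ, ∀ y ∈ τ, x ≠ y → (r x y ↔ ¬ r y x)

open scoped Classical in
/-- The number of vertices of `τ` before `v`. -/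
noncomputable def posR (r : P → P → Prop) (τ : Finset P) (v : P) : ℕ :=
  (τ.filter (fun u => r u v)).card

theorem simpInc_erase (r : P → P → Prop) {τ : Finset P} {v : P} (hv : v ∈ τ) :
    simpInc r (τ.erase v) τ = (-1 : ℤ) ^ posR r τ v := by
  unfold simpInc
  rw [Finset.sum_eq_single v]
  · rw [if_pos rfl]
    rfl
  · intro w hw hwv
    rw [if_neg]
    intro h
    have h1 : w ∈ τ.erase v := Finset.mem_erase.mpr ⟨hwv, hw⟩
    rw [h] at h1
    exact (Finset.mem_erase.mp h1).1 rfl
  · intro h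
    exact absurd hv h

theorem simpInc_zero (r : P → P → Prop) {σ τ : Finset P} (h : ∀ v ∈ τ, σ ≠ τ.erase v) :
    simpInc r σ τ = 0 :=
  Finset.sum_eq_zero fun v hv => if_neg (h v hv)

theorem simpInc_ne {r : P → P → Prop} {σ τ : Finset P} (h : simpInc r σ τ ≠ 0) :
    ∃ v ∈ τ, σ = τ.erase v := by
  by_contra h1
  push Not at h1
  exact h (simpInc_zero r h1)

theorem posR_erase (r : P → P → Prop) [DecidableRel r] {τ : Finset P} {v w : P} (hw : w ∈ τ) :
    posR r τ v = posR r (τ.erase w) v + if r w v then 1 else 0 := by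
  classical
  unfold posR
  rw [Finset.card_filter, Finset.card_filter, ← Finset.sum_erase_add _ _ hw]
  congr 1
  split_ifs <;> rfl

/-- The number of inversions between two orders. -/
def invN (r r' : P → P → Prop) [DecidableRel r] [DecidableRel r'] (σ : Finset P) : ℕ :=
  ∑ x ∈ σ, ∑ y ∈ σ, if r x y ∧ r' y x then 1 else 0

theorem invN_erase {r r' : P → P → Prop} [DecidableRel r] [DecidableRel r'] {τ : Finset P}
    (h : TotOn r τ) (h' : TotOn r' τ) {v : P} (hv : v ∈ τ) :
    ∃ m, posR r τ v + posR r' τ v + invN r r' τ = 2 * m + invN r r' (τ.erase v) := by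
  classical
  have h1 : posR r τ v = ∑ u ∈ τ.erase v, if r u v then 1 else 0 := by
    rw [posR_erase r hv, if_neg (h.1 v hv), add_zero]
    unfold posR
    rw [Finset.card_filter]
    refine Finset.sum_congr rfl fun u _ => ?_
    split_ifs <;> rfl
  have h2 : posR r' τ v = ∑ u ∈ τ.erase v, if r' u v then 1 else 0 := by
    rw [posR_erase r' hv, if_neg (h'.1 v hv), add_zero]
    unfold posR
    rw [Finset.card_filter]
    refine Finset.sum_congr rfl fun u _ => ?_
    split_ifs <;> rfl
  have h3 : invN r r' τ = invN r r' (τ.erase v) +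
      ∑ u ∈ τ.erase v, ((if r u v ∧ r' v u then 1 else 0) + if r v u ∧ r' u v then 1 else 0) := by
    unfold invN
    rw [← Finset.sum_erase_add _ _ hv, ← Finset.sum_erase_add _ _ hv,
      if_neg (fun h4 => h.1 v hv h4.1), add_zero]
    have h5 : ∀ x ∈ τ.erase v, (∑ y ∈ τ, if r x y ∧ r' y x then 1 else 0) =
        (∑ y ∈ τ.erase v, if r x y ∧ r' y x then 1 else 0) +
          if r x v ∧ r' v x then 1 else 0 := fun x _ => (Finset.sum_erase_add _ _ hv).symm
    rw [Finset.sum_congr rfl h5, Finset.sum_add_distrib, Finset.sum_add_distrib, add_assoc]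
  rw [h1, h2, h3]
  have h6 : ∀ u ∈ τ.erase v, ∃ m, (if r u v then 1 else 0) + (if r' u v then 1 else 0) +
      ((if r u v ∧ r' v u then 1 else 0) + if r v u ∧ r' u v then 1 else 0) = 2 * m := by
    intro u hu
    obtain ⟨hne, hu⟩ := Finset.mem_erase.mp hu
    have a1 := h.2 v hv u hu (Ne.symm hne)
    have a2 := h'.2 v hv u hu (Ne.symm hne)
    by_cases b1 : r u v <;> by_cases b2 : r' u v
    · exact ⟨1, by rw [if_pos b1, if_pos b2, if_neg (fun h => (a2.mp h.2) b2),
        if_neg (fun h => (a1.mp h.1) b1)]⟩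
    · exact ⟨1, by rw [if_pos b1, if_neg b2, if_pos ⟨b1, a2.mpr b2⟩, if_neg (fun h => b2 h.2)]⟩
    · exact ⟨1, by rw [if_neg b1, if_pos b2, if_neg (fun h => b1 h.1), if_pos ⟨a1.mpr b1, b2⟩]⟩
    · exact ⟨0, by rw [if_neg b1, if_neg b2, if_neg (fun h => b1 h.1), if_neg (fun h => b2 h.2)]⟩
  have h7 : ∃ m, (∑ u ∈ τ.erase v, if r u v then 1 else 0) +
      (∑ u ∈ τ.erase v, if r' u v then 1 else 0) +
      ∑ u ∈ τ.erase v, ((if r u v ∧ r' v u then 1 else 0) +
        if r v u ∧ r' u v then 1 else 0) = 2 * m := by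
    rw [← Finset.sum_add_distrib, ← Finset.sum_add_distrib]
    have h8 : ∀ s ⊆ τ.erase v, ∃ m, (∑ u ∈ s, ((if r u v then 1 else 0) +
        (if r' u v then 1 else 0) + ((if r u v ∧ r' v u then 1 else 0) +
          if r v u ∧ r' u v then 1 else 0))) = 2 * m := by
      intro s
      induction s using Finset.induction_on with
      | empty => exact fun _ => ⟨0, rfl⟩
      | insert a s ha ih =>
        intro hs
        obtain ⟨m, hm⟩ := ih ((Finset.subset_insert a s).trans hs)
        obtain ⟨m', hm'⟩ := h6 a (hs (Finset.mem_insert_self a s))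
        exact ⟨m' + m, by rw [Finset.sum_insert ha, hm, hm']; ring⟩
    exact h8 _ (Finset.Subset.refl _)
  obtain ⟨m, hm⟩ := h7
  exact ⟨m, by omega⟩

/-- The sign between the orientations of `σ` given by two orders. -/
def sgnN (r r' : P → P → Prop) [DecidableRel r] [DecidableRel r'] (σ : Finset P) : ℤ :=
  (-1 : ℤ) ^ invN r r' σ

omit [DecidableEq P] in
theorem sgnN_pm (r r' : P → P → Prop) [DecidableRel r] [DecidableRel r'] (σ : Finset P) :
    sgnN r r' σ = 1 ∨ sgnN r r' σ = -1 := neg_one_pow_eq_or ℤ _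

theorem simpInc_change {r r' : P → P → Prop} [DecidableRel r] [DecidableRel r'] {τ : Finset P}
    (h : TotOn r τ) (h' : TotOn r' τ) (σ : Finset P) :
    simpInc r' σ τ = sgnN r r' σ * sgnN r r' τ * simpInc r σ τ := by
  by_cases h1 : ∃ v ∈ τ, σ = τ.erase v
  · obtain ⟨v, hv, rfl⟩ := h1
    rw [simpInc_erase r hv, simpInc_erase r' hv]
    unfold sgnN
    rw [← pow_add, ← pow_add]
    obtain ⟨m, hm⟩ := invN_erase h h' hv
    refine neg_one_pow_congr ?_
    rw [Nat.even_iff, Nat.even_iff]
    omega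
  · push Not at h1
    rw [simpInc_zero r h1, simpInc_zero r' h1, mul_zero]

theorem simpInc_mod2 (r : P → P → Prop) (σ τ : Finset P) :
    ((simpInc r σ τ : ℤ) : ZMod 2) = ((τ.filter (fun p => τ.erase p = σ)).card : ZMod 2) := by
  classical
  unfold simpInc
  rw [Finset.card_filter, Int.cast_sum, Nat.cast_sum]
  refine Finset.sum_congr rfl fun v _ => ?_
  by_cases h : σ = τ.erase v
  · rw [if_pos h, if_pos h.symm, Int.cast_pow, Int.cast_neg, Int.cast_one, Nat.cast_one]
    have : (-1 : ZMod 2) = 1 := by decide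
    rw [this, one_pow]
  · rw [if_neg h, if_neg (fun h1 => h h1.symm), Int.cast_zero, Nat.cast_zero]

theorem abs_simpInc_le (r : P → P → Prop) (σ τ : Finset P) : |simpInc r σ τ| ≤ 1 := by
  by_cases h1 : ∃ v ∈ τ, σ = τ.erase v
  · obtain ⟨v, hv, rfl⟩ := h1
    rw [simpInc_erase r hv, abs_neg_one_pow]
  · push Not at h1
    rw [simpInc_zero r h1, abs_zero]
    exact zero_le_one

/-- The square of the boundary vanishes. -/
theorem simpInc_sq {r : P → P → Prop} {τ : Finset P} (h : TotOn r τ) {v w : P}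
    (hv : v ∈ τ) (hw : w ∈ τ) (hvw : v ≠ w) :
    simpInc r ((τ.erase v).erase w) (τ.erase v) * simpInc r (τ.erase v) τ +
      simpInc r ((τ.erase v).erase w) (τ.erase w) * simpInc r (τ.erase w) τ = 0 := by
  classical
  have hw' : w ∈ τ.erase v := Finset.mem_erase.mpr ⟨hvw.symm, hw⟩
  have hv' : v ∈ τ.erase w := Finset.mem_erase.mpr ⟨hvw, hv⟩
  rw [simpInc_erase r hw', simpInc_erase r hv, simpInc_erase r hw, Finset.erase_right_comm,
    simpInc_erase r hv']
  have h1 := posR_erase r (v := w) hv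
  have h2 := posR_erase r (v := v) hw
  have h3 := h.2 v hv w hw hvw
  rw [← pow_add, ← pow_add]
  by_cases h4 : r v w
  · rw [if_pos h4] at h1
    rw [if_neg (h3.mp h4)] at h2
    rw [h1, h2]
    ring
  · rw [if_neg h4] at h1
    have h5 : r w v := by
      by_contra h6
      exact h4 (h3.mpr h6)
    rw [if_pos h5] at h2
    rw [h1, h2]
    ring

end Inc

section Cx

variable {H P : Type} [Group H] [DecidableEq P] [MulAction H P] {X : Set (Finset P)}

theorem simpInc_smul {r : P → P → Prop} {h : H} {τ : Finset P}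
    (hr : ∀ x ∈ τ, ∀ y ∈ τ, (r (h • x) (h • y) ↔ r x y)) (σ : Finset P) :
    simpInc r (h • σ) (h • τ) = simpInc r σ τ := by
  classical
  by_cases h1 : ∃ v ∈ τ, σ = τ.erase v
  · obtain ⟨v, hv, rfl⟩ := h1
    rw [smul_erase, simpInc_erase r hv, simpInc_erase r (Finset.smul_mem_smul_finset hv)]
    congr 1
    unfold posR
    symm
    refine Finset.card_bij (fun u _ => h • u) ?_ ?_ ?_
    · intro u hu
      obtain ⟨hu, hu'⟩ := Finset.mem_filter.mp hu
      exact Finset.mem_filter.mpr ⟨Finset.smul_mem_smul_finset hu, (hr u hu v hv).mpr hu'⟩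
    · intro u _ w _ e
      exact MulAction.injective h e
    · intro u hu
      obtain ⟨hu, hu'⟩ := Finset.mem_filter.mp hu
      obtain ⟨w, hw, rfl⟩ := Finset.mem_smul_finset.mp hu
      exact ⟨w, Finset.mem_filter.mpr ⟨hw, (hr w hw v hv).mp hu'⟩, rfl⟩
  · push Not at h1
    rw [simpInc_zero r h1, simpInc_zero r]
    intro v hv e
    obtain ⟨w, hw, rfl⟩ := Finset.mem_smul_finset.mp hv
    rw [← smul_erase] at e
    exact h1 w hw (MulAction.injective h e)

/-- The simplicial complex as a free cell complex. -/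
theorem freeCell_simp [MulAction H {σ : Finset P // σ ∈ X}] (hX : FreeCx H X)
    (hsm : ∀ (h : H) (c : {σ : Finset P // σ ∈ X}), (h • c).1 = h • c.1)
    {r : P → P → Prop} (hr : ∀ σ ∈ X, TotOn r σ)
    (hinv : ∀ h : H, ∀ σ ∈ X, ∀ x ∈ σ, ∀ y ∈ σ, r x y → r (h • x) (h • y)) :
    FreeCell H (simpCx X r) where
  dim_smul h c := by
    show (h • c).1.card - 1 = c.1.card - 1
    rw [hsm, card_smul]
  inc_smul h p q := by
    show simpInc r (h • p).1 (h • q).1 = simpInc r p.1 q.1
    rw [hsm, hsm]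
    refine simpInc_smul (fun x hx y hy => ⟨fun h1 => ?_, hinv h _ q.2 x hx y hy⟩) _
    have h2 := hinv h⁻¹ _ (hX.inv h _ q.2) _ (Finset.smul_mem_smul_finset hx) _
      (Finset.smul_mem_smul_finset hy) h1
    rwa [inv_smul_smul, inv_smul_smul] at h2
  inc_dim p q h := by
    obtain ⟨v, hv, e⟩ := simpInc_ne h
    show q.1.card - 1 = p.1.card - 1 + 1
    have h1 := Finset.card_pos.mpr (hX.ne _ p.2)
    have h2 : p.1.card = q.1.card - 1 := by rw [e, Finset.card_erase_of_mem hv]
    omega
  abs_inc p q := abs_simpInc_le r _ _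
  faces q := by
    refine Set.Finite.of_finite_image (f := Subtype.val) ?_ Subtype.val_injective.injOn
    refine (q.1.image (fun v => q.1.erase v)).finite_toSet.subset ?_
    rintro _ ⟨p, hp, rfl⟩
    obtain ⟨v, hv, e⟩ := simpInc_ne hp
    exact Finset.mem_coe.mpr (Finset.mem_image.mpr ⟨v, hv, e.symm⟩)
  cofaces p := by
    refine Set.Finite.of_finite_image (f := Subtype.val) ?_ Subtype.val_injective.injOn
    refine (hX.cof_finite p.2).subset ?_
    rintro _ ⟨q, hq, rfl⟩
    obtain ⟨v, hv, e⟩ := simpInc_ne hq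
    exact ⟨q.2, by rw [e]; exact Finset.erase_subset v q.1⟩
  sq p t := by
    classical
    by_cases h1 : ∃ v ∈ t.1, ∃ w ∈ t.1, v ≠ w ∧ p.1 = (t.1.erase v).erase w
    · obtain ⟨v, hv, w, hw, hvw, hp⟩ := h1
      have hpne := hX.ne _ p.2
      have m1 : t.1.erase v ∈ X := by
        refine hX.down _ t.2 _ (Finset.erase_subset v _) ?_
        refine hpne.mono ?_
        rw [hp]
        exact Finset.erase_subset w _
      have m2 : t.1.erase w ∈ X := by
        refine hX.down _ t.2 _ (Finset.erase_subset w _) ?_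
        refine hpne.mono ?_
        rw [hp, Finset.erase_right_comm]
        exact Finset.erase_subset v _
      have hne : (⟨t.1.erase v, m1⟩ : {σ : Finset P // σ ∈ X}) ≠ ⟨t.1.erase w, m2⟩ := by
        intro e
        have e1 : t.1.erase v = t.1.erase w := congrArg Subtype.val e
        have h2 : v ∈ t.1.erase w := Finset.mem_erase.mpr ⟨hvw, hv⟩
        rw [← e1] at h2
        exact (Finset.mem_erase.mp h2).1 rfl
      rw [finsum_eq_sum_of_support_subset (s := {⟨t.1.erase v, m1⟩, ⟨t.1.erase w, m2⟩}),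
        Finset.sum_pair hne]
      · show simpInc r p.1 (t.1.erase v) * simpInc r (t.1.erase v) t.1 +
          simpInc r p.1 (t.1.erase w) * simpInc r (t.1.erase w) t.1 = 0
        rw [hp]
        exact simpInc_sq (hr _ t.2) hv hw hvw
      · intro q hq
        have hq' : simpInc r p.1 q.1 * simpInc r q.1 t.1 ≠ 0 := hq
        obtain ⟨x, hx, ex⟩ := simpInc_ne (right_ne_zero_of_mul hq')
        obtain ⟨y, hy, ey⟩ := simpInc_ne (left_ne_zero_of_mul hq')
        have h3 : x ∉ p.1 := by
          rw [ey, ex]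
          intro h4
          exact (Finset.mem_erase.mp (Finset.mem_erase.mp h4).2).1 rfl
        have h5 : x = v ∨ x = w := by
          by_contra h6
          push Not at h6
          apply h3
          rw [hp]
          exact Finset.mem_erase.mpr ⟨h6.2, Finset.mem_erase.mpr ⟨h6.1, hx⟩⟩
        rw [Finset.coe_insert, Finset.coe_singleton]
        rcases h5 with h5 | h5
        · left
          exact Subtype.ext (by rw [ex, h5])
        · right
          exact Subtype.ext (by rw [ex, h5])
    · refine finsum_eq_zero_of_forall_eq_zero fun q => ?_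
      by_contra hq
      have hq' : simpInc r p.1 q.1 * simpInc r q.1 t.1 ≠ 0 := hq
      obtain ⟨x, hx, ex⟩ := simpInc_ne (right_ne_zero_of_mul hq')
      obtain ⟨y, hy, ey⟩ := simpInc_ne (left_ne_zero_of_mul hq')
      rw [ex] at hy ey
      exact h1 ⟨x, hx, y, (Finset.mem_erase.mp hy).2, (Finset.mem_erase.mp hy).1.symm, ey⟩
  free h c e := by
    refine hX.free h c.1 c.2 ?_
    rw [← hsm, e]
  cofin := by
    obtain ⟨R, hR, hR'⟩ := hX.fin
    have hfin : Finite {r // r ∈ R} := inferInstance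
    refine Finite.of_surjective (fun z : {r // r ∈ R} =>
      (Quotient.mk'' ⟨z.1, hR z.1 z.2⟩ : MulAction.orbitRel.Quotient H
        {σ : Finset P // σ ∈ X})) ?_
    intro o
    induction o using Quotient.inductionOn' with
    | h c =>
      obtain ⟨h, z, hz, e⟩ := hR' c.1 c.2
      refine ⟨⟨z, hz⟩, ?_⟩
      refine (Quotient.sound' ?_ : Quotient.mk'' c = Quotient.mk'' _).symm
      refine ⟨h, ?_⟩
      apply Subtype.ext
      show (h • (⟨z, hR z hz⟩ : {σ : Finset P // σ ∈ X})).1 = c.1
      rw [hsm, e]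

omit [DecidableEq P] in
theorem TotOn.comp {r : P → P → Prop} {f : P → P} (hf : Function.Injective f) {τ τ' : Finset P}
    (h : TotOn r τ') (hm : ∀ x ∈ τ, f x ∈ τ') : TotOn (fun x y => r (f x) (f y)) τ :=
  ⟨fun x hx => h.1 (f x) (hm x hx), fun x hx y hy hxy =>
    h.2 (f x) (hm x hx) (f y) (hm y hy) (fun e => hxy (hf e))⟩

/-- The local dimensions do not depend on the order of the vertices. -/
theorem locDim_order {r r' : P → P → Prop} (hr : ∀ σ ∈ X, TotOn r σ)
    (hr' : ∀ σ ∈ X, TotOn r' σ) (c : {σ : Finset P // σ ∈ X}) :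
    locDim (simpCx X r') c = locDim (simpCx X r) c := by
  classical
  exact locDim_twist (simpCx X r) (simpCx X r') (Equiv.refl _) (fun c => sgnN r r' c.1)
    (fun c => sgnN_pm r r' c.1)
    (fun p q => simpInc_change (hr _ q.2) (hr' _ q.2) p.1) c

/-- The local dimensions are invariant, for any order. -/
theorem locDim_smul_simp [MulAction H {σ : Finset P // σ ∈ X}]
    (hinv : ∀ h : H, ∀ σ ∈ X, h • σ ∈ X)
    (hsm : ∀ (h : H) (c : {σ : Finset P // σ ∈ X}), (h • c).1 = h • c.1)
    {r : P → P → Prop} (hr : ∀ σ ∈ X, TotOn r σ) (h : H) (c : {σ : Finset P // σ ∈ X}) :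
    locDim (simpCx X r) (h • c) = locDim (simpCx X r) c := by
  classical
  have hr' : ∀ σ ∈ X, TotOn (fun x y => r (h • x) (h • y)) σ := fun σ hσ =>
    (hr _ (hinv h σ hσ)).comp (MulAction.injective h)
      (fun x hx => Finset.smul_mem_smul_finset hx)
  refine locDim_twist (simpCx X r) (simpCx X r) (MulAction.toPerm h)
    (fun c => sgnN r (fun x y => r (h • x) (h • y)) c.1) (fun c => sgnN_pm _ _ c.1)
    (fun p q => ?_) c
  show simpInc r (h • p).1 (h • q).1 = _
  rw [hsm, hsm]
  have h1 : simpInc r (h • p.1) (h • q.1) = simpInc (fun x y => r (h • x) (h • y)) p.1 q.1 := by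
    by_cases h1 : ∃ v ∈ q.1, p.1 = q.1.erase v
    · obtain ⟨v, hv, e⟩ := h1
      rw [e, smul_erase, simpInc_erase _ hv, simpInc_erase _ (Finset.smul_mem_smul_finset hv)]
      congr 1
      unfold posR
      symm
      refine Finset.card_bij (fun u _ => h • u) ?_ ?_ ?_
      · intro u hu
        obtain ⟨hu, hu'⟩ := Finset.mem_filter.mp hu
        exact Finset.mem_filter.mpr ⟨Finset.smul_mem_smul_finset hu, hu'⟩
      · intro u _ w _ e
        exact MulAction.injective h e
      · intro u hu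
        obtain ⟨hu, hu'⟩ := Finset.mem_filter.mp hu
        obtain ⟨w, hw, rfl⟩ := Finset.mem_smul_finset.mp hu
        exact ⟨w, Finset.mem_filter.mpr ⟨hw, hu'⟩, rfl⟩
    · push Not at h1
      rw [simpInc_zero _ h1, simpInc_zero]
      intro v hv e
      obtain ⟨w, hw, rfl⟩ := Finset.mem_smul_finset.mp hv
      rw [← smul_erase] at e
      exact h1 w hw (MulAction.injective h e)
  rw [h1]
  exact simpInc_change (hr _ q.2) (hr' _ q.2) p.1

end Cx

end SingerVS
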