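import Mathlib

/-!
# The pattern of Steenrod's `cup-i` products on a simplex

`patS A B`: the elements of `A ∖ B` have an even number, those of `B ∖ A` an odd number, of elements
of `A ∩ B` below them.
-/

namespace SingerRA

/-- The pattern of the `cup-i` products. -/
def patS {P : Type} [LinearOrder P] (A B : Finset P) : Prop :=
  (∀ x ∈ A \ B, Even (((A ∩ B).filter (· < x)).card)) ∧
    ∀ x ∈ B \ A, Odd (((A ∩ B).filter (· < x)).card)

variable {P : Type} [LinearOrder P]

open scoped Classical in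
/-- the abstract counting lemma -/
theorem tcup_count (g : P → Prop) (D : Finset P) (hD : D.Nonempty) :
    (∑ v ∈ D, if ∀ x ∈ D, (x < v → g x) ∧ (v < x → ¬ g x) then (1 : ZMod 2) else 0) =
      (if ∀ x ∈ D, g x then 1 else 0) + if ∀ x ∈ D, ¬ g x then 1 else 0 := by
  induction D using Finset.induction_on_max with
  | empty => exact absurd hD (by simp)
  | insert a s ha ih =>
    have has : a ∉ s := fun h => lt_irrefl _ (ha a h)
    rw [Finset.sum_insert has]
    have h1 : (∀ x ∈ insert a s, (x < a → g x) ∧ (a < x → ¬ g x)) ↔ ∀ x ∈ s, g x := by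
      constructor
      · intro h x hx
        exact (h x (Finset.mem_insert_of_mem hx)).1 (ha x hx)
      · intro h x hx
        rcases Finset.mem_insert.mp hx with rfl | hx
        · exact ⟨fun h' => absurd h' (lt_irrefl _), fun h' => absurd h' (lt_irrefl _)⟩
        · exact ⟨fun _ => h x hx, fun h' => absurd h' (not_lt.mpr (ha x hx).le)⟩
    have h2 : ∀ v ∈ s, ((∀ x ∈ insert a s, (x < v → g x) ∧ (v < x → ¬ g x)) ↔
        (¬ g a ∧ ∀ x ∈ s, (x < v → g x) ∧ (v < x → ¬ g x))) := by
      intro v hv
      constructor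
      · intro h
        exact ⟨(h a (Finset.mem_insert_self _ _)).2 (ha v hv),
          fun x hx => h x (Finset.mem_insert_of_mem hx)⟩
      · rintro ⟨h, h'⟩ x hx
        rcases Finset.mem_insert.mp hx with rfl | hx
        · exact ⟨fun h'' => absurd h'' (not_lt.mpr (ha v hv).le), fun _ => h⟩
        · exact h' x hx
    have h3 : (∑ v ∈ s, if ∀ x ∈ insert a s, (x < v → g x) ∧ (v < x → ¬ g x) then (1 : ZMod 2) else 0) =
        if ¬ g a then (∑ v ∈ s, if ∀ x ∈ s, (x < v → g x) ∧ (v < x → ¬ g x) then (1 : ZMod 2) else 0)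
          else 0 := by
      by_cases hg : g a
      · rw [if_neg (not_not.mpr hg)]
        refine Finset.sum_eq_zero fun v hv => ?_
        rw [if_neg]
        rw [h2 v hv]
        exact fun h => h.1 hg
      · rw [if_pos hg]
        refine Finset.sum_congr rfl fun v hv => ?_
        have h4 := h2 v hv
        by_cases h5 : ∀ x ∈ s, (x < v → g x) ∧ (v < x → ¬ g x)
        · rw [if_pos (h4.mpr ⟨hg, h5⟩), if_pos h5]
        · rw [if_neg (fun h => h5 (h4.mp h).2), if_neg h5]
    rw [h3]
    have h6 : (if ∀ x ∈ insert a s, (x < a → g x) ∧ (a < x → ¬ g x) then (1 : ZMod 2) else 0) =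
        if ∀ x ∈ s, g x then 1 else 0 := by
      by_cases h7 : ∀ x ∈ s, g x
      · rw [if_pos (h1.mpr h7), if_pos h7]
      · rw [if_neg (fun h => h7 (h1.mp h)), if_neg h7]
    rw [h6]
    have h8 : (∀ x ∈ insert a s, g x) ↔ (g a ∧ ∀ x ∈ s, g x) := Finset.forall_mem_insert _ _ _
    have h9 : (∀ x ∈ insert a s, ¬ g x) ↔ (¬ g a ∧ ∀ x ∈ s, ¬ g x) := Finset.forall_mem_insert _ _ _
    have h2z : (2 : ZMod 2) = 0 := by decide
    rcases s.eq_empty_or_nonempty with rfl | hs
    · by_cases hg : g a
      · simp [hg]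
      · simp [hg]
    · rw [ih hs]
      by_cases hg : g a
      · rw [if_neg (not_not.mpr hg), add_zero]
        have h10 : ¬ (∀ x ∈ insert a s, ¬ g x) := fun h => (h9.mp h).1 hg
        rw [if_neg h10, add_zero]
        by_cases h7 : ∀ x ∈ s, g x
        · rw [if_pos h7, if_pos (h8.mpr ⟨hg, h7⟩)]
        · rw [if_neg h7, if_neg (fun h => h7 (h8.mp h).2)]
      · rw [if_pos hg]
        have h10 : ¬ (∀ x ∈ insert a s, g x) := fun h => hg (h8.mp h).1
        rw [if_neg h10, zero_add, ← add_assoc, ← two_mul, h2z, zero_mul, zero_add]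
        by_cases h7 : ∀ x ∈ s, ¬ g x
        · rw [if_pos h7, if_pos (h9.mpr ⟨hg, h7⟩)]
        · rw [if_neg h7, if_neg (fun h => h7 (h9.mp h).2)]

/-- the number of common elements below `x` -/
def tcupN (A B : Finset P) (x : P) : ℕ := ((A ∩ B).filter (· < x)).card

/-- good elements -/
def tcupG (A B : Finset P) (x : P) : Prop :=
  (x ∈ A ∧ Even (tcupN A B x)) ∨ (x ∈ B ∧ Odd (tcupN A B x))

theorem tcup_pat (F H : Finset P) : patS F H ↔ ∀ x ∈ (F \ H) ∪ (H \ F), tcupG F H x := by
  unfold patS tcupG tcupN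
  constructor
  · rintro ⟨h1, h2⟩ x hx
    rcases Finset.mem_union.mp hx with hx | hx
    · exact Or.inl ⟨(Finset.mem_sdiff.mp hx).1, h1 x hx⟩
    · exact Or.inr ⟨(Finset.mem_sdiff.mp hx).1, h2 x hx⟩
  · intro h
    constructor
    · intro x hx
      rcases h x (Finset.mem_union_left _ hx) with h' | h'
      · exact h'.2
      · exact absurd h'.1 (Finset.mem_sdiff.mp hx).2
    · intro x hx
      rcases h x (Finset.mem_union_right _ hx) with h' | h'
      · exact absurd h'.1 (Finset.mem_sdiff.mp hx).2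
      · exact h'.2

theorem tcup_bad (F H : Finset P) {x : P} (hx : x ∈ (F \ H) ∪ (H \ F)) :
    tcupG H F x ↔ ¬ tcupG F H x := by
  unfold tcupG tcupN
  rw [Finset.inter_comm H F]
  rcases Finset.mem_union.mp hx with hx | hx
  · have h1 := (Finset.mem_sdiff.mp hx).1
    have h2 := (Finset.mem_sdiff.mp hx).2
    simp only [h1, h2, false_and, true_and, or_false, false_or]
    exact Nat.not_even_iff_odd.symm
  · have h1 := (Finset.mem_sdiff.mp hx).1
    have h2 := (Finset.mem_sdiff.mp hx).2
    simp only [h1, h2, false_and, true_and, or_false, false_or]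
    exact Nat.not_odd_iff_even.symm

theorem tcup_insert_lt (U : Finset P) {v x : P} (h : x < v) :
    (insert v U).filter (· < x) = U.filter (· < x) := by
  ext y
  simp only [Finset.mem_filter, Finset.mem_insert]
  constructor
  · rintro ⟨rfl | h1, h2⟩
    · exact absurd h2 (not_lt.mpr h.le)
    · exact ⟨h1, h2⟩
  · rintro ⟨h1, h2⟩
    exact ⟨Or.inr h1, h2⟩

theorem tcup_insert_gt (U : Finset P) {v x : P} (hv : v ∉ U) (h : v < x) :
    ((insert v U).filter (· < x)).card = (U.filter (· < x)).card + 1 := by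
  rw [Finset.filter_insert, if_pos h, Finset.card_insert_of_notMem]
  exact fun h' => hv (Finset.mem_filter.mp h').1

/-- Adding a common element. -/
theorem tcup_left (F H : Finset P) {v : P} (hv : v ∈ H \ F) :
    patS (insert v F) H ↔ ∀ x ∈ (F \ H) ∪ (H \ F),
      (x < v → tcupG F H x) ∧ (v < x → ¬ tcupG F H x) := by
  have hvF := (Finset.mem_sdiff.mp hv).2
  have hvH := (Finset.mem_sdiff.mp hv).1
  have hU : insert v F ∩ H = insert v (F ∩ H) := Finset.insert_inter_of_mem hvH
  have hvU : v ∉ F ∩ H := fun h => hvF (Finset.mem_inter.mp h).1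
  rw [tcup_pat]
  have key : ∀ x, x ≠ v → x ∈ (F \ H) ∪ (H \ F) → (tcupG (insert v F) H x ↔
      ((x < v → tcupG F H x) ∧ (v < x → ¬ tcupG F H x))) := by
    intro x hxv hx
    rcases lt_or_gt_of_ne hxv with h | h
    · have h1 : tcupG (insert v F) H x ↔ tcupG F H x := by
        unfold tcupG tcupN
        rw [hU, tcup_insert_lt _ h, Finset.mem_insert]
        simp only [hxv, false_or]
      rw [h1]
      exact ⟨fun h2 => ⟨fun _ => h2, fun h3 => absurd h3 (not_lt.mpr h.le)⟩, fun h2 => h2.1 h⟩
    · have h1 : tcupG (insert v F) H x ↔ ¬ tcupG F H x := by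
        have h2 := tcup_insert_gt (F ∩ H) hvU h
        rw [← tcup_bad F H hx]
        unfold tcupG tcupN
        rw [hU, Finset.inter_comm H F, h2, Finset.mem_insert, Nat.even_add_one, Nat.odd_add_one,
          Nat.not_even_iff_odd, Nat.not_odd_iff_even]
        simp only [hxv, false_or]
        tauto
      rw [h1]
      exact ⟨fun h2 => ⟨fun h3 => absurd h3 (not_lt.mpr h.le), fun _ => h2⟩, fun h2 => h2.2 h⟩
  constructor
  · intro h x hx
    by_cases hxv : x = v
    · subst hxv
      exact ⟨fun h' => absurd h' (lt_irrefl _), fun h' => absurd h' (lt_irrefl _)⟩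
    · refine (key x hxv hx).mp (h x ?_)
      simp only [Finset.mem_union, Finset.mem_sdiff, Finset.mem_insert] at hx ⊢
      tauto
  · intro h x hx
    have hxv : x ≠ v := by
      rintro rfl
      simp only [Finset.mem_union, Finset.mem_sdiff, Finset.mem_insert] at hx
      tauto
    have hx' : x ∈ (F \ H) ∪ (H \ F) := by
      simp only [Finset.mem_union, Finset.mem_sdiff, Finset.mem_insert] at hx ⊢
      tauto
    exact (key x hxv hx').mpr (h x hx')

theorem tcup_right (F H : Finset P) {v : P} (hv : v ∈ F \ H) :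
    patS F (insert v H) ↔ ∀ x ∈ (F \ H) ∪ (H \ F),
      (x < v → tcupG F H x) ∧ (v < x → ¬ tcupG F H x) := by
  have hvF := (Finset.mem_sdiff.mp hv).1
  have hvH := (Finset.mem_sdiff.mp hv).2
  have hU : F ∩ insert v H = insert v (F ∩ H) := Finset.inter_insert_of_mem hvF
  have hvU : v ∉ F ∩ H := fun h => hvH (Finset.mem_inter.mp h).2
  rw [tcup_pat]
  have key : ∀ x, x ≠ v → x ∈ (F \ H) ∪ (H \ F) → (tcupG F (insert v H) x ↔
      ((x < v → tcupG F H x) ∧ (v < x → ¬ tcupG F H x))) := by
    intro x hxv hx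
    rcases lt_or_gt_of_ne hxv with h | h
    · have h1 : tcupG F (insert v H) x ↔ tcupG F H x := by
        unfold tcupG tcupN
        rw [hU, tcup_insert_lt _ h, Finset.mem_insert]
        simp only [hxv, false_or]
      rw [h1]
      exact ⟨fun h2 => ⟨fun _ => h2, fun h3 => absurd h3 (not_lt.mpr h.le)⟩, fun h2 => h2.1 h⟩
    · have h1 : tcupG F (insert v H) x ↔ ¬ tcupG F H x := by
        have h2 := tcup_insert_gt (F ∩ H) hvU h
        rw [← tcup_bad F H hx]
        unfold tcupG tcupN
        rw [hU, Finset.inter_comm H F, h2, Finset.mem_insert, Nat.even_add_one, Nat.odd_add_one,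
          Nat.not_even_iff_odd, Nat.not_odd_iff_even]
        simp only [hxv, false_or]
        tauto
      rw [h1]
      exact ⟨fun h2 => ⟨fun h3 => absurd h3 (not_lt.mpr h.le), fun _ => h2⟩, fun h2 => h2.2 h⟩
  constructor
  · intro h x hx
    by_cases hxv : x = v
    · subst hxv
      exact ⟨fun h' => absurd h' (lt_irrefl _), fun h' => absurd h' (lt_irrefl _)⟩
    · refine (key x hxv hx).mp (h x ?_)
      simp only [Finset.mem_union, Finset.mem_sdiff, Finset.mem_insert] at hx ⊢
      tauto
  · intro h x hx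
    have hxv : x ≠ v := by
      rintro rfl
      simp only [Finset.mem_union, Finset.mem_sdiff, Finset.mem_insert] at hx
      tauto
    have hx' : x ∈ (F \ H) ∪ (H \ F) := by
      simp only [Finset.mem_union, Finset.mem_sdiff, Finset.mem_insert] at hx ⊢
      tauto
    exact (key x hxv hx').mpr (h x hx')

open scoped Classical in
/-- (B) -/
theorem patS_count (F H : Finset P) (h : F ≠ H) :
    (∑ v ∈ H \ F, (if patS (insert v F) H then (1 : ZMod 2) else 0)) +
      ∑ v ∈ F \ H, (if patS F (insert v H) then (1 : ZMod 2) else 0) =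
    (if patS F H then 1 else 0) + if patS H F then 1 else 0 := by
  have hne : ((F \ H) ∪ (H \ F)).Nonempty := by
    by_contra hcon
    rw [Finset.not_nonempty_iff_eq_empty, Finset.union_eq_empty, Finset.sdiff_eq_empty_iff_subset,
      Finset.sdiff_eq_empty_iff_subset] at hcon
    exact h (Finset.Subset.antisymm hcon.1 hcon.2)
  have hdisj : Disjoint (F \ H) (H \ F) := disjoint_sdiff_sdiff
  have h1 := tcup_count (tcupG F H) _ hne
  rw [Finset.sum_union hdisj, add_comm] at h1
  have h2 : (∑ v ∈ H \ F, (if patS (insert v F) H then (1 : ZMod 2) else 0)) =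
      ∑ v ∈ H \ F, if ∀ x ∈ (F \ H) ∪ (H \ F),
        (x < v → tcupG F H x) ∧ (v < x → ¬ tcupG F H x) then (1 : ZMod 2) else 0 :=
    Finset.sum_congr rfl fun v hv => by simp only [tcup_left F H hv]
  have h3 : (∑ v ∈ F \ H, (if patS F (insert v H) then (1 : ZMod 2) else 0)) =
      ∑ v ∈ F \ H, if ∀ x ∈ (F \ H) ∪ (H \ F),
        (x < v → tcupG F H x) ∧ (v < x → ¬ tcupG F H x) then (1 : ZMod 2) else 0 :=
    Finset.sum_congr rfl fun v hv => by simp only [tcup_right F H hv]
  have h4 : patS F H ↔ ∀ x ∈ (F \ H) ∪ (H \ F), tcupG F H x := tcup_pat F H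
  have h5 : patS H F ↔ ∀ x ∈ (F \ H) ∪ (H \ F), ¬ tcupG F H x := by
    rw [tcup_pat, Finset.union_comm (H \ F) (F \ H)]
    exact forall₂_congr fun x hx => tcup_bad F H hx
  rw [h2, h3, h1]
  simp only [h4, h5]

/-- (A) Adding an element outside of `F ∪ H`. -/
theorem patS_insert_left (F H : Finset P) (v : P) (hF : v ∉ F) (hH : v ∉ H) :
    patS (insert v F) H ↔ patS F H ∧ Even (tcupN F H v) := by
  have hU : insert v F ∩ H = F ∩ H := Finset.insert_inter_of_notMem hH
  unfold patS tcupN
  rw [hU]
  constructor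
  · rintro ⟨h1, h2⟩
    refine ⟨⟨fun x hx => h1 x ?_, fun x hx => h2 x ?_⟩, h1 v ?_⟩
    · simp only [Finset.mem_sdiff, Finset.mem_insert] at hx ⊢
      tauto
    · simp only [Finset.mem_sdiff, Finset.mem_insert] at hx ⊢
      refine ⟨hx.1, fun h => ?_⟩
      rcases h with rfl | h
      · exact hH hx.1
      · exact hx.2 h
    · simp only [Finset.mem_sdiff, Finset.mem_insert]
      tauto
  · rintro ⟨⟨h1, h2⟩, h3⟩
    refine ⟨fun x hx => ?_, fun x hx => h2 x ?_⟩
    · by_cases hxv : x = v
      · subst hxv; exact h3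
      · refine h1 x ?_
        simp only [Finset.mem_sdiff, Finset.mem_insert] at hx ⊢
        tauto
    · simp only [Finset.mem_sdiff, Finset.mem_insert] at hx ⊢
      tauto

theorem patS_insert_right (F H : Finset P) (v : P) (hF : v ∉ F) (hH : v ∉ H) :
    patS F (insert v H) ↔ patS F H ∧ Odd (tcupN F H v) := by
  have hU : F ∩ insert v H = F ∩ H := Finset.inter_insert_of_notMem hF
  unfold patS tcupN
  rw [hU]
  constructor
  · rintro ⟨h1, h2⟩
    refine ⟨⟨fun x hx => h1 x ?_, fun x hx => h2 x ?_⟩, h2 v ?_⟩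
    · simp only [Finset.mem_sdiff, Finset.mem_insert] at hx ⊢
      refine ⟨hx.1, fun h => ?_⟩
      rcases h with rfl | h
      · exact hF hx.1
      · exact hx.2 h
    · simp only [Finset.mem_sdiff, Finset.mem_insert] at hx ⊢
      tauto
    · simp only [Finset.mem_sdiff, Finset.mem_insert]
      tauto
  · rintro ⟨⟨h1, h2⟩, h3⟩
    refine ⟨fun x hx => h1 x ?_, fun x hx => ?_⟩
    · simp only [Finset.mem_sdiff, Finset.mem_insert] at hx ⊢
      tauto
    · by_cases hxv : x = v
      · subst hxv; exact h3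
      · refine h2 x ?_
        simp only [Finset.mem_sdiff, Finset.mem_insert] at hx ⊢
        tauto

open scoped Classical in
/-- (A) -/
theorem patS_out (F H : Finset P) (v : P) (hF : v ∉ F) (hH : v ∉ H) :
    (if patS (insert v F) H then (1 : ZMod 2) else 0) + (if patS F (insert v H) then 1 else 0) =
      if patS F H then 1 else 0 := by
  have h1 := patS_insert_left F H v hF hH
  have h2 := patS_insert_right F H v hF hH
  by_cases hp : patS F H
  · rcases Nat.even_or_odd (tcupN F H v) with he | ho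
    · have h3 : ¬ patS F (insert v H) := fun h => Nat.not_even_iff_odd.mpr (h2.mp h).2 he
      rw [if_neg h3, if_pos (h1.mpr ⟨hp, he⟩), if_pos hp, add_zero]
    · have h3 : ¬ patS (insert v F) H := fun h => Nat.not_even_iff_odd.mpr ho (h1.mp h).2
      rw [if_neg h3, if_pos (h2.mpr ⟨hp, ho⟩), if_pos hp, zero_add]
  · rw [if_neg (fun h => hp (h1.mp h).1), if_neg (fun h => hp (h2.mp h).1), if_neg hp, zero_add]

theorem patS_self (F : Finset P) : patS F F := by
  constructor <;> · intro x hx; simp at hx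

end SingerRA
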