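import Mathlib
import Pool.Agent.Lib_MP_394d50_all.TTens
import Pool.Agent.Lib_MP_394d50_vs.TCup

/-!
# The `cup-i` squares on a simplex

`xiS a ρ = ∑_{A ∪ B = ρ, patS A B} a A ⊗ star (a B)`; for a cocycle `a` the coboundary of `xiS a` is
`(1 + tau) (xiS a)` (Steenrod's formula for all `i` at once).
-/

namespace SingerRA

open scoped TensorProduct

variable {P : Type} [LinearOrder P]

open scoped Classical in
/-- the indicator of the pattern -/
noncomputable def epS (A B : Finset P) : ZMod 2 := if patS A B then 1 else 0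

theorem txi_reindex {M : Type} [AddCommMonoid M] (ρ : Finset P) (g : Finset P → P → M) :
    ∑ C ∈ ρ.powerset, ∑ p ∈ C, g C p = ∑ A ∈ ρ.powerset, ∑ p ∈ ρ \ A, g (insert p A) p := by
  rw [Finset.sum_sigma', Finset.sum_sigma']
  refine Finset.sum_bij' (fun x _ => ⟨x.1.erase x.2, x.2⟩) (fun x _ => ⟨insert x.2 x.1, x.2⟩)
    ?_ ?_ ?_ ?_ ?_
  · rintro ⟨C, p⟩ h
    simp only [Finset.mem_sigma, Finset.mem_powerset, Finset.mem_sdiff, Finset.mem_erase] at h ⊢
    exact ⟨(Finset.erase_subset _ _).trans h.1, h.1 h.2, by tauto⟩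
  · rintro ⟨A, p⟩ h
    simp only [Finset.mem_sigma, Finset.mem_powerset, Finset.mem_sdiff] at h ⊢
    exact ⟨Finset.insert_subset h.2.1 h.1, Finset.mem_insert_self _ _⟩
  · rintro ⟨C, p⟩ h
    simp only [Finset.mem_sigma, Finset.mem_powerset] at h
    simp only [Sigma.mk.injEq, heq_eq_eq, and_true]
    exact Finset.insert_erase h.2
  · rintro ⟨A, p⟩ h
    simp only [Finset.mem_sigma, Finset.mem_powerset, Finset.mem_sdiff] at h
    simp only [Sigma.mk.injEq, heq_eq_eq, and_true]
    exact Finset.erase_insert h.2.2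
  · rintro ⟨C, p⟩ h
    simp only [Finset.mem_sigma, Finset.mem_powerset] at h
    show g C p = g (insert p (C.erase p)) p
    rw [Finset.insert_erase h.2]

open scoped Classical in
/-- The identity of the coefficients. -/
theorem txi_coef (ρ A B : Finset P) (hA : A ⊆ ρ) (hB : B ⊆ ρ) :
    (∑ p ∈ ρ, if A ∪ B = ρ.erase p then epS A B else 0) +
      ((∑ p ∈ ρ \ A, if insert p A ∪ B = ρ then epS (insert p A) B else 0) +
        ∑ p ∈ ρ \ B, if A ∪ insert p B = ρ then epS A (insert p B) else 0) =
      if A ∪ B = ρ then epS A B + epS B A else 0 := by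
  by_cases h : A ∪ B = ρ
  · rw [if_pos h]
    have h1 : (∑ p ∈ ρ, if A ∪ B = ρ.erase p then epS A B else 0) = 0 := by
      refine Finset.sum_eq_zero fun p hp => ?_
      rw [if_neg]
      intro h2
      rw [h] at h2
      exact (Finset.notMem_erase p ρ) (h2 ▸ hp)
    rw [h1, zero_add]
    by_cases hAB : A = B
    · subst hAB
      rw [Finset.union_self] at h
      subst h
      rw [Finset.sdiff_self, Finset.sum_empty, Finset.sum_empty, add_zero,
        CharTwo.add_self_eq_zero]
    · have h2 := patS_count A B hAB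
      have e1 : ρ \ A = B \ A := by
        rw [← h]
        ext x; simp only [Finset.mem_sdiff, Finset.mem_union]; tauto
      have e2 : ρ \ B = A \ B := by
        rw [← h]
        ext x; simp only [Finset.mem_sdiff, Finset.mem_union]; tauto
      rw [e1, e2]
      unfold epS
      rw [← h2]
      congr 1
      · refine Finset.sum_congr rfl fun p hp => ?_
        rw [if_pos]
        rw [Finset.insert_union, h, Finset.insert_eq_of_mem]
        exact hB (Finset.mem_sdiff.mp hp).1
      · refine Finset.sum_congr rfl fun p hp => ?_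
        rw [if_pos]
        rw [Finset.union_insert, h, Finset.insert_eq_of_mem]
        exact hA (Finset.mem_sdiff.mp hp).1
  · rw [if_neg h]
    have hsub : A ∪ B ⊆ ρ := Finset.union_subset hA hB
    by_cases hq : ∃ q ∈ ρ, A ∪ B = ρ.erase q
    · obtain ⟨q, hq, hq'⟩ := hq
      have hqA : q ∉ A := fun h' => by
        have : q ∈ ρ.erase q := hq' ▸ Finset.mem_union_left _ h'
        exact Finset.notMem_erase q ρ this
      have hqB : q ∉ B := fun h' => by
        have : q ∈ ρ.erase q := hq' ▸ Finset.mem_union_right _ h'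
        exact Finset.notMem_erase q ρ this
      have h0 := patS_out A B q hqA hqB
      have s1 : (∑ p ∈ ρ, if A ∪ B = ρ.erase p then epS A B else 0) = epS A B := by
        rw [Finset.sum_eq_single_of_mem q hq, if_pos hq']
        intro p hp hpq
        rw [if_neg]
        intro h2
        rw [hq'] at h2
        have : p ∈ ρ.erase q := Finset.mem_erase.mpr ⟨hpq, hp⟩
        rw [h2] at this
        exact Finset.notMem_erase p ρ this
      have hins : ∀ p ∈ ρ, insert p (A ∪ B) = ρ ↔ p = q := by
        intro p hp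
        constructor
        · intro h2
          by_contra hpq
          have : q ∈ insert p (A ∪ B) := by rw [h2]; exact hq
          rcases Finset.mem_insert.mp this with h3 | h3
          · exact hpq h3.symm
          · rcases Finset.mem_union.mp h3 with h3 | h3
            · exact hqA h3
            · exact hqB h3
        · rintro rfl
          rw [hq']
          exact Finset.insert_erase hp
      have s2 : (∑ p ∈ ρ \ A, if insert p A ∪ B = ρ then epS (insert p A) B else 0) =
          epS (insert q A) B := by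
        rw [Finset.sum_eq_single_of_mem q (Finset.mem_sdiff.mpr ⟨hq, hqA⟩), if_pos]
        · rw [Finset.insert_union]
          exact (hins q hq).mpr rfl
        · intro p hp hpq
          rw [if_neg]
          rw [Finset.insert_union, hins p (Finset.mem_sdiff.mp hp).1]
          exact hpq
      have s3 : (∑ p ∈ ρ \ B, if A ∪ insert p B = ρ then epS A (insert p B) else 0) =
          epS A (insert q B) := by
        rw [Finset.sum_eq_single_of_mem q (Finset.mem_sdiff.mpr ⟨hq, hqB⟩), if_pos]
        · rw [Finset.union_insert]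
          exact (hins q hq).mpr rfl
        · intro p hp hpq
          rw [if_neg]
          rw [Finset.union_insert, hins p (Finset.mem_sdiff.mp hp).1]
          exact hpq
      rw [s1, s2, s3]
      unfold epS
      rw [h0, CharTwo.add_self_eq_zero]
    · have hq1 : ∀ p ∈ ρ, A ∪ B ≠ ρ.erase p := fun p hp h2 => hq ⟨p, hp, h2⟩
      have hins : ∀ p ∈ ρ, insert p (A ∪ B) ≠ ρ := by
        intro p hp h2
        by_cases hpm : p ∈ A ∪ B
        · rw [Finset.insert_eq_of_mem hpm] at h2
          exact h h2
        · refine hq1 p hp ?_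
          rw [← h2, Finset.erase_insert hpm]
      rw [Finset.sum_eq_zero, Finset.sum_eq_zero, Finset.sum_eq_zero]
      · simp
      · intro p hp
        rw [if_neg]
        rw [Finset.union_insert]
        exact hins p (Finset.mem_sdiff.mp hp).1
      · intro p hp
        rw [if_neg]
        rw [Finset.insert_union]
        exact hins p (Finset.mem_sdiff.mp hp).1
      · intro p hp
        rw [if_neg (hq1 p hp)]

open scoped Classical in
theorem txi_main {M : Type} [AddCommGroup M] [Module (ZMod 2) M]
    (f : Finset P → Finset P → M) (ρ : Finset P)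
    (h1 : ∀ C ∈ ρ.powerset, ∀ B ∈ ρ.powerset, ∑ p ∈ C, f (C.erase p) B = 0)
    (h2 : ∀ C ∈ ρ.powerset, ∀ A ∈ ρ.powerset, ∑ p ∈ C, f A (C.erase p) = 0) :
    ∑ p ∈ ρ, ∑ A ∈ (ρ.erase p).powerset, ∑ B ∈ (ρ.erase p).powerset,
      (if A ∪ B = ρ.erase p then epS A B • f A B else 0) =
    ∑ A ∈ ρ.powerset, ∑ B ∈ ρ.powerset,
      if A ∪ B = ρ then (epS A B + epS B A) • f A B else 0 := by
  have e1 : ∑ p ∈ ρ, ∑ A ∈ (ρ.erase p).powerset, ∑ B ∈ (ρ.erase p).powerset,
      (if A ∪ B = ρ.erase p then epS A B • f A B else 0) =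
      ∑ A ∈ ρ.powerset, ∑ B ∈ ρ.powerset,
        (∑ p ∈ ρ, if A ∪ B = ρ.erase p then epS A B else 0) • f A B := by
    have e11 : ∀ p ∈ ρ, (∑ A ∈ (ρ.erase p).powerset, ∑ B ∈ (ρ.erase p).powerset,
        (if A ∪ B = ρ.erase p then epS A B • f A B else 0)) =
        ∑ A ∈ ρ.powerset, ∑ B ∈ ρ.powerset,
          (if A ∪ B = ρ.erase p then epS A B else 0) • f A B := by
      intro p hp
      have e12 : ∀ A, (∑ B ∈ (ρ.erase p).powerset,
          (if A ∪ B = ρ.erase p then epS A B • f A B else 0)) =
          ∑ B ∈ ρ.powerset, (if A ∪ B = ρ.erase p then epS A B else 0) • f A B := by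
        intro A
        rw [← Finset.sum_subset (Finset.powerset_mono.mpr (Finset.erase_subset p ρ))]
        · refine Finset.sum_congr rfl fun B _ => ?_
          split_ifs
          · rfl
          · rw [zero_smul]
        · intro B _ hB
          rw [if_neg, zero_smul]
          intro h
          exact hB (Finset.mem_powerset.mpr (h ▸ Finset.subset_union_right))
      rw [← Finset.sum_subset (Finset.powerset_mono.mpr (Finset.erase_subset p ρ))]
      · exact Finset.sum_congr rfl fun A _ => e12 A
      · intro A _ hA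
        refine Finset.sum_eq_zero fun B _ => ?_
        rw [if_neg, zero_smul]
        intro h
        exact hA (Finset.mem_powerset.mpr (h ▸ Finset.subset_union_left))
    rw [Finset.sum_congr rfl e11, Finset.sum_comm]
    refine Finset.sum_congr rfl fun A _ => ?_
    rw [Finset.sum_comm]
    refine Finset.sum_congr rfl fun B _ => ?_
    rw [Finset.sum_smul]
  have e2 : ∑ A ∈ ρ.powerset, ∑ B ∈ ρ.powerset,
      (∑ p ∈ ρ \ A, if insert p A ∪ B = ρ then epS (insert p A) B else 0) • f A B = 0 := by
    rw [Finset.sum_comm]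
    refine Finset.sum_eq_zero fun B hB => ?_
    have e21 := txi_reindex ρ (fun C p => (if C ∪ B = ρ then epS C B else 0) • f (C.erase p) B)
    have e22 : ∑ C ∈ ρ.powerset, ∑ p ∈ C,
        (if C ∪ B = ρ then epS C B else 0) • f (C.erase p) B = 0 := by
      refine Finset.sum_eq_zero fun C hC => ?_
      rw [← Finset.smul_sum, h1 C hC B hB, smul_zero]
    rw [e22] at e21
    rw [e21]
    refine Finset.sum_congr rfl fun A _ => ?_
    rw [Finset.sum_smul]
    refine Finset.sum_congr rfl fun p hp => ?_
    rw [Finset.erase_insert (Finset.mem_sdiff.mp hp).2]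
  have e3 : ∑ A ∈ ρ.powerset, ∑ B ∈ ρ.powerset,
      (∑ p ∈ ρ \ B, if A ∪ insert p B = ρ then epS A (insert p B) else 0) • f A B = 0 := by
    refine Finset.sum_eq_zero fun A hA => ?_
    have e31 := txi_reindex ρ (fun C p => (if A ∪ C = ρ then epS A C else 0) • f A (C.erase p))
    have e32 : ∑ C ∈ ρ.powerset, ∑ p ∈ C,
        (if A ∪ C = ρ then epS A C else 0) • f A (C.erase p) = 0 := by
      refine Finset.sum_eq_zero fun C hC => ?_
      rw [← Finset.smul_sum, h2 C hC A hA, smul_zero]
    rw [e32] at e31
    rw [e31]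
    refine Finset.sum_congr rfl fun B _ => ?_
    rw [Finset.sum_smul]
    refine Finset.sum_congr rfl fun p hp => ?_
    rw [Finset.erase_insert (Finset.mem_sdiff.mp hp).2]
  have e4 : ∑ A ∈ ρ.powerset, ∑ B ∈ ρ.powerset,
      (if A ∪ B = ρ then (epS A B + epS B A) • f A B else 0) =
      ∑ A ∈ ρ.powerset, ∑ B ∈ ρ.powerset,
        (∑ p ∈ ρ, if A ∪ B = ρ.erase p then epS A B else 0) • f A B +
      (∑ A ∈ ρ.powerset, ∑ B ∈ ρ.powerset,
        (∑ p ∈ ρ \ A, if insert p A ∪ B = ρ then epS (insert p A) B else 0) • f A B +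
      ∑ A ∈ ρ.powerset, ∑ B ∈ ρ.powerset,
        (∑ p ∈ ρ \ B, if A ∪ insert p B = ρ then epS A (insert p B) else 0) • f A B) := by
    rw [← Finset.sum_add_distrib, ← Finset.sum_add_distrib]
    refine Finset.sum_congr rfl fun A hA => ?_
    rw [← Finset.sum_add_distrib, ← Finset.sum_add_distrib]
    refine Finset.sum_congr rfl fun B hB => ?_
    rw [← add_smul, ← add_smul,
      txi_coef ρ A B (Finset.mem_powerset.mp hA) (Finset.mem_powerset.mp hB)]
    split_ifs
    · rfl
    · rw [zero_smul]
  rw [e4, e2, e3, e1, add_zero, add_zero]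

/-! ## Tensors -/

variable {D : Type} [DivisionRing D] [Algebra (ZMod 2) D] [StarRing D]

open scoped Classical in
/-- The `cup-i` squares: the sum over `A ∪ B = ρ`, `patS A B`, of `a A ⊗ star (a B)`. -/
noncomputable def xiS (a : Finset P → D) (ρ : Finset P) : TT D :=
  ∑ A ∈ ρ.powerset, ∑ B ∈ ρ.powerset,
    if A ∪ B = ρ then epS A B • (a A ⊗ₜ[ZMod 2] star (a B)) else 0

open scoped Classical in
theorem tau_xiS (a : Finset P → D) (ρ : Finset P) :
    tau (xiS a ρ) = ∑ A ∈ ρ.powerset, ∑ B ∈ ρ.powerset,
      if A ∪ B = ρ then epS B A • (a A ⊗ₜ[ZMod 2] star (a B)) else 0 := by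
  unfold xiS
  rw [map_sum]
  have h1 : ∀ A ∈ ρ.powerset, tau (∑ B ∈ ρ.powerset,
      if A ∪ B = ρ then epS A B • (a A ⊗ₜ[ZMod 2] star (a B)) else 0) =
      ∑ B ∈ ρ.powerset, if B ∪ A = ρ then epS A B • (a B ⊗ₜ[ZMod 2] star (a A)) else 0 := by
    intro A _
    rw [map_sum]
    refine Finset.sum_congr rfl fun B _ => ?_
    rw [Finset.union_comm]
    split_ifs
    · rw [map_smul, tau_tmul, star_star]
    · rw [map_zero]
  rw [Finset.sum_congr rfl h1, Finset.sum_comm]

/-- Steenrod's formula. -/
theorem xiS_bd (a : Finset P → D) (ρ : Finset P)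
    (h : ∀ C ⊆ ρ, ∑ p ∈ C, a (C.erase p) = 0) :
    ∑ p ∈ ρ, xiS a (ρ.erase p) = xiS a ρ + tau (xiS a ρ) := by
  classical
  have h1 := txi_main (fun A B => a A ⊗ₜ[ZMod 2] star (a B)) ρ
    (fun C hC B _ => by
      rw [← TensorProduct.sum_tmul, h C (Finset.mem_powerset.mp hC), TensorProduct.zero_tmul])
    (fun C hC A _ => by
      rw [← TensorProduct.tmul_sum, ← star_sum, h C (Finset.mem_powerset.mp hC), star_zero,
        TensorProduct.tmul_zero])
  rw [tau_xiS]
  unfold xiS
  rw [h1, ← Finset.sum_add_distrib]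
  refine Finset.sum_congr rfl fun A _ => ?_
  rw [← Finset.sum_add_distrib]
  refine Finset.sum_congr rfl fun B _ => ?_
  split_ifs
  · rw [add_smul]
  · rw [add_zero]

/-- The bottom: for a function supported on the sets with `k` elements, `xiS` vanishes on the sets
with less than `k` elements. -/
theorem xiS_low (a : Finset P → D) (k : ℕ) (ha : ∀ σ, σ.card ≠ k → a σ = 0) (ρ : Finset P)
    (h : ρ.card < k) : xiS a ρ = 0 := by
  classical
  unfold xiS
  refine Finset.sum_eq_zero fun A hA => Finset.sum_eq_zero fun B _ => ?_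
  have h1 : A.card ≠ k := by
    have := Finset.card_le_card (Finset.mem_powerset.mp hA)
    omega
  rw [ha A h1, TensorProduct.zero_tmul, smul_zero, ite_self]

/-- On the sets with `k` elements it is the square. -/
theorem xiS_eq (a : Finset P → D) (k : ℕ) (ha : ∀ σ, σ.card ≠ k → a σ = 0) (ρ : Finset P)
    (h : ρ.card = k) : xiS a ρ = a ρ ⊗ₜ[ZMod 2] star (a ρ) := by
  classical
  unfold xiS
  rw [Finset.sum_eq_single_of_mem ρ (Finset.mem_powerset_self ρ),
    Finset.sum_eq_single_of_mem ρ (Finset.mem_powerset_self ρ)]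
  · rw [if_pos (Finset.union_self ρ)]
    unfold epS
    rw [if_pos (patS_self ρ), one_smul]
  · intro B hB hne
    have h1 : B.card ≠ k := fun h2 => hne (Finset.eq_of_subset_of_card_le
      (Finset.mem_powerset.mp hB) (by rw [h, h2]))
    rw [ha B h1, star_zero, TensorProduct.tmul_zero, smul_zero, ite_self]
  · intro A hA hne
    have h1 : A.card ≠ k := fun h2 => hne (Finset.eq_of_subset_of_card_le
      (Finset.mem_powerset.mp hA) (by rw [h, h2]))
    refine Finset.sum_eq_zero fun B _ => ?_
    rw [ha A h1, TensorProduct.zero_tmul, smul_zero, ite_self]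

/-- The top: `xiS` vanishes on the sets with at least `2 k` elements (`k ≥ 1`). -/
theorem xiS_high (a : Finset P → D) (k : ℕ) (hk : 1 ≤ k) (ha : ∀ σ, σ.card ≠ k → a σ = 0)
    (ρ : Finset P) (h : 2 * k ≤ ρ.card) : xiS a ρ = 0 := by
  classical
  unfold xiS
  refine Finset.sum_eq_zero fun A _ => Finset.sum_eq_zero fun B _ => ?_
  by_cases hA : A.card = k
  · by_cases hB : B.card = k
    · split_ifs with hU
      · have h1 : ¬ patS A B := by
          intro hp
          have h2 : (A ∩ B).card = 0 := by
            have := Finset.card_union_add_card_inter A B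
            rw [hU] at this
            omega
          have h3 : A ∩ B = ∅ := Finset.card_eq_zero.mp h2
          obtain ⟨x, hx⟩ : B.Nonempty := Finset.card_pos.mp (by omega)
          have h4 : x ∈ B \ A := by
            rw [Finset.mem_sdiff]
            refine ⟨hx, fun hxA => ?_⟩
            have : x ∈ A ∩ B := Finset.mem_inter.mpr ⟨hxA, hx⟩
            rw [h3] at this
            exact Finset.notMem_empty x this
          have h5 := hp.2 x h4
          rw [h3] at h5
          simp at h5
        unfold epS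
        rw [if_neg h1, zero_smul]
      · rfl
    · rw [ha B hB, star_zero, TensorProduct.tmul_zero, smul_zero, ite_self]
  · rw [ha A hA, TensorProduct.zero_tmul, smul_zero, ite_self]

end SingerRA
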