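import Mathlib
import Pool.Agent.Lib_MP_394d50_vs.VDefs
import Pool.Agent.Lib_MP_394d50_all.TDefs
import Pool.Agent.Lib_MP_394d50_all.EBase
import Pool.Agent.Lib_MP_394d50_all.TTens

/-!
# The coefficient modules `D`, `D ⊗ D` and its dual
-/

namespace SingerVS

open SingerRA
open scoped TensorProduct

variable {H : Type} [Group H]

section

variable {D : Type} [DivisionRing D] [Algebra (ZMod 2) D]

/-- `h` acts on `D` by the right multiplication by `(j h)⁻¹`. -/
def rhoD (j : H →* Dˣ) : H →* Module.End (ZMod 2) D where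
  toFun h := LinearMap.mulRight (ZMod 2) (((j h)⁻¹ : Dˣ) : D)
  map_one' := by
    ext x
    simp
  map_mul' g h := by
    ext x
    simp [mul_assoc]

theorem rhoD_apply (j : H →* Dˣ) (h : H) (x : D) :
    rhoD j h x = x * (((j h)⁻¹ : Dˣ) : D) := rfl

/-- `h` acts on `D ⊗ D` by `a ⊗ b ↦ a (j h)⁻¹ ⊗ (j h) b`. -/
noncomputable def rhoT (j : H →* Dˣ) : H →* Module.End (ZMod 2) (TT D) where
  toFun h := act (j h)
  map_one' := by
    apply LinearMap.ext
    intro x
    rw [map_one, act_one]
    rfl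
  map_mul' g h := by
    apply LinearMap.ext
    intro x
    rw [map_mul, act_mul]
    rfl

theorem rhoT_apply (j : H →* Dˣ) (h : H) (x : TT D) : rhoT j h x = act (j h) x := rfl

theorem rhoT_tmul (j : H →* Dˣ) (h : H) (a b : D) : rhoT j h (a ⊗ₜ[ZMod 2] b) =
    (a * (((j h)⁻¹ : Dˣ) : D)) ⊗ₜ[ZMod 2] (((j h : Dˣ) : D) * b) := act_tmul (j h) a b

end

/-- The dual representation `(h b) x = b (h⁻¹ x)`. -/
def rhoB {N : Type} [AddCommGroup N] [Module (ZMod 2) N] (ρ : H →* Module.End (ZMod 2) N) :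
    H →* Module.End (ZMod 2) (Module.Dual (ZMod 2) N) where
  toFun h := Module.Dual.transpose (ρ h⁻¹)
  map_one' := by
    apply LinearMap.ext
    intro b
    apply LinearMap.ext
    intro x
    rw [inv_one, map_one]
    rfl
  map_mul' g h := by
    apply LinearMap.ext
    intro b
    apply LinearMap.ext
    intro x
    rw [mul_inv_rev, map_mul]
    rfl

theorem rhoB_apply {N : Type} [AddCommGroup N] [Module (ZMod 2) N]
    (ρ : H →* Module.End (ZMod 2) N) (h : H) (b : Module.Dual (ZMod 2) N) (x : N) :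
    rhoB ρ h b x = b (ρ h⁻¹ x) := rfl

end SingerVS
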