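import Mathlib
import Pool.Agent.Lib_MP_394d50_all.TTens
import Pool.Agent.Lib_MP_394d50_vs.VBase
import Pool.Agent.Lib_MP_394d50_vs.VCoef
import Pool.Agent.Lib_MP_394d50_vs.TXi

/-!
# The Tate argument on a simplicial complex

`tateV`: if the equivariant cochains with values in `D ⊗ D` are exact in the cards `1, …, n` then
those with values in `D` are exact in the cards `k` with `2 (k - 1) < n`.
-/

namespace SingerVS

open SingerRA
open scoped TensorProduct Pointwise

section

variable {D : Type} [DivisionRing D] [Algebra (ZMod 2) D] [StarRing D]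

/-- `1 + tau`. -/
noncomputable def NT : TT D →ₗ[ZMod 2] TT D := LinearMap.id + tau

theorem NT_apply (x : TT D) : NT x = x + tau x := rfl

theorem tt_two {N : Type} [AddCommGroup N] [Module (ZMod 2) N] (x : N) : x + x = 0 :=
  ZModModule.add_self x

theorem tt_eq_of_add {N : Type} [AddCommGroup N] [Module (ZMod 2) N] {x y : N}
    (h : x + y = 0) : x = y := by
  have h1 := tt_two y
  calc x = x + (y + y) := by rw [h1, add_zero]
    _ = (x + y) + y := by rw [add_assoc]
    _ = y := by rw [h, zero_add]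

theorem NT_NT (x : TT D) : NT (NT x) = 0 := by
  rw [NT_apply, NT_apply, map_add, tau_tau, add_comm (tau x) x]
  exact tt_two _

theorem NT_sq (z : D) : NT (z ⊗ₜ[ZMod 2] star z) = 0 := by
  rw [NT_apply, tau_tmul, star_star]
  exact tt_two _

/-- The square of a sum. -/
theorem sq_sum {ι : Type} (s : Finset ι) (x : ι → D) : ∃ e : TT D,
    (∑ i ∈ s, x i) ⊗ₜ[ZMod 2] star (∑ i ∈ s, x i) =
      ∑ i ∈ s, (x i ⊗ₜ[ZMod 2] star (x i)) + NT e := by
  classical
  induction s using Finset.induction_on with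
  | empty => exact ⟨0, by simp⟩
  | insert a s ha ih =>
    obtain ⟨e, he⟩ := ih
    refine ⟨e + x a ⊗ₜ[ZMod 2] star (∑ i ∈ s, x i), ?_⟩
    rw [Finset.sum_insert ha, Finset.sum_insert ha, star_add, TensorProduct.tmul_add,
      TensorProduct.add_tmul, TensorProduct.add_tmul, he, map_add, NT_apply (x a ⊗ₜ[ZMod 2] _),
      tau_tmul, star_star]
    abel

theorem sq_add (x y : D) : ∃ e : TT D, (x + y) ⊗ₜ[ZMod 2] star (x + y) =
    x ⊗ₜ[ZMod 2] star x + y ⊗ₜ[ZMod 2] star y + NT e := by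
  refine ⟨x ⊗ₜ[ZMod 2] star y, ?_⟩
  rw [star_add, TensorProduct.tmul_add, TensorProduct.add_tmul, TensorProduct.add_tmul, NT_apply,
    tau_tmul, star_star]
  abel

end

section

variable {H : Type} [Group H] {P : Type} [LinearOrder P] [MulAction H P] {X : Set (Finset P)}
  {D : Type} [DivisionRing D] [Algebra (ZMod 2) D] [StarRing D]

theorem dl_comp {N N' : Type} [AddCommGroup N] [Module (ZMod 2) N] [AddCommGroup N']
    [Module (ZMod 2) N'] (f : N →ₗ[ZMod 2] N') (c : Finset P → N) :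
    dl X (fun σ => f (c σ)) = fun σ => f (dl X c σ) := by
  classical
  funext σ
  by_cases hσ : σ ∈ X
  · rw [dl_apply hσ, dl_apply hσ, map_sum]
  · rw [dl_apply_not hσ, dl_apply_not hσ, map_zero]

theorem co_comp {N : Type} [AddCommGroup N] [Module (ZMod 2) N]
    {ρ : H →* Module.End (ZMod 2) N} (f : N →ₗ[ZMod 2] N) (hf : ∀ h x, f (ρ h x) = ρ h (f x))
    {k : ℕ} {c : Finset P → N} (hc : c ∈ Co ρ X k) : (fun σ => f (c σ)) ∈ Co ρ X k := by
  refine ⟨fun σ hσ => ?_, fun h σ hσ => ?_⟩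
  · show f (c σ) = 0
    rw [hc.1 σ hσ, map_zero]
  · show f (c (h • σ)) = ρ h (f (c σ))
    rw [hc.2 h σ hσ, hf]

variable (t : H →* Dˣ) (ht : ∀ h, star ((t h : Dˣ) : D) = (((t h)⁻¹ : Dˣ) : D))

include ht in
theorem NT_rhoT (h : H) (x : TT D) : NT (rhoT t h x) = rhoT t h (NT x) := by
  rw [NT_apply, NT_apply, map_add, rhoT_apply, act_tau _ (ht h), rhoT_apply]

include ht in
theorem co_NT {k : ℕ} {c : Finset P → TT D} (hc : c ∈ Co (rhoT t) X k) :
    (fun σ => NT (c σ)) ∈ Co (rhoT t) X k := co_comp NT (NT_rhoT t ht) hc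

/-- The order is invariant on the simplices. -/
def OrdInv (H : Type) [Group H] {P : Type} [LinearOrder P] [MulAction H P]
    (X : Set (Finset P)) : Prop :=
  ∀ h : H, ∀ σ ∈ X, ∀ x ∈ σ, ∀ y ∈ σ, x < y → h • x < h • y

theorem OrdInv.lt_iff (ho : OrdInv H X) {σ : Finset P} (hσ : σ ∈ X) (h : H) {x y : P}
    (hx : x ∈ σ) (hy : y ∈ σ) : h • x < h • y ↔ x < y := by
  constructor
  · intro h1
    rcases lt_trichotomy x y with h2 | h2 | h2
    · exact h2
    · subst h2
      exact absurd h1 (lt_irrefl _)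
    · exact absurd (ho h σ hσ y hy x hx h2) (not_lt.mpr h1.le)
  · exact ho h σ hσ x hx y hy

/-- Equivariance of the pattern. -/
theorem patS_smul (ho : OrdInv H X) {ρ : Finset P} (hρ : ρ ∈ X) (h : H) {A B : Finset P}
    (hA : A ⊆ ρ) (hB : B ⊆ ρ) : patS (h • A) (h • B) ↔ patS A B := by
  have hN : ∀ x ∈ ρ, (((h • A) ∩ (h • B)).filter (· < h • x)).card =
      ((A ∩ B).filter (· < x)).card := by
    intro x hx
    have h1 : ((h • A) ∩ (h • B)).filter (· < h • x) = h • ((A ∩ B).filter (· < x)) := by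
      ext y
      rw [Finset.mem_filter, ← Finset.smul_finset_inter, ← Finset.inv_smul_mem_iff,
        ← Finset.inv_smul_mem_iff, Finset.mem_filter]
      refine and_congr_right fun hy => ?_
      have hy' : h⁻¹ • y ∈ ρ := hA (Finset.mem_inter.mp hy).1
      have h2 := ho.lt_iff hρ h hy' hx
      rw [smul_inv_smul] at h2
      exact h2
    rw [h1, card_smul]
  have hmem : ∀ (A B : Finset P) (x : P), h • x ∈ (h • A) \ (h • B) ↔ x ∈ A \ B := by
    intro A B x
    rw [← Finset.smul_finset_sdiff, Finset.smul_mem_smul_finset_iff]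
  unfold patS
  constructor
  · rintro ⟨h1, h2⟩
    refine ⟨fun x hx => ?_, fun x hx => ?_⟩
    · have := h1 (h • x) ((hmem A B x).mpr hx)
      rwa [hN x (hA (Finset.mem_sdiff.mp hx).1)] at this
    · have := h2 (h • x) ((hmem B A x).mpr hx)
      rwa [hN x (hB (Finset.mem_sdiff.mp hx).1)] at this
  · rintro ⟨h1, h2⟩
    refine ⟨fun y hy => ?_, fun y hy => ?_⟩
    · obtain ⟨x, rfl⟩ : ∃ x, y = h • x := ⟨h⁻¹ • y, (smul_inv_smul h y).symm⟩
      have hx := (hmem A B x).mp hy
      rw [hN x (hA (Finset.mem_sdiff.mp hx).1)]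
      exact h1 x hx
    · obtain ⟨x, rfl⟩ : ∃ x, y = h • x := ⟨h⁻¹ • y, (smul_inv_smul h y).symm⟩
      have hx := (hmem B A x).mp hy
      rw [hN x (hB (Finset.mem_sdiff.mp hx).1)]
      exact h2 x hx

theorem powerset_smul (h : H) (ρ : Finset P) :
    (h • ρ).powerset = ρ.powerset.image (fun A => h • A) := by
  ext A
  simp only [Finset.mem_powerset, Finset.mem_image]
  constructor
  · intro h1
    exact ⟨h⁻¹ • A, Finset.subset_smul_finset_iff.mp h1, smul_inv_smul h A⟩
  · rintro ⟨B, hB, rfl⟩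
    exact Finset.smul_finset_subset_smul_finset hB

include ht in
theorem xiS_smul (hX : FreeCx H X) (ho : OrdInv H X) {k : ℕ} {a : Finset P → D}
    (ha : a ∈ Co (rhoD t) X k) {ρ : Finset P} (hρ : ρ ∈ X) (h : H) :
    xiS a (h • ρ) = rhoT t h (xiS a ρ) := by
  classical
  unfold xiS
  rw [powerset_smul, Finset.sum_image (fun A _ B _ e => MulAction.injective h e), map_sum]
  refine Finset.sum_congr rfl fun A hA => ?_
  rw [Finset.sum_image (fun A _ B _ e => MulAction.injective h e), map_sum]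
  refine Finset.sum_congr rfl fun B hB => ?_
  have h1 : (h • A ∪ h • B = h • ρ) ↔ A ∪ B = ρ := by
    rw [← Finset.smul_finset_union]
    exact smul_left_cancel_iff h
  have h2 : epS (h • A) (h • B) = epS A B := by
    unfold epS
    simp only [patS_smul ho hρ h (Finset.mem_powerset.mp hA) (Finset.mem_powerset.mp hB)]
  by_cases h3 : A ∪ B = ρ
  · rw [if_pos (h1.mpr h3), if_pos h3, h2, map_smul, rhoT_tmul, hX.co_eqv ha, hX.co_eqv ha,
      rhoD_apply, rhoD_apply, star_mul]
    congr 3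
    have h4 := ht h
    have h5 : star ((((t h)⁻¹ : Dˣ) : D)) = ((t h : Dˣ) : D) := by
      rw [← h4, star_star]
    rw [h5]
  · rw [if_neg (fun h4 => h3 (h1.mp h4)), if_neg h3, map_zero]

open scoped Classical in
/-- The component of card `j` of `xiS a`. -/
noncomputable def xc (X : Set (Finset P)) (a : Finset P → D) (j : ℕ) : Finset P → TT D :=
  fun ρ => if ρ ∈ X ∧ ρ.card = j then xiS a ρ else 0

include ht in
theorem xc_mem (hX : FreeCx H X) (ho : OrdInv H X) {k : ℕ} {a : Finset P → D}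
    (ha : a ∈ Co (rhoD t) X k) (j : ℕ) : xc X a j ∈ Co (rhoT t) X j := by
  classical
  refine ⟨fun σ hσ => if_neg hσ, fun h σ hσ => ?_⟩
  unfold xc
  by_cases h1 : σ.card = j
  · rw [if_pos ⟨hX.inv h σ hσ, (card_smul h σ).trans h1⟩, if_pos ⟨hσ, h1⟩]
    exact xiS_smul t ht hX ho ha hσ h
  · rw [if_neg (fun h2 => h1 ((card_smul h σ).symm.trans h2.2)), if_neg (fun h2 => h1 h2.2),
      map_zero]

theorem co_card {N : Type} [AddCommGroup N] [Module (ZMod 2) N]
    {ρ : H →* Module.End (ZMod 2) N} {k : ℕ} {a : Finset P → N} (ha : a ∈ Co ρ X k)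
    (σ : Finset P) (h : σ.card ≠ k) : a σ = 0 := ha.1 σ fun h1 => h h1.2

theorem xc_dl (hX : FreeCx H X) {k : ℕ} {a : Finset P → D}
    (ha : a ∈ Co (rhoD t) X k) (hd : dl X a = 0) (j : ℕ) :
    dl X (xc X a j) = fun σ => NT (xc X a (j + 1) σ) := by
  classical
  have h0 : a ∅ = 0 := ha.1 ∅ fun h => hX.empty_notMem h.1
  funext ρ
  by_cases hρ : ρ ∈ X
  · rw [dl_apply hρ]
    by_cases hc : ρ.card = j + 1
    · have h1 : ∀ p ∈ ρ, xc X a j (ρ.erase p) = xiS a (ρ.erase p) := by
        intro p hp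
        unfold xc
        by_cases hne : (ρ.erase p).Nonempty
        · rw [if_pos]
          refine ⟨hX.down ρ hρ _ (Finset.erase_subset p ρ) hne, ?_⟩
          rw [Finset.card_erase_of_mem hp, hc]
          rfl
        · have h2 : ρ.erase p = ∅ := Finset.not_nonempty_iff_eq_empty.mp hne
          rw [h2, if_neg (fun h => hX.empty_notMem h.1)]
          unfold xiS
          rw [Finset.powerset_empty, Finset.sum_singleton, Finset.sum_singleton, h0]
          simp
      rw [Finset.sum_congr rfl h1, xiS_bd a ρ]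
      · unfold xc
        rw [if_pos ⟨hρ, hc⟩, NT_apply]
      · intro C hC
        rcases C.eq_empty_or_nonempty with rfl | hne
        · rfl
        · have h3 := congrFun hd C
          rwa [dl_apply (hX.down ρ hρ C hC hne)] at h3
    · have h1 : xc X a (j + 1) ρ = 0 := if_neg fun h => hc h.2
      rw [h1, map_zero]
      refine Finset.sum_eq_zero fun p hp => if_neg fun h => hc ?_
      rw [← h.2, Finset.card_erase_of_mem hp]
      have := Finset.card_pos.mpr (hX.ne ρ hρ)
      omega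
  · rw [dl_apply_not hρ]
    have h1 : xc X a (j + 1) ρ = 0 := if_neg fun h => hρ h.1
    rw [h1, map_zero]

theorem xc_low {k : ℕ} {a : Finset P → D} (ha : a ∈ Co (rhoD t) X k) {j : ℕ} (hj : j < k) :
    xc X a j = 0 := by
  funext ρ
  unfold xc
  split_ifs with h
  · exact xiS_low a k (fun σ hσ => co_card ha σ hσ) ρ (by omega)
  · rfl

theorem xc_high {k : ℕ} (hk : 1 ≤ k) {a : Finset P → D} (ha : a ∈ Co (rhoD t) X k) {j : ℕ}
    (hj : 2 * k ≤ j) : xc X a j = 0 := by
  funext ρ
  unfold xc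
  split_ifs with h
  · exact xiS_high a k hk (fun σ hσ => co_card ha σ hσ) ρ (by omega)
  · rfl

theorem xc_eq {k : ℕ} {a : Finset P → D} (ha : a ∈ Co (rhoD t) X k) (ρ : Finset P) :
    xc X a k ρ = a ρ ⊗ₜ[ZMod 2] star (a ρ) := by
  unfold xc
  split_ifs with h
  · exact xiS_eq a k (fun σ hσ => co_card ha σ hσ) ρ h.2
  · rw [ha.1 ρ h, TensorProduct.zero_tmul]

end

end SingerVS
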