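import Mathlib
import Pool.Agent.Lib_MP_394d50_all.UBase
import Pool.Agent.Lib_MP_394d50_all.RFin

/-!
# Ranks: from exactness over the ultraproduct to ranks over finite group rings
-/

namespace SingerVS

open SingerRA Matrix Filter

section exact

variable {D : Type} [DivisionRing D] {a b e : Type} [Fintype a] [Fintype b] [Fintype e]

/-- Exactness at the middle term of `D^a → D^b → D^e` (row vectors). -/
def ExMat (A : Matrix a b D) (B : Matrix b e D) : Prop :=
  ∀ x : b → D, x ᵥ* B = 0 → ∃ y : a → D, y ᵥ* A = x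

/-- An exact pair of matrices splits. -/
theorem exMat_split [DecidableEq b] [DecidableEq e] {A : Matrix a b D} {B : Matrix b e D}
    (h : ExMat A B) : ∃ (Y : Matrix b a D) (Z : Matrix e b D), Y * A + B * Z = 1 := by
  classical
  obtain ⟨s, hs⟩ := LinearMap.exists_rightInverse_of_surjective B.vecMulLinear.rangeRestrict
    (LinearMap.range_rangeRestrict _)
  obtain ⟨t, ht⟩ := LinearMap.exists_extend s
  have h1 : ∀ x : b → D, (x - t (x ᵥ* B)) ᵥ* B = 0 := by
    intro x
    have h2 : t (x ᵥ* B) = s ⟨x ᵥ* B, ⟨x, rfl⟩⟩ := by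
      rw [← ht]
      rfl
    have h3 := LinearMap.congr_fun hs ⟨x ᵥ* B, ⟨x, rfl⟩⟩
    have h4 : (s ⟨x ᵥ* B, ⟨x, rfl⟩⟩) ᵥ* B = x ᵥ* B := congrArg Subtype.val h3
    rw [Matrix.sub_vecMul, h2, h4, sub_self]
  have h5 : ∀ i : b, ∃ y : a → D, y ᵥ* A = Pi.single i 1 - t ((Pi.single i 1 : b → D) ᵥ* B) :=
    fun i => h _ (h1 _)
  choose Y hY using h5
  have hZ : ∀ w : e → D, t w = w ᵥ* (Matrix.of fun i => t (Pi.single i 1)) := by
    intro w
    conv_lhs => rw [pi_eq_sum_univ' w]
    rw [map_sum]
    funext j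
    rw [Finset.sum_apply, Matrix.vecMul, dotProduct]
    refine Finset.sum_congr rfl fun i _ => ?_
    rw [map_smul, Pi.smul_apply, smul_eq_mul]
    rfl
  refine ⟨Matrix.of Y, Matrix.of fun i => t (Pi.single i 1), ?_⟩
  apply Matrix.ext
  intro i j
  have h7 : (Matrix.of Y * A) i = Y i ᵥ* A := by
    funext j
    rw [Matrix.mul_apply, Matrix.vecMul, dotProduct]
    rfl
  have h8 : (B * (Matrix.of fun i => t (Pi.single i 1))) i =
      ((Pi.single i 1 : b → D) ᵥ* B) ᵥ* (Matrix.of fun i => t (Pi.single i 1)) := by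
    rw [Matrix.single_one_vecMul]
    funext j
    rw [Matrix.mul_apply, Matrix.vecMul, dotProduct]
    rfl
  rw [Matrix.add_apply, h7, h8, ← hZ, hY, Pi.sub_apply, sub_add_cancel, Matrix.one_apply,
    Pi.single_apply]
  exact if_congr eq_comm rfl rfl

theorem exMat_of_split [DecidableEq b] {A : Matrix a b D} {B : Matrix b e D} (Y : Matrix b a D)
    (Z : Matrix e b D) (h : Y * A + B * Z = 1) : ExMat A B := by
  intro x hx
  refine ⟨x ᵥ* Y, ?_⟩
  have h1 : x ᵥ* (Y * A + B * Z) = x := by rw [h, Matrix.vecMul_one]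
  rw [Matrix.vecMul_add, ← Matrix.vecMul_vecMul, ← Matrix.vecMul_vecMul, hx, Matrix.zero_vecMul,
    add_zero] at h1
  exact h1

/-- Independent rows. -/
theorem exMat_rows {A : Matrix a b D} {B : Matrix b e D} (h : ExMat A B) :
    ∃ (κ κ' : Type) (_ : Fintype κ) (_ : Fintype κ') (f : κ → a) (f' : κ' → b),
      LinearIndependent D (fun i => A (f i)) ∧ LinearIndependent D (fun i => B (f' i)) ∧
      Fintype.card b ≤ Fintype.card κ + Fintype.card κ' := by
  classical
  obtain ⟨κ, f, hf, hspan, hli⟩ := exists_linearIndependent' D A.row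
  obtain ⟨κ', f', hf', hspan', hli'⟩ := exists_linearIndependent' D B.row
  have i1 : Fintype κ := Fintype.ofInjective f hf
  have i2 : Fintype κ' := Fintype.ofInjective f' hf'
  refine ⟨κ, κ', i1, i2, f, f', hli, hli', ?_⟩
  have hrn := LinearMap.finrank_range_add_finrank_ker B.vecMulLinear
  rw [Module.finrank_fintype_fun_eq_card, range_vecMulLinear, ← hspan',
    finrank_span_eq_card hli'] at hrn
  have h1 : LinearMap.ker B.vecMulLinear ≤ LinearMap.range A.vecMulLinear := by
    intro x hx
    obtain ⟨y, hy⟩ := h x hx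
    exact ⟨y, hy⟩
  have h2 := Submodule.finrank_mono h1
  rw [range_vecMulLinear, ← hspan, finrank_span_eq_card hli] at h2
  omega

end exact

/-! ## The regular representation -/

/-- The matrix of the regular representation. -/
def regM {a b Q : Type} [Group Q] (M : Matrix a b (MonoidAlgebra (ZMod 2) Q)) :
    Matrix (a × Q) (b × Q) (ZMod 2) :=
  Matrix.of fun p q => (M p.1 q.1).coeff (p.2⁻¹ * q.2)

theorem rank_regM {N Q : Type} [Group N] [Group Q] [Fintype Q] (π : N →* Q) {a b : Type}
    [Fintype a] [Fintype b] (M : Matrix a b (MonoidAlgebra (ZMod 2) N)) {D : Type}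
    [DivisionRing D] (ι : MonoidAlgebra (ZMod 2) N →+* D) (hι : Function.Injective ι)
    {κ : Type} [Fintype κ] (f : κ → a)
    (hli : LinearIndependent D (fun i => (fun j => ι (M (f i) j) : b → D)))
    (F B S : Finset N) (hS : ∀ i j, (M i j).coeff.support ⊆ S) (hπ : Set.InjOn π F)
    (hB : ∀ g ∈ B, ∀ s ∈ S, g * s ∈ F) :
    Fintype.card κ * B.card ≤
      (regM (M.map (MonoidAlgebra.mapDomainRingHom (ZMod 2) π))).rank := by
  classical
  set φ := MonoidAlgebra.mapDomainRingHom (ZMod 2) π with hφ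
  have hlw : LinearIndependent (ZMod 2)
      (fun p : κ × B => regM (M.map φ) (f p.1, π (p.2 : N))) := by
    rw [Fintype.linearIndependent_iff]
    intro g hg
    have key : ∀ j, ∑ p : κ × B, g p • (gN (p.2 : N) * M (f p.1) j) = 0 := by
      intro j
      apply ra_mapDomain_inj π F hπ
      · intro n hn
        rw [MonoidAlgebra.coeff_sum] at hn
        obtain ⟨p, _, hp⟩ := Finset.mem_biUnion.mp (Finsupp.support_finsetSum hn)
        have h1 : n ∈ (gN (p.2 : N) * M (f p.1) j).coeff.support := by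
          rw [MonoidAlgebra.coeff_smul] at hp
          exact Finsupp.support_smul hp
        have h2 := MonoidAlgebra.support_coeff_single_mul_subset (M (f p.1) j) (1 : ZMod 2)
          (p.2 : N) h1
        obtain ⟨s, hs, rfl⟩ := Finset.mem_image.mp h2
        exact hB p.2 p.2.2 s (hS _ j hs)
      · apply MonoidAlgebra.coeff_injective
        ext h
        have h1 := congrFun hg (j, h)
        rw [Finset.sum_apply] at h1
        rw [map_sum, MonoidAlgebra.coeff_sum, Finsupp.finsetSum_apply]
        refine Eq.trans (Finset.sum_congr rfl fun p _ => ?_) h1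
        show _ = g p • (φ (M (f p.1) j)).coeff ((π (p.2 : N))⁻¹ * h)
        have e2 : φ (g p • (gN (p.2 : N) * M (f p.1) j)) =
            g p • (gN (π (p.2 : N)) * φ (M (f p.1) j)) := by
          rcases zm2_cases (g p) with hg | hg
          · rw [hg, zero_smul, zero_smul, map_zero]
          · rw [hg, one_smul, one_smul, map_mul, hφ, ra_map_gN]
        rw [e2]
        show g p • ((gN (π (p.2 : N)) * φ (M (f p.1) j)).coeff h) = _
        congr 1
        show (MonoidAlgebra.single (π (p.2 : N)) 1 * φ (M (f p.1) j)).coeff h = _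
        rw [MonoidAlgebra.coeff_single_mul_apply, one_mul]
    have key2 : ∑ i, ι (∑ b : B, g (i, b) • gN (b : N)) •
        (fun j => ι (M (f i) j) : b → D) = 0 := by
      funext j
      rw [Finset.sum_apply]
      have h1 := congrArg ι (key j)
      rw [map_zero, Fintype.sum_prod_type, map_sum] at h1
      refine Eq.trans (Finset.sum_congr rfl fun i _ => ?_) h1
      show ι (∑ b : B, g (i, b) • gN (b : N)) * ι (M (f i) j) = _
      rw [← map_mul, Finset.sum_mul]
      congr 1
      refine Finset.sum_congr rfl fun b _ => ?_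
      rw [smul_mul_assoc]
    have key3 := Fintype.linearIndependent_iff.mp hli _ key2
    rintro ⟨i, b⟩
    have h1 : ∑ b : B, g (i, b) • gN (b : N) = 0 := hι ((key3 i).trans (map_zero ι).symm)
    have h2 := congrArg (fun x => x.coeff (b : N)) h1
    rw [MonoidAlgebra.coeff_sum, Finsupp.finsetSum_apply, Finset.sum_eq_single b] at h2
    · have h3 : (g (i, b) • gN (b : N)).coeff (b : N) = g (i, b) := by
        show g (i, b) • (MonoidAlgebra.single (b : N) (1 : ZMod 2)).coeff (b : N) = g (i, b)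
        rw [MonoidAlgebra.coeff_single, Finsupp.single_eq_same, smul_eq_mul, mul_one]
      rw [h3] at h2
      exact h2
    · intro c _ hc
      show g (i, c) • (MonoidAlgebra.single (c : N) (1 : ZMod 2)).coeff (b : N) = 0
      rw [MonoidAlgebra.coeff_single, Finsupp.single_eq_of_ne, smul_zero]
      intro h
      exact hc (Subtype.ext h.symm)
    · intro h
      exact absurd (Finset.mem_univ b) h
  have h4 : ((regM (M.map φ)).submatrix (fun p : κ × B => (f p.1, π (p.2 : N))) id).rank =
      Fintype.card (κ × B) := by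
    apply LinearIndependent.rank_matrix
    exact hlw
  rw [Fintype.card_prod, Fintype.card_coe] at h4
  rw [← h4]
  exact rank_submatrix_le _ _ _

/-! ## From the ultraproduct to its factors -/

theorem exMat_of_up (D : ℕ → Type) [∀ c, DivisionRing (D c)] {a b e : Type} [Fintype a]
    [Fintype b] [Fintype e] (A : ∀ c, Matrix a b (D c)) (B : ∀ c, Matrix b e (D c))
    (h : ExMat (Matrix.of fun i j => upm D (fun c => A c i j))
      (Matrix.of fun i j => upm D (fun c => B c i j))) :
    ∀ᶠ c in (hyperfilter ℕ : Filter ℕ), ExMat (A c) (B c) := by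
  classical
  obtain ⟨Y, Z, hYZ⟩ := exMat_split h
  choose Y' hY' using fun i j => upm_surj D (Y i j)
  choose Z' hZ' using fun i j => upm_surj D (Z i j)
  have h1 : ∀ i j, upm D (fun c => (∑ k, Y' i k c * A c k j) + ∑ k, B c i k * Z' k j c) =
      upm D (fun _ => if i = j then 1 else 0) := by
    intro i j
    have e1 : (fun c => (∑ k, Y' i k c * A c k j) + ∑ k, B c i k * Z' k j c) =
        (∑ k, Y' i k * fun c => A c k j) + ∑ k, (fun c => B c i k) * Z' k j := by
      funext c
      rw [Pi.add_apply, Finset.sum_apply, Finset.sum_apply]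
      rfl
    have e2 : (fun _ => if i = j then 1 else 0 : (c : ℕ) → D c) = if i = j then 1 else 0 := by
      split_ifs <;> rfl
    have e3 := congrFun (congrFun hYZ i) j
    rw [Matrix.add_apply, Matrix.mul_apply, Matrix.mul_apply, Matrix.one_apply] at e3
    rw [e1, e2, map_add, map_sum, map_sum]
    refine Eq.trans ?_ (e3.trans ?_)
    · congr 1
      · refine Finset.sum_congr rfl fun k _ => ?_
        rw [map_mul, hY']
        rfl
      · refine Finset.sum_congr rfl fun k _ => ?_
        rw [map_mul, hZ']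
        rfl
    · split_ifs
      · rw [map_one]
      · rw [map_zero]
  have h2 : ∀ᶠ c in (hyperfilter ℕ : Filter ℕ), ∀ i j,
      (∑ k, Y' i k c * A c k j) + ∑ k, B c i k * Z' k j c = if i = j then 1 else 0 := by
    rw [eventually_all]
    intro i
    rw [eventually_all]
    intro j
    exact (upm_eq D _ _).mp (h1 i j)
  filter_upwards [h2] with c hc
  refine exMat_of_split (Matrix.of fun i k => Y' i k c) (Matrix.of fun k j => Z' k j c) ?_
  apply Matrix.ext
  intro i j
  rw [Matrix.add_apply, Matrix.mul_apply, Matrix.mul_apply, Matrix.one_apply]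
  exact hc i j

/-! ## The conclusion -/

/-- Finite quotients with Følner tiles. -/
def FolN (N : Type) [Group N] : Prop :=
  ∀ (S : Finset N) (ε : ℝ), 0 < ε → ∃ (Q : Type) (_ : Group Q) (_ : Finite Q) (π : N →* Q)
    (F B : Finset N), Set.InjOn π F ∧ (∀ g ∈ B, ∀ s ∈ S, g * s ∈ F) ∧
    (1 - ε) * (Nat.card Q : ℝ) ≤ (B.card : ℝ)

theorem folN_of_folQ {V : Type} [DecidableEq V] {N : Type} [Group N] (t : V → N)
    (h : FolQ t) : FolN N := by
  intro S ε hε
  obtain ⟨Q, i1, i2, π, al, F, B, _, _, h3, h4, h5⟩ := h S ε hε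
  exact ⟨Q, i1, i2, π, F, B, h3, h4, h5⟩

/-- Large ranks over finite group rings from the exactness over the ultraproduct. -/
theorem ranks_of_up {H : Type} [Group H] (N D : ℕ → Type) [∀ c, Group (N c)]
    [∀ c, DivisionRing (D c)] (ι : ∀ c, MonoidAlgebra (ZMod 2) (N c) →+* D c)
    (hι : ∀ c, Function.Injective (ι c)) (hF : ∀ c, FolN (N c)) (jN : ∀ c, H →* N c)
    (hj : ∀ h : H, h ≠ 1 → ∀ᶠ c in (hyperfilter ℕ : Filter ℕ), jN c h ≠ 1)
    {a b e : Type} [Fintype a] [Fintype b] [Fintype e]
    (A : Matrix a b (MonoidAlgebra (ZMod 2) H)) (B : Matrix b e (MonoidAlgebra (ZMod 2) H))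
    (hex : ExMat (Matrix.of fun i j => upm D (fun c =>
        ι c (MonoidAlgebra.mapDomainRingHom (ZMod 2) (jN c) (A i j))))
      (Matrix.of fun i j => upm D (fun c =>
        ι c (MonoidAlgebra.mapDomainRingHom (ZMod 2) (jN c) (B i j)))))
    (S : Finset H) (ε : ℝ) (hε : 0 < ε) :
    ∃ (Q : Type) (_ : Group Q) (_ : Fintype Q) (f : H →* Q), (∀ h ∈ S, h ≠ 1 → f h ≠ 1) ∧
      ((Fintype.card b : ℝ) - ε) * (Nat.card Q : ℝ) ≤
        ((regM (A.map (MonoidAlgebra.mapDomainRingHom (ZMod 2) f))).rank : ℝ) +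
        ((regM (B.map (MonoidAlgebra.mapDomainRingHom (ZMod 2) f))).rank : ℝ) := by
  classical
  have h1 := exMat_of_up D
    (fun c => Matrix.of fun i j => ι c (MonoidAlgebra.mapDomainRingHom (ZMod 2) (jN c) (A i j)))
    (fun c => Matrix.of fun i j => ι c (MonoidAlgebra.mapDomainRingHom (ZMod 2) (jN c) (B i j)))
    hex
  have h2 : ∀ᶠ c in (hyperfilter ℕ : Filter ℕ), ∀ h ∈ S, h ≠ 1 → jN c h ≠ 1 := by
    rw [Finset.eventually_all]
    intro h _
    by_cases h1 : h = 1
    · exact Eventually.of_forall fun c h2 => absurd h1 h2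
    · filter_upwards [hj h h1] with c hc _
      exact hc
  obtain ⟨c, hc1, hc2⟩ := (h1.and h2).exists
  obtain ⟨κ, κ', i1, i2, f, f', hli, hli', hcard⟩ := exMat_rows hc1
  set MA : Matrix a b (MonoidAlgebra (ZMod 2) (N c)) :=
    A.map (MonoidAlgebra.mapDomainRingHom (ZMod 2) (jN c)) with hMA
  set MB : Matrix b e (MonoidAlgebra (ZMod 2) (N c)) :=
    B.map (MonoidAlgebra.mapDomainRingHom (ZMod 2) (jN c)) with hMB
  set T : Finset (N c) := (Finset.univ.biUnion fun p : a × b => (MA p.1 p.2).coeff.support) ∪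
    (Finset.univ.biUnion fun p : b × e => (MB p.1 p.2).coeff.support) ∪
    (insert 1 (S.image (jN c))) with hT
  have hTA : ∀ i j, (MA i j).coeff.support ⊆ T := fun i j x hx => Finset.mem_union_left _
    (Finset.mem_union_left _ (Finset.mem_biUnion.mpr ⟨(i, j), Finset.mem_univ _, hx⟩))
  have hTB : ∀ i j, (MB i j).coeff.support ⊆ T := fun i j x hx => Finset.mem_union_left _
    (Finset.mem_union_right _ (Finset.mem_biUnion.mpr ⟨(i, j), Finset.mem_univ _, hx⟩))
  have hT1 : (1 : N c) ∈ T := Finset.mem_union_right _ (Finset.mem_insert_self _ _)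
  have hTS : ∀ h ∈ S, jN c h ∈ T := fun h hh => Finset.mem_union_right _
    (Finset.mem_insert_of_mem (Finset.mem_image_of_mem _ hh))
  obtain ⟨ε', hε', hε1, hε2⟩ : ∃ ε' : ℝ, 0 < ε' ∧ ε' < 1 ∧ (Fintype.card b : ℝ) * ε' ≤ ε := by
    refine ⟨min (1 / 2) (ε / (Fintype.card b + 1)), ?_, ?_, ?_⟩
    · have : (0 : ℝ) < Fintype.card b + 1 := by positivity
      exact lt_min (by norm_num) (div_pos hε this)
    · exact lt_of_le_of_lt (min_le_left _ _) (by norm_num)
    · have h3 : (0 : ℝ) < Fintype.card b + 1 := by positivity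
      calc (Fintype.card b : ℝ) * min (1 / 2) (ε / (Fintype.card b + 1))
          ≤ (Fintype.card b : ℝ) * (ε / (Fintype.card b + 1)) :=
            mul_le_mul_of_nonneg_left (min_le_right _ _) (Nat.cast_nonneg _)
        _ = ε * ((Fintype.card b : ℝ) / (Fintype.card b + 1)) := by ring
        _ ≤ ε * 1 := by
            refine mul_le_mul_of_nonneg_left ?_ hε.le
            rw [div_le_one h3]
            linarith
        _ = ε := mul_one ε
  obtain ⟨Q, iQ, fQ, π, F, BB, hπ, hFB, hcB⟩ := hF c T ε' hε'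
  have iF : Fintype Q := Fintype.ofFinite Q
  refine ⟨Q, iQ, iF, π.comp (jN c), ?_, ?_⟩
  · intro h hh hne he
    have hQpos : (0 : ℝ) < Nat.card Q := by exact_mod_cast Nat.card_pos
    have hBpos : (0 : ℝ) < BB.card := lt_of_lt_of_le (mul_pos (by linarith) hQpos) hcB
    have hBne : BB.Nonempty := Finset.card_pos.mp (by exact_mod_cast hBpos)
    obtain ⟨g, hg⟩ := hBne
    have e1 : π (g * 1) = π (g * jN c h) := by
      have : π (jN c h) = 1 := he
      rw [map_mul, map_mul, this, map_one]
    have e2 := hπ (hFB g hg 1 hT1) (hFB g hg _ (hTS h hh)) e1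
    exact hc2 h hh hne (mul_left_cancel e2).symm
  · have r1 := rank_regM π MA (ι c) (hι c) f hli F BB T hTA hπ hFB
    have r2 := rank_regM π MB (ι c) (hι c) f' hli' F BB T hTB hπ hFB
    have e1 : ∀ {x y : Type} (M : Matrix x y (MonoidAlgebra (ZMod 2) H)),
        (M.map (MonoidAlgebra.mapDomainRingHom (ZMod 2) (jN c))).map
          (MonoidAlgebra.mapDomainRingHom (ZMod 2) π) =
        M.map (MonoidAlgebra.mapDomainRingHom (ZMod 2) (π.comp (jN c))) := by
      intro x y M
      apply Matrix.ext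
      intro i j
      show MonoidAlgebra.mapDomainRingHom (ZMod 2) π
        (MonoidAlgebra.mapDomainRingHom (ZMod 2) (jN c) (M i j)) = _
      apply MonoidAlgebra.coeff_injective
      show Finsupp.mapDomain π (Finsupp.mapDomain (jN c) (M i j).coeff) =
        Finsupp.mapDomain (π.comp (jN c)) (M i j).coeff
      rw [← Finsupp.mapDomain_comp]
      rfl
    rw [hMA, e1] at r1
    rw [hMB, e1] at r2
    have r3 : (Fintype.card b : ℝ) * (BB.card : ℝ) ≤
        ((Fintype.card κ : ℝ) + (Fintype.card κ' : ℝ)) * (BB.card : ℝ) :=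
      mul_le_mul_of_nonneg_right (by exact_mod_cast hcard) (Nat.cast_nonneg _)
    have r4 : ((Fintype.card b : ℝ) - ε) * (Nat.card Q : ℝ) ≤
        (Fintype.card b : ℝ) * (BB.card : ℝ) := by
      calc ((Fintype.card b : ℝ) - ε) * (Nat.card Q : ℝ)
          ≤ ((Fintype.card b : ℝ) * (1 - ε')) * (Nat.card Q : ℝ) := by
            refine mul_le_mul_of_nonneg_right ?_ (Nat.cast_nonneg _)
            linarith
        _ = (Fintype.card b : ℝ) * ((1 - ε') * (Nat.card Q : ℝ)) := by ring
        _ ≤ (Fintype.card b : ℝ) * (BB.card : ℝ) :=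
            mul_le_mul_of_nonneg_left hcB (Nat.cast_nonneg _)
    have r1' : (Fintype.card κ : ℝ) * (BB.card : ℝ) ≤ ((regM (A.map
      (MonoidAlgebra.mapDomainRingHom (ZMod 2) (π.comp (jN c))))).rank : ℝ) := by
      exact_mod_cast r1
    have r2' : (Fintype.card κ' : ℝ) * (BB.card : ℝ) ≤ ((regM (B.map
      (MonoidAlgebra.mapDomainRingHom (ZMod 2) (π.comp (jN c))))).rank : ℝ) := by
      exact_mod_cast r2
    nlinarith

end SingerVS
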