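import Mathlib
import Pool.Agent.Lib_MP_394d50_vs.VBase
import Pool.Agent.Lib_MP_394d50_vs.VCoef
import Pool.Agent.Lib_MP_394d50_vs.VRank

/-!
# The matrices of the coboundary and of the boundary with entries in `F₂[H]`
-/

namespace SingerVS

open SingerRA Matrix
open scoped Pointwise

variable {H P : Type} [Group H] [DecidableEq P] [MulAction H P] {X : Set (Finset P)}

/-- The representatives with `k` vertices. -/
abbrev Rk (R : Finset (Finset P)) (k : ℕ) : Type := {r : Finset P // r ∈ R ∧ r.card = k}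

noncomputable instance instFintypeRk (R : Finset (Finset P)) (k : ℕ) : Fintype (Rk R k) :=
  Fintype.subtype (R.filter (fun r => r.card = k)) (fun r => by rw [Finset.mem_filter])

variable {R : Finset (Finset P)}

open scoped Classical in
/-- The matrix of the coboundary. -/
noncomputable def dmat (hR : Reps H X R) (j k : ℕ) :
    Matrix (Rk R j) (Rk R k) (MonoidAlgebra (ZMod 2) H) := Matrix.of fun r r' =>
  ∑ p ∈ r'.1, if hR.rep (r'.1.erase p) = r.1 then gN (hR.el (r'.1.erase p))⁻¹ else 0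

open scoped Classical in
/-- The matrix of the boundary. -/
noncomputable def bmat (hR : Reps H X R) (k j : ℕ) :
    Matrix (Rk R k) (Rk R j) (MonoidAlgebra (ZMod 2) H) := Matrix.of fun r' r =>
  ∑ p ∈ nb X r.1, if hR.rep (insert p r.1) = r'.1 then gN (hR.el (insert p r.1))⁻¹ else 0

section

variable {D : Type} [DivisionRing D] [Algebra (ZMod 2) D] (j : H →* Dˣ)
  (φ : MonoidAlgebra (ZMod 2) H →+* D)

theorem co_value (hX : FreeCx H X) (hR : Reps H X R) {k : ℕ} {c : Finset P → D}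
    (hc : c ∈ Co (rhoD j) X k) {σ : Finset P} (hσ : σ ∈ X) :
    c σ = c (hR.rep σ) * (((j (hR.el σ))⁻¹ : Dˣ) : D) := by
  have h1 := hX.co_eqv hc (hR.el σ) (hR.rep σ)
  rw [hR.el_rep hσ] at h1
  rw [h1]
  rfl

open scoped Classical in
theorem dl_vecMul (hX : FreeCx H X) (hR : Reps H X R)
    (hφ : ∀ h : H, φ (gN h) = ((j h : Dˣ) : D)) {k : ℕ} {c : Finset P → D}
    (hc : c ∈ Co (rhoD j) X k) (r' : Rk R (k + 1)) :
    dl X c r'.1 = ((fun r : Rk R k => c r.1) ᵥ* (Matrix.of fun r s => φ (dmat hR k (k + 1) r s)))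
      r' := by
  have hr' : r'.1 ∈ X := hR.mem _ r'.2.1
  rw [dl_apply hr', Matrix.vecMul, dotProduct]
  have h1 : ∀ r : Rk R k, c r.1 * (Matrix.of fun r s => φ (dmat hR k (k + 1) r s)) r r' =
      ∑ p ∈ r'.1, if hR.rep (r'.1.erase p) = r.1 then
        c r.1 * (((j (hR.el (r'.1.erase p)))⁻¹ : Dˣ) : D) else 0 := by
    intro r
    show c r.1 * φ (∑ p ∈ r'.1, _) = _
    rw [map_sum, Finset.mul_sum]
    refine Finset.sum_congr rfl fun p _ => ?_
    split_ifs
    · rw [hφ, map_inv]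
    · rw [map_zero, mul_zero]
  rw [Finset.sum_congr rfl fun r _ => h1 r, Finset.sum_comm]
  refine Finset.sum_congr rfl fun p hp => ?_
  by_cases hpX : r'.1.erase p ∈ X
  · have hcard : (hR.rep (r'.1.erase p)).card = k := by
      rw [hR.rep_card hpX, Finset.card_erase_of_mem hp, r'.2.2]
      rfl
    rw [Finset.sum_eq_single (⟨hR.rep (r'.1.erase p), hR.rep_mem hpX, hcard⟩ : Rk R k)]
    · rw [if_pos rfl]
      exact co_value j hX hR hc hpX
    · intro r _ hne
      rw [if_neg]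
      intro h
      exact hne (Subtype.ext h.symm)
    · intro h
      exact absurd (Finset.mem_univ _) h
  · rw [hc.1 _ fun h => hpX h.1]
    symm
    refine Finset.sum_eq_zero fun r _ => ?_
    split_ifs with h
    · exfalso
      unfold Reps.rep at h
      rw [dif_neg hpX] at h
      exact (hX.ne r.1 (hR.mem _ r.2.1)).ne_empty h.symm
    · rfl

open scoped Classical in
theorem bd_vecMul (hX : FreeCx H X) (hR : Reps H X R)
    (hφ : ∀ h : H, φ (gN h) = ((j h : Dˣ) : D)) {k : ℕ} {c : Finset P → D}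
    (hc : c ∈ Co (rhoD j) X (k + 1)) (r : Rk R k) :
    bd X c r.1 = ((fun r' : Rk R (k + 1) => c r'.1) ᵥ*
      (Matrix.of fun r' s => φ (bmat hR (k + 1) k r' s))) r := by
  have hr : r.1 ∈ X := hR.mem _ r.2.1
  rw [bd_apply hr, Matrix.vecMul, dotProduct]
  have h1 : ∀ r' : Rk R (k + 1), c r'.1 * (Matrix.of fun r' s => φ (bmat hR (k + 1) k r' s)) r' r =
      ∑ p ∈ nb X r.1, if hR.rep (insert p r.1) = r'.1 then
        c r'.1 * (((j (hR.el (insert p r.1)))⁻¹ : Dˣ) : D) else 0 := by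
    intro r'
    show c r'.1 * φ (∑ p ∈ nb X r.1, _) = _
    rw [map_sum, Finset.mul_sum]
    refine Finset.sum_congr rfl fun p _ => ?_
    split_ifs
    · rw [hφ, map_inv]
    · rw [map_zero, mul_zero]
  rw [Finset.sum_congr rfl fun r' _ => h1 r', Finset.sum_comm]
  refine Finset.sum_congr rfl fun p hp => ?_
  obtain ⟨hp1, hp2⟩ := (hX.mem_nb hr).mp hp
  have hcard : (hR.rep (insert p r.1)).card = k + 1 := by
    rw [hR.rep_card hp2, Finset.card_insert_of_notMem hp1, r.2.2]
  rw [Finset.sum_eq_single (⟨hR.rep (insert p r.1), hR.rep_mem hp2, hcard⟩ : Rk R (k + 1))]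
  · rw [if_pos rfl]
    exact co_value j hX hR hc hp2
  · intro r' _ hne
    rw [if_neg]
    intro h
    exact hne (Subtype.ext h.symm)
  · intro h
    exact absurd (Finset.mem_univ _) h

/-- Extension from the representatives. -/
theorem exists_ext (hX : FreeCx H X) (hR : Reps H X R) (k : ℕ) (x : Rk R k → D) :
    ∃ c ∈ Co (rhoD j) X k, ∀ r : Rk R k, c r.1 = x r := by
  classical
  refine ⟨_, hX.coE_mem (ρ := rhoD j) hR k
    (fun σ => if h : σ ∈ R ∧ σ.card = k then x ⟨σ, h⟩ else 0), fun r => ?_⟩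
  rw [hX.coE_rep hR k _ r.2.1 r.2.2, dif_pos r.2]

theorem exMat_of_exCo (hX : FreeCx H X) (hR : Reps H X R)
    (hφ : ∀ h : H, φ (gN h) = ((j h : Dˣ) : D)) {k : ℕ} (h : ExCo (rhoD j) X (k + 1)) :
    ExMat (Matrix.of fun r s => φ (dmat hR k (k + 1) r s))
      (Matrix.of fun r s => φ (dmat hR (k + 1) (k + 2) r s)) := by
  intro x hx
  obtain ⟨c, hc, hcx⟩ := exists_ext j hX hR (k + 1) x
  have hcx' : (fun r : Rk R (k + 1) => c r.1) = x := funext hcx
  have h0 : dl X c = 0 := by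
    refine hX.co_ext hR (hX.co_dl hc) (Submodule.zero_mem _) fun r' hr' hk => ?_
    have h1 := dl_vecMul j φ hX hR hφ hc ⟨r', hr', hk⟩
    rw [hcx'] at h1
    rw [h1]
    exact congrFun hx _
  obtain ⟨b, hb, hbc⟩ := h c hc h0
  have hb' : b ∈ Co (rhoD j) X k := hb
  refine ⟨fun r => b r.1, ?_⟩
  funext r
  rw [← dl_vecMul j φ hX hR hφ hb' r, hbc]
  exact hcx r

theorem exMat_of_exBd (hX : FreeCx H X) (hR : Reps H X R)
    (hφ : ∀ h : H, φ (gN h) = ((j h : Dˣ) : D)) {k : ℕ} (h : ExBd (rhoD j) X (k + 1)) :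
    ExMat (Matrix.of fun r s => φ (bmat hR (k + 2) (k + 1) r s))
      (Matrix.of fun r s => φ (bmat hR (k + 1) k r s)) := by
  intro x hx
  obtain ⟨c, hc, hcx⟩ := exists_ext j hX hR (k + 1) x
  have hcx' : (fun r : Rk R (k + 1) => c r.1) = x := funext hcx
  have h0 : bd X c = 0 := by
    refine hX.co_ext hR (hX.co_bd hc) (Submodule.zero_mem _) fun r' hr' hk => ?_
    have h1 := bd_vecMul j φ hX hR hφ hc ⟨r', hr', hk⟩
    rw [hcx'] at h1
    rw [h1]
    exact congrFun hx _
  obtain ⟨b, hb, hbc⟩ := h c hc h0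
  refine ⟨fun r => b r.1, ?_⟩
  funext r
  rw [← bd_vecMul j φ hX hR hφ hb r, hbc]
  exact hcx r

end

/-! ## Coefficients -/

open scoped Classical in
theorem dmat_coeff (hX : FreeCx H X) (hR : Reps H X R) {j k : ℕ} (r : Rk R j) (r' : Rk R k)
    (h : H) : (dmat hR j k r r').coeff h =
      ((r'.1.filter (fun p => r'.1.erase p = h⁻¹ • r.1)).card : ZMod 2) := by
  have h1 : (dmat hR j k r r').coeff h = ∑ p ∈ r'.1,
      (if hR.rep (r'.1.erase p) = r.1 then gN (hR.el (r'.1.erase p))⁻¹ else 0 :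
        MonoidAlgebra (ZMod 2) H).coeff h := by
    show (∑ p ∈ r'.1, _ : MonoidAlgebra (ZMod 2) H).coeff h = _
    rw [MonoidAlgebra.coeff_sum, Finsupp.finsetSum_apply]
  rw [h1, Finset.card_filter, Nat.cast_sum]
  refine Finset.sum_congr rfl fun p _ => ?_
  have hrX : r.1 ∈ X := hR.mem _ r.2.1
  by_cases h2 : r'.1.erase p = h⁻¹ • r.1
  · rw [if_pos h2, h2, hR.rep_smul hX _ hrX, hR.rep_self r.2.1, if_pos rfl,
      hR.el_smul hX _ hrX, hR.el_self hX r.2.1, mul_one, inv_inv, Nat.cast_one]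
    show (MonoidAlgebra.single h (1 : ZMod 2)).coeff h = 1
    rw [MonoidAlgebra.coeff_single, Finsupp.single_eq_same]
  · rw [if_neg h2, Nat.cast_zero]
    split_ifs with h3
    · show (MonoidAlgebra.single (hR.el (r'.1.erase p))⁻¹ (1 : ZMod 2)).coeff h = 0
      rw [MonoidAlgebra.coeff_single, Finsupp.single_eq_of_ne]
      intro h4
      apply h2
      have hpX : r'.1.erase p ∈ X := by
        by_contra hpX
        unfold Reps.rep at h3
        rw [dif_neg hpX] at h3
        exact (hX.ne r.1 hrX).ne_empty h3.symm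
      rw [h4, inv_inv, ← h3, hR.el_rep hpX]
    · rfl

open scoped Classical in
theorem bmat_coeff (hX : FreeCx H X) (hR : Reps H X R) {j k : ℕ} (r' : Rk R k) (r : Rk R j)
    (h : H) : (bmat hR k j r' r).coeff h =
      (((nb X r.1).filter (fun p => insert p r.1 = h⁻¹ • r'.1)).card : ZMod 2) := by
  have h1 : (bmat hR k j r' r).coeff h = ∑ p ∈ nb X r.1,
      (if hR.rep (insert p r.1) = r'.1 then gN (hR.el (insert p r.1))⁻¹ else 0 :
        MonoidAlgebra (ZMod 2) H).coeff h := by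
    show (∑ p ∈ nb X r.1, _ : MonoidAlgebra (ZMod 2) H).coeff h = _
    rw [MonoidAlgebra.coeff_sum, Finsupp.finsetSum_apply]
  rw [h1, Finset.card_filter, Nat.cast_sum]
  refine Finset.sum_congr rfl fun p hp => ?_
  have hrX : r.1 ∈ X := hR.mem _ r.2.1
  have hrX' : r'.1 ∈ X := hR.mem _ r'.2.1
  by_cases h2 : insert p r.1 = h⁻¹ • r'.1
  · rw [if_pos h2, h2, hR.rep_smul hX _ hrX', hR.rep_self r'.2.1, if_pos rfl,
      hR.el_smul hX _ hrX', hR.el_self hX r'.2.1, mul_one, inv_inv, Nat.cast_one]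
    show (MonoidAlgebra.single h (1 : ZMod 2)).coeff h = 1
    rw [MonoidAlgebra.coeff_single, Finsupp.single_eq_same]
  · rw [if_neg h2, Nat.cast_zero]
    split_ifs with h3
    · show (MonoidAlgebra.single (hR.el (insert p r.1))⁻¹ (1 : ZMod 2)).coeff h = 0
      rw [MonoidAlgebra.coeff_single, Finsupp.single_eq_of_ne]
      intro h4
      apply h2
      have hpX : insert p r.1 ∈ X := ((hX.mem_nb hrX).mp hp).2
      rw [h4, inv_inv, ← h3, hR.el_rep hpX]
    · rfl

open scoped Classical in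
/-- The coefficients of the two matrices. -/
theorem dmat_bmat (hX : FreeCx H X) (hR : Reps H X R) (k : ℕ) (r : Rk R k) (r' : Rk R (k + 1))
    (h : H) : (bmat hR (k + 1) k r' r).coeff h = (dmat hR k (k + 1) r r').coeff h⁻¹ := by
  have hrX : r.1 ∈ X := hR.mem _ r.2.1
  have hrX' : r'.1 ∈ X := hR.mem _ r'.2.1
  rw [dmat_coeff hX hR, bmat_coeff hX hR, inv_inv]
  congr 1
  refine Finset.card_bij (fun p _ => h • p) ?_ ?_ ?_
  · intro p hp
    obtain ⟨hp1, hp2⟩ := Finset.mem_filter.mp hp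
    obtain ⟨hp3, _⟩ := (hX.mem_nb hrX).mp hp1
    have e : r'.1 = insert (h • p) (h • r.1) := by
      rw [← Finset.smul_finset_insert, hp2, smul_inv_smul]
    have h4 : h • p ∉ h • r.1 := by
      rw [Finset.smul_mem_smul_finset_iff]
      exact hp3
    refine Finset.mem_filter.mpr ⟨?_, ?_⟩
    · rw [e]
      exact Finset.mem_insert_self _ _
    · rw [e, Finset.erase_insert h4]
  · intro p _ q _ e
    exact MulAction.injective h e
  · intro q hq
    obtain ⟨hq1, hq2⟩ := Finset.mem_filter.mp hq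
    have e : insert (h⁻¹ • q) r.1 = h⁻¹ • r'.1 := by
      rw [← Finset.insert_erase hq1, hq2, Finset.smul_finset_insert, inv_smul_smul]
    refine ⟨h⁻¹ • q, Finset.mem_filter.mpr ⟨(hX.mem_nb hrX).mpr ⟨?_, ?_⟩, e⟩, smul_inv_smul h q⟩
    · intro h5
      have h6 : q ∈ r'.1.erase q := by
        rw [hq2, ← Finset.inv_smul_mem_iff]
        exact h5
      exact Finset.notMem_erase q r'.1 h6
    · rw [e]
      exact hX.inv _ _ hrX'

/-- The regular representations of the two matrices are transposed to each other. -/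
theorem regM_bmat (hX : FreeCx H X) (hR : Reps H X R) (k : ℕ) {Q : Type} [Group Q]
    (f : H →* Q) :
    regM ((bmat hR (k + 1) k).map (MonoidAlgebra.mapDomainRingHom (ZMod 2) f)) =
      (regM ((dmat hR k (k + 1)).map (MonoidAlgebra.mapDomainRingHom (ZMod 2) f)))ᵀ := by
  classical
  apply Matrix.ext
  rintro ⟨r', q⟩ ⟨r, q'⟩
  have key : ∀ (x : MonoidAlgebra (ZMod 2) H) (t : Q),
      (MonoidAlgebra.mapDomainRingHom (ZMod 2) f x).coeff t =
        ∑ h ∈ x.coeff.support, if f h = t then x.coeff h else 0 := by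
    intro x t
    show (Finsupp.mapDomain f x.coeff) t = _
    rw [Finsupp.mapDomain, Finsupp.sum, Finsupp.finsetSum_apply]
    refine Finset.sum_congr rfl fun h _ => ?_
    rw [Finsupp.single_apply]
  show (MonoidAlgebra.mapDomainRingHom (ZMod 2) f (bmat hR (k + 1) k r' r)).coeff (q⁻¹ * q') =
    (MonoidAlgebra.mapDomainRingHom (ZMod 2) f (dmat hR k (k + 1) r r')).coeff (q'⁻¹ * q)
  rw [key, key]
  refine Finset.sum_bij (fun h _ => h⁻¹) ?_ ?_ ?_ ?_
  · intro h hh
    rw [Finsupp.mem_support_iff] at hh ⊢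
    rw [← dmat_bmat hX hR]
    exact hh
  · intro h _ h' _ e
    exact inv_injective e
  · intro h hh
    refine ⟨h⁻¹, ?_, inv_inv h⟩
    rw [Finsupp.mem_support_iff] at hh ⊢
    rw [dmat_bmat hX hR, inv_inv]
    exact hh
  · intro h _
    rw [← dmat_bmat hX hR, map_inv]
    refine if_congr ?_ rfl rfl
    constructor
    · intro e
      rw [e, _root_.mul_inv_rev, inv_inv]
    · intro e
      rw [← inv_inv (f h), e, _root_.mul_inv_rev, inv_inv]

end SingerVS
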