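import Mathlib
import Pool.Agent.Lib_MP_394d50_vs.TTateV

/-!
# The Tate argument: climbing and descending
-/

namespace SingerVS

open SingerRA
open scoped TensorProduct Pointwise

variable {H : Type} [Group H] {P : Type} [LinearOrder P] [MulAction H P] {X : Set (Finset P)}
  {D : Type} [DivisionRing D] [Algebra (ZMod 2) D] [StarRing D]
  (t : H →* Dˣ) (ht : ∀ h, star ((t h : Dˣ) : D) = (((t h)⁻¹ : Dˣ) : D))

include ht in
theorem sym_decompV (hX : FreeCx H X) {m : ℕ} {w : Finset P → TT D}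
    (hw : w ∈ Co (rhoT t) X m) (h0 : ∀ σ, NT (w σ) = 0) :
    ∃ β ∈ Co (rhoD t) X m, ∃ u ∈ Co (rhoT t) X m,
      ∀ σ, w σ = β σ ⊗ₜ[ZMod 2] star (β σ) + NT (u σ) := by
  obtain ⟨R, hR⟩ := hX.exists_reps
  have h1 : ∀ σ, ∃ (z : D) (e : TT D), w σ = z ⊗ₜ[ZMod 2] star z + NT e := by
    intro σ
    have h2 : tau (w σ) = w σ := (tt_eq_of_add (h0 σ)).symm
    exact tens_inv (w σ) h2
  choose z e hze using h1
  refine ⟨coE (rhoD t) hR m z, hX.coE_mem hR m z, coE (rhoT t) hR m e, hX.coE_mem hR m e,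
    fun σ => ?_⟩
  by_cases hσ : σ ∈ X ∧ σ.card = m
  · unfold coE
    rw [if_pos hσ, if_pos hσ, NT_rhoT t ht]
    have h2 := hze (hR.rep σ)
    have h3 := hw.2 (hR.el σ) (hR.rep σ) (hR.mem _ (hR.rep_mem hσ.1))
    rw [hR.el_rep hσ.1] at h3
    rw [h3, h2, map_add, rhoT_tmul, rhoD_apply, star_mul]
    have h5 : star ((((t (hR.el σ))⁻¹ : Dˣ) : D)) = ((t (hR.el σ) : Dˣ) : D) := by
      rw [← ht, star_star]
    rw [h5]
  · rw [hw.1 σ hσ]
    unfold coE
    rw [if_neg hσ, if_neg hσ]
    simp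

/-- A square in the image of `1 + tau` vanishes. -/
theorem sq_zero {z : D} {e : TT D} (h : z ⊗ₜ[ZMod 2] star z = NT e) : z = 0 := tens_zero z e h

/-- The squares of a cochain and the coboundary. -/
theorem sq_dl (c : Finset P → D) (σ : Finset P) : ∃ e : TT D,
    (dl X c σ) ⊗ₜ[ZMod 2] star (dl X c σ) =
      dl X (fun τ => c τ ⊗ₜ[ZMod 2] star (c τ)) σ + NT e := by
  by_cases hσ : σ ∈ X
  · rw [dl_apply hσ, dl_apply hσ]
    exact sq_sum σ _
  · rw [dl_apply_not hσ, dl_apply_not hσ]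
    exact ⟨0, by simp⟩

include ht in
theorem tate_climbV (hX : FreeCx H X) (ho : OrdInv H X) {n : ℕ}
    (hE : ∀ i, 1 ≤ i → i ≤ n → ExCo (rhoT (D := D) t) X i) {k : ℕ} (hk : 1 ≤ k)
    (hkn : 2 * k - 1 ≤ n) {a : Finset P → D} (ha : a ∈ Co (rhoD t) X k) (hd : dl X a = 0)
    (i : ℕ) (hi : i ≤ 2 * k - 1) :
    ∃ w : ℕ → Finset P → TT D, (∀ m, w m ∈ Co (rhoT t) X m) ∧
      ∀ m, 2 * k - i ≤ m → m ≤ 2 * k →
        dl X (w (m - 1)) = fun σ => xc X a m σ + NT (w m σ) := by
  induction i with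
  | zero =>
    refine ⟨fun _ => 0, fun m => Submodule.zero_mem _, fun m h1 h2 => ?_⟩
    have h3 : m = 2 * k := by omega
    subst h3
    rw [xc_high t hk ha le_rfl, map_zero]
    funext σ
    simp
  | succ i ih =>
    obtain ⟨w, hw, hE'⟩ := ih (by omega)
    obtain ⟨m0, hm0⟩ : ∃ m0, m0 + 1 + i = 2 * k := ⟨2 * k - 1 - i, by omega⟩
    have hc : (fun σ => xc X a m0 σ + NT (w m0 σ)) ∈ Co (rhoT t) X m0 :=
      Submodule.add_mem _ (xc_mem t ht hX ho ha m0) (co_NT t ht (hw m0))
    have hcoc : dl X (fun σ => xc X a m0 σ + NT (w m0 σ)) = 0 := by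
      have e1 : (fun σ => xc X a m0 σ + NT (w m0 σ)) =
          xc X a m0 + fun σ => NT (w m0 σ) := rfl
      rw [e1, map_add, xc_dl t hX ha hd, dl_comp]
      have h2 := hE' (m0 + 1) (by omega) (by omega)
      rw [Nat.add_sub_cancel] at h2
      rw [h2]
      funext σ
      show NT (xc X a (m0 + 1) σ) + NT (xc X a (m0 + 1) σ + NT (w (m0 + 1) σ)) = 0
      rw [map_add, NT_NT, add_zero]
      exact tt_two _
    obtain ⟨y, hy, hy'⟩ := hE m0 (by omega) (by omega) _ hc hcoc
    refine ⟨Function.update w (m0 - 1) y, fun m => ?_, fun m h1 h2 => ?_⟩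
    · by_cases hm : m = m0 - 1
      · subst hm
        rw [Function.update_self]
        exact hy
      · rw [Function.update_of_ne hm]
        exact hw m
    · by_cases hm : m = m0
      · subst hm
        rw [Function.update_self, Function.update_of_ne (by omega)]
        exact hy'
      · rw [Function.update_of_ne (by omega), Function.update_of_ne (by omega)]
        exact hE' m (by omega) h2

include ht in
theorem tate_descV (hX : FreeCx H X) (ho : OrdInv H X) {k : ℕ}
    {a : Finset P → D} (ha : a ∈ Co (rhoD t) X k)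
    (h : ∃ w : ℕ → Finset P → TT D, (∀ m, w m ∈ Co (rhoT t) X m) ∧
      ∀ m, 1 ≤ m → m ≤ k → dl X (w (m - 1)) = fun σ => xc X a m σ + NT (w m σ))
    (m : ℕ) (hm : m + 2 ≤ k) :
    ∃ w : ℕ → Finset P → TT D, (∀ m, w m ∈ Co (rhoT t) X m) ∧
      (∀ m, 1 ≤ m → m ≤ k → dl X (w (m - 1)) = fun σ => xc X a m σ + NT (w m σ)) ∧
      ∀ j, j ≤ m → w j = 0 := by
  classical
  induction m with
  | zero =>
    obtain ⟨w, h1, h2⟩ := h
    refine ⟨w, h1, h2, fun j hj => ?_⟩
    have h3 : j = 0 := by omega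
    subst h3
    exact hX.co_zero (h1 0)
  | succ m ih =>
    obtain ⟨w, h1, h2, h3⟩ := ih (by omega)
    -- `w (m+1)` is symmetric
    have h4 : ∀ σ, NT (w (m + 1) σ) = 0 := by
      intro σ
      have h5 := congrFun (h2 (m + 1) (by omega) (by omega)) σ
      rw [Nat.add_sub_cancel, h3 m le_rfl, map_zero, xc_low t ha (by omega : m + 1 < k)] at h5
      simpa using h5.symm
    obtain ⟨β, hβ, u, hu, hw⟩ := sym_decompV t ht hX (h1 (m + 1)) h4
    -- `β` is a cocycle
    have hdw : dl X (w (m + 1)) = fun σ => dl X (fun τ => β τ ⊗ₜ[ZMod 2] star (β τ)) σ +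
        NT (dl X u σ) := by
      have e1 : w (m + 1) = (fun τ => β τ ⊗ₜ[ZMod 2] star (β τ)) + fun τ => NT (u τ) :=
        funext hw
      rw [e1, map_add, dl_comp]
      rfl
    have h6' : dl X (w (m + 1)) = fun σ => NT (w (m + 2) σ) := by
      have h6 := h2 (m + 2) (by omega) (by omega)
      have h7 : m + 2 - 1 = m + 1 := rfl
      rw [h7, xc_low t ha (by omega : m + 2 < k)] at h6
      rw [h6]
      funext σ
      simp
    have hβd : dl X β = 0 := by
      funext σ
      obtain ⟨e, he⟩ := sq_dl (X := X) β σ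
      have h8 : dl X (fun τ => β τ ⊗ₜ[ZMod 2] star (β τ)) σ =
          NT (w (m + 2) σ + dl X u σ) := by
        have h9 := congrFun (hdw.symm.trans h6') σ
        rw [map_add, ← h9, add_assoc, tt_two, add_zero]
      rw [h8, ← map_add] at he
      exact sq_zero he
    have hκ : (fun τ => β τ ⊗ₜ[ZMod 2] star (β τ)) = xc X β (m + 1) :=
      funext fun τ => (xc_eq t hβ τ).symm
    have hdκ : dl X (xc X β (m + 1)) = fun σ => NT (xc X β (m + 2) σ) :=
      xc_dl t hX hβ hβd (m + 1)
    refine ⟨fun j => if j ≤ m + 1 then 0 else w j + xc X β j +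
      (if j = m + 2 then dl X u else 0), fun j => ?_, fun j hj1 hj2 => ?_, fun j hj => if_pos hj⟩
    · beta_reduce
      by_cases hj : j ≤ m + 1
      · rw [if_pos hj]
        exact Submodule.zero_mem _
      · rw [if_neg hj]
        refine Submodule.add_mem _ (Submodule.add_mem _ (h1 j) (xc_mem t ht hX ho hβ j)) ?_
        by_cases hj' : j = m + 2
        · rw [if_pos hj']
          subst hj'
          exact hX.co_dl hu
        · rw [if_neg hj']
          exact Submodule.zero_mem _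
    · beta_reduce
      by_cases hj : j ≤ m + 1
      · rw [if_pos hj, if_pos (by omega : j - 1 ≤ m + 1), xc_low t ha (by omega : j < k),
          map_zero]
        funext σ
        simp
      · rw [if_neg hj]
        by_cases hj' : j = m + 2
        · subst hj'
          have h7 : m + 2 - 1 = m + 1 := rfl
          rw [h7, if_pos le_rfl, if_pos rfl, map_zero, xc_low t ha (by omega : m + 2 < k)]
          funext σ
          have h9 := congrFun (hdw.symm.trans h6') σ
          rw [hκ] at h9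
          have h10 := congrFun hdκ σ
          show (0 : TT D) = 0 + NT (w (m + 2) σ + xc X β (m + 2) σ + dl X u σ)
          rw [zero_add, map_add, map_add, ← h10, ← h9]
          have h11 : ∀ x y : TT D, 0 = x + y + x + y := by
            intro x y
            have : x + y + x + y = (x + x) + (y + y) := by abel
            rw [this, tt_two, tt_two, add_zero]
          exact h11 _ _
        · rw [if_neg hj', if_neg (by omega : ¬ j - 1 ≤ m + 1), add_zero]
          have hE := h2 j hj1 hj2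
          have hb := xc_dl t hX hβ hβd (j - 1)
          rw [show j - 1 + 1 = j by omega] at hb
          have hu0 : dl X (if j - 1 = m + 2 then dl X u else 0) = 0 := by
            split_ifs
            · exact hX.dl_dl u
            · exact map_zero _
          rw [map_add, map_add, hu0, add_zero, hE, hb]
          funext σ
          show xc X a j σ + NT (w j σ) + NT (xc X β j σ) =
            xc X a j σ + NT (w j σ + xc X β j σ)
          rw [map_add, add_assoc]

include ht in
/-- The Tate argument. -/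
theorem tateV (hX : FreeCx H X) (ho : OrdInv H X) {n : ℕ}
    (hE : ∀ i, 1 ≤ i → i ≤ n → ExCo (rhoT (D := D) t) X i) (k : ℕ) (hk : 1 ≤ k)
    (hkn : 2 * (k - 1) < n) : ExCo (rhoD (D := D) t) X k := by
  classical
  intro a ha hd
  obtain ⟨w, hw1, hw2⟩ := tate_climbV t ht hX ho hE hk (by omega) ha hd (2 * k - 1) le_rfl
  have h0 : ∃ w : ℕ → Finset P → TT D, (∀ m, w m ∈ Co (rhoT t) X m) ∧
      ∀ m, 1 ≤ m → m ≤ k → dl X (w (m - 1)) = fun σ => xc X a m σ + NT (w m σ) :=
    ⟨w, hw1, fun m h1 h2 => hw2 m (by omega) (by omega)⟩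
  -- a sequence with `NT (w (k-1)) = 0`
  obtain ⟨w, h1, h2, h4⟩ : ∃ w : ℕ → Finset P → TT D, (∀ m, w m ∈ Co (rhoT t) X m) ∧
      (∀ m, 1 ≤ m → m ≤ k → dl X (w (m - 1)) = fun σ => xc X a m σ + NT (w m σ)) ∧
      ∀ σ, NT (w (k - 1) σ) = 0 := by
    by_cases hk1 : k = 1
    · subst hk1
      obtain ⟨w, h1, h2⟩ := h0
      refine ⟨w, h1, h2, fun σ => ?_⟩
      rw [hX.co_zero (h1 0)]
      exact map_zero _
    · obtain ⟨w, h1, h2, h3⟩ := tate_descV t ht hX ho ha h0 (k - 2) (by omega)
      refine ⟨w, h1, h2, fun σ => ?_⟩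
      have h5 := congrFun (h2 (k - 1) (by omega) (by omega)) σ
      rw [show k - 1 - 1 = k - 2 by omega, h3 (k - 2) le_rfl, map_zero,
        xc_low t ha (by omega : k - 1 < k)] at h5
      simpa using h5.symm
  obtain ⟨β, hβ, u, hu, hw⟩ := sym_decompV t ht hX (h1 (k - 1)) h4
  refine ⟨β, hβ, ?_⟩
  have hdw : dl X (w (k - 1)) = fun σ => dl X (fun τ => β τ ⊗ₜ[ZMod 2] star (β τ)) σ +
      NT (dl X u σ) := by
    have e1 : w (k - 1) = (fun τ => β τ ⊗ₜ[ZMod 2] star (β τ)) + fun τ => NT (u τ) :=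
      funext hw
    rw [e1, map_add, dl_comp]
    rfl
  have h6 := h2 k hk le_rfl
  funext σ
  obtain ⟨e, he⟩ := sq_dl (X := X) β σ
  obtain ⟨e', he'⟩ := sq_add (dl X β σ) (a σ)
  have h7 := congrFun (hdw.symm.trans h6) σ
  beta_reduce at h7
  rw [xc_eq t ha σ] at h7
  have h8 : dl X (fun τ => β τ ⊗ₜ[ZMod 2] star (β τ)) σ =
      a σ ⊗ₜ[ZMod 2] star (a σ) + NT (w k σ + dl X u σ) := by
    rw [map_add, ← add_assoc, ← h7, add_assoc, tt_two, add_zero]
  rw [he, h8] at he'
  have h9 : (dl X β σ + a σ) ⊗ₜ[ZMod 2] star (dl X β σ + a σ) =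
      NT (w k σ + dl X u σ + e + e') := by
    rw [he']
    simp only [map_add]
    have h10 : ∀ x y z v q : TT D, x + (y + z) + v + x + q = y + z + v + q := by
      intro x y z v q
      have : x + (y + z) + v + x + q = (x + x) + (y + z + v + q) := by abel
      rw [this, tt_two, zero_add]
    exact h10 _ _ _ _ _
  have h11 := sq_zero h9
  have h12 : a σ + a σ = 0 := tt_two _
  calc dl X β σ = dl X β σ + (a σ + a σ) := by rw [h12, add_zero]
    _ = (dl X β σ + a σ) + a σ := by rw [add_assoc]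
    _ = a σ := by rw [h11, zero_add]

end SingerVS
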