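import Mathlib
import Pool.Agent.Lib_MP_394d50_vs.VBase

/-!
# Homology manifolds: links, and functions on the pairs `σ ⊆ τ`
-/

namespace SingerVS

open scoped Pointwise

section

variable {P : Type} [DecidableEq P]

/-- The link of `σ`; it contains the empty simplex when `σ ∈ X`. -/
def lk (X : Set (Finset P)) (σ : Finset P) : Set (Finset P) := {ρ | Disjoint ρ σ ∧ ρ ∪ σ ∈ X}

/-- `K` (a complex which contains the empty simplex) has the reduced homology over `F₂` of the
sphere of dimension `m - 1`. -/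
def SphF2 (m : ℕ) (K : Set (Finset P)) : Prop :=
  (∀ k, k ≠ m → ∀ z ∈ Ch (ZMod 2) K k, bd K z = 0 → ∃ w ∈ Ch (ZMod 2) K (k + 1), bd K w = z) ∧
  ∃ z₀ ∈ Ch (ZMod 2) K m, bd K z₀ = 0 ∧ (∀ w ∈ Ch (ZMod 2) K (m + 1), bd K w ≠ z₀) ∧
    ∀ z ∈ Ch (ZMod 2) K m, bd K z = 0 →
      ∃ w ∈ Ch (ZMod 2) K (m + 1), bd K w = z ∨ bd K w = z + z₀

/-- `X` is a homology manifold of dimension `n` over `F₂`: the link of every simplex with `c`
vertices is a homology sphere of dimension `n - c`. -/
structure HomMfd (n : ℕ) (X : Set (Finset P)) : Prop where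
  dim : ∀ σ ∈ X, σ.card ≤ n + 1
  link : ∀ σ ∈ X, SphF2 (n + 1 - σ.card) (lk X σ)

open scoped Classical in
/-- The functions on the pairs `σ ⊆ τ` of simplices with `p` and `q` vertices. -/
def PairL (X : Set (Finset P)) (p q : ℕ) : Submodule (ZMod 2) (Finset P → Finset P → ZMod 2) where
  carrier := {F | ∀ σ τ, ¬ (σ ∈ X ∧ σ.card = p ∧ τ ∈ X ∧ τ.card = q ∧ σ ⊆ τ) → F σ τ = 0}
  add_mem' := fun {F G} hF hG σ τ h => by
    rw [Pi.add_apply, Pi.add_apply, hF σ τ h, hG σ τ h, add_zero]
  zero_mem' := fun _ _ _ => rfl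
  smul_mem' := fun r F hF σ τ h => by
    rw [Pi.smul_apply, Pi.smul_apply, hF σ τ h, smul_zero]

open scoped Classical in
/-- The coboundary in `σ`. -/
noncomputable def D1L (X : Set (Finset P)) :
    (Finset P → Finset P → ZMod 2) →ₗ[ZMod 2] (Finset P → Finset P → ZMod 2) where
  toFun F := fun σ τ => if σ ⊆ τ then dl X (fun s => F s τ) σ else 0
  map_add' F G := by
    funext σ τ
    show (if σ ⊆ τ then dl X (fun s => F s τ + G s τ) σ else 0) =
      (if σ ⊆ τ then dl X (fun s => F s τ) σ else 0) +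
        (if σ ⊆ τ then dl X (fun s => G s τ) σ else 0)
    split_ifs
    · exact congrFun (map_add (dl X) (fun s => F s τ) (fun s => G s τ)) σ
    · rw [add_zero]
  map_smul' r F := by
    funext σ τ
    show (if σ ⊆ τ then dl X (fun s => r • F s τ) σ else 0) =
      r • (if σ ⊆ τ then dl X (fun s => F s τ) σ else 0)
    split_ifs
    · exact congrFun (map_smul (dl X) r (fun s => F s τ)) σ
    · rw [smul_zero]

open scoped Classical in
/-- The boundary in `τ`. -/
noncomputable def D2L (X : Set (Finset P)) :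
    (Finset P → Finset P → ZMod 2) →ₗ[ZMod 2] (Finset P → Finset P → ZMod 2) where
  toFun F := fun σ τ => if σ ⊆ τ then bd X (F σ) τ else 0
  map_add' F G := by
    funext σ τ
    show (if σ ⊆ τ then bd X (F σ + G σ) τ else 0) =
      (if σ ⊆ τ then bd X (F σ) τ else 0) + (if σ ⊆ τ then bd X (G σ) τ else 0)
    split_ifs
    · exact congrFun (map_add (bd X) (F σ) (G σ)) τ
    · rw [add_zero]
  map_smul' r F := by
    funext σ τ
    show (if σ ⊆ τ then bd X (r • F σ) τ else 0) = r • (if σ ⊆ τ then bd X (F σ) τ else 0)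
    split_ifs
    · exact congrFun (map_smul (bd X) r (F σ)) τ
    · rw [smul_zero]

open scoped Classical in
theorem D1L_apply (X : Set (Finset P)) (F : Finset P → Finset P → ZMod 2) (σ τ : Finset P) :
    D1L X F σ τ = if σ ⊆ τ then dl X (fun s => F s τ) σ else 0 := rfl

open scoped Classical in
theorem D2L_apply (X : Set (Finset P)) (F : Finset P → Finset P → ZMod 2) (σ τ : Finset P) :
    D2L X F σ τ = if σ ⊆ τ then bd X (F σ) τ else 0 := rfl

end

end SingerVS
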