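import Mathlib
import Pool.Agent.Lib_MP_394d50_all.EBase

/-!
# Right-angled Artin groups embed in right-angled Coxeter groups

`x_v ↦ s_(v,0) s_(v,1)`, for the graph on `V × Bool` with `(u, i)` adjacent to `(v, j)` iff `u` is
adjacent to `v`. The Coxeter group acts on the set `RAAG G`: `s_(v,1)` by the automorphism `e_v`
which inverts `x_v` and fixes the other generators, `s_(v,0)` by `g ↦ x_v e_v(g)`. So the image
of `a` acts by the left multiplication by `a`.
-/

namespace SingerVS

open SingerRA

section

variable {V : Type}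

/-- The relations of the right-angled Artin group. -/
def raagRels (G : SimpleGraph V) : Set (FreeGroup V) :=
  {r | ∃ u v, G.Adj u v ∧
    r = FreeGroup.of u * FreeGroup.of v * (FreeGroup.of u)⁻¹ * (FreeGroup.of v)⁻¹}

/-- The right-angled Artin group: the generators are the vertices, and adjacent vertices commute. -/
abbrev RAAG (G : SimpleGraph V) : Type := PresentedGroup (raagRels G)

/-- The graph on `V × Bool`. -/
def dblG (G : SimpleGraph V) : SimpleGraph (V × Bool) := G.comap Prod.fst

theorem dblG_adj (G : SimpleGraph V) (p q : V × Bool) :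
    (dblG G).Adj p q ↔ G.Adj p.1 q.1 := Iff.rfl

/-- The generators. -/
def xA (G : SimpleGraph V) (v : V) : RAAG G := PresentedGroup.of v

theorem xA_comm (G : SimpleGraph V) (u v : V) (h : G.Adj u v) :
    xA G u * xA G v = xA G v * xA G u := by
  have h1 : PresentedGroup.mk (raagRels G)
      (FreeGroup.of u * FreeGroup.of v * (FreeGroup.of u)⁻¹ * (FreeGroup.of v)⁻¹) = 1 :=
    PresentedGroup.one_of_mem ⟨u, v, h, rfl⟩
  rw [map_mul, map_mul, map_mul, map_inv, map_inv] at h1
  have h2 := mul_inv_eq_one.1 h1
  have h3 := mul_inv_eq_iff_eq_mul.1 h2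
  exact h3

/-- The universal property. -/
def raagLift (G : SimpleGraph V) {M : Type} [Group M] (f : V → M)
    (hf : ∀ u v, G.Adj u v → f u * f v = f v * f u) : RAAG G →* M :=
  PresentedGroup.toGroup (f := f) (by
    rintro r ⟨u, v, h, rfl⟩
    rw [map_mul, map_mul, map_mul, map_inv, map_inv, FreeGroup.lift_apply_of,
      FreeGroup.lift_apply_of, hf u v h, mul_inv_cancel_right, mul_inv_cancel])

theorem raagLift_x (G : SimpleGraph V) {M : Type} [Group M] (f : V → M)
    (hf : ∀ u v, G.Adj u v → f u * f v = f v * f u) (v : V) :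
    raagLift G f hf (xA G v) = f v := PresentedGroup.toGroup.of _

theorem raag_ext (G : SimpleGraph V) {M : Type} [Group M] (f g : RAAG G →* M)
    (h : ∀ v, f (xA G v) = g (xA G v)) : f = g := PresentedGroup.ext h

open scoped Classical in
/-- The automorphism which inverts `x_v`. -/
noncomputable def eA (G : SimpleGraph V) (v : V) : RAAG G →* RAAG G :=
  raagLift G (fun u => if u = v then (xA G u)⁻¹ else xA G u) (fun u w h => by
    have h0 : Commute (xA G u) (xA G w) := xA_comm G u w h
    split_ifs
    · exact h0.inv_inv
    · exact h0.inv_left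
    · exact h0.inv_right
    · exact h0)

theorem eA_self (G : SimpleGraph V) (v : V) : eA G v (xA G v) = (xA G v)⁻¹ := by
  unfold eA
  rw [raagLift_x, if_pos rfl]

theorem eA_ne (G : SimpleGraph V) {u v : V} (h : u ≠ v) : eA G v (xA G u) = xA G u := by
  unfold eA
  rw [raagLift_x, if_neg h]

theorem eA_eA (G : SimpleGraph V) (v : V) (g : RAAG G) : eA G v (eA G v g) = g := by
  refine DFunLike.congr_fun (raag_ext G ((eA G v).comp (eA G v)) (MonoidHom.id _) fun u => ?_) g
  rw [MonoidHom.comp_apply, MonoidHom.id_apply]
  by_cases h : u = v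
  · rw [h, eA_self, map_inv, eA_self, inv_inv]
  · rw [eA_ne G h, eA_ne G h]

theorem eA_comm (G : SimpleGraph V) (u v : V) (g : RAAG G) :
    eA G u (eA G v g) = eA G v (eA G u g) := by
  refine DFunLike.congr_fun (raag_ext G ((eA G u).comp (eA G v)) ((eA G v).comp (eA G u))
    fun w => ?_) g
  rw [MonoidHom.comp_apply, MonoidHom.comp_apply]
  by_cases h : w = u
  · by_cases h' : w = v
    · rw [← h, ← h']
    · rw [eA_ne G h', h, eA_self, map_inv, eA_ne G (h ▸ h')]
  · by_cases h' : w = v
    · rw [eA_ne G h, h', eA_self, map_inv, eA_ne G (h' ▸ h)]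
    · rw [eA_ne G h', eA_ne G h, eA_ne G h']

/-- The action of the generators of the Coxeter group. -/
noncomputable def actA (G : SimpleGraph V) (p : V × Bool) : Function.End (RAAG G) := fun g =>
  if p.2 then eA G p.1 g else xA G p.1 * eA G p.1 g

theorem actA_sq (G : SimpleGraph V) (p : V × Bool) : actA G p * actA G p = 1 := by
  obtain ⟨v, b⟩ := p
  funext g
  show actA G (v, b) (actA G (v, b) g) = g
  cases b
  · show xA G v * eA G v (xA G v * eA G v g) = g
    rw [map_mul, eA_self, eA_eA, mul_inv_cancel_left]
  · show eA G v (eA G v g) = g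
    exact eA_eA G v g

theorem actA_comm (G : SimpleGraph V) (p q : V × Bool) (h : (dblG G).Adj p q) :
    actA G p * actA G q = actA G q * actA G p := by
  obtain ⟨u, b⟩ := p
  obtain ⟨v, b'⟩ := q
  have h1 : G.Adj u v := h
  have hne : u ≠ v := h1.ne
  have e1 : eA G u (xA G v) = xA G v := eA_ne G hne.symm
  have e2 : eA G v (xA G u) = xA G u := eA_ne G hne
  funext g
  show actA G (u, b) (actA G (v, b') g) = actA G (v, b') (actA G (u, b) g)
  cases b <;> cases b'
  · show xA G u * eA G u (xA G v * eA G v g) = xA G v * eA G v (xA G u * eA G u g)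
    rw [map_mul, map_mul, e1, e2, eA_comm G u v, ← mul_assoc, ← mul_assoc, xA_comm G u v h1]
  · show xA G u * eA G u (eA G v g) = eA G v (xA G u * eA G u g)
    rw [map_mul, e2, eA_comm G u v]
  · show eA G u (xA G v * eA G v g) = xA G v * eA G v (eA G u g)
    rw [map_mul, e1, eA_comm G u v]
  · show eA G u (eA G v g) = eA G v (eA G u g)
    exact eA_comm G u v g

/-- The action of the Coxeter group. -/
noncomputable def homA (G : SimpleGraph V) : W (dblG G) →* Function.End (RAAG G) :=
  (cs (dblG G)).lift ⟨actA G, liftable_ofE _ (actA_sq G) (actA_comm G)⟩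

theorem homA_gen (G : SimpleGraph V) (p : V × Bool) :
    homA G (gen (dblG G) p) = actA G p := by
  unfold homA gen
  rw [CoxeterSystem.lift_apply_simple]

/-- The homomorphism to the Coxeter group. -/
noncomputable def toW (G : SimpleGraph V) : RAAG G →* W (dblG G) :=
  raagLift G (fun v => gen (dblG G) (v, false) * gen (dblG G) (v, true)) (fun u v h => by
    have c1 : ∀ b b' : Bool, Commute (gen (dblG G) (u, b)) (gen (dblG G) (v, b')) :=
      fun b b' => comm_of_adj (dblG G) (u, b) (v, b') h
    exact ((c1 false false).mul_left (c1 true false)).mul_right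
      ((c1 false true).mul_left (c1 true true)))

theorem toW_x (G : SimpleGraph V) (v : V) :
    toW G (xA G v) = gen (dblG G) (v, false) * gen (dblG G) (v, true) := by
  unfold toW
  rw [raagLift_x]

theorem homA_toW (G : SimpleGraph V) (a g : RAAG G) : homA G (toW G a) g = a * g := by
  have hx : ∀ (v : V) (g : RAAG G), homA G (toW G (xA G v)) g = xA G v * g := by
    intro v g
    rw [toW_x, map_mul, homA_gen, homA_gen]
    show actA G (v, false) (actA G (v, true) g) = xA G v * g
    show xA G v * eA G v (eA G v g) = xA G v * g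
    rw [eA_eA]
  have key : ∀ z : FreeGroup V, ∀ g, homA G (toW G (PresentedGroup.mk (raagRels G) z)) g =
      PresentedGroup.mk (raagRels G) z * g := by
    intro z
    induction z using FreeGroup.induction_on with
    | C1 =>
      intro g
      rw [map_one, map_one, map_one, one_mul]
      rfl
    | of v => exact fun g => hx v g
    | inv_of v ih =>
      intro g
      have h1 := ih ((PresentedGroup.mk (raagRels G) (FreeGroup.of v))⁻¹ * g)
      rw [mul_inv_cancel_left] at h1
      rw [map_inv, map_inv]
      conv_lhs => rw [← h1]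
      have h2 : ∀ (w : W (dblG G)) (y : RAAG G), homA G w⁻¹ (homA G w y) = y := by
        intro w y
        have h3 : (homA G w⁻¹ * homA G w) y = y := by
          rw [← map_mul, inv_mul_cancel, map_one]
          rfl
        exact h3
      rw [h2]
    | mul x y ihx ihy =>
      intro g
      rw [map_mul, map_mul, map_mul, mul_assoc, ← ihy, ← ihx]
      rfl
  obtain ⟨z, rfl⟩ := PresentedGroup.mk_surjective (raagRels G) a
  exact key z g

theorem toW_injective (G : SimpleGraph V) : Function.Injective (toW G) := by
  intro a b h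
  have h1 := homA_toW G a 1
  rw [h, homA_toW, mul_one, mul_one] at h1
  exact h1.symm

end

end SingerVS
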