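import Mathlib
import Pool.Agent.Lib_MP_394d50_vs.LkDefs
import Pool.Agent.Lib_MP_394d50_vs.LSDefs
import Pool.Agent.Lib_MP_394d50_vs.Raag

/-!
# Definitions for the statement: the `ℓ²`-Betti numbers of a simplicial complex with a free action
-/

namespace SingerVS

open SingerRA
open scoped Pointwise

section

variable {P : Type} [LinearOrder P]

open scoped Classical in
/-- The `k`-th `ℓ²`-Betti number of `X` (with respect to `Γ`): the von Neumann dimension over `Γ` of
the harmonic `k`-chains, that is the sum over the `Γ`-orbits of `k`-simplices `σ` of `X` of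
`⟨P δ_σ, δ_σ⟩`, where `P` is the orthogonal projection on the harmonic chains (of the simplicial
chain complex, with the orientations given by the order of the vertices). -/
noncomputable def bettiX (Γ : Type) [Group Γ] [MulAction Γ P] (X : Set (Finset P)) (k : ℕ) : ℝ :=
  ∑ᶠ o : MulAction.orbitRel.Quotient Γ (Finset P),
    if h : o.out ∈ X ∧ o.out.card = k + 1 then locDim (simpCx X (· < ·)) ⟨o.out, h.1⟩ else 0

open scoped Classical in
/-- The Euler characteristic of `X / Γ`: the alternating number of the `Γ`-orbits of simplices. -/
noncomputable def chiX (Γ : Type) [Group Γ] [MulAction Γ P] (X : Set (Finset P)) : ℤ :=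
  ∑ᶠ o : MulAction.orbitRel.Quotient Γ (Finset P),
    if o.out ∈ X then (-1) ^ (o.out.card - 1) else 0

end

/-- `Γ` has a subgroup of finite index which embeds in the right-angled Artin group or in the
right-angled Coxeter group of a finite graph. -/
def VirtRA (Γ : Type) [Group Γ] : Prop :=
  ∃ K : Subgroup Γ, K.FiniteIndex ∧ ∃ (V : Type) (_ : Finite V) (G : SimpleGraph V),
    (∃ f : K →* RAAG G, Function.Injective f) ∨ ∃ f : K →* W G, Function.Injective f

end SingerVS
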