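import Mathlib
import Pool.Agent.Lib_MP_394d50_vs.VStat

/-!
# The sums over the orbits of simplices
-/

namespace SingerVS

open SingerRA
open scoped Pointwise

open scoped Classical in
/-- The orbits in `X` and the orbits in `Finset P`. -/
theorem finsum_orb_bridge {Γ P A : Type} [Group Γ] [DecidableEq P] [MulAction Γ P]
    [AddCommMonoid A] {X : Set (Finset P)} (hinv : ∀ g : Γ, ∀ σ ∈ X, g • σ ∈ X)
    (φ : {σ : Finset P // σ ∈ X} → A)
    (hφ : ∀ (g : Γ) (c : {σ : Finset P // σ ∈ X}), φ ⟨g • c.1, hinv g c.1 c.2⟩ = φ c) :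
    ∑ᶠ o : MulAction.orbitRel.Quotient Γ (Finset P),
      (if h : o.out ∈ X then φ ⟨o.out, h⟩ else 0) =
    ∑ᶠ o : @Orb Γ {σ : Finset P // σ ∈ X} _ (simpAct hinv), φ (Quotient.out o) := by
  letI iA : MulAction Γ {σ : Finset P // σ ∈ X} := simpAct hinv
  let e : Orb Γ {σ : Finset P // σ ∈ X} → MulAction.orbitRel.Quotient Γ (Finset P) :=
    fun o => Quotient.mk (MulAction.orbitRel Γ (Finset P)) o.out.1
  have hrel : ∀ (o : MulAction.orbitRel.Quotient Γ (Finset P)) (σ : Finset P),
      Quotient.mk (MulAction.orbitRel Γ (Finset P)) σ = o → ∃ g : Γ, g • σ = o.out := by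
    intro o σ h
    subst h
    have h1 := Quotient.mk_out (s := MulAction.orbitRel Γ (Finset P)) σ
    obtain ⟨g, hg⟩ := MulAction.orbitRel_apply.mp h1
    exact ⟨g, hg⟩
  have hinj : Function.Injective e := by
    intro o o' h
    have h1 : (MulAction.orbitRel Γ (Finset P)) o.out.1 o'.out.1 := Quotient.exact h
    obtain ⟨g, hg⟩ := MulAction.orbitRel_apply.mp h1
    have hg' : g • o'.out.1 = o.out.1 := hg
    rw [← Quotient.out_eq o, ← Quotient.out_eq o']
    exact Quotient.sound (MulAction.orbitRel_apply.mpr ⟨g, Subtype.ext hg'⟩)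
  have hrange : ∀ o : MulAction.orbitRel.Quotient Γ (Finset P), o.out ∈ X → ∃ o', e o' = o := by
    intro o ho
    refine ⟨Quotient.mk (MulAction.orbitRel Γ {σ : Finset P // σ ∈ X}) ⟨o.out, ho⟩, ?_⟩
    have h1 := Quotient.mk_out (s := MulAction.orbitRel Γ {σ : Finset P // σ ∈ X}) ⟨o.out, ho⟩
    obtain ⟨g, hg⟩ := MulAction.orbitRel_apply.mp h1
    have e1 : Quotient.mk (MulAction.orbitRel Γ (Finset P)) o.out = o := Quotient.out_eq o
    conv_rhs => rw [← e1]
    exact Quotient.sound (MulAction.orbitRel_apply.mpr ⟨g, congrArg Subtype.val hg⟩)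
  have hval : ∀ o, (if h : (e o).out ∈ X then φ ⟨(e o).out, h⟩ else 0) = φ (Quotient.out o) := by
    intro o
    obtain ⟨g, hg⟩ := hrel (e o) o.out.1 rfl
    have hX : (e o).out ∈ X := hg ▸ hinv g _ o.out.2
    rw [dif_pos hX, ← hφ g o.out]
    congr 1
    exact Subtype.ext hg.symm
  rw [← finsum_congr hval, ← finsum_mem_range hinj (f := fun o =>
    (if h : Quotient.out o ∈ X then φ ⟨Quotient.out o, h⟩ else 0)), finsum_mem_def]
  refine finsum_congr fun o => ?_
  by_cases ho : o ∈ Set.range e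
  · rw [Set.indicator_of_mem ho]
  · rw [Set.indicator_of_notMem ho, dif_neg]
    intro h
    exact ho (hrange o h)

section

variable {Γ P : Type} [Group Γ] [LinearOrder P] [MulAction Γ P] {X : Set (Finset P)}

theorem bettiX_eq (hX : FreeCx Γ X)
    (hloc : ∀ (g : Γ) (c : {σ : Finset P // σ ∈ X}),
      locDim (simpCx X (· < ·)) ⟨g • c.1, hX.inv g c.1 c.2⟩ = locDim (simpCx X (· < ·)) c)
    (k : ℕ) :
    bettiX Γ X k = @l2Betti {σ : Finset P // σ ∈ X} Γ _ (simpAct hX.inv) (simpCx X (· < ·)) k := by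
  classical
  have h1 := finsum_orb_bridge (Γ := Γ) (X := X) hX.inv
    (fun c => if c.1.card = k + 1 then locDim (simpCx X (· < ·)) c else 0) (fun g c => by
      show (if (g • c.1).card = k + 1 then _ else _) = _
      rw [Finset.card_smul_finset, hloc])
  unfold bettiX l2Betti
  have h2 : ∀ o : @Orb Γ {σ : Finset P // σ ∈ X} _ (simpAct hX.inv),
      (if (simpCx X (· < ·)).dim (Quotient.out o) = k then
        locDim (simpCx X (· < ·)) (Quotient.out o) else 0) =
      if (Quotient.out o).1.card = k + 1 then locDim (simpCx X (· < ·)) (Quotient.out o)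
        else 0 := by
    intro o
    have h3 : 0 < (Quotient.out o).1.card := Finset.card_pos.mpr (hX.ne _ (Quotient.out o).2)
    have h4 : (simpCx X (· < ·)).dim (Quotient.out o) = k ↔ (Quotient.out o).1.card = k + 1 := by
      show (Quotient.out o).1.card - 1 = k ↔ _
      omega
    simp only [h4]
  rw [finsum_congr h2, ← h1]
  refine finsum_congr fun o => ?_
  by_cases h5 : o.out ∈ X
  · rw [dif_pos h5]
    by_cases h6 : o.out.card = k + 1
    · rw [dif_pos ⟨h5, h6⟩, if_pos h6]
    · rw [dif_neg (fun h => h6 h.2), if_neg h6]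
  · rw [dif_neg h5, dif_neg (fun h => h5 h.1)]

theorem chiX_eq (hX : FreeCx Γ X) :
    chiX Γ X = @chi {σ : Finset P // σ ∈ X} Γ _ (simpAct hX.inv) (simpCx X (· < ·)) := by
  classical
  have h1 := finsum_orb_bridge (Γ := Γ) (X := X) hX.inv
    (fun c => (-1 : ℤ) ^ (c.1.card - 1)) (fun g c => by
      show (-1 : ℤ) ^ ((g • c.1).card - 1) = _
      rw [Finset.card_smul_finset])
  unfold chiX chi
  refine Eq.trans (finsum_congr fun o => ?_) h1
  by_cases h5 : o.out ∈ X
  · rw [dif_pos h5, if_pos h5]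
  · rw [dif_neg h5, if_neg h5]

end

end SingerVS
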