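import Mathlib
import Pool.Agent.Lib_MP_394d50_vs.VBase

/-!
# Block D (duality): functions on pairs of simplices

`PairS ρ X p q`: the equivariant functions `F σ τ` on the pairs of simplices with `p` and `q`
vertices, finitely supported in `σ` for every `τ` and conversely. `D1` is the coboundary in `σ`,
`D2` the boundary in `τ`.
-/

namespace SingerVS

open scoped Pointwise

section

variable {P : Type} [DecidableEq P] {N : Type} [AddCommGroup N] [Module (ZMod 2) N]

/-- Equivariant functions on pairs of simplices. -/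
def PairS {H : Type} [Group H] [MulAction H P] (ρ : H →* Module.End (ZMod 2) N)
    (X : Set (Finset P)) (p q : ℕ) : Submodule (ZMod 2) (Finset P → Finset P → N) where
  carrier := {F | (∀ σ τ, ¬ ((σ ∈ X ∧ σ.card = p) ∧ (τ ∈ X ∧ τ.card = q)) → F σ τ = 0) ∧
    (∀ (h : H) (σ τ : Finset P), F (h • σ) (h • τ) = ρ h (F σ τ)) ∧
    (∀ τ, {σ | F σ τ ≠ 0}.Finite) ∧ (∀ σ, {τ | F σ τ ≠ 0}.Finite)}
  add_mem' := by
    rintro F G ⟨h1, h2, h3, h4⟩ ⟨k1, k2, k3, k4⟩
    refine ⟨fun σ τ h => ?_, fun h σ τ => ?_, fun τ => ?_, fun σ => ?_⟩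
    · rw [Pi.add_apply, Pi.add_apply, h1 σ τ h, k1 σ τ h, add_zero]
    · rw [Pi.add_apply, Pi.add_apply, Pi.add_apply, Pi.add_apply, h2, k2, map_add]
    · refine ((h3 τ).union (k3 τ)).subset fun σ hσ => ?_
      by_contra hn
      rw [Set.mem_union, not_or] at hn
      have e1 : F σ τ = 0 := not_not.mp hn.1
      have e2 : G σ τ = 0 := not_not.mp hn.2
      apply hσ
      rw [Pi.add_apply, Pi.add_apply, e1, e2, add_zero]
    · refine ((h4 σ).union (k4 σ)).subset fun τ hσ => ?_
      by_contra hn
      rw [Set.mem_union, not_or] at hn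
      have e1 : F σ τ = 0 := not_not.mp hn.1
      have e2 : G σ τ = 0 := not_not.mp hn.2
      apply hσ
      rw [Pi.add_apply, Pi.add_apply, e1, e2, add_zero]
  zero_mem' := by
    refine ⟨fun _ _ _ => rfl, fun h σ τ => ?_, fun τ => ?_, fun σ => ?_⟩
    · rw [Pi.zero_apply, Pi.zero_apply, Pi.zero_apply, Pi.zero_apply, map_zero]
    · refine Set.finite_empty.subset fun σ hσ => ?_
      exact (hσ rfl).elim
    · refine Set.finite_empty.subset fun τ hσ => ?_
      exact (hσ rfl).elim
  smul_mem' := by
    rintro r F ⟨h1, h2, h3, h4⟩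
    refine ⟨fun σ τ h => ?_, fun h σ τ => ?_, fun τ => ?_, fun σ => ?_⟩
    · rw [Pi.smul_apply, Pi.smul_apply, h1 σ τ h, smul_zero]
    · rw [Pi.smul_apply, Pi.smul_apply, Pi.smul_apply, Pi.smul_apply, h2, map_smul]
    · refine (h3 τ).subset fun σ hσ e1 => hσ ?_
      rw [Pi.smul_apply, Pi.smul_apply, e1, smul_zero]
    · refine (h4 σ).subset fun τ hσ e1 => hσ ?_
      rw [Pi.smul_apply, Pi.smul_apply, e1, smul_zero]

/-- The coboundary in the first variable. -/
noncomputable def D1 (X : Set (Finset P)) :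
    (Finset P → Finset P → N) →ₗ[ZMod 2] (Finset P → Finset P → N) where
  toFun F := fun σ τ => dl X (fun s => F s τ) σ
  map_add' F G := by
    funext σ τ
    exact congrFun (map_add (dl X) (fun s => F s τ) (fun s => G s τ)) σ
  map_smul' r F := by
    funext σ τ
    exact congrFun (map_smul (dl X) r (fun s => F s τ)) σ

/-- The boundary in the second variable. -/
noncomputable def D2 (X : Set (Finset P)) :
    (Finset P → Finset P → N) →ₗ[ZMod 2] (Finset P → Finset P → N) where
  toFun F := fun σ τ => bd X (F σ) τ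
  map_add' F G := by
    funext σ τ
    exact congrFun (map_add (bd X) (F σ) (G σ)) τ
  map_smul' r F := by
    funext σ τ
    exact congrFun (map_smul (bd X) r (F σ)) τ

theorem D1_apply (X : Set (Finset P)) (F : Finset P → Finset P → N) (σ τ : Finset P) :
    D1 X F σ τ = dl X (fun s => F s τ) σ := rfl

theorem D2_apply (X : Set (Finset P)) (F : Finset P → Finset P → N) (σ τ : Finset P) :
    D2 X F σ τ = bd X (F σ) τ := rfl

/-- The pairing with the locally finite cycle `ξ` in the first variable. -/
noncomputable def augX (ξ : Finset P → ZMod 2) (F : Finset P → Finset P → N) (τ : Finset P) : N :=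
  ∑ᶠ σ, ξ σ • F σ τ

/-- The sum over the vertices in the second variable. -/
noncomputable def augV (F : Finset P → Finset P → N) (σ : Finset P) : N :=
  ∑ᶠ v : P, F σ {v}

end

end SingerVS
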