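import Mathlib
import Pool.Agent.Lib_MP_394d50_vs.DDefs

/-!
# Piece DAUG: the two augmentations of the functions on pairs (about 150 lines)

* `augX_mem`: support clear; equivariance: `∑ᶠ σ, ξ σ • F σ (h • τ)`, substitute `σ = h • σ'`
  (`finsum_comp_equiv (MulAction.toPerm h)` or `finsum_eq_of_bijective`), then `ξ (h • σ') = ξ σ'`
  and `F (h • σ') (h • τ) = ρ h (F σ' τ)`; `ρ h` commutes with the finite sum
  (`AddMonoidHom.map_finsum`).
* `augX_D1`: `∑ᶠ σ, ξ σ • ∑_{p ∈ σ} F (σ \ p) τ = ∑ᶠ s, (bd X ξ s) • F s τ = 0` (adjunction of `dl`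
  and `bd` for a finitely supported function; `F s τ ≠ 0` only for `s ∈ X`; all sums are over the
  finite set of the pairs `(s, p)` with `F s τ ≠ 0`, `p ∈ nb X s`).
* `augX_D2`: `∑ᶠ σ, ξ σ • ∑_{p ∈ nb X τ} F σ (τ ∪ p) = ∑_{p ∈ nb X τ} augX ξ F (τ ∪ p)`.
* `augV_mem`, `augV_D1`: the same. `augV_D2`: for an edge `τ = {v, w}` both endpoints occur:
  `∑ᶠ v, ∑_{p ∈ nb X {v}} F σ {p, v} = 0`: every `τ ∈ X` with two vertices is counted twice
  (`2 = 0` in `N`; `ZModModule.add_self`); a convenient proof: it is the sum over the finite set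
  of the pairs `(v, p)`, use `Finset.sum_involution` with `(v, p) ↦ (p, v)`, or `sum_pairs_zero`
  from `VBase.lean`.
-/

namespace SingerVS

open scoped Pointwise

variable {H P : Type} [Group H] [DecidableEq P] [MulAction H P] {X : Set (Finset P)}
variable {N : Type} [AddCommGroup N] [Module (ZMod 2) N] {ρ : H →* Module.End (ZMod 2) N}
variable {p q : ℕ} {F : Finset P → Finset P → N}

theorem DAug_bd_ne {c : Finset P → N} {σ : Finset P} (h : bd X c σ ≠ 0) :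
    σ ∈ X ∧ ∃ v ∈ nb X σ, c (insert v σ) ≠ 0 := by
  by_cases hσ : σ ∈ X
  · refine ⟨hσ, ?_⟩
    by_contra hn
    push Not at hn
    exact h ((bd_apply hσ).trans (Finset.sum_eq_zero hn))
  · exact absurd (bd_apply_not hσ) h

theorem DAug_smul_fin {ι : Type} {ξ : ι → ZMod 2} {c : ι → N} (h : {i | c i ≠ 0}.Finite) :
    (Function.support fun i => ξ i • c i).Finite := by
  refine h.subset fun i hi e => hi ?_
  show ξ i • c i = 0
  rw [e, smul_zero]

/-- Adjunction of `dl` and `bd`. -/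
theorem DAug_adj (hX : FreeCx H X) (ξ : Finset P → ZMod 2) {c : Finset P → N}
    (hc : ∀ s, c s ≠ 0 → s ∈ X) (hfin : {s | c s ≠ 0}.Finite) :
    ∑ᶠ σ, ξ σ • dl X c σ = ∑ᶠ s, bd X ξ s • c s := by
  classical
  have hT : {σ | σ ∈ X ∧ ∃ s, c s ≠ 0 ∧ s ⊆ σ}.Finite := by
    refine Set.Finite.subset (hfin.biUnion (t := fun s => {σ | σ ∈ X ∧ s ⊆ σ})
      fun s hs => hX.cof_finite (hc s hs)) ?_
    rintro σ ⟨h1, s, h2, h3⟩
    exact Set.mem_iUnion₂.mpr ⟨s, h2, h1, h3⟩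
  have e1 : ∑ᶠ σ, ξ σ • dl X c σ = ∑ σ ∈ hT.toFinset, ξ σ • dl X c σ := by
    refine finsum_eq_sum_of_support_subset _ ?_
    intro σ hσ
    have h0 : dl X c σ ≠ 0 := by
      intro e
      exact hσ (by show ξ σ • dl X c σ = 0; rw [e, smul_zero])
    rw [Set.Finite.coe_toFinset]
    by_cases hσ' : σ ∈ X
    · refine ⟨hσ', ?_⟩
      by_contra hn
      push Not at hn
      apply h0
      rw [dl_apply hσ']
      refine Finset.sum_eq_zero fun p _ => ?_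
      by_contra h5
      exact hn _ h5 (Finset.erase_subset p σ)
    · exact absurd (dl_apply_not hσ') h0
  have e2 : ∑ᶠ s, bd X ξ s • c s = ∑ s ∈ hfin.toFinset, bd X ξ s • c s := by
    refine finsum_eq_sum_of_support_subset _ ?_
    intro s hs
    rw [Set.Finite.coe_toFinset]
    intro e
    exact hs (by show bd X ξ s • c s = 0; rw [e, smul_zero])
  rw [e1, e2]
  have e3 : ∑ σ ∈ hT.toFinset, ξ σ • dl X c σ =
      ∑ a ∈ (hT.toFinset.sigma fun σ => σ.filter fun p => c (σ.erase p) ≠ 0),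
        ξ a.1 • c (a.1.erase a.2) := by
    rw [Finset.sum_sigma]
    refine Finset.sum_congr rfl fun σ hσ => ?_
    have h1 := (Set.Finite.mem_toFinset hT).mp hσ
    rw [dl_apply h1.1, Finset.smul_sum]
    refine (Finset.sum_filter_of_ne (p := fun p => c (σ.erase p) ≠ 0)
      (f := fun p => ξ σ • c (σ.erase p)) fun p _ hp e => hp ?_).symm
    show ξ σ • c (σ.erase p) = 0
    rw [e, smul_zero]
  have e4 : ∑ s ∈ hfin.toFinset, bd X ξ s • c s =
      ∑ a ∈ (hfin.toFinset.sigma fun s => nb X s), ξ (insert a.2 a.1) • c a.1 := by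
    rw [Finset.sum_sigma]
    refine Finset.sum_congr rfl fun s hs => ?_
    have h1 := (Set.Finite.mem_toFinset hfin).mp hs
    rw [bd_apply (hc s h1), Finset.sum_smul]
  rw [e3, e4]
  refine Finset.sum_nbij' (fun a => ⟨a.1.erase a.2, a.2⟩) (fun a => ⟨insert a.2 a.1, a.2⟩)
    ?_ ?_ ?_ ?_ ?_
  · rintro ⟨σ, p⟩ ha
    obtain ⟨h1, h2⟩ := Finset.mem_sigma.mp ha
    obtain ⟨h3, h4⟩ := Finset.mem_filter.mp h2
    have h5 := (Set.Finite.mem_toFinset hT).mp h1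
    have h3' : p ∈ σ := h3
    have h4' : c (σ.erase p) ≠ 0 := h4
    refine Finset.mem_sigma.mpr ⟨(Set.Finite.mem_toFinset hfin).mpr h4', ?_⟩
    refine (hX.mem_nb (hc _ h4')).mpr ⟨Finset.notMem_erase p σ, ?_⟩
    show insert p (σ.erase p) ∈ X
    rw [Finset.insert_erase h3']
    exact h5.1
  · rintro ⟨s, p⟩ ha
    obtain ⟨h1, h2⟩ := Finset.mem_sigma.mp ha
    have h3 : c s ≠ 0 := (Set.Finite.mem_toFinset hfin).mp h1
    have h4 : p ∉ s ∧ insert p s ∈ X := (hX.mem_nb (hc s h3)).mp h2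
    refine Finset.mem_sigma.mpr ⟨(Set.Finite.mem_toFinset hT).mpr
      ⟨h4.2, s, h3, Finset.subset_insert p s⟩, ?_⟩
    refine Finset.mem_filter.mpr ⟨Finset.mem_insert_self p s, ?_⟩
    show c ((insert p s).erase p) ≠ 0
    rw [Finset.erase_insert h4.1]
    exact h3
  · rintro ⟨σ, p⟩ ha
    obtain ⟨h1, h2⟩ := Finset.mem_sigma.mp ha
    obtain ⟨h3, h4⟩ := Finset.mem_filter.mp h2
    have h3' : p ∈ σ := h3
    show (⟨insert p (σ.erase p), p⟩ : (_ : Finset P) × P) = ⟨σ, p⟩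
    rw [Finset.insert_erase h3']
  · rintro ⟨s, p⟩ ha
    obtain ⟨h1, h2⟩ := Finset.mem_sigma.mp ha
    have h3 : c s ≠ 0 := (Set.Finite.mem_toFinset hfin).mp h1
    have h4 : p ∉ s ∧ insert p s ∈ X := (hX.mem_nb (hc s h3)).mp h2
    show (⟨(insert p s).erase p, p⟩ : (_ : Finset P) × P) = ⟨s, p⟩
    rw [Finset.erase_insert h4.1]
  · rintro ⟨σ, p⟩ ha
    obtain ⟨h1, h2⟩ := Finset.mem_sigma.mp ha
    obtain ⟨h3, h4⟩ := Finset.mem_filter.mp h2
    have h3' : p ∈ σ := h3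
    show ξ σ • c (σ.erase p) = ξ (insert p (σ.erase p)) • c (σ.erase p)
    rw [Finset.insert_erase h3']

theorem augX_mem (hX : FreeCx H X) {ξ : Finset P → ZMod 2} (hξ : ∀ (h : H) σ, ξ (h • σ) = ξ σ)
    (hF : F ∈ PairS ρ X p q) : augX ξ F ∈ Co ρ X q := by
  obtain ⟨h1, h2, h3, h4⟩ := hF
  refine ⟨fun τ hτ => ?_, fun h τ _ => ?_⟩
  · show ∑ᶠ σ, ξ σ • F σ τ = 0
    have h5 : ∀ σ, ξ σ • F σ τ = 0 := fun σ => by rw [h1 σ τ fun h6 => hτ h6.2, smul_zero]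
    rw [finsum_congr h5, finsum_zero]
  · show ∑ᶠ σ, ξ σ • F σ (h • τ) = ρ h (∑ᶠ σ, ξ σ • F σ τ)
    have e1 : ∑ᶠ σ, ξ (h • σ) • F (h • σ) (h • τ) = ∑ᶠ σ, ξ σ • F σ (h • τ) :=
      finsum_comp_equiv (MulAction.toPerm h : Equiv.Perm (Finset P))
        (f := fun σ => ξ σ • F σ (h • τ))
    rw [← e1]
    have e2 : ∀ σ, ξ (h • σ) • F (h • σ) (h • τ) = ρ h (ξ σ • F σ τ) := fun σ => by
      rw [hξ, h2, map_smul]
    rw [finsum_congr e2]
    exact ((ρ h).toAddMonoidHom.map_finsum (DAug_smul_fin (h3 τ))).symm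

theorem augX_add {ξ : Finset P → ZMod 2} {G : Finset P → Finset P → N} (hF : F ∈ PairS ρ X p q)
    (hG : G ∈ PairS ρ X p q) : augX ξ (F + G) = augX ξ F + augX ξ G := by
  funext τ
  show ∑ᶠ σ, ξ σ • (F σ τ + G σ τ) = ∑ᶠ σ, ξ σ • F σ τ + ∑ᶠ σ, ξ σ • G σ τ
  rw [← finsum_add_distrib (DAug_smul_fin (hF.2.2.1 τ)) (DAug_smul_fin (hG.2.2.1 τ))]
  exact finsum_congr fun σ => smul_add _ _ _

theorem augX_D1 (hX : FreeCx H X) {ξ : Finset P → ZMod 2} (hξ : ξ ∈ Ch (ZMod 2) X (p + 1))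
    (h0 : bd X ξ = 0) (hF : F ∈ PairS ρ X p q) : augX ξ (D1 X F) = 0 := by
  obtain ⟨h1, h2, h3, h4⟩ := hF
  funext τ
  show ∑ᶠ σ, ξ σ • dl X (fun s => F s τ) σ = 0
  rw [DAug_adj hX ξ (c := fun s => F s τ) ?_ (h3 τ), h0]
  · have h5 : ∀ s, (0 : Finset P → ZMod 2) s • F s τ = 0 := fun s => by
      rw [Pi.zero_apply, zero_smul]
    rw [finsum_congr h5, finsum_zero]
  · intro s hs
    by_contra h6
    exact hs (h1 s τ fun h7 => h6 h7.1.1)

theorem augX_D2 (hX : FreeCx H X) {ξ : Finset P → ZMod 2} (hF : F ∈ PairS ρ X p q) :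
    augX ξ (D2 X F) = bd X (augX ξ F) := by
  obtain ⟨h1, h2, h3, h4⟩ := hF
  funext τ
  show ∑ᶠ σ, ξ σ • bd X (F σ) τ = bd X (augX ξ F) τ
  by_cases hτ : τ ∈ X
  · rw [bd_apply hτ]
    have e1 : ∀ σ, ξ σ • bd X (F σ) τ = ∑ v ∈ nb X τ, ξ σ • F σ (insert v τ) := fun σ => by
      rw [bd_apply hτ, Finset.smul_sum]
    rw [finsum_congr e1]
    exact finsum_sum_comm _ (fun σ v => ξ σ • F σ (insert v τ)) fun v _ => DAug_smul_fin (h3 _)
  · rw [bd_apply_not hτ]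
    have e1 : ∀ σ, ξ σ • bd X (F σ) τ = 0 := fun σ => by
      rw [bd_apply_not hτ, smul_zero]
    rw [finsum_congr e1, finsum_zero]

theorem DAug_vfin {c : Finset P → N} (h : {τ | c τ ≠ 0}.Finite) :
    (Function.support fun v : P => c {v}).Finite := by
  refine Set.Finite.of_finite_image (h.subset ?_) (f := fun v => ({v} : Finset P)) ?_
  · rintro _ ⟨v, hv, rfl⟩
    exact hv
  · intro v _ w _ e
    exact Finset.singleton_injective e

theorem augV_mem (hX : FreeCx H X) (hF : F ∈ PairS ρ X p 1) : augV F ∈ Co ρ X p := by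
  obtain ⟨h1, h2, h3, h4⟩ := hF
  refine ⟨fun σ hσ => ?_, fun h σ _ => ?_⟩
  · show ∑ᶠ v : P, F σ {v} = 0
    have h5 : ∀ v : P, F σ {v} = 0 := fun v => h1 σ {v} fun h6 => hσ h6.1
    rw [finsum_congr h5, finsum_zero]
  · show ∑ᶠ v : P, F (h • σ) {v} = ρ h (∑ᶠ v : P, F σ {v})
    have e1 : ∑ᶠ v : P, F (h • σ) {h • v} = ∑ᶠ v : P, F (h • σ) {v} :=
      finsum_comp_equiv (MulAction.toPerm h : Equiv.Perm P) (f := fun v => F (h • σ) {v})
    rw [← e1]
    have e2 : ∀ v : P, F (h • σ) {h • v} = ρ h (F σ {v}) := fun v => by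
      rw [← Finset.smul_finset_singleton, h2]
    rw [finsum_congr e2]
    exact ((ρ h).toAddMonoidHom.map_finsum (DAug_vfin (h4 σ))).symm

theorem augV_add {G : Finset P → Finset P → N} (hF : F ∈ PairS ρ X p q)
    (hG : G ∈ PairS ρ X p q) : augV (F + G) = augV F + augV G := by
  funext σ
  show ∑ᶠ v : P, (F σ {v} + G σ {v}) = ∑ᶠ v : P, F σ {v} + ∑ᶠ v : P, G σ {v}
  exact finsum_add_distrib (DAug_vfin (hF.2.2.2 σ)) (DAug_vfin (hG.2.2.2 σ))

theorem augV_D1 (hX : FreeCx H X) (hF : F ∈ PairS ρ X p q) :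
    augV (D1 X F) = dl X (augV F) := by
  obtain ⟨h1, h2, h3, h4⟩ := hF
  funext σ
  show ∑ᶠ v : P, dl X (fun s => F s {v}) σ = dl X (augV F) σ
  by_cases hσ : σ ∈ X
  · rw [dl_apply hσ]
    have e1 : ∀ v : P, dl X (fun s => F s {v}) σ = ∑ w ∈ σ, F (σ.erase w) {v} := fun v =>
      dl_apply hσ
    rw [finsum_congr e1]
    exact finsum_sum_comm _ (fun (v w : P) => F (σ.erase w) {v}) fun w _ => DAug_vfin (h4 _)
  · rw [dl_apply_not hσ]
    have e1 : ∀ v : P, dl X (fun s => F s {v}) σ = 0 := fun v => dl_apply_not hσ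
    rw [finsum_congr e1, finsum_zero]

theorem augV_D2 (hX : FreeCx H X) (hF : F ∈ PairS ρ X p 2) : augV (D2 X F) = 0 := by
  classical
  obtain ⟨h1, h2, h3, h4⟩ := hF
  funext σ
  show ∑ᶠ v : P, bd X (F σ) {v} = 0
  have hS : ∀ τ, F σ τ ≠ 0 → τ ∈ X := fun τ hτ => by
    by_contra h6
    exact hτ (h1 σ τ fun h7 => h6 h7.2.1)
  set V : Finset P := (h4 σ).toFinset.biUnion id with hV
  have mV : ∀ v τ, F σ τ ≠ 0 → v ∈ τ → v ∈ V := fun v τ hτ hv =>
    Finset.mem_biUnion.mpr ⟨τ, (Set.Finite.mem_toFinset _).mpr hτ, hv⟩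
  have xV : ∀ v ∈ V, ({v} : Finset P) ∈ X := fun v hv => by
    obtain ⟨τ, h5, h6⟩ := Finset.mem_biUnion.mp hv
    exact hX.single_mem (hS τ ((Set.Finite.mem_toFinset _).mp h5)) h6
  have e1 : ∑ᶠ v : P, bd X (F σ) {v} = ∑ v ∈ V, bd X (F σ) {v} := by
    refine finsum_eq_sum_of_support_subset _ fun v hv => ?_
    obtain ⟨_, w, _, hne⟩ := DAug_bd_ne (X := X) (c := F σ) (σ := {v}) hv
    exact Finset.mem_coe.mpr (mV v _ hne
      (Finset.mem_insert_of_mem (Finset.mem_singleton_self v)))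
  rw [e1]
  have e2 : ∀ v ∈ V, bd X (F σ) {v} =
      ∑ w ∈ (nb X {v}).filter (· ∈ V), F σ (insert w {v}) := fun v hv => by
    rw [bd_apply (xV v hv)]
    refine (Finset.sum_filter_of_ne fun w _ hw => ?_).symm
    exact mV w _ hw (Finset.mem_insert_self w {v})
  rw [Finset.sum_congr rfl e2]
  refine sum_pairs_zero V (fun v => (nb X {v}).filter (· ∈ V))
    (fun v w => F σ (insert w {v})) ?_ ?_
  · intro v hv w hw
    obtain ⟨h5, h6⟩ := Finset.mem_filter.mp hw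
    obtain ⟨h7, h8⟩ := (hX.mem_nb (xV v hv)).mp h5
    have h9 : w ≠ v := fun e => h7 (Finset.mem_singleton.mpr e)
    refine ⟨h6, Finset.mem_filter.mpr ⟨(hX.mem_nb (xV w h6)).mpr ⟨fun h10 => h9
      (Finset.mem_singleton.mp h10).symm, ?_⟩, hv⟩, h9⟩
    rw [Finset.pair_comm]
    exact h8
  · intro v w
    show F σ (insert w {v}) = F σ (insert v {w})
    rw [Finset.pair_comm]

end SingerVS
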