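import Mathlib
import Pool.Agent.Lib_MP_394d50_vs.DDefs

/-!
# Piece DEXT: equivariant functions on pairs with prescribed rows or columns
-/

namespace SingerVS

open scoped Pointwise

variable {H P : Type} [Group H] [DecidableEq P] [MulAction H P] {X : Set (Finset P)}
variable {N : Type} [AddCommGroup N] [Module (ZMod 2) N] {ρ : H →* Module.End (ZMod 2) N}
variable {R : Finset (Finset P)}

omit [DecidableEq P] in
private theorem dext_swap [DecidableEq P] {p q : ℕ} {F : Finset P → Finset P → N}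
    (hF : F ∈ PairS ρ X p q) : (fun σ τ => F τ σ) ∈ PairS ρ X q p := by
  obtain ⟨h1, h2, h3, h4⟩ := hF
  exact ⟨fun σ τ h => h1 τ σ (fun h5 => h ⟨h5.2, h5.1⟩), fun h σ τ => h2 h τ σ, h4, h3⟩

theorem pair_ext_row (hX : FreeCx H X) (hR : Reps H X R) (p q : ℕ) (g : Finset P → Finset P → N)
    (hg : ∀ τ, g τ ∈ Ch N X p) (hfin : ∀ τ, (Function.support (g τ)).Finite) :
    ∃ F ∈ PairS ρ X p q, ∀ τ ∈ R, τ.card = q → ∀ σ, F σ τ = g τ σ := by
  classical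
  set F : Finset P → Finset P → N := fun σ τ =>
    if (σ ∈ X ∧ σ.card = p) ∧ (τ ∈ X ∧ τ.card = q) then
      ρ (hR.el τ) (g (hR.rep τ) ((hR.el τ)⁻¹ • σ)) else 0 with hFdef
  have hpos : ∀ σ τ, (σ ∈ X ∧ σ.card = p) ∧ (τ ∈ X ∧ τ.card = q) →
      F σ τ = ρ (hR.el τ) (g (hR.rep τ) ((hR.el τ)⁻¹ • σ)) := fun σ τ h => if_pos h
  have hneg : ∀ σ τ, ¬ ((σ ∈ X ∧ σ.card = p) ∧ (τ ∈ X ∧ τ.card = q)) → F σ τ = 0 :=
    fun σ τ h => if_neg h
  have hne : ∀ σ τ, F σ τ ≠ 0 → ((σ ∈ X ∧ σ.card = p) ∧ (τ ∈ X ∧ τ.card = q)) ∧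
      g (hR.rep τ) ((hR.el τ)⁻¹ • σ) ≠ 0 := by
    intro σ τ h
    have h1 : (σ ∈ X ∧ σ.card = p) ∧ (τ ∈ X ∧ τ.card = q) := by
      by_contra h2
      exact h (hneg σ τ h2)
    refine ⟨h1, fun h2 => h ?_⟩
    rw [hpos σ τ h1, h2, map_zero]
  refine ⟨F, ⟨hneg, ?_, ?_, ?_⟩, ?_⟩
  · intro h σ τ
    by_cases h1 : (σ ∈ X ∧ σ.card = p) ∧ (τ ∈ X ∧ τ.card = q)
    · have h2 : (h • σ ∈ X ∧ (h • σ).card = p) ∧ (h • τ ∈ X ∧ (h • τ).card = q) := by
        rw [card_smul, card_smul]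
        exact ⟨⟨hX.inv h σ h1.1.1, h1.1.2⟩, ⟨hX.inv h τ h1.2.1, h1.2.2⟩⟩
      rw [hpos _ _ h1, hpos _ _ h2, hR.rep_smul hX h h1.2.1, hR.el_smul hX h h1.2.1, map_mul,
        mul_inv_rev, mul_smul, inv_smul_smul]
      rfl
    · have h2 : ¬ ((h • σ ∈ X ∧ (h • σ).card = p) ∧ (h • τ ∈ X ∧ (h • τ).card = q)) := by
        rw [card_smul, card_smul, hX.smul_mem_iff, hX.smul_mem_iff]
        exact h1
      rw [hneg _ _ h1, hneg _ _ h2, map_zero]
  · intro τ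
    refine ((hfin (hR.rep τ)).image (fun s => hR.el τ • s)).subset fun σ hσ => ?_
    refine ⟨(hR.el τ)⁻¹ • σ, (hne σ τ hσ).2, ?_⟩
    show hR.el τ • (hR.el τ)⁻¹ • σ = σ
    rw [smul_inv_smul]
  · intro σ
    have h1 : {τ | F σ τ ≠ 0} ⊆ ⋃ r ∈ (R : Set (Finset P)), ⋃ s ∈ Function.support (g r),
        {τ | ∃ h : H, h • s = σ ∧ τ = h • r} := by
      intro τ hτ
      obtain ⟨h2, h3⟩ := hne σ τ hτ
      refine Set.mem_iUnion₂.mpr ⟨hR.rep τ, hR.rep_mem h2.2.1, Set.mem_iUnion₂.mpr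
        ⟨(hR.el τ)⁻¹ • σ, h3, hR.el τ, ?_, (hR.el_rep h2.2.1).symm⟩⟩
      rw [smul_inv_smul]
    refine Set.Finite.subset (Set.Finite.biUnion R.finite_toSet fun r hr =>
      Set.Finite.biUnion (hfin r) fun s hs => ?_) h1
    refine Set.Subsingleton.finite ?_
    rintro _ ⟨h, e, rfl⟩ _ ⟨h', e', rfl⟩
    have hsX : s ∈ X := by
      by_contra h4
      exact hs (hg r s (fun h5 => h4 h5.1))
    rw [hX.smul_inj hsX (e.trans e'.symm)]
  · intro τ hτ hq σ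
    by_cases h1 : σ ∈ X ∧ σ.card = p
    · rw [hpos σ τ ⟨h1, hR.mem τ hτ, hq⟩, hR.el_self hX hτ, hR.rep_self hτ, map_one, inv_one,
        one_smul]
      rfl
    · rw [hneg σ τ (fun h2 => h1 h2.1), hg τ σ h1]

theorem pair_ext_col (hX : FreeCx H X) (hR : Reps H X R) (p q : ℕ) (g : Finset P → Finset P → N)
    (hg : ∀ σ, g σ ∈ Ch N X q) (hfin : ∀ σ, (Function.support (g σ)).Finite) :
    ∃ F ∈ PairS ρ X p q, ∀ σ ∈ R, σ.card = p → ∀ τ, F σ τ = g σ τ := by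
  obtain ⟨F, hF, hF'⟩ := pair_ext_row (ρ := ρ) hX hR q p g hg hfin
  exact ⟨fun σ τ => F τ σ, dext_swap hF, fun σ hσ hp τ => hF' σ hσ hp τ⟩

private theorem dext_dl_trans (hX : FreeCx H X) (c : Finset P → N) (h : H) {σ : Finset P}
    (hσ : σ ∈ X) : dl X (fun s => ρ h (c (h⁻¹ • s))) σ = ρ h (dl X c (h⁻¹ • σ)) := by
  rw [dl_apply hσ, dl_apply (hX.inv h⁻¹ σ hσ), map_sum]
  have h1 : h⁻¹ • σ = σ.image (fun x => h⁻¹ • x) := rfl
  conv_rhs => rw [h1]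
  rw [Finset.sum_image (fun x _ y _ e => MulAction.injective h⁻¹ e)]
  refine Finset.sum_congr rfl fun p _ => ?_
  rw [← h1, ← smul_erase]

private theorem dext_bd_trans (hX : FreeCx H X) (c : Finset P → N) (h : H) {σ : Finset P}
    (hσ : σ ∈ X) : bd X (fun s => ρ h (c (h⁻¹ • s))) σ = ρ h (bd X c (h⁻¹ • σ)) := by
  rw [bd_apply hσ, bd_apply (hX.inv h⁻¹ σ hσ), map_sum, hX.nb_smul h⁻¹ hσ]
  have h1 : h⁻¹ • nb X σ = (nb X σ).image (fun x => h⁻¹ • x) := rfl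
  rw [h1, Finset.sum_image (fun x _ y _ e => MulAction.injective h⁻¹ e)]
  refine Finset.sum_congr rfl fun p _ => ?_
  rw [Finset.smul_finset_insert]

/-- Solutions of `D1 G = F` from solutions in the rows. -/
theorem pair_row (hX : FreeCx H X) {p p' q : ℕ} {F : Finset P → Finset P → N}
    (hF : F ∈ PairS ρ X p q)
    (hsol : ∀ τ ∈ X, τ.card = q → ∃ g ∈ Ch N X p', (Function.support g).Finite ∧
      dl X g = fun σ => F σ τ) :
    ∃ G ∈ PairS ρ X p' q, D1 X G = F := by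
  classical
  obtain ⟨R, hR⟩ := hX.exists_reps
  have h1 : ∀ τ : Finset P, ∃ g ∈ Ch N X p', (Function.support g).Finite ∧
      (τ ∈ X → τ.card = q → dl X g = fun σ => F σ τ) := by
    intro τ
    by_cases h2 : τ ∈ X ∧ τ.card = q
    · obtain ⟨g, hg1, hg2, hg3⟩ := hsol τ h2.1 h2.2
      exact ⟨g, hg1, hg2, fun _ _ => hg3⟩
    · refine ⟨0, Submodule.zero_mem _, ?_, fun h3 h4 => (h2 ⟨h3, h4⟩).elim⟩
      rw [Function.support_zero]
      exact Set.finite_empty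
  choose g hg1 hg2 hg3 using h1
  obtain ⟨G, hG, hG'⟩ := pair_ext_row (ρ := ρ) hX hR p' q g hg1 hg2
  refine ⟨G, hG, ?_⟩
  funext σ τ
  rw [D1_apply]
  by_cases hτ : τ ∈ X ∧ τ.card = q
  · by_cases hσ : σ ∈ X
    · have hr := hR.rep_mem hτ.1
      have hrc : (hR.rep τ).card = q := (hR.rep_card hτ.1).trans hτ.2
      have e1 : (fun s => G s τ) =
          fun s => ρ (hR.el τ) (g (hR.rep τ) ((hR.el τ)⁻¹ • s)) := by
        funext s
        have h2 := hG.2.1 (hR.el τ) ((hR.el τ)⁻¹ • s) (hR.rep τ)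
        rw [smul_inv_smul, hR.el_rep hτ.1, hG' _ hr hrc] at h2
        exact h2
      rw [e1, dext_dl_trans hX (g (hR.rep τ)) _ hσ, hg3 _ (hR.mem _ hr) hrc]
      have h3 := hF.2.1 (hR.el τ) ((hR.el τ)⁻¹ • σ) (hR.rep τ)
      rw [smul_inv_smul, hR.el_rep hτ.1] at h3
      exact h3.symm
    · rw [dl_apply_not hσ, hF.1 σ τ (fun h2 => hσ h2.1.1)]
  · have e1 : (fun s => G s τ) = 0 := by
      funext s
      exact hG.1 s τ (fun h2 => hτ h2.2)
    rw [e1, map_zero, hF.1 σ τ (fun h2 => hτ h2.2)]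
    rfl

/-- Solutions of `D2 G = F` from solutions in the columns. -/
theorem pair_col (hX : FreeCx H X) {p q q' : ℕ} {F : Finset P → Finset P → N}
    (hF : F ∈ PairS ρ X p q)
    (hsol : ∀ σ ∈ X, σ.card = p → ∃ g ∈ Ch N X q', (Function.support g).Finite ∧
      bd X g = F σ) :
    ∃ G ∈ PairS ρ X p q', D2 X G = F := by
  classical
  obtain ⟨R, hR⟩ := hX.exists_reps
  have h1 : ∀ σ : Finset P, ∃ g ∈ Ch N X q', (Function.support g).Finite ∧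
      (σ ∈ X → σ.card = p → bd X g = F σ) := by
    intro σ
    by_cases h2 : σ ∈ X ∧ σ.card = p
    · obtain ⟨g, hg1, hg2, hg3⟩ := hsol σ h2.1 h2.2
      exact ⟨g, hg1, hg2, fun _ _ => hg3⟩
    · refine ⟨0, Submodule.zero_mem _, ?_, fun h3 h4 => (h2 ⟨h3, h4⟩).elim⟩
      rw [Function.support_zero]
      exact Set.finite_empty
  choose g hg1 hg2 hg3 using h1
  obtain ⟨G, hG, hG'⟩ := pair_ext_col (ρ := ρ) hX hR p q' g hg1 hg2
  refine ⟨G, hG, ?_⟩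
  funext σ τ
  rw [D2_apply]
  by_cases hσ : σ ∈ X ∧ σ.card = p
  · by_cases hτ : τ ∈ X
    · have hr := hR.rep_mem hσ.1
      have hrc : (hR.rep σ).card = p := (hR.rep_card hσ.1).trans hσ.2
      have e1 : G σ = fun s => ρ (hR.el σ) (g (hR.rep σ) ((hR.el σ)⁻¹ • s)) := by
        funext s
        have h2 := hG.2.1 (hR.el σ) (hR.rep σ) ((hR.el σ)⁻¹ • s)
        rw [smul_inv_smul, hR.el_rep hσ.1, hG' _ hr hrc] at h2
        exact h2
      rw [e1, dext_bd_trans hX (g (hR.rep σ)) _ hτ, hg3 _ (hR.mem _ hr) hrc]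
      have h3 := hF.2.1 (hR.el σ) (hR.rep σ) ((hR.el σ)⁻¹ • τ)
      rw [smul_inv_smul, hR.el_rep hσ.1] at h3
      exact h3.symm
    · rw [bd_apply_not hτ, hF.1 σ τ (fun h2 => hτ h2.2.1)]
  · have e1 : G σ = 0 := by
      funext s
      exact hG.1 σ s (fun h2 => hσ h2.1)
    rw [e1, map_zero, hF.1 σ τ (fun h2 => hσ h2.1)]
    rfl

theorem pair_liftX (hX : FreeCx H X) {ξ : Finset P → ZMod 2} (hξ : ∀ (h : H) σ, ξ (h • σ) = ξ σ)
    {σ₀ : Finset P} (hσ₀ : σ₀ ∈ X) (h1 : ξ σ₀ = 1) {q : ℕ} {b : Finset P → N}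
    (hb : b ∈ Co ρ X q) : ∃ F ∈ PairS ρ X σ₀.card q, augX ξ F = b := by
  classical
  obtain ⟨R, hR⟩ := hX.exists_reps
  obtain ⟨F, hF, hF'⟩ := pair_ext_row (ρ := ρ) hX hR σ₀.card q (fun τ => Pi.single σ₀ (b τ))
    (fun τ σ hσ => Pi.single_eq_of_ne (fun h2 : σ = σ₀ => hσ (by rw [h2]; exact ⟨hσ₀, rfl⟩)) _)
    (fun τ => (Set.finite_singleton σ₀).subset Pi.support_single_subset)
  refine ⟨F, hF, ?_⟩
  funext τ
  show ∑ᶠ σ, ξ σ • F σ τ = b τ
  by_cases hτ : τ ∈ X ∧ τ.card = q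
  · have hr := hR.rep_mem hτ.1
    have hrc : (hR.rep τ).card = q := (hR.rep_card hτ.1).trans hτ.2
    have e1 : ∀ s, F s τ = ρ (hR.el τ)
        ((Pi.single σ₀ (b (hR.rep τ)) : Finset P → N) ((hR.el τ)⁻¹ • s)) := by
      intro s
      have h2 := hF.2.1 (hR.el τ) ((hR.el τ)⁻¹ • s) (hR.rep τ)
      rw [smul_inv_smul, hR.el_rep hτ.1, hF' _ hr hrc] at h2
      exact h2
    rw [finsum_eq_single (fun σ => ξ σ • F σ τ) (hR.el τ • σ₀)]
    · rw [e1, inv_smul_smul, Pi.single_eq_same, hξ, h1, one_smul, ← hX.co_eqv hb,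
        hR.el_rep hτ.1]
    · intro s hs
      rw [e1, Pi.single_eq_of_ne, map_zero, smul_zero]
      intro h2
      apply hs
      rw [← h2, smul_inv_smul]
  · rw [hb.1 τ hτ]
    refine finsum_eq_zero_of_forall_eq_zero fun σ => ?_
    rw [hF.1 σ τ (fun h2 => hτ h2.2), smul_zero]

theorem pair_liftV (hX : FreeCx H X) {v₀ : P} (hv₀ : {v₀} ∈ X) {p : ℕ} {a : Finset P → N}
    (ha : a ∈ Co ρ X p) : ∃ F ∈ PairS ρ X p 1, augV F = a := by
  classical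
  obtain ⟨R, hR⟩ := hX.exists_reps
  obtain ⟨F, hF, hF'⟩ := pair_ext_col (ρ := ρ) hX hR p 1 (fun σ => Pi.single {v₀} (a σ))
    (fun σ τ hτ => Pi.single_eq_of_ne (fun h2 : τ = {v₀} => hτ (by
      rw [h2]; exact ⟨hv₀, Finset.card_singleton v₀⟩)) _)
    (fun τ => (Set.finite_singleton ({v₀} : Finset P)).subset Pi.support_single_subset)
  refine ⟨F, hF, ?_⟩
  funext σ
  show ∑ᶠ v : P, F σ {v} = a σ
  by_cases hσ : σ ∈ X ∧ σ.card = p
  · have hr := hR.rep_mem hσ.1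
    have hrc : (hR.rep σ).card = p := (hR.rep_card hσ.1).trans hσ.2
    have e1 : ∀ s, F σ s = ρ (hR.el σ)
        ((Pi.single {v₀} (a (hR.rep σ)) : Finset P → N) ((hR.el σ)⁻¹ • s)) := by
      intro s
      have h2 := hF.2.1 (hR.el σ) (hR.rep σ) ((hR.el σ)⁻¹ • s)
      rw [smul_inv_smul, hR.el_rep hσ.1, hF' _ hr hrc] at h2
      exact h2
    rw [finsum_eq_single (fun v : P => F σ {v}) (hR.el σ • v₀)]
    · rw [e1, Finset.smul_finset_singleton, inv_smul_smul, Pi.single_eq_same, ← hX.co_eqv ha,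
        hR.el_rep hσ.1]
    · intro v hv
      rw [e1, Pi.single_eq_of_ne, map_zero]
      intro h2
      apply hv
      rw [Finset.smul_finset_singleton] at h2
      rw [← Finset.singleton_injective h2, smul_inv_smul]
  · rw [ha.1 σ hσ]
    refine finsum_eq_zero_of_forall_eq_zero fun v => ?_
    exact hF.1 σ {v} (fun h2 => hσ h2.1)

end SingerVS
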