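import Mathlib
import Pool.Agent.Lib_MP_394d50_vs.DDefs

/-!
# Piece DOPS: the differentials on the functions on pairs (about 120 lines)

* `D1_mem`: support: `FreeCx.ch_dl` for the function `s ↦ F s τ`; equivariance: as in
  `FreeCx.dl_smul` (the action on the second variable goes along: `dl X (fun s => F s (h • τ))
  (h • σ)`, reindex the sum over `h • σ` by `σ`); for fixed `τ` finitely many `σ`: `dl X c σ ≠ 0`
  implies `c (σ.erase p) ≠ 0` for some `p ∈ σ`, `σ ∈ X`, that is `σ` is a coface of one of the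
  finitely many elements of the support (they are in `X`: `FreeCx.cof_finite`); for fixed `σ` a
  finite union of the supports of `F (σ.erase p)`, `p ∈ σ`.
* `D2_mem`: the same with `bd` (`FreeCx.ch_bd`, `FreeCx.nb_smul`, `mem_nb`): for fixed `σ` the
  support of `bd X (F σ)` is contained in the (finite) set of the faces of the elements of the
  support; for fixed `τ` in the union of the supports of `F · (insert p τ)`, `p ∈ nb X τ`.
* `D1_D1`, `D2_D2`: `FreeCx.dl_dl`, `FreeCx.bd_bd`. `D1_D2`: finite double sums commute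
  (`Finset.sum_comm`), for all `F`.
-/

namespace SingerVS

open scoped Pointwise

variable {H P : Type} [Group H] [DecidableEq P] [MulAction H P] {X : Set (Finset P)}
variable {N : Type} [AddCommGroup N] [Module (ZMod 2) N] {ρ : H →* Module.End (ZMod 2) N}
variable {p q : ℕ} {F : Finset P → Finset P → N}

theorem DOps_dl_ne {c : Finset P → N} {σ : Finset P} (h : dl X c σ ≠ 0) :
    σ ∈ X ∧ ∃ v ∈ σ, c (σ.erase v) ≠ 0 := by
  by_cases hσ : σ ∈ X
  · refine ⟨hσ, ?_⟩
    by_contra hn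
    push Not at hn
    exact h ((dl_apply hσ).trans (Finset.sum_eq_zero hn))
  · exact absurd (dl_apply_not hσ) h

theorem DOps_bd_ne {c : Finset P → N} {σ : Finset P} (h : bd X c σ ≠ 0) :
    σ ∈ X ∧ ∃ v ∈ nb X σ, c (insert v σ) ≠ 0 := by
  by_cases hσ : σ ∈ X
  · refine ⟨hσ, ?_⟩
    by_contra hn
    push Not at hn
    exact h ((bd_apply hσ).trans (Finset.sum_eq_zero hn))
  · exact absurd (bd_apply_not hσ) h

theorem D1_mem (hX : FreeCx H X) (hF : F ∈ PairS ρ X p q) : D1 X F ∈ PairS ρ X (p + 1) q := by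
  obtain ⟨h1, h2, h3, h4⟩ := hF
  refine ⟨fun σ τ h => ?_, fun h σ τ => ?_, fun τ => ?_, fun σ => ?_⟩
  · rw [D1_apply]
    by_contra hn
    obtain ⟨hσ, v, hv, hne⟩ := DOps_dl_ne (X := X) (c := fun s => F s τ) (σ := σ) hn
    have h5 : (σ.erase v ∈ X ∧ (σ.erase v).card = p) ∧ (τ ∈ X ∧ τ.card = q) := by
      by_contra h6
      exact hne (h1 _ _ h6)
    have h6 : (σ.erase v).card = σ.card - 1 := Finset.card_erase_of_mem hv
    have h7 := Finset.card_pos.mpr (hX.ne σ hσ)
    exact h ⟨⟨hσ, by omega⟩, h5.2⟩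
  · rw [D1_apply, D1_apply]
    by_cases hσ : σ ∈ X
    · rw [dl_apply hσ, dl_apply ((hX.smul_mem_iff h σ).mpr hσ), map_sum]
      have h5 : h • σ = σ.image (fun x => h • x) := rfl
      conv_lhs => rw [h5]
      rw [Finset.sum_image (fun x _ y _ e => MulAction.injective h e)]
      refine Finset.sum_congr rfl fun v _ => ?_
      rw [← h5, ← smul_erase, h2]
    · rw [dl_apply_not hσ, dl_apply_not (fun h5 => hσ ((hX.smul_mem_iff h σ).mp h5)), map_zero]
  · refine Set.Finite.subset ((h3 τ).biUnion (t := fun s => {σ | σ ∈ X ∧ s ⊆ σ}) ?_) ?_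
    · intro s hs
      refine hX.cof_finite ?_
      by_contra h6
      exact hs (h1 s τ fun h7 => h6 h7.1.1)
    · intro σ hσ
      obtain ⟨h5, v, hv, hne⟩ := DOps_dl_ne (X := X) (c := fun s => F s τ) (σ := σ) hσ
      exact Set.mem_iUnion₂.mpr ⟨σ.erase v, hne, h5, Finset.erase_subset v σ⟩
  · refine Set.Finite.subset (σ.finite_toSet.biUnion (t := fun v => {τ | F (σ.erase v) τ ≠ 0})
      fun v _ => h4 _) ?_
    intro τ hτ
    obtain ⟨_, v, hv, hne⟩ := DOps_dl_ne (X := X) (c := fun s => F s τ) (σ := σ) hτ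
    exact Set.mem_iUnion₂.mpr ⟨v, hv, hne⟩

theorem D2_mem (hX : FreeCx H X) (hF : F ∈ PairS ρ X p (q + 1)) : D2 X F ∈ PairS ρ X p q := by
  obtain ⟨h1, h2, h3, h4⟩ := hF
  refine ⟨fun σ τ h => ?_, fun h σ τ => ?_, fun τ => ?_, fun σ => ?_⟩
  · rw [D2_apply]
    by_contra hn
    obtain ⟨hτ, v, hv, hne⟩ := DOps_bd_ne hn
    have h5 : (σ ∈ X ∧ σ.card = p) ∧ (insert v τ ∈ X ∧ (insert v τ).card = q + 1) := by
      by_contra h6
      exact hne (h1 _ _ h6)
    have h6 := Finset.card_insert_of_notMem ((hX.mem_nb hτ).mp hv).1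
    exact h ⟨h5.1, hτ, by omega⟩
  · rw [D2_apply, D2_apply]
    by_cases hτ : τ ∈ X
    · rw [bd_apply hτ, bd_apply ((hX.smul_mem_iff h τ).mpr hτ), map_sum, hX.nb_smul h hτ]
      have h5 : h • nb X τ = (nb X τ).image (fun x => h • x) := rfl
      rw [h5, Finset.sum_image (fun x _ y _ e => MulAction.injective h e)]
      refine Finset.sum_congr rfl fun v _ => ?_
      rw [← Finset.smul_finset_insert, h2]
    · rw [bd_apply_not hτ, bd_apply_not (fun h5 => hτ ((hX.smul_mem_iff h τ).mp h5)), map_zero]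
  · refine Set.Finite.subset ((nb X τ).finite_toSet.biUnion
      (t := fun v => {σ | F σ (insert v τ) ≠ 0}) fun v _ => h3 _) ?_
    intro σ hσ
    obtain ⟨_, v, hv, hne⟩ := DOps_bd_ne hσ
    exact Set.mem_iUnion₂.mpr ⟨v, hv, hne⟩
  · refine Set.Finite.subset ((h4 σ).biUnion (t := fun t => {τ | τ ⊆ t}) ?_) ?_
    · intro t _
      exact (t.powerset.finite_toSet).subset fun τ hτ => Finset.mem_coe.mpr (Finset.mem_powerset.mpr hτ)
    · intro τ hτ
      obtain ⟨_, v, hv, hne⟩ := DOps_bd_ne hτ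
      exact Set.mem_iUnion₂.mpr ⟨insert v τ, hne, Finset.subset_insert v τ⟩

theorem D1_D1 (hX : FreeCx H X) (F : Finset P → Finset P → N) : D1 X (D1 X F) = 0 := by
  funext σ τ
  exact congrFun (hX.dl_dl (fun s => F s τ)) σ

theorem D2_D2 (hX : FreeCx H X) (F : Finset P → Finset P → N) : D2 X (D2 X F) = 0 := by
  funext σ τ
  exact congrFun (hX.bd_bd (F σ)) τ

theorem D1_D2 (X : Set (Finset P)) (F : Finset P → Finset P → N) :
    D1 X (D2 X F) = D2 X (D1 X F) := by
  funext σ τ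
  rw [D1_apply, D2_apply]
  by_cases hσ : σ ∈ X
  · by_cases hτ : τ ∈ X
    · rw [dl_apply hσ, bd_apply hτ]
      have e1 : ∀ v ∈ σ, D2 X F (σ.erase v) τ = ∑ w ∈ nb X τ, F (σ.erase v) (insert w τ) :=
        fun v _ => bd_apply hτ
      have e2 : ∀ w ∈ nb X τ, D1 X F σ (insert w τ) = ∑ v ∈ σ, F (σ.erase v) (insert w τ) :=
        fun w _ => dl_apply (c := fun s => F s (insert w τ)) hσ
      rw [Finset.sum_congr rfl e1, Finset.sum_congr rfl e2, Finset.sum_comm]
    · rw [bd_apply_not hτ, dl_apply hσ]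
      exact Finset.sum_eq_zero fun v _ => bd_apply_not hτ
  · rw [dl_apply_not hσ]
    by_cases hτ : τ ∈ X
    · rw [bd_apply hτ]
      exact (Finset.sum_eq_zero fun v _ =>
        dl_apply_not (c := fun s => F s (insert v τ)) hσ).symm
    · rw [bd_apply_not hτ]

end SingerVS
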