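import Mathlib
import Pool.Agent.Lib_MP_394d50_vs.VBase

/-!
# Piece DXI: the fundamental cycle is invariant (about 40 lines)

`z σ = ξ (h • σ)` is supported on the simplices with `n + 1` vertices, it is a cycle
(`bd X z σ = bd X ξ (h • σ)` by `FreeCx.nb_smul`, `Finset.smul_finset_insert`) and not zero
(`ξ σ₀ ≠ 0`, `z (h⁻¹ • σ₀) = ξ σ₀`), so `z = ξ` by `h1`.
-/

namespace SingerVS

open scoped Pointwise

variable {H P : Type} [Group H] [DecidableEq P] [MulAction H P] {X : Set (Finset P)}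

theorem xi_inv (hX : FreeCx H X) {n : ℕ} {ξ : Finset P → ZMod 2} (hξ : ξ ∈ Ch (ZMod 2) X (n + 1))
    (h0 : ξ ≠ 0) (hb : bd X ξ = 0)
    (h1 : ∀ z ∈ Ch (ZMod 2) X (n + 1), bd X z = 0 → z = 0 ∨ z = ξ) (h : H) (σ : Finset P) :
    ξ (h • σ) = ξ σ := by
  have hz : (fun τ : Finset P => ξ (h • τ)) ∈ Ch (ZMod 2) X (n + 1) := by
    intro τ hτ
    refine hξ (h • τ) fun h2 => hτ ⟨(hX.smul_mem_iff h τ).mp h2.1, ?_⟩
    rw [← card_smul h τ]
    exact h2.2
  have hbz : bd X (fun τ : Finset P => ξ (h • τ)) = 0 := by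
    funext τ
    by_cases hτ : τ ∈ X
    · rw [bd_apply hτ]
      have h2 : bd X ξ (h • τ) = 0 := by rw [hb]; rfl
      rw [bd_apply ((hX.smul_mem_iff h τ).mpr hτ), hX.nb_smul h hτ] at h2
      have h3 : h • nb X τ = (nb X τ).image (fun x => h • x) := rfl
      rw [h3, Finset.sum_image (fun x _ y _ e => MulAction.injective h e)] at h2
      show _ = (0 : ZMod 2)
      rw [← h2]
      refine Finset.sum_congr rfl fun p _ => ?_
      rw [Finset.smul_finset_insert]
    · exact bd_apply_not hτ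
  rcases h1 _ hz hbz with h2 | h2
  · exfalso
    refine h0 ?_
    funext τ
    have h3 : ξ (h • (h⁻¹ • τ)) = 0 := congrFun h2 (h⁻¹ • τ)
    rw [smul_inv_smul] at h3
    exact h3
  · exact congrFun h2 σ

end SingerVS
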