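import Mathlib
import Pool.Agent.Lib_MP_394d50_vs.DCoef
import Pool.Agent.Lib_MP_394d50_vs.DExt
import Pool.Agent.Lib_MP_394d50_vs.DOps
import Pool.Agent.Lib_MP_394d50_vs.DAug
import Pool.Agent.Lib_MP_394d50_vs.DXi

/-!
# Block D: duality `H^j ⇒ H_{n-j}` for equivariant functions
-/

namespace SingerVS

open scoped Pointwise

variable {H P : Type} [Group H] [DecidableEq P] [MulAction H P] {X : Set (Finset P)}
variable {N : Type} [AddCommGroup N] [Module (ZMod 2) N] {ρ : H →* Module.End (ZMod 2) N}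

private theorem dz_col (hX : FreeCx H X) (hac : Acyc X) {p q : ℕ} (hq : 2 ≤ q)
    {F : Finset P → Finset P → N} (hF : F ∈ PairS ρ X p q) (h0 : D2 X F = 0) :
    ∃ G ∈ PairS ρ X p (q + 1), D2 X G = F := by
  refine pair_col hX hF fun σ _ _ => ?_
  exact fin_bd hac hq (fun τ hτ => hF.1 σ τ fun h => hτ h.2) (hF.2.2.2 σ) (congrFun h0 σ)

private theorem dz_col_one (hX : FreeCx H X) (hac : Acyc X) {p : ℕ}
    {F : Finset P → Finset P → N} (hF : F ∈ PairS ρ X p 1) (h0 : augV F = 0) :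
    ∃ G ∈ PairS ρ X p 2, D2 X G = F := by
  refine pair_col hX hF fun σ _ _ => ?_
  exact fin_bd_one hac (fun τ hτ => hF.1 σ τ fun h => hτ h.2) (hF.2.2.2 σ) (congrFun h0 σ)

private theorem dz_row (hX : FreeCx H X) {n : ℕ} (hlf : LfR n X) {p q : ℕ} (hp : p ≤ n)
    {F : Finset P → Finset P → N} (hF : F ∈ PairS ρ X p q) (h0 : D1 X F = 0) :
    ∃ G ∈ PairS ρ X (p - 1) q, D1 X G = F := by
  refine pair_row hX hF fun τ _ _ => ?_
  refine fin_dl hX hlf hp (fun σ hσ => hF.1 σ τ fun h => hσ h.1) (hF.2.2.1 τ) ?_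
  funext σ
  exact congrFun (congrFun h0 σ) τ

private theorem dz_row_top (hX : FreeCx H X) {n : ℕ} {ξ : Finset P → ZMod 2}
    (hξ : ∀ z ∈ Ch (ZMod 2) X (n + 1), bd X z = 0 → z = 0 ∨ z = ξ) {q : ℕ}
    {F : Finset P → Finset P → N} (hF : F ∈ PairS ρ X (n + 1) q) (h0 : augX ξ F = 0) :
    ∃ G ∈ PairS ρ X n q, D1 X G = F := by
  refine pair_row hX hF fun τ _ _ => ?_
  exact fin_dl_top hX hξ (fun σ hσ => hF.1 σ τ fun h => hσ h.1) (hF.2.2.1 τ) (congrFun h0 τ)

/-- The zigzag, started from `x = D1 u`. -/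
private theorem dz_step (hX : FreeCx H X) {n : ℕ} (hlf : LfR n X) (hac : Acyc X) {k : ℕ}
    (h1k : 1 ≤ k) (hex : ExCo ρ X k) : ∀ (q p : ℕ), 1 ≤ q → p + 1 = k + q → p ≤ n →
    ∀ u ∈ PairS ρ X p q, (q = 1 → augV (D1 X u) = 0) → D2 X (D1 X u) = 0 →
    ∃ y ∈ PairS ρ X (p + 1) (q + 1), (∃ w ∈ PairS ρ X p (q + 1), y = D1 X w) ∧
      D2 X y = D1 X u := by
  intro q
  induction q with
  | zero => intro p hq; omega
  | succ q ih =>
    intro p _ hpk hpn u hu hV hD
    by_cases hq : q = 0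
    · subst hq
      -- the base case
      have hpk' : p = k := by omega
      subst hpk'
      set a := augV u with ha
      have ham : a ∈ Co ρ X p := augV_mem hX hu
      have hda : dl X a = 0 := by
        rw [ha, ← augV_D1 hX hu]
        exact hV rfl
      obtain ⟨a', ha', haa⟩ := hex a ham hda
      obtain ⟨v₀, hv₀⟩ := hac.pt
      obtain ⟨G, hG, hGa⟩ := pair_liftV hX hv₀ ha'
      have hp1 : p - 1 + 1 = p := by omega
      have hDG : D1 X G ∈ PairS ρ X p 1 := by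
        have := D1_mem hX hG
        rwa [hp1] at this
      have hsum : u + D1 X G ∈ PairS ρ X p 1 := Submodule.add_mem _ hu hDG
      have hz : augV (u + D1 X G) = 0 := by
        rw [augV_add hu hDG, augV_D1 hX hG, hGa, haa, ← ha]
        funext σ
        exact ZModModule.add_self _
      obtain ⟨w, hw, hw2⟩ := dz_col_one hX hac hsum hz
      refine ⟨D1 X w, D1_mem hX hw, ⟨w, hw, rfl⟩, ?_⟩
      rw [← D1_D2, hw2, map_add, D1_D1 hX, add_zero]
    · -- the step: `x' = D2 u` is closed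
      have hp1 : 1 ≤ p := by omega
      have hD' : D1 X (D2 X u) = 0 := by rw [D1_D2]; exact hD
      have hDu : D2 X u ∈ PairS ρ X p q := D2_mem hX hu
      obtain ⟨u', hu', hu2⟩ := dz_row hX hlf hpn hDu hD'
      obtain ⟨y, hy, ⟨w, hw, hyw⟩, hy2⟩ := ih (p - 1) (by omega) (by omega) (by omega) u' hu'
        (fun hq1 => by
          subst hq1
          rw [hu2]
          exact augV_D2 hX hu)
        (by rw [hu2]; exact D2_D2 hX u)
      have hp2 : p - 1 + 1 = p := by omega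
      rw [hp2] at hy
      have hsum : u + y ∈ PairS ρ X p (q + 1) := Submodule.add_mem _ hu hy
      have hz : D2 X (u + y) = 0 := by
        rw [map_add, hy2, hu2]
        funext σ τ
        exact ZModModule.add_self _
      obtain ⟨w', hw', hw2⟩ := dz_col hX hac (by omega) hsum hz
      refine ⟨D1 X w', D1_mem hX hw', ⟨w', hw', rfl⟩, ?_⟩
      rw [← D1_D2, hw2, map_add, hyw, D1_D1 hX, add_zero]

/-- Duality: exactness of the cochains in degree `k - 1` gives exactness of the locally finite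
chains in degree `n - (k - 1)`. -/
theorem exBd_of_exCo (hX : FreeCx H X) {n : ℕ} (hlf : LfR n X) (hac : Acyc X) {k : ℕ}
    (h1 : 1 ≤ k) (hk : k ≤ n) (hex : ExCo ρ X k) : ExBd ρ X (n + 2 - k) := by
  obtain ⟨ξ, hξ, hξ0, hξb, hξ1⟩ := hlf.top
  have hinv := xi_inv hX hξ hξ0 hξb hξ1
  have hs : ∃ σ₀, ξ σ₀ ≠ 0 := by
    by_contra hno
    push Not at hno
    exact hξ0 (funext hno)
  obtain ⟨σ₀, hσ₀⟩ := hs
  have hσX : σ₀ ∈ X ∧ σ₀.card = n + 1 := by
    by_contra hno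
    exact hσ₀ (hξ σ₀ hno)
  have hσ1 : ξ σ₀ = 1 := by
    have : ∀ x : ZMod 2, x ≠ 0 → x = 1 := by decide
    exact this _ hσ₀
  intro b hb hb0
  obtain ⟨F, hF, hFb⟩ := pair_liftX hX (fun h σ => hinv h σ) hσX.1 hσ1 hb
  rw [hσX.2] at hF
  -- `x = D2 F` is in the image of `D1`
  obtain ⟨q, hq⟩ : ∃ q, n + 2 - k = q + 1 := ⟨n + 1 - k, by omega⟩
  rw [hq] at hF hb ⊢
  have hx : D2 X F ∈ PairS ρ X (n + 1) q := D2_mem hX hF
  have hx0 : augX ξ (D2 X F) = 0 := by
    rw [augX_D2 hX hF, hFb, hb0]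
  obtain ⟨u, hu, hu2⟩ := dz_row_top hX hξ1 hx hx0
  obtain ⟨y, hy, ⟨w, hw, hyw⟩, hy2⟩ := dz_step hX hlf hac h1 hex q n (by omega) (by omega) le_rfl
    u hu (fun hq1 => by
      subst hq1
      rw [hu2]
      exact augV_D2 hX hF) (by rw [hu2]; exact D2_D2 hX F)
  have hsum : F + y ∈ PairS ρ X (n + 1) (q + 1) := Submodule.add_mem _ hF hy
  have hz : D2 X (F + y) = 0 := by
    rw [map_add, hy2, hu2]
    funext σ τ
    exact ZModModule.add_self _
  obtain ⟨G, hG, hG2⟩ := dz_col hX hac (by omega) hsum hz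
  refine ⟨augX ξ G, augX_mem hX (fun h σ => hinv h σ) hG, ?_⟩
  have hnw : w ∈ PairS ρ X n (q + 1) := hw
  rw [← augX_D2 hX hG, hG2, augX_add hF hy, hFb, hyw, augX_D1 hX hξ hξb hnw, add_zero]

end SingerVS
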