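import Mathlib
import Pool.Agent.Lib_MP_394d50_vs.VBase

/-!
# Duality between equivariant cochains and equivariant locally finite chains

If every equivariant locally finite cycle with values in the dual of `N` is a boundary then every
equivariant cocycle with values in `N` is a coboundary.
-/

namespace SingerVS

open scoped Pointwise

section

variable {H P : Type} [Group H] [DecidableEq P] [MulAction H P] {X : Set (Finset P)}
variable {N : Type} [AddCommGroup N] [Module (ZMod 2) N] (ρ : H →* Module.End (ZMod 2) N)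

open scoped Classical in
/-- An element moving `σ` to `τ`. -/
noncomputable def hx (H : Type) [Group H] [MulAction H P] (σ τ : Finset P) : H :=
  if h : ∃ g : H, g • σ = τ then h.choose else 1

theorem hx_smul {σ τ : Finset P} (h : ∃ g : H, g • σ = τ) : hx H σ τ • σ = τ := by
  unfold hx
  rw [dif_pos h]
  exact h.choose_spec

theorem FreeCx.hx_eq (hX : FreeCx H X) {σ : Finset P} (hσ : σ ∈ X) (g : H) :
    hx H σ (g • σ) = g := hX.smul_inj hσ (hx_smul ⟨g, rfl⟩)

open scoped Classical in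
/-- The equivariant function with value `y` at `σ`, supported on the orbit of `σ`. -/
noncomputable def EE (σ : Finset P) (y : N) : Finset P → N := fun τ =>
  if ∃ g : H, g • σ = τ then ρ (hx H σ τ) y else 0

theorem FreeCx.EE_smul (hX : FreeCx H X) {σ : Finset P} (hσ : σ ∈ X) (g : H) (y : N) :
    EE ρ σ y (g • σ) = ρ g y := by
  unfold EE
  rw [if_pos ⟨g, rfl⟩, hX.hx_eq hσ]

theorem EE_not {σ τ : Finset P} (h : ¬ ∃ g : H, g • σ = τ) (y : N) : EE ρ σ y τ = 0 := if_neg h

theorem EE_add (σ : Finset P) (y z : N) : EE ρ σ (y + z) = EE ρ σ y + EE ρ σ z := by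
  funext τ
  rw [Pi.add_apply]
  unfold EE
  split_ifs
  · exact map_add _ _ _
  · rw [add_zero]

theorem EE_smulr (σ : Finset P) (r : ZMod 2) (y : N) : EE ρ σ (r • y) = r • EE ρ σ y := by
  funext τ
  rw [Pi.smul_apply]
  unfold EE
  split_ifs
  · exact map_smul _ _ _
  · rw [smul_zero]

theorem FreeCx.EE_mem (hX : FreeCx H X) {σ : Finset P} (hσ : σ ∈ X) (y : N) :
    EE ρ σ y ∈ Co ρ X σ.card := by
  refine ⟨fun τ hτ => EE_not ρ ?_ y, fun g τ _ => ?_⟩
  · rintro ⟨g, rfl⟩
    exact hτ ⟨hX.inv g σ hσ, card_smul g σ⟩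
  · by_cases h : ∃ g' : H, g' • σ = τ
    · obtain ⟨g', rfl⟩ := h
      rw [← mul_smul, hX.EE_smul ρ hσ, hX.EE_smul ρ hσ, map_mul]
      rfl
    · rw [EE_not ρ h, map_zero]
      refine EE_not ρ ?_ y
      rintro ⟨g', e⟩
      refine h ⟨g⁻¹ * g', ?_⟩
      rw [mul_smul, e, inv_smul_smul]

theorem FreeCx.EE_tr (hX : FreeCx H X) {σ : Finset P} (hσ : σ ∈ X) (g : H) (y : N) :
    EE ρ (g • σ) y = EE ρ σ (ρ g⁻¹ y) := by
  funext τ
  by_cases h : ∃ g' : H, g' • σ = τ
  · obtain ⟨g', rfl⟩ := h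
    have e : g' • σ = (g' * g⁻¹) • (g • σ) := by rw [← mul_smul, inv_mul_cancel_right]
    rw [hX.EE_smul ρ hσ]
    rw [e, hX.EE_smul ρ (hX.inv g σ hσ), map_mul]
    rfl
  · rw [EE_not ρ h]
    refine EE_not ρ ?_ y
    rintro ⟨g', e⟩
    exact h ⟨g' * g, by rw [mul_smul, e]⟩

theorem FreeCx.dl_EE (hX : FreeCx H X) {τ : Finset P} (hτ : τ ∈ X) (y : N) :
    dl X (EE ρ τ y) = ∑ p ∈ nb X τ, EE ρ (insert p τ) y := by
  funext σ
  rw [Finset.sum_apply]
  by_cases hσ : σ ∈ X
  · rw [dl_apply hσ]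
    have hex : ∀ p' ∈ σ, EE ρ τ y (σ.erase p') ≠ 0 → ∃ g : H, g • τ = σ.erase p' := by
      intro p' _ h
      by_contra h'
      exact h (EE_not ρ h' y)
    -- the correspondence
    have hins : ∀ p' ∈ σ, (∃ g : H, g • τ = σ.erase p') →
        hx H τ (σ.erase p') • (insert ((hx H τ (σ.erase p'))⁻¹ • p') τ) = σ := by
      intro p' hp' h
      rw [Finset.smul_finset_insert, smul_inv_smul, hx_smul h, Finset.insert_erase hp']
    refine Finset.sum_bij_ne_zero (fun p' _ _ => (hx H τ (σ.erase p'))⁻¹ • p') ?_ ?_ ?_ ?_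
    · intro p' hp' hne
      have h1 := hex p' hp' hne
      have h2 := hins p' hp' h1
      rw [hX.mem_nb hτ]
      constructor
      · intro h3
        have h4 : p' ∈ hx H τ (σ.erase p') • τ := by
          rw [← Finset.inv_smul_mem_iff]
          exact h3
        rw [hx_smul h1] at h4
        exact Finset.notMem_erase p' σ h4
      · rw [← hX.smul_mem_iff (hx H τ (σ.erase p')), h2]
        exact hσ
    · intro p1 h1 h1' p2 h2 h2' e
      have a1 := hins p1 h1 (hex p1 h1 h1')
      have a2 := hins p2 h2 (hex p2 h2 h2')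
      rw [← e] at a2
      have h3 : insert ((hx H τ (σ.erase p1))⁻¹ • p1) τ ∈ X := by
        rw [← hX.smul_mem_iff (hx H τ (σ.erase p1)), a1]
        exact hσ
      have h4 := hX.smul_inj h3 (a1.trans a2.symm)
      rw [← h4] at e
      exact MulAction.injective _ e
    · intro p hp hne
      have h1 : ∃ g : H, g • insert p τ = σ := by
        by_contra h'
        exact hne (EE_not ρ h' y)
      obtain ⟨g, hg⟩ := h1
      obtain ⟨hp1, hp2⟩ := (hX.mem_nb hτ).1 hp
      have h2 : σ.erase (g • p) = g • τ := by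
        rw [← hg, ← smul_erase, Finset.erase_insert hp1]
      have h3 : g • p ∈ σ := by
        rw [← hg, Finset.smul_mem_smul_finset_iff]
        exact Finset.mem_insert_self p τ
      refine ⟨g • p, h3, ?_, ?_⟩
      · rw [h2, hX.EE_smul ρ hτ]
        rw [← hg, hX.EE_smul ρ hp2] at hne
        exact hne
      · show (hx H τ (σ.erase (g • p)))⁻¹ • g • p = p
        rw [h2, hX.hx_eq hτ, inv_smul_smul]
    · intro p' hp' hne
      have h1 := hex p' hp' hne
      have h2 := hins p' hp' h1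
      have h3 : insert ((hx H τ (σ.erase p'))⁻¹ • p') τ ∈ X := by
        rw [← hX.smul_mem_iff (hx H τ (σ.erase p')), h2]
        exact hσ
      show EE ρ τ y (σ.erase p') = EE ρ (insert ((hx H τ (σ.erase p'))⁻¹ • p') τ) y σ
      have h4 : EE ρ (insert ((hx H τ (σ.erase p'))⁻¹ • p') τ) y σ = ρ (hx H τ (σ.erase p')) y := by
        conv_lhs => rw [← h2]
        have := hX.EE_smul ρ h3 (hx H τ (σ.erase p')) y
        rw [h2] at this ⊢
        exact this
      rw [h4]
      conv_lhs => rw [← hx_smul h1]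
      have := hX.EE_smul ρ hτ (hx H τ (σ.erase p')) y
      rw [hx_smul h1] at this ⊢
      exact this
  · rw [dl_apply_not hσ]
    symm
    refine Finset.sum_eq_zero fun p hp => EE_not ρ ?_ y
    rintro ⟨g, e⟩
    exact hσ (e ▸ hX.inv g _ ((hX.mem_nb hτ).1 hp).2)

theorem FreeCx.co_sum (hX : FreeCx H X) {R : Finset (Finset P)} (hR : Reps H X R) {k : ℕ}
    {c : Finset P → N} (hc : c ∈ Co ρ X k) :
    c = ∑ r ∈ R with r.card = k, EE ρ r (c r) := by
  refine hX.co_ext hR hc (Submodule.sum_mem _ fun r hr => ?_) fun r hr hk => ?_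
  · rw [Finset.mem_filter] at hr
    rw [← hr.2]
    exact hX.EE_mem ρ (hR.mem r hr.1) _
  · rw [Finset.sum_apply, Finset.sum_eq_single r]
    · have h1 := hX.EE_smul ρ (hR.mem r hr) 1 (c r)
      rw [one_smul, map_one] at h1
      exact h1.symm
    · intro r' hr' hne
      rw [Finset.mem_filter] at hr'
      refine EE_not ρ ?_ _
      rintro ⟨g, e⟩
      exact hne (hR.inj r' hr'.1 r hr g e)
    · intro h
      exact absurd (Finset.mem_filter.2 ⟨hr, hk⟩) h

/-- **Duality.** -/
theorem FreeCx.exCo_of_exBd (hX : FreeCx H X) (ρB : H →* Module.End (ZMod 2) (N →ₗ[ZMod 2] ZMod 2))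
    (hB : ∀ h b x, ρB h b x = b (ρ h⁻¹ x)) (k : ℕ) (hex : ExBd ρB X k) : ExCo ρ X k := by
  classical
  intro c hc hdc
  obtain ⟨R, hR⟩ := hX.exists_reps
  by_contra hno
  have h0 : c ∉ (Co ρ X (k - 1)).map (dl X) := by
    rintro ⟨b, hb, e⟩
    exact hno ⟨b, hb, e⟩
  obtain ⟨φ, hφc, hφ⟩ := Submodule.exists_le_ker_of_notMem h0
  -- the chain with values in the dual
  let ψ0 : Finset P → (N →ₗ[ZMod 2] ZMod 2) := fun σ =>
    { toFun := fun y => φ (EE ρ σ y)
      map_add' := fun y z => by rw [EE_add, map_add]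
      map_smul' := fun r y => by rw [EE_smulr, map_smul]; rfl }
  let ψ : Finset P → (N →ₗ[ZMod 2] ZMod 2) := fun σ => if σ ∈ X ∧ σ.card = k then ψ0 σ else 0
  have hψ0 : ∀ σ, σ ∈ X → ∀ g : H, ψ0 (g • σ) = ρB g (ψ0 σ) := by
    intro σ hσ g
    refine LinearMap.ext fun y => ?_
    rw [hB]
    show φ (EE ρ (g • σ) y) = φ (EE ρ σ (ρ g⁻¹ y))
    rw [hX.EE_tr ρ hσ]
  have hψ : ψ ∈ Co ρB X k := by
    refine ⟨fun σ hσ => if_neg hσ, fun g σ hσ => ?_⟩
    show (if g • σ ∈ X ∧ (g • σ).card = k then ψ0 (g • σ) else 0) =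
      ρB g (if σ ∈ X ∧ σ.card = k then ψ0 σ else 0)
    rw [hX.smul_mem_iff, card_smul]
    split_ifs
    · exact hψ0 σ hσ g
    · rw [map_zero]
  have hbψ : bd X ψ = 0 := by
    funext τ
    by_cases hτ : τ ∈ X
    · rw [bd_apply hτ]
      by_cases hk : τ.card + 1 = k
      · refine LinearMap.ext fun y => ?_
        rw [LinearMap.sum_apply]
        have h1 : ∀ p ∈ nb X τ, ψ (insert p τ) y = φ (EE ρ (insert p τ) y) := by
          intro p hp
          obtain ⟨hp1, hp2⟩ := (hX.mem_nb hτ).1 hp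
          have h2 : ψ (insert p τ) = ψ0 (insert p τ) := by
            refine if_pos ⟨hp2, ?_⟩
            rw [Finset.card_insert_of_notMem hp1]
            exact hk
          rw [h2]
          rfl
        rw [Finset.sum_congr rfl h1, ← map_sum, ← hX.dl_EE ρ hτ]
        have h3 : dl X (EE ρ τ y) ∈ (Co ρ X (k - 1)).map (dl X) := by
          refine ⟨EE ρ τ y, ?_, rfl⟩
          have h4 : k - 1 = τ.card := by omega
          show EE ρ τ y ∈ Co ρ X (k - 1)
          rw [h4]
          exact hX.EE_mem ρ hτ y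
        exact LinearMap.mem_ker.1 (hφ h3)
      · refine Finset.sum_eq_zero fun p hp => ?_
        refine if_neg ?_
        rintro ⟨_, h2⟩
        rw [Finset.card_insert_of_notMem ((hX.mem_nb hτ).1 hp).1] at h2
        exact hk h2
    · exact bd_apply_not hτ
  obtain ⟨η, hη, hbη⟩ := hex ψ hψ hbψ
  -- the functional of `η`
  let φ' : (Finset P → N) → ZMod 2 := fun z => ∑ s ∈ R with s.card = k + 1, η s (z s)
  have hφ'_add : ∀ (ι : Type) (t : Finset ι) (z : ι → Finset P → N),
      φ' (∑ i ∈ t, z i) = ∑ i ∈ t, φ' (z i) := by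
    intro ι t z
    show ∑ s ∈ R with s.card = k + 1, η s ((∑ i ∈ t, z i) s) = ∑ i ∈ t, ∑ s ∈ R with s.card = k + 1, η s (z i s)
    rw [Finset.sum_comm]
    refine Finset.sum_congr rfl fun s _ => ?_
    rw [Finset.sum_apply, map_sum]
  have hφ'E : ∀ σ ∈ X, σ.card = k + 1 → ∀ y, φ' (EE ρ σ y) = η σ y := by
    intro σ hσ hk y
    have h1 := hR.el_rep hσ
    have h2 := hR.rep_mem hσ
    show ∑ s ∈ R with s.card = k + 1, η s (EE ρ σ y s) = η σ y
    rw [Finset.sum_eq_single (hR.rep σ)]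
    · have h3 : hR.rep σ = (hR.el σ)⁻¹ • σ := by
        rw [eq_inv_smul_iff]
        exact h1
      have h4 : EE ρ σ y (hR.rep σ) = ρ (hR.el σ)⁻¹ y := by
        rw [h3]
        exact hX.EE_smul ρ hσ _ y
      have h5 : η σ = ρB (hR.el σ) (η (hR.rep σ)) := by
        rw [← hη.2 _ _ (hR.mem _ h2), h1]
      rw [h4, h5, hB]
    · intro s hs hne
      rw [Finset.mem_filter] at hs
      rw [EE_not, map_zero]
      rintro ⟨g, e⟩
      apply hne
      have h3 : (g * hR.el σ) • hR.rep σ = s := by rw [mul_smul, h1, e]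
      exact (hR.inj _ h2 _ hs.1 _ h3).symm
    · intro h
      exact absurd (Finset.mem_filter.2 ⟨h2, (hR.rep_card hσ).trans hk⟩) h
  -- comparison
  have hfin : φ c = φ' (dl X c) := by
    have h1 := hX.co_sum ρ hR hc
    have h2 : φ c = ∑ r ∈ R with r.card = k, φ (EE ρ r (c r)) := by
      conv_lhs => rw [h1]
      rw [map_sum]
    have h3 : dl X c = ∑ r ∈ R with r.card = k, dl X (EE ρ r (c r)) := by
      conv_lhs => rw [h1]
      rw [map_sum]
    rw [h2, h3, hφ'_add]
    refine Finset.sum_congr rfl fun r hr => ?_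
    rw [Finset.mem_filter] at hr
    have hrX := hR.mem r hr.1
    rw [hX.dl_EE ρ hrX, hφ'_add]
    have h4 : φ (EE ρ r (c r)) = ψ r (c r) := by
      have h5 : ψ r = ψ0 r := if_pos ⟨hrX, hr.2⟩
      rw [h5]
      rfl
    rw [h4, ← hbη, bd_apply hrX, LinearMap.sum_apply]
    refine Finset.sum_congr rfl fun p hp => ?_
    obtain ⟨hp1, hp2⟩ := (hX.mem_nb hrX).1 hp
    rw [hφ'E _ hp2 (by rw [Finset.card_insert_of_notMem hp1, hr.2])]
  apply hφc
  rw [hfin, hdc]
  show ∑ s ∈ R with s.card = k + 1, η s ((0 : Finset P → N) s) = 0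
  refine Finset.sum_eq_zero fun s _ => ?_
  rw [Pi.zero_apply, map_zero]

end

end SingerVS
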