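import Mathlib
import Pool.Agent.Lib_MP_394d50_vs.VBase

/-!
# The induction step for the locally finite chains

`tr ρ g c σ = ρ g (c (g⁻¹ σ))`; `CoK ρ X K k`: the functions on the simplices with `k` vertices
which are equivariant under the subgroup `K`.
-/

namespace SingerVS

open scoped Pointwise

section

variable {H P : Type} [Group H] [DecidableEq P] [MulAction H P] {X : Set (Finset P)}
variable {N : Type} [AddCommGroup N] [Module (ZMod 2) N] (ρ : H →* Module.End (ZMod 2) N)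

/-- Translation of a function. -/
noncomputable def tr (g : H) : (Finset P → N) →ₗ[ZMod 2] (Finset P → N) where
  toFun c := fun σ => ρ g (c (g⁻¹ • σ))
  map_add' c d := by
    funext σ
    exact map_add _ _ _
  map_smul' r c := by
    funext σ
    exact map_smul _ _ _

theorem tr_apply (g : H) (c : Finset P → N) (σ : Finset P) :
    tr ρ g c σ = ρ g (c (g⁻¹ • σ)) := rfl

theorem tr_one (c : Finset P → N) : tr ρ (1 : H) c = c := by
  funext σ
  rw [tr_apply, map_one, inv_one, one_smul]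
  rfl

theorem tr_mul (g h : H) (c : Finset P → N) : tr ρ (g * h) c = tr ρ g (tr ρ h c) := by
  funext σ
  rw [tr_apply, tr_apply, tr_apply, map_mul, mul_inv_rev, mul_smul]
  rfl

theorem tr_inv_tr (g : H) (c : Finset P → N) : tr ρ g⁻¹ (tr ρ g c) = c := by
  rw [← tr_mul, inv_mul_cancel, tr_one]

theorem tr_tr_inv (g : H) (c : Finset P → N) : tr ρ g (tr ρ g⁻¹ c) = c := by
  rw [← tr_mul, mul_inv_cancel, tr_one]

theorem FreeCx.tr_ch (hX : FreeCx H X) (g : H) {k : ℕ} {c : Finset P → N} (hc : c ∈ Ch N X k) :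
    tr ρ g c ∈ Ch N X k := by
  intro σ hσ
  rw [tr_apply, hc _ (fun h => hσ ?_), map_zero]
  exact ⟨(hX.smul_mem_iff g⁻¹ σ).1 h.1, (card_smul g⁻¹ σ).symm.trans h.2⟩

theorem FreeCx.tr_bd (hX : FreeCx H X) (g : H) (c : Finset P → N) :
    bd X (tr ρ g c) = tr ρ g (bd X c) := by
  funext σ
  rw [tr_apply]
  by_cases hσ : σ ∈ X
  · have hσ' : g⁻¹ • σ ∈ X := hX.inv g⁻¹ σ hσ
    rw [bd_apply hσ, bd_apply hσ', map_sum, hX.nb_smul g⁻¹ hσ]
    have h1 : g⁻¹ • nb X σ = (nb X σ).image (fun x => g⁻¹ • x) := rfl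
    rw [h1, Finset.sum_image (fun x _ y _ e => MulAction.injective g⁻¹ e)]
    refine Finset.sum_congr rfl fun p _ => ?_
    rw [tr_apply, Finset.smul_finset_insert]
  · rw [bd_apply_not hσ, bd_apply_not (fun h => hσ ((hX.smul_mem_iff g⁻¹ σ).1 h)), map_zero]

/-- The `K`-equivariant functions. -/
def CoK (X : Set (Finset P)) (K : Subgroup H) (k : ℕ) : Submodule (ZMod 2) (Finset P → N) where
  carrier := {c | c ∈ Ch N X k ∧ ∀ h ∈ K, tr ρ h c = c}
  add_mem' := fun {c d} hc hd => ⟨add_mem hc.1 hd.1, fun h hh => by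
    rw [map_add, hc.2 h hh, hd.2 h hh]⟩
  zero_mem' := ⟨zero_mem _, fun h _ => map_zero _⟩
  smul_mem' := fun r c hc => ⟨Submodule.smul_mem _ r hc.1, fun h hh => by
    rw [map_smul, hc.2 h hh]⟩

theorem mem_CoK {K : Subgroup H} {k : ℕ} {c : Finset P → N} :
    c ∈ CoK ρ X K k ↔ c ∈ Ch N X k ∧ ∀ h ∈ K, tr ρ h c = c := Iff.rfl

theorem FreeCx.coK_top (hX : FreeCx H X) (k : ℕ) (c : Finset P → N) :
    c ∈ CoK ρ X ⊤ k ↔ c ∈ Co ρ X k := by
  constructor
  · rintro ⟨h1, h2⟩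
    refine ⟨h1, fun h σ _ => ?_⟩
    have h3 := congrFun (h2 h (Subgroup.mem_top h)) (h • σ)
    rw [tr_apply, inv_smul_smul] at h3
    exact h3.symm
  · intro hc
    refine ⟨hc.1, fun h _ => ?_⟩
    funext σ
    rw [tr_apply, ← hX.co_eqv hc, smul_inv_smul]

theorem coK_bot (k : ℕ) (c : Finset P → N) : c ∈ CoK ρ X (⊥ : Subgroup H) k ↔ c ∈ Ch N X k := by
  constructor
  · exact fun h => h.1
  · intro h
    refine ⟨h, fun g hg => ?_⟩
    rw [Subgroup.mem_bot] at hg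
    rw [hg, tr_one]

theorem coK_mono {K K' : Subgroup H} (h : K ≤ K') {k : ℕ} {c : Finset P → N}
    (hc : c ∈ CoK ρ X K' k) : c ∈ CoK ρ X K k := ⟨hc.1, fun g hg => hc.2 g (h hg)⟩

theorem FreeCx.coK_bd (hX : FreeCx H X) {K : Subgroup H} {k : ℕ} {c : Finset P → N}
    (hc : c ∈ CoK ρ X K (k + 1)) : bd X c ∈ CoK ρ X K k :=
  ⟨hX.ch_bd hc.1, fun h hh => by rw [← hX.tr_bd, hc.2 h hh]⟩

/-- Exactness at the simplices with `k` vertices for the `K`-equivariant locally finite chains. -/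
def ExK (X : Set (Finset P)) (K : Subgroup H) (k : ℕ) : Prop :=
  ∀ c ∈ CoK ρ X K k, bd X c = 0 → ∃ b ∈ CoK ρ X K (k + 1), bd X b = c

theorem FreeCx.coK_tr (hX : FreeCx H X) {K : Subgroup H} {k : ℕ} {c : Finset P → N} (g : H)
    (hg : ∀ h ∈ K, g⁻¹ * h * g ∈ K) (hc : c ∈ CoK ρ X K k) : tr ρ g c ∈ CoK ρ X K k := by
  refine ⟨hX.tr_ch ρ g hc.1, fun h hh => ?_⟩
  rw [← tr_mul]
  have h1 : h * g = g * (g⁻¹ * h * g) := by group
  rw [h1, tr_mul, hc.2 _ (hg h hh)]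

/-! ## The top degree -/

/-- A locally finite cycle of top degree is constant. -/
theorem top_const {n : ℕ} (hL : LfR n X) : ∃ ξ : Finset P → ZMod 2, ∃ σ0 : Finset P,
    ξ ∈ Ch (ZMod 2) X (n + 1) ∧ bd X ξ = 0 ∧ ξ σ0 = 1 ∧ σ0 ∈ X ∧
    (∀ c ∈ Ch (ZMod 2) X (n + 1), bd X c = 0 → c ≠ 0 → c = ξ) ∧
    ∀ c ∈ Ch N X (n + 1), bd X c = 0 → ∀ σ, c σ = ξ σ • c σ0 := by
  obtain ⟨ξ, h1, h2, h3, h4⟩ := hL.top
  have h5 : ∃ σ0, ξ σ0 ≠ 0 := by
    by_contra h
    push Not at h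
    exact h2 (funext h)
  obtain ⟨σ0, h6⟩ := h5
  have h7 : ∀ a : ZMod 2, a ≠ 0 → a = 1 := by decide
  have h8 := h7 _ h6
  have h9 : σ0 ∈ X := by
    by_contra h
    exact h6 (h1 σ0 (fun h' => h h'.1))
  refine ⟨ξ, σ0, h1, h3, h8, h9, fun c hc hb hne => (h4 c hc hb).resolve_left hne,
    fun c hc hb σ => ?_⟩
  rw [← sub_eq_zero, ← Module.forall_dual_apply_eq_zero_iff (ZMod 2)]
  intro φ
  have e1 : (fun τ => φ (c τ)) ∈ Ch (ZMod 2) X (n + 1) := by
    intro τ hτ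
    show φ (c τ) = 0
    rw [hc τ hτ, map_zero]
  have e2 : bd X (fun τ => φ (c τ)) = 0 := by
    funext τ
    by_cases hτ : τ ∈ X
    · rw [bd_apply hτ, ← map_sum, ← bd_apply hτ, hb]
      exact map_zero φ
    · exact bd_apply_not hτ
  rw [map_sub, map_smul, smul_eq_mul, sub_eq_zero]
  rcases h4 _ e1 e2 with h | h
  · have f1 : φ (c σ) = 0 := congrFun h σ
    have f2 : φ (c σ0) = 0 := congrFun h σ0
    rw [f1, f2, mul_zero]
  · have f1 : φ (c σ) = ξ σ := congrFun h σ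
    have f2 : φ (c σ0) = ξ σ0 := congrFun h σ0
    rw [f1, f2, h8, mul_one]

/-! ## Crossed homomorphisms -/

theorem FreeCx.exists_hh (hX : FreeCx H X) (K : Subgroup H) :
    ∃ hh : Finset P → K, ∀ σ ∈ X, ∀ g : K, hh (g.1 • σ) = g * hh σ := by
  let r : Finset P → Finset P := fun σ =>
    Quotient.out (Quotient.mk (MulAction.orbitRel K (Finset P)) σ)
  have h1 : ∀ σ, ∃ g : K, g.1 • r σ = σ := by
    intro σ
    obtain ⟨g, hg⟩ := Quotient.mk_out (s := MulAction.orbitRel K (Finset P)) σ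
    have hg' : g.1 • σ = r σ := hg
    refine ⟨g⁻¹, ?_⟩
    show (g.1)⁻¹ • r σ = σ
    rw [← hg', inv_smul_smul]
  choose hh hhs using h1
  refine ⟨hh, fun σ hσ g => ?_⟩
  have h2 : r (g.1 • σ) = r σ := by
    show Quotient.out _ = Quotient.out _
    congr 1
    exact Quotient.sound ⟨g, rfl⟩
  have h3 := hhs (g.1 • σ)
  rw [h2] at h3
  have h4 := hhs σ
  have h5 : r σ ∈ X := by
    have h7 : (hh σ).1⁻¹ • σ = r σ := by
      rw [inv_smul_eq_iff]
      exact h4.symm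
    rw [← h7]
    exact hX.inv _ σ hσ
  have h6 : (hh (g.1 • σ)).1 • r σ = (g.1 * (hh σ).1) • r σ := by
    rw [h3, mul_smul, h4]
  exact Subtype.ext (hX.smul_inj h5 h6)

variable {K1 K2 : Subgroup H} (h12 : K1 ≤ K2) {S : Type} (q : K2 →* FreeGroup S)
  (hqs : Function.Surjective q) (hq : ∀ h : K2, q h = 1 ↔ h.1 ∈ K1) (x : S → K2)
  (hx : ∀ s, q (x s) = FreeGroup.of s)

include h12 hq in
theorem norm_of_q (g : K2) (h : H) (hh : h ∈ K1) : g.1⁻¹ * h * g.1 ∈ K1 := by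
  have h1 := (hq (g⁻¹ * ⟨h, h12 hh⟩ * g)).1 (by
    rw [map_mul, map_mul, map_inv, (hq ⟨h, h12 hh⟩).2 hh, mul_one, inv_mul_cancel])
  exact h1

include hq in
theorem exists_k (g g' : K2) (h : q g = q g') : ∃ k ∈ K1, g.1 = g'.1 * k := by
  refine ⟨(g'⁻¹ * g).1, (hq _).1 (by rw [map_mul, map_inv, h, inv_mul_cancel]), ?_⟩
  show g.1 = g'.1 * (g'.1⁻¹ * g.1)
  rw [mul_inv_cancel_left]

include hqs hq hx in
/-- Invariance under the lifts of the basis and under `K1` implies invariance under `K2`. -/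
theorem inv_of_basis (c : Finset P → N) (h1 : ∀ h ∈ K1, tr ρ h c = c)
    (h2 : ∀ s, tr ρ (x s).1 c = c) (g : H) (hg : g ∈ K2) : tr ρ g c = c := by
  have key : ∀ f : FreeGroup S, ∀ g : K2, q g = f → tr ρ g.1 c = c := by
    intro f
    induction f using FreeGroup.induction_on with
    | C1 => exact fun g hg => h1 _ ((hq g).1 hg)
    | of s =>
      intro g hg
      obtain ⟨k, hk, e⟩ := exists_k q hq g (x s) (hg.trans (hx s).symm)
      rw [e, tr_mul, h1 k hk, h2]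
    | inv_of s ih =>
      intro g hg
      have h3 := ih g⁻¹ (by rw [map_inv, hg, inv_inv])
      have h4 := tr_tr_inv ρ g.1 c
      have h5 : (g⁻¹ : K2).1 = g.1⁻¹ := rfl
      rw [h5] at h3
      rwa [h3] at h4
    | mul f1 f2 ih1 ih2 =>
      intro g hg
      obtain ⟨g2, hg2⟩ := hqs f2
      have e : g = (g * g2⁻¹) * g2 := by group
      have h3 := ih1 (g * g2⁻¹) (by rw [map_mul, map_inv, hg, hg2, mul_inv_cancel_right])
      have h4 := ih2 g2 hg2
      have h5 : g.1 = (g * g2⁻¹).1 * g2.1 := congrArg Subtype.val e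
      rw [h5, tr_mul, h4, h3]
  exact key _ ⟨g, hg⟩ rfl

include h12 hqs hq hx in
/-- A family of values at the lifts of the basis comes from a coboundary. -/
theorem FreeCx.cross (hX : FreeCx H X) (m : ℕ) (a : S → Finset P → N)
    (ha : ∀ s, a s ∈ CoK ρ X K1 m) :
    ∃ a0 ∈ CoK ρ X K1 m, ∀ s, tr ρ (x s).1 a0 - a0 = a s := by
  let A : S → Equiv.Perm (Finset P → N) := fun s =>
    { toFun := fun c => tr ρ (x s).1 c + a s
      invFun := fun c => tr ρ (x s).1⁻¹ (c - a s)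
      left_inv := fun c => by
        show tr ρ (x s).1⁻¹ (tr ρ (x s).1 c + a s - a s) = c
        rw [add_sub_cancel_right, tr_inv_tr]
      right_inv := fun c => by
        show tr ρ (x s).1 (tr ρ (x s).1⁻¹ (c - a s)) + a s = c
        rw [tr_tr_inv, sub_add_cancel] }
  let Φ : FreeGroup S →* Equiv.Perm (Finset P → N) := FreeGroup.lift A
  have hΦ : ∀ s, Φ (FreeGroup.of s) = A s := fun s => FreeGroup.lift_apply_of
  have key : ∀ f : FreeGroup S, Φ f 0 ∈ CoK ρ X K1 m ∧ ∀ g : K2, q g = f →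
      ∀ c ∈ CoK ρ X K1 m, Φ f c = tr ρ g.1 c + Φ f 0 := by
    intro f
    induction f using FreeGroup.induction_on with
    | C1 =>
      have h1 : ∀ c, Φ 1 c = c := fun c => by
        rw [map_one]
        rfl
      refine ⟨by rw [h1]; exact zero_mem _, fun g hg c hc => ?_⟩
      rw [h1, h1, add_zero, hc.2 _ ((hq g).1 hg)]
    | of s =>
      have h1 : ∀ c, Φ (FreeGroup.of s) c = tr ρ (x s).1 c + a s := fun c => by
        rw [hΦ]
        rfl
      refine ⟨?_, fun g hg c hc => ?_⟩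
      · rw [h1, map_zero, zero_add]
        exact ha s
      · obtain ⟨k, hk, e⟩ := exists_k q hq g (x s) (hg.trans (hx s).symm)
        rw [h1, h1, map_zero, zero_add, e, tr_mul, hc.2 k hk]
    | inv_of s _ =>
      have h1 : ∀ c, Φ (FreeGroup.of s)⁻¹ c = tr ρ (x s).1⁻¹ (c - a s) := fun c => by
        rw [map_inv, hΦ]
        rfl
      have h2 : Φ (FreeGroup.of s)⁻¹ 0 ∈ CoK ρ X K1 m := by
        rw [h1, zero_sub, map_neg]
        refine neg_mem (hX.coK_tr ρ _ ?_ (ha s))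
        intro h hh
        have := norm_of_q h12 q hq (x s)⁻¹ h hh
        exact this
      refine ⟨h2, fun g hg c hc => ?_⟩
      obtain ⟨k, hk, e⟩ := exists_k q hq g (x s)⁻¹ (by rw [hg, map_inv, hx])
      have h5 : ((x s)⁻¹ : K2).1 = (x s).1⁻¹ := rfl
      rw [h1, h1, e, h5, tr_mul, hc.2 k hk, zero_sub, sub_eq_add_neg, map_add]
    | mul f1 f2 ih1 ih2 =>
      have h1 : ∀ c, Φ (f1 * f2) c = Φ f1 (Φ f2 c) := fun c => by
        rw [map_mul]
        rfl
      obtain ⟨ih1a, ih1b⟩ := ih1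
      obtain ⟨ih2a, ih2b⟩ := ih2
      obtain ⟨g1, hg1⟩ := hqs f1
      have h2 := ih1b g1 hg1 _ ih2a
      refine ⟨?_, fun g hg c hc => ?_⟩
      · rw [h1, h2]
        refine add_mem (hX.coK_tr ρ _ ?_ ih2a) ih1a
        exact fun h hh => norm_of_q h12 q hq g1 h hh
      · have e : q (g1⁻¹ * g) = f2 := by rw [map_mul, map_inv, hg1, hg, inv_mul_cancel_left]
        have h3 := ih2b _ e c hc
        have h4 : Φ f2 c ∈ CoK ρ X K1 m := by
          rw [h3]
          refine add_mem (hX.coK_tr ρ _ ?_ hc) ih2a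
          exact fun h hh => norm_of_q h12 q hq (g1⁻¹ * g) h hh
        have h5 : (g1⁻¹ * g : K2).1 = g1.1⁻¹ * g.1 := rfl
        rw [h1, h1, ih1b g1 hg1 _ h4, h2, h3, map_add, h5, tr_mul, tr_tr_inv, add_assoc]
  have hφ : ∀ (g : K2) (f : FreeGroup S), Φ (q g * f) 0 = tr ρ g.1 (Φ f 0) + Φ (q g) 0 := by
    intro g f
    have h1 : Φ (q g * f) 0 = Φ (q g) (Φ f 0) := by
      rw [map_mul]
      rfl
    rw [h1]
    exact (key (q g)).2 g rfl _ (key f).1
  obtain ⟨hh, hhs⟩ := hX.exists_hh K2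
  let a0 : Finset P → N := fun σ => - (Φ (q (hh σ)) 0) σ
  have ha0 : a0 ∈ Ch N X m := by
    intro σ hσ
    show - (Φ (q (hh σ)) 0) σ = 0
    rw [(key _).1.1 σ hσ, neg_zero]
  have htr : ∀ g : K2, tr ρ g.1 a0 = a0 + Φ (q g) 0 := by
    intro g
    funext σ
    rw [Pi.add_apply]
    by_cases hσ : σ ∈ X
    · have h1 := hhs σ hσ g⁻¹
      have h5 : (g⁻¹ : K2).1 = g.1⁻¹ := rfl
      rw [h5] at h1
      rw [tr_apply]
      show ρ g.1 (- (Φ (q (hh (g.1⁻¹ • σ))) 0) (g.1⁻¹ • σ)) = - (Φ (q (hh σ)) 0) σ + _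
      rw [map_neg, ← tr_apply, h1, map_mul]
      have h2 := hφ g (q g⁻¹ * q (hh σ))
      rw [← mul_assoc, ← map_mul, mul_inv_cancel, map_one, one_mul] at h2
      rw [h2, Pi.add_apply]
      abel
    · rw [tr_apply, ha0 _ (fun h => hσ ((hX.smul_mem_iff _ σ).1 h.1)), map_zero,
        ha0 σ (fun h => hσ h.1), (key _).1.1 σ (fun h => hσ h.1), add_zero]
  refine ⟨a0, ⟨ha0, fun h hh' => ?_⟩, fun s => ?_⟩
  · have h1 := htr ⟨h, h12 hh'⟩
    rw [(hq ⟨h, h12 hh'⟩).2 hh', map_one] at h1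
    have h2 : (1 : Equiv.Perm (Finset P → N)) 0 = 0 := rfl
    rw [h2, add_zero] at h1
    exact h1
  · rw [htr, hx, hΦ, add_sub_cancel_left]
    show tr ρ (x s).1 0 + a s = a s
    rw [map_zero, zero_add]

include h12 hqs hq hx in
/-- **The step.** -/
theorem FreeCx.step (hX : FreeCx H X) {n : ℕ} (hL : LfR n X)
    (hP : ∀ k, 1 ≤ k → k ≤ n → ExK ρ X K1 k)
    (hsurj : ∀ β : S → N, (∀ s, ∀ h ∈ K1, ρ h (β s) = β s) →
      ∃ b : N, (∀ h ∈ K1, ρ h b = b) ∧ ∀ s, ρ (x s).1 b - b = β s) (k : ℕ) (hk : 1 ≤ k)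
    (hkn : k ≤ n) : ExK ρ X K2 k := by
  intro c hc hbc
  obtain ⟨b, hb, hbb⟩ := hP k hk hkn c (coK_mono ρ h12 hc) hbc
  -- it is enough to change `b`
  suffices h : ∃ b' ∈ CoK ρ X K1 (k + 1), bd X b' = c ∧ ∀ s, tr ρ (x s).1 b' = b' by
    obtain ⟨b', h1, h2, h3⟩ := h
    exact ⟨b', ⟨h1.1, inv_of_basis ρ q hqs hq x hx b' h1.2 h3⟩, h2⟩
  have hd : ∀ s, tr ρ (x s).1 b - b ∈ CoK ρ X K1 (k + 1) := by
    intro s
    refine sub_mem (hX.coK_tr ρ _ ?_ hb) hb
    exact fun h hh => norm_of_q h12 q hq (x s) h hh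
  have hdb : ∀ s, bd X (tr ρ (x s).1 b - b) = 0 := by
    intro s
    rw [map_sub, hX.tr_bd, hbb, hc.2 _ (x s).2, sub_self]
  rcases Nat.lt_or_ge k n with hlt | hge
  · -- below the top degree
    have h1 : ∀ s, ∃ a ∈ CoK ρ X K1 (k + 1 + 1), bd X a = tr ρ (x s).1 b - b :=
      fun s => hP (k + 1) (by omega) (by omega) _ (hd s) (hdb s)
    choose a ha hab using h1
    obtain ⟨a0, ha0, ha1⟩ := hX.cross ρ h12 q hqs hq x hx (k + 1 + 1) a ha
    refine ⟨b - bd X a0, sub_mem hb (hX.coK_bd ρ ha0), ?_, fun s => ?_⟩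
    · rw [map_sub, hbb, hX.bd_bd, sub_zero]
    · have h2 : bd X (tr ρ (x s).1 a0 - a0) = tr ρ (x s).1 b - b := by rw [ha1, hab]
      rw [map_sub, hX.tr_bd] at h2
      rw [map_sub]
      rw [sub_eq_sub_iff_add_eq_add] at h2 ⊢
      rw [← h2, add_comm]
  · -- the top degree
    have hkn' : k = n := le_antisymm hkn hge
    subst hkn'
    obtain ⟨ξ, σ0, h1, h2, h3, h4, h5, h6⟩ := top_const (N := N) hL
    -- invariance of `ξ`
    have hξ : ∀ (g : H) (σ : Finset P), ξ (g • σ) = ξ σ := by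
      intro g σ
      let ρ1 : H →* Module.End (ZMod 2) (ZMod 2) := 1
      have e1 := hX.tr_ch ρ1 g⁻¹ h1
      have e2 : bd X (tr ρ1 g⁻¹ ξ) = 0 := by rw [hX.tr_bd, h2, map_zero]
      have e3 : tr ρ1 g⁻¹ ξ ≠ 0 := by
        intro h
        have h' := congrFun h (g⁻¹ • σ0)
        rw [tr_apply, inv_inv, smul_inv_smul] at h'
        have h'' : ξ σ0 = 0 := h'
        rw [h3] at h''
        exact absurd h'' (by decide)
      have e4 := congrFun (h5 _ e1 e2 e3) σ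
      rw [tr_apply, inv_inv] at e4
      exact e4
    have h7 : ∀ s, ∀ σ, (tr ρ (x s).1 b - b) σ = ξ σ • (tr ρ (x s).1 b - b) σ0 :=
      fun s σ => h6 _ (hd s).1 (hdb s) σ
    obtain ⟨β0, hβ0, hβ1⟩ := hsurj (fun s => (tr ρ (x s).1 b - b) σ0) (by
      intro s h hh
      have e1 := congrFun ((hd s).2 h hh) (h • σ0)
      rw [tr_apply, inv_smul_smul] at e1
      have e2 := h7 s (h • σ0)
      rw [hξ, h3, one_smul] at e2
      rw [e2] at e1
      exact e1)
    have hc0 : (fun σ => ξ σ • β0) ∈ CoK ρ X K1 (k + 1) := by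
      refine ⟨fun σ hσ => ?_, fun h hh => ?_⟩
      · show ξ σ • β0 = 0
        rw [h1 σ hσ, zero_smul]
      · funext σ
        rw [tr_apply]
        show ρ h (ξ (h⁻¹ • σ) • β0) = ξ σ • β0
        rw [map_smul, hβ0 h hh, hξ]
    have hcb : bd X (fun σ => ξ σ • β0) = 0 := by
      funext σ
      by_cases hσ : σ ∈ X
      · rw [bd_apply hσ, ← Finset.sum_smul, ← bd_apply hσ, h2]
        exact zero_smul _ _
      · exact bd_apply_not hσ
    refine ⟨b - fun σ => ξ σ • β0, sub_mem hb hc0, ?_, fun s => ?_⟩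
    · rw [map_sub, hbb, hcb, sub_zero]
    · have e1 : tr ρ (x s).1 (fun σ => ξ σ • β0) = fun σ => ξ σ • ρ (x s).1 β0 := by
        funext σ
        rw [tr_apply]
        show ρ (x s).1 (ξ ((x s).1⁻¹ • σ) • β0) = ξ σ • ρ (x s).1 β0
        rw [map_smul, hξ]
      rw [map_sub, e1]
      funext σ
      show tr ρ (x s).1 b σ - ξ σ • ρ (x s).1 β0 = b σ - ξ σ • β0
      have e2 := h7 s σ
      have e3 : (tr ρ (x s).1 b - b) σ = tr ρ (x s).1 b σ - b σ := rfl
      rw [← hβ1 s, e3, smul_sub] at e2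
      rw [sub_eq_sub_iff_add_eq_add] at e2 ⊢
      rw [e2, add_comm]

end

end SingerVS
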