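import Mathlib

/-!
# Alternating products in a free group
-/

namespace SingerVS

section altf

variable {S : Type}

/-- The letter of position `p`. -/
def ltr (p : ℕ) : Option S → List (S × Bool)
  | none => []
  | some s => [(s, decide (Odd p))]

/-- The word of the alternating product. -/
def altL (f : ℕ → Option S) : ℕ → List (S × Bool)
  | 0 => []
  | p + 1 => ltr p (f p) ++ altL f p

theorem altL_inv (f : ℕ → Option S) (hf : ∀ j, f j ≠ f (j + 1)) (p : ℕ) :
    FreeGroup.IsReduced (altL f (p + 1)) ∧
      ∀ a ∈ (altL f (p + 1)).head?, (f p = some a.1 ∧ a.2 = decide (Odd p)) ∨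
        (f p = none ∧ a.2 = decide (Odd (p + 1))) := by
  induction p with
  | zero =>
    cases h : f 0 with
    | none => simp [altL, ltr, h]
    | some s => simp [altL, ltr, h]
  | succ p ih =>
    have h0 : altL f (p + 1 + 1) = ltr (p + 1) (f (p + 1)) ++ altL f (p + 1) := rfl
    cases h : f (p + 1) with
    | none =>
      have h1 : altL f (p + 1 + 1) = altL f (p + 1) := by rw [h0, h]; rfl
      rw [h1]
      refine ⟨ih.1, fun a ha => ?_⟩
      rcases ih.2 a ha with h2 | h2
      · refine Or.inr ⟨rfl, ?_⟩
        rw [h2.2]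
        have h3 : Odd p ↔ Odd (p + 1 + 1) := by
          rw [Nat.odd_iff, Nat.odd_iff]
          omega
        exact decide_eq_decide.2 h3
      · exact absurd (h2.1.trans h.symm) (hf p)
    | some s =>
      have h1 : altL f (p + 1 + 1) = (s, decide (Odd (p + 1))) :: altL f (p + 1) := by
        rw [h0, h]; rfl
      rw [h1]
      refine ⟨?_, fun a ha => ?_⟩
      · cases h3 : altL f (p + 1) with
        | nil => exact FreeGroup.IsReduced.singleton
        | cons b l =>
          rw [FreeGroup.isReduced_cons_cons]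
          refine ⟨fun h4 => ?_, h3 ▸ ih.1⟩
          rcases ih.2 b (by rw [h3]; rfl) with h2 | h2
          · exfalso
            apply hf p
            rw [h, h2.1]
            exact congrArg some h4.symm
          · exact h2.2.symm
      · have h4 : a = (s, decide (Odd (p + 1))) := by
          have h5 : some (s, decide (Odd (p + 1))) = some a := ha
          exact (Option.some.inj h5).symm
        rw [h4]
        exact Or.inl ⟨rfl, rfl⟩

theorem altL_ne_nil (f : ℕ → Option S) (hf : ∀ j, f j ≠ f (j + 1)) (p : ℕ) (hp : 2 ≤ p) :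
    altL f p ≠ [] := by
  obtain ⟨q, rfl⟩ : ∃ q, p = q + 1 + 1 := ⟨p - 2, by omega⟩
  have h0 : altL f (q + 1 + 1) = ltr (q + 1) (f (q + 1)) ++ (ltr q (f q) ++ altL f q) := rfl
  rw [h0]
  cases h : f (q + 1) with
  | some s => simp [ltr]
  | none =>
    cases h' : f q with
    | some s => simp [ltr]
    | none => exact absurd (h'.trans h.symm) (hf q)

/-- The alternating product. -/
def altP (f : ℕ → Option S) (p : ℕ) : FreeGroup S := FreeGroup.mk (altL f p)

theorem altP_ne_one (f : ℕ → Option S) (hf : ∀ j, f j ≠ f (j + 1)) (p : ℕ) (hp : 2 ≤ p) :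
    altP f p ≠ 1 := by
  classical
  intro h
  have h1 : (altP f p).toWord = [] := by rw [h, FreeGroup.toWord_one]
  unfold altP at h1
  rw [FreeGroup.toWord_mk] at h1
  obtain ⟨q, rfl⟩ : ∃ q, p = q + 1 := ⟨p - 1, by omega⟩
  rw [(altL_inv f hf q).1.reduce_eq] at h1
  exact altL_ne_nil f hf _ hp h1

/-- The element of an index. -/
def zta : Option S → FreeGroup S
  | none => 1
  | some s => (FreeGroup.of s)⁻¹

theorem altP_even (f : ℕ → Option S) (k : ℕ) :
    altP f (2 * (k + 1)) = (zta (f (2 * k + 1)))⁻¹ * zta (f (2 * k)) * altP f (2 * k) := by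
  have h0 : altL f (2 * (k + 1)) = ltr (2 * k + 1) (f (2 * k + 1)) ++
      (ltr (2 * k) (f (2 * k)) ++ altL f (2 * k)) := rfl
  have h1 : ∀ x : Option S, FreeGroup.mk (ltr (2 * k + 1) x) = (zta x)⁻¹ := by
    intro x
    cases x with
    | none => simp [ltr, zta, FreeGroup.one_eq_mk]
    | some s =>
      have h2 : decide (Odd (2 * k + 1)) = true := by simp
      show FreeGroup.mk [(s, decide (Odd (2 * k + 1)))] = ((FreeGroup.of s)⁻¹)⁻¹
      rw [inv_inv, h2]
      rfl
  have h3 : ∀ x : Option S, FreeGroup.mk (ltr (2 * k) x) = zta x := by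
    intro x
    cases x with
    | none => simp [ltr, zta, FreeGroup.one_eq_mk]
    | some s =>
      have h2 : decide (Odd (2 * k)) = false := by simp
      show FreeGroup.mk [(s, decide (Odd (2 * k)))] = (FreeGroup.of s)⁻¹
      rw [h2]
      rfl
  unfold altP
  rw [h0, ← FreeGroup.mul_mk, ← FreeGroup.mul_mk, h1, h3, mul_assoc]

end altf

end SingerVS
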