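import Mathlib
import Pool.Agent.Lib_MP_394d50_all.ELeaf
import Pool.Agent.Lib_MP_394d50_vs.EAltF
import Pool.Agent.Lib_MP_394d50_vs.VCoef

/-!
# The representations on `D ⊗ D` and on its dual; surjectivity for invariant forms

`rhoT j` is the representation of `H` on `D ⊗ D` given by `a ⊗ b ↦ a (j h)⁻¹ ⊗ (j h) b`,
`rhoB (rhoT j)` the contragredient one on the dual space over `F₂`.
-/

namespace SingerVS

open SingerRA
open scoped TensorProduct

section

variable {H : Type} [Group H] {D : Type} [DivisionRing D] [Algebra (ZMod 2) D]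

/-- The bilinear forms on `D`, as linear forms on `D ⊗ D`. -/
abbrev BB (D : Type) [DivisionRing D] [Algebra (ZMod 2) D] : Type := TT D →ₗ[ZMod 2] ZMod 2

theorem rhoBT_apply (j : H →* Dˣ) (h : H) (b : BB D) (x : TT D) :
    rhoB (rhoT j) h b x = b (act (j h)⁻¹ x) := by
  rw [rhoB_apply, rhoT_apply, map_inv]

/-- The division subring generated by `j(K)`. -/
noncomputable def KJ (j : H →* Dˣ) (K : Subgroup H) : Subfield D :=
  Subfield.closure {x | ∃ h ∈ K, x = ((j h : Dˣ) : D)}

theorem mem_KJ (j : H →* Dˣ) (K : Subgroup H) (h : H) (hh : h ∈ K) :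
    ((j h : Dˣ) : D) ∈ KJ j K := Subfield.subset_closure ⟨h, hh, rfl⟩

/-- An invariant form vanishes on the relations. -/
theorem rel_of_inv (j : H →* Dˣ) (K : Subgroup H) (b : BB D)
    (hb : ∀ h ∈ K, rhoB (rhoT j) h b = b) (x : TT D) (hx : x ∈ SingerRA.Rel (KJ j K)) : b x = 0 := by
  have h1 : SingerRA.Rel (KJ j K) ≤ LinearMap.ker b := by
    refine rel_le _ _ ?_
    unfold KJ
    rw [Subfield.closure_le]
    rintro e ⟨h, hh, rfl⟩
    show ((j h : Dˣ) : D) ∈ bal (LinearMap.ker b)
    rw [mem_bal]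
    intro a c
    rw [LinearMap.mem_ker, map_sub, sub_eq_zero]
    have h2 := LinearMap.congr_fun (hb h⁻¹ (inv_mem hh)) ((a * ((j h : Dˣ) : D)) ⊗ₜ[ZMod 2] c)
    rw [rhoBT_apply, map_inv, inv_inv, act_tmul, mul_assoc, Units.mul_inv, mul_one] at h2
    exact h2.symm
  exact LinearMap.mem_ker.1 (h1 hx)

/-- A form which vanishes on the relations is invariant. -/
theorem inv_of_rel (j : H →* Dˣ) (K : Subgroup H) (b : BB D)
    (hb : ∀ x ∈ SingerRA.Rel (KJ j K), b x = 0) (h : H) (hh : h ∈ K) : rhoB (rhoT j) h b = b := by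
  refine LinearMap.ext fun x => ?_
  rw [rhoBT_apply]
  have h1 : (((j h)⁻¹ : Dˣ) : D) ∈ KJ j K := by
    rw [← map_inv]
    exact mem_KJ j K _ (inv_mem hh)
  have h2 := hb _ (act_sub_mem ((j h)⁻¹) (KJ j K) h1 x)
  rw [map_sub, sub_eq_zero] at h2
  exact h2

/-- Linear algebra: extension of a functional. -/
theorem exists_form {E F : Type} [AddCommGroup E] [Module (ZMod 2) E] [AddCommGroup F]
    [Module (ZMod 2) F] (R : Submodule (ZMod 2) F) (L : E →ₗ[ZMod 2] F) (g : E →ₗ[ZMod 2] ZMod 2)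
    (h : ∀ e, L e ∈ R → g e = 0) :
    ∃ b : F →ₗ[ZMod 2] ZMod 2, (∀ x ∈ R, b x = 0) ∧ ∀ e, b (L e) = g e := by
  have h1 : g ∈ LinearMap.range ((R.mkQ ∘ₗ L).dualMap) := by
    rw [LinearMap.range_dualMap_eq_dualAnnihilator_ker, Submodule.mem_dualAnnihilator]
    intro e he
    rw [LinearMap.mem_ker, LinearMap.comp_apply, Submodule.mkQ_apply,
      Submodule.Quotient.mk_eq_zero] at he
    exact h e he
  obtain ⟨b, hb⟩ := h1
  refine ⟨b ∘ₗ R.mkQ, fun x hx => ?_, fun e => ?_⟩
  · rw [LinearMap.comp_apply, Submodule.mkQ_apply, (Submodule.Quotient.mk_eq_zero R).2 hx,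
      map_zero]
  · exact LinearMap.congr_fun hb e

/-- The product in the group. -/
def altG {S : Type} (x : S → H) (f : ℕ → Option S) : ℕ → H
  | 0 => 1
  | k + 1 => ((f (2 * k + 1)).elim 1 fun s => (x s)⁻¹)⁻¹ * ((f (2 * k)).elim 1 fun s => (x s)⁻¹) *
      altG x f k

/-- **Surjectivity.** -/
theorem surj_forms (j : H →* Dˣ) (K1 K2 : Subgroup H) (h12 : K1 ≤ K2) (S : Type)
    (q : K2 →* FreeGroup S) (hq : ∀ h : K2, q h = 1 ↔ h.1 ∈ K1) (x : S → K2)
    (hx : ∀ s, q (x s) = FreeGroup.of s) (v : PV D)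
    (ht : ∀ a ∈ KJ j K1, a ≠ 0 → v.triv a)
    (hf : ∀ h ∈ K2, v.triv ((j h : Dˣ) : D) → h ∈ K1)
    (β : S → BB D) (hβ : ∀ s, ∀ h ∈ K1, rhoB (rhoT j) h (β s) = β s) :
    ∃ b : BB D, (∀ h ∈ K1, rhoB (rhoT j) h b = b) ∧ ∀ s, rhoB (rhoT j) (x s).1 b - b = β s := by
  classical
  -- the subgroup is normal
  have hnorm : ∀ g ∈ K2, ∀ h ∈ K1, g * h * g⁻¹ ∈ K1 := by
    intro g hg h hh
    have h1 := (hq (⟨g, hg⟩ * ⟨h, h12 hh⟩ * (⟨g, hg⟩ : K2)⁻¹)).1 (by
      rw [map_mul, map_mul, map_inv, (hq ⟨h, h12 hh⟩).2 hh, mul_one, mul_inv_cancel])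
    exact h1
  have hK : ∀ g ∈ K2, ∀ a ∈ KJ j K1, ((j g : Dˣ) : D) * a * (((j g)⁻¹ : Dˣ) : D) ∈ KJ j K1 := by
    intro g hg a ha
    have e1 : (((j g)⁻¹ : Dˣ) : D) * ((j g : Dˣ) : D) = 1 := Units.inv_mul _
    have e2 : ((j g : Dˣ) : D) * (((j g)⁻¹ : Dˣ) : D) = 1 := Units.mul_inv _
    unfold KJ at ha
    induction ha using Subfield.closure_induction with
    | mem a ha =>
      obtain ⟨h, hh, rfl⟩ := ha
      have h1 := mem_KJ j K1 _ (hnorm g hg h hh)
      rw [map_mul, map_mul, map_inv] at h1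
      exact h1
    | one =>
      rw [mul_one, e2]
      exact one_mem _
    | add a c _ _ ha hc =>
      rw [mul_add, add_mul]
      exact add_mem ha hc
    | neg a _ ha =>
      rw [mul_neg, neg_mul]
      exact neg_mem ha
    | inv a _ ha =>
      have h1 : ((j g : Dˣ) : D) * a⁻¹ * (((j g)⁻¹ : Dˣ) : D) =
          (((j g : Dˣ) : D) * a * (((j g)⁻¹ : Dˣ) : D))⁻¹ := by
        rw [mul_inv_rev, mul_inv_rev, Units.val_inv_eq_inv_val, inv_inv, mul_assoc]
      rw [h1]
      exact inv_mem ha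
    | mul a c _ _ ha hc =>
      have h1 : ((j g : Dˣ) : D) * (a * c) * (((j g)⁻¹ : Dˣ) : D) =
          (((j g : Dˣ) : D) * a * (((j g)⁻¹ : Dˣ) : D)) *
            (((j g : Dˣ) : D) * c * (((j g)⁻¹ : Dˣ) : D)) := by
        calc ((j g : Dˣ) : D) * (a * c) * (((j g)⁻¹ : Dˣ) : D) =
            ((j g : Dˣ) : D) * a * 1 * c * (((j g)⁻¹ : Dˣ) : D) := by
              rw [mul_one]
              simp only [mul_assoc]
          _ = _ := by
              rw [← e1]
              simp only [mul_assoc]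
      rw [h1]
      exact mul_mem ha hc
  -- the linear map
  let L : (S →₀ TT D) →ₗ[ZMod 2] TT D :=
    Finsupp.lsum (ZMod 2) (fun s => act (j (x s).1)⁻¹ - LinearMap.id)
  let g : (S →₀ TT D) →ₗ[ZMod 2] ZMod 2 := Finsupp.lsum (ZMod 2) β
  have hL : ∀ m : S →₀ TT D, L m ∈ SingerRA.Rel (KJ j K1) → ∀ s, m s ∈ SingerRA.Rel (KJ j K1) := by
    intro m hm
    let θ : Option m.support → Dˣ := fun i => i.elim 1 fun s => (j (x s.1).1)⁻¹
    let m' : Option m.support → TT D := fun i => i.elim (-∑ s : m.support, m s.1) fun s => m s.1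
    have e0 : ∑ i, m' i = 0 := by
      rw [Fintype.sum_option]
      exact neg_add_cancel _
    have e1 : ∑ i, act (θ i) (m' i) = L m := by
      rw [Fintype.sum_option]
      show act 1 (-∑ s : m.support, m s.1) + ∑ s : m.support, act (j (x s.1).1)⁻¹ (m s.1) =
        m.sum fun s y => act (j (x s).1)⁻¹ y - y
      rw [act_one, Finsupp.sum, Finset.sum_sub_distrib, Finset.sum_coe_sort m.support (fun s => m s),
        Finset.sum_coe_sort m.support (fun s => act (j (x s).1)⁻¹ (m s))]
      abel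
    have hKi : ∀ i, ∀ a ∈ KJ j K1, ((θ i : Dˣ) : D) * a * (((θ i)⁻¹ : Dˣ) : D) ∈ KJ j K1 := by
      intro i a ha
      cases i with
      | none =>
        show ((1 : Dˣ) : D) * a * (((1 : Dˣ)⁻¹ : Dˣ) : D) ∈ KJ j K1
        rw [inv_one, Units.val_one, one_mul, mul_one]
        exact ha
      | some s =>
        have h1 := hK _ (inv_mem (x s.1).2) a ha
        rw [map_inv] at h1
        exact h1
    have hKi' : ∀ i, ∀ a ∈ KJ j K1, (((θ i)⁻¹ : Dˣ) : D) * a * ((θ i : Dˣ) : D) ∈ KJ j K1 := by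
      intro i a ha
      cases i with
      | none =>
        show (((1 : Dˣ)⁻¹ : Dˣ) : D) * a * ((1 : Dˣ) : D) ∈ KJ j K1
        rw [inv_one, Units.val_one, one_mul, mul_one]
        exact ha
      | some s =>
        have h1 := hK _ (x s.1).2 a ha
        show ((((j (x s.1).1)⁻¹)⁻¹ : Dˣ) : D) * a * (((j (x s.1).1)⁻¹ : Dˣ) : D) ∈ KJ j K1
        rw [inv_inv]
        exact h1
    have hw : ∀ f : ℕ → Option m.support, (∀ i, f i ≠ f (i + 1)) → ∀ k, 1 ≤ k →
        ¬ v.triv ((prodw θ f k : Dˣ) : D) := by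
      intro f hfi k hk htr
      let y : S → H := fun s => (x s).1
      let f' : ℕ → Option S := fun i => (f i).map Subtype.val
      have hf' : ∀ i, f' i ≠ f' (i + 1) := by
        intro i h
        exact hfi i (Option.map_injective Subtype.val_injective h)
      have h1 : ∀ k, prodw θ f k = j (altG y f' k) := by
        intro k
        induction k with
        | zero => exact (map_one j).symm
        | succ k ih =>
          show (θ (f (2 * k + 1)))⁻¹ * θ (f (2 * k)) * prodw θ f k =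
            j (((f' (2 * k + 1)).elim 1 fun s => (y s)⁻¹)⁻¹ *
              ((f' (2 * k)).elim 1 fun s => (y s)⁻¹) * altG y f' k)
          rw [map_mul, map_mul, map_inv, ih]
          have h2 : ∀ i : Option m.support, θ i = j ((i.map Subtype.val).elim 1 fun s => (y s)⁻¹) := by
            intro i
            cases i with
            | none => exact (map_one j).symm
            | some s => exact (map_inv j _).symm
          rw [h2, h2]
      have h2 : ∀ k, ∃ z : K2, z.1 = altG y f' k ∧ q z = altP f' (2 * k) := by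
        intro k
        induction k with
        | zero => exact ⟨1, rfl, by rw [map_one]; rfl⟩
        | succ k ih =>
          obtain ⟨z, hz1, hz2⟩ := ih
          let t : Option S → K2 := fun i => i.elim 1 fun s => (x s)⁻¹
          have ht1 : ∀ i, (t i).1 = i.elim 1 fun s => (y s)⁻¹ := by
            intro i
            cases i <;> rfl
          have ht2 : ∀ i, q (t i) = zta i := by
            intro i
            cases i with
            | none => exact map_one q
            | some s =>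
              show q (x s)⁻¹ = (FreeGroup.of s)⁻¹
              rw [map_inv, hx]
          refine ⟨(t (f' (2 * k + 1)))⁻¹ * t (f' (2 * k)) * z, ?_, ?_⟩
          · show ((t (f' (2 * k + 1))).1)⁻¹ * (t (f' (2 * k))).1 * z.1 = _
            rw [ht1, ht1, hz1]
            rfl
          · rw [map_mul, map_mul, map_inv, ht2, ht2, hz2, altP_even]
      obtain ⟨z, hz1, hz2⟩ := h2 k
      rw [h1, ← hz1] at htr
      have h3 := (hq z).2 (hf z.1 z.2 htr)
      rw [hz2] at h3
      exact altP_ne_one f' hf' (2 * k) (by omega) h3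
    have h5 := leaf v (KJ j K1) (KJ j K1) ht θ hKi hKi' m' (by rw [e0]; exact zero_mem _)
      (by rw [e1]; exact hm) hw
    intro s
    by_cases hs : s ∈ m.support
    · exact h5 (some ⟨s, hs⟩)
    · rw [Finsupp.notMem_support_iff] at hs
      rw [hs]
      exact zero_mem _
  obtain ⟨b, hb1, hb2⟩ := exists_form (SingerRA.Rel (KJ j K1)) L g (fun m hm => by
    show m.sum (fun s y => β s y) = 0
    refine Finset.sum_eq_zero fun s _ => ?_
    exact rel_of_inv j K1 (β s) (hβ s) _ (hL m hm s))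
  refine ⟨b, inv_of_rel j K1 b hb1, fun s => ?_⟩
  refine LinearMap.ext fun y => ?_
  have h1 := hb2 (Finsupp.single s y)
  have h2 : L (Finsupp.single s y) = act (j (x s).1)⁻¹ y - y := by
    show (Finsupp.single s y).sum (fun s y => act (j (x s).1)⁻¹ y - y) = _
    rw [Finsupp.sum_single_index]
    rw [map_zero, sub_zero]
  have h3 : g (Finsupp.single s y) = β s y := by
    show (Finsupp.single s y).sum (fun s y => β s y) = _
    rw [Finsupp.sum_single_index]
    exact map_zero _
  rw [h2, h3, map_sub] at h1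
  rw [LinearMap.sub_apply, rhoBT_apply]
  exact h1

end

end SingerVS
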