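import Mathlib
import Pool.Agent.Lib_MP_394d50_vs.ESurj
import Pool.Agent.Lib_MP_394d50_vs.EStep
import Pool.Agent.Lib_MP_394d50_vs.EDualV

/-!
# The exactness theorem for a chain of subgroups with free quotients

`Chn H j`: a chain `1 = L 0 ≤ L 1 ≤ ⋯ ≤ L r = H` of subgroups with `L (i+1) / L i` free, and
valuations `v i` of `D` such that `v i` is trivial on the division subring generated by `j (L i)`
and `v i (j h) = 1`, `h ∈ L (i+1)`, implies `h ∈ L i`.
-/

namespace SingerVS

open SingerRA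
open scoped Pointwise TensorProduct

/-- Chains of subgroups with free quotients, separated by valuations. -/
structure Chn (H : Type) [Group H] {D : Type} [DivisionRing D] [Algebra (ZMod 2) D]
    (j : H →* Dˣ) where
  /-- the length -/
  r : ℕ
  /-- the subgroups -/
  L : ℕ → Subgroup H
  L_zero : L 0 = ⊥
  L_last : L r = ⊤
  le : ∀ i < r, L i ≤ L (i + 1)
  /-- the valuations -/
  v : ℕ → PV D
  free : ∀ i < r, ∃ (S : Type) (q : L (i + 1) →* FreeGroup S), Function.Surjective q ∧
    ∀ h : L (i + 1), q h = 1 ↔ h.1 ∈ L i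
  triv : ∀ i < r, ∀ a ∈ KJ j (L i), a ≠ 0 → (v i).triv a
  faith : ∀ i < r, ∀ h ∈ L (i + 1), (v i).triv ((j h : Dˣ) : D) → h ∈ L i

section

variable {H P : Type} [Group H] [DecidableEq P] [MulAction H P] {X : Set (Finset P)}
variable {D : Type} [DivisionRing D] [Algebra (ZMod 2) D]

/-- The locally finite chains with values in the forms on a vector space. -/
theorem ExK_bot {n : ℕ} (hL : LfR n X) {M : Type} [AddCommGroup M] [Module (ZMod 2) M]
    (ρ : H →* Module.End (ZMod 2) (M →ₗ[ZMod 2] ZMod 2)) (k : ℕ) (hk : 1 ≤ k) (hkn : k ≤ n) :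
    ExK ρ X (⊥ : Subgroup H) k := by
  intro c hc hbc
  let e := Module.Basis.ofVectorSpace (ZMod 2) M
  have h1 : ∀ i, ∃ b ∈ Ch (ZMod 2) X (k + 1), bd X b = fun σ => c σ (e i) := by
    intro i
    refine hL.low k hk hkn _ ?_ ?_
    · intro σ hσ
      show c σ (e i) = 0
      rw [hc.1 σ hσ]
      rfl
    · funext σ
      by_cases hσ : σ ∈ X
      · rw [bd_apply hσ]
        have h2 := congrFun hbc σ
        rw [bd_apply hσ] at h2
        have h3 := LinearMap.congr_fun h2 (e i)
        rw [LinearMap.sum_apply] at h3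
        exact h3
      · exact bd_apply_not hσ
  choose b hb hbb using h1
  refine ⟨fun σ => e.constr (ZMod 2) (fun i => b i σ), (coK_bot ρ (k + 1) _).2 ?_, ?_⟩
  · intro σ hσ
    refine e.ext fun i => ?_
    rw [Module.Basis.constr_basis, hb i σ hσ]
    rfl
  · funext σ
    refine e.ext fun i => ?_
    have h2 := congrFun (hbb i) σ
    by_cases hσ : σ ∈ X
    · rw [bd_apply hσ] at h2 ⊢
      rw [LinearMap.sum_apply, ← h2]
      refine Finset.sum_congr rfl fun p _ => ?_
      rw [Module.Basis.constr_basis]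
    · rw [bd_apply_not hσ, hc.1 σ (fun h => hσ h.1)]

/-- **Exactness for the locally finite chains with values in the forms on `D`.** -/
theorem FreeCx.exBd_of_chn (hX : FreeCx H X) {n : ℕ} (hL : LfR n X) {j : H →* Dˣ}
    (C : Chn H j) (k : ℕ) (hk : 1 ≤ k) (hkn : k ≤ n) : ExBd (rhoB (rhoT j)) X k := by
  have key : ∀ i ≤ C.r, ∀ k, 1 ≤ k → k ≤ n → ExK (rhoB (rhoT j)) X (C.L i) k := by
    intro i
    induction i with
    | zero =>
      intro _ k hk hkn
      rw [C.L_zero]
      exact ExK_bot hL _ k hk hkn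
    | succ i ih =>
      intro hi
      have hi' : i < C.r := by omega
      obtain ⟨S, q, hqs, hq⟩ := C.free i hi'
      choose x hx using fun s => hqs (FreeGroup.of s)
      refine hX.step (rhoB (rhoT j)) (C.le i hi') q hqs hq x hx hL (ih (by omega)) ?_
      intro β hβ
      exact surj_forms j (C.L i) (C.L (i + 1)) (C.le i hi') S q hq x hx (C.v i) (C.triv i hi')
        (C.faith i hi') β hβ
  intro c hc hbc
  have h1 := key C.r le_rfl k hk hkn
  rw [C.L_last] at h1
  obtain ⟨b, hb, hbb⟩ := h1 c ((hX.coK_top _ k c).2 hc) hbc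
  exact ⟨b, (hX.coK_top _ (k + 1) b).1 hb, hbb⟩

/-- **Exactness for the cochains with values in `D ⊗ D`.** -/
theorem FreeCx.exCo_of_chn (hX : FreeCx H X) {n : ℕ} (hL : LfR n X) {j : H →* Dˣ}
    (C : Chn H j) (k : ℕ) (hk : 1 ≤ k) (hkn : k ≤ n) : ExCo (rhoT j) X k := by
  refine hX.exCo_of_exBd (rhoT j) (rhoB (rhoT j)) (fun _ _ _ => rfl) k
    (hX.exBd_of_chn hL C k hk hkn)

end

end SingerVS
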