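import Mathlib
import Pool.Agent.Lib_MP_394d50_all.EDefs
import Pool.Agent.Lib_MP_394d50_all.ERel

/-!
# Group side: the retractions `rt A : W → W_A` and the valuations
-/

namespace SingerRA

section rt

variable {V : Type} [DecidableEq V] (G : SimpleGraph V)

/-- The retraction onto the parabolic subgroup of `A`. -/
noncomputable def rt (A : Finset V) : W G →* W G :=
  (cs G).lift ⟨fun v => if v ∈ A then gen G v else 1, liftable_ofE _ (fun v => by
      split_ifs
      · exact gen_mul_self G v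
      · rw [mul_one]) (fun u v h => by
      split_ifs
      · exact comm_of_adj G u v h
      · rw [mul_one, one_mul]
      · rw [mul_one, one_mul]
      · rfl)⟩

theorem rt_gen (A : Finset V) (v : V) : rt G A (gen G v) = if v ∈ A then gen G v else 1 := by
  unfold rt gen
  rw [CoxeterSystem.lift_apply_simple]

theorem rt_mem (A : Finset V) (w : W G) : rt G A w ∈ pW G A := by
  induction w using W_ind with
  | one => rw [map_one]; exact one_mem _
  | gm v w ih =>
    rw [map_mul, rt_gen]
    split_ifs with h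
    · exact mul_mem (Subgroup.subset_closure ⟨v, h, rfl⟩) ih
    · rwa [one_mul]

theorem rt_of_mem (A : Finset V) (w : W G) (hw : w ∈ pW G A) : rt G A w = w := by
  unfold pW par at hw
  induction hw using Subgroup.closure_induction with
  | mem x hx =>
    obtain ⟨v, hv, rfl⟩ := hx
    rw [rt_gen, if_pos (Finset.mem_coe.1 hv)]
  | one => exact map_one _
  | mul x y _ _ hx hy => rw [map_mul, hx, hy]
  | inv x _ hx => rw [map_inv, hx]

theorem rt_rt (A B : Finset V) (h : B ⊆ A) (w : W G) : rt G B (rt G A w) = rt G B w := by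
  induction w using W_ind with
  | one => rw [map_one]
  | gm v w ih =>
    rw [map_mul, map_mul, map_mul, ih, rt_gen, rt_gen]
    split_ifs with h1 h2 h2
    · rw [rt_gen, if_pos h2]
    · rw [rt_gen, if_neg h2]
    · exact absurd (h h2) h1
    · rw [map_one]

theorem rt_univ [Fintype V] (w : W G) : rt G Finset.univ w = w := by
  induction w using W_ind with
  | one => rw [map_one]
  | gm v w ih => rw [map_mul, rt_gen, if_pos (Finset.mem_univ v), ih]

theorem rt_empty (w : W G) : rt G ∅ w = 1 := by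
  induction w using W_ind with
  | one => rw [map_one]
  | gm v w ih => rw [map_mul, rt_gen, if_neg (Finset.notMem_empty v), ih, one_mul]

theorem deg_rt (A : Finset V) (w : W G) (u : V) :
    deg G (rt G A w) u = if u ∈ A then deg G w u else 0 := by
  induction w using W_ind with
  | one =>
    rw [map_one, deg_one]
    split_ifs <;> rfl
  | gm v w ih =>
    rw [map_mul, rt_gen, deg_mul, Pi.add_apply, ih, deg_mul, Pi.add_apply, deg_gen]
    by_cases hv : v ∈ A
    · rw [if_pos hv, deg_gen]
      by_cases hu : u ∈ A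
      · rw [if_pos hu, if_pos hu]
      · rw [if_neg hu, if_neg hu, add_zero]
        exact ev_ne (fun h => hu (h ▸ hv))
    · rw [if_neg hv, deg_one, Pi.zero_apply, zero_add]
      by_cases hu : u ∈ A
      · have hne : u ≠ v := fun h => hv (h ▸ hu)
        rw [if_pos hu, if_pos hu, ev_ne hne, zero_add]
      · rw [if_neg hu, if_neg hu]

theorem deg_rt_zero (A : Finset V) (w : W G) (h : deg G w = 0) : deg G (rt G A w) = 0 := by
  funext u
  rw [deg_rt, h]
  split_ifs <;> rfl

end rt

section pv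

variable {D : Type} [DivisionRing D] (v : PV D)

theorem pv_refl (a : D) : v.le a a := (v.total a a).elim id id

theorem triv_one : v.triv 1 := ⟨pv_refl v 1, pv_refl v 1⟩

theorem triv_mul {a b : D} (ha : v.triv a) (hb : v.triv b) : v.triv (a * b) := by
  constructor
  · have h1 := v.mul_right 1 a b ha.1
    rw [one_mul] at h1
    exact v.trans _ _ _ hb.1 h1
  · have h1 := v.mul_right a 1 b ha.2
    rw [one_mul] at h1
    exact v.trans _ _ _ h1 hb.2

theorem triv_inv {g : Dˣ} (hg : v.triv (g : D)) : v.triv ((g⁻¹ : Dˣ) : D) := by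
  constructor
  · have h1 := v.mul_left _ _ ((g⁻¹ : Dˣ) : D) hg.2
    rwa [mul_one, Units.inv_mul] at h1
  · have h1 := v.mul_left _ _ ((g⁻¹ : Dˣ) : D) hg.1
    rwa [mul_one, Units.inv_mul] at h1

/-- The units of value `1`. -/
def trivS : Subgroup Dˣ where
  carrier := {g | v.triv (g : D)}
  mul_mem' := by
    intro a b ha hb
    exact triv_mul v ha hb
  one_mem' := triv_one v
  inv_mem' := by
    intro a ha
    exact triv_inv v ha

theorem mem_trivS (g : Dˣ) : g ∈ trivS v ↔ v.triv (g : D) := Iff.rfl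

theorem trivS_conj (g x : Dˣ) (hx : x ∈ trivS v) : g * x * g⁻¹ ∈ trivS v := by
  rw [mem_trivS] at hx ⊢
  constructor
  · have h1 := v.mul_left _ _ (g : D) hx.1
    have h2 := v.mul_right _ _ ((g⁻¹ : Dˣ) : D) h1
    rw [mul_one, Units.mul_inv] at h2
    exact h2
  · have h1 := v.mul_left _ _ (g : D) hx.2
    have h2 := v.mul_right _ _ ((g⁻¹ : Dˣ) : D) h1
    rw [mul_one, Units.mul_inv] at h2
    exact h2

instance instNormalTrivS : (trivS v).Normal := ⟨fun x hx g => trivS_conj v g x hx⟩

end pv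

section sys

variable {V : Type} [DecidableEq V] {G : SimpleGraph V} {D : Type} [DivisionRing D]

theorem th1_quot (S : Sys G D) (A : Finset V) (u : V) (χ χ' : QV V)
    (h : u ∈ A → χ u = χ' u) :
    (QuotientGroup.mk (th1 S.t u χ) : Dˣ ⧸ trivS (S.v A)) =
      if u ∈ A then (QuotientGroup.mk (th1 S.t u χ') : Dˣ ⧸ trivS (S.v A)) else 1 := by
  split_ifs with hu
  · unfold th1
    rw [h hu]
  · rw [QuotientGroup.eq_one_iff]
    have h1 : S.t u ∈ trivS (S.v A) := S.v_t A u hu
    unfold th1
    split_ifs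
    · exact inv_mem h1
    · exact h1

/-- The value of `th w χ` depends only on `rt A w` and the restriction of `χ` to `A`. -/
theorem th_quot (S : Sys G D) (A : Finset V) (w : W G) (χ χ' : QV V)
    (h : ∀ u ∈ A, χ u = χ' u) :
    (QuotientGroup.mk (th S.toUD w χ) : Dˣ ⧸ trivS (S.v A)) =
      QuotientGroup.mk (th S.toUD (rt G A w) χ') := by
  induction w using W_ind with
  | one => rw [map_one, th_one, th_one]
  | gm v w ih =>
    rw [th_mul, th_gen, map_mul (rt G A), rt_gen, QuotientGroup.mk_mul, ih,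
      th1_quot S A v (χ + deg G w) (χ' + deg G (rt G A w)) (fun hv => by
        rw [Pi.add_apply, Pi.add_apply, deg_rt, if_pos hv, h v hv])]
    split_ifs with hv
    · rw [th_mul, th_gen, QuotientGroup.mk_mul]
    · rw [one_mul, one_mul]

theorem th_triv_iff (S : Sys G D) (A : Finset V) (w : W G) (χ : QV V) :
    (S.v A).triv ((th S.toUD w χ : Dˣ) : D) ↔ rt G A w = 1 := by
  have h := th_quot S A w χ χ (fun _ _ => rfl)
  constructor
  · intro h1
    have h2 : (QuotientGroup.mk (th S.toUD w χ) : Dˣ ⧸ trivS (S.v A)) = 1 :=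
      (QuotientGroup.eq_one_iff _).2 h1
    rw [h2] at h
    have h3 := (QuotientGroup.eq_one_iff _).1 h.symm
    exact S.inj A _ (rt_mem G A w) χ h3
  · intro h1
    rw [h1, th_one] at h
    exact (QuotientGroup.eq_one_iff _).1 h

/-- The homomorphism `j(w) = θ_w(0)` on the kernel of the degree. -/
noncomputable def jh (d : UD G D) (w : W G) : Dˣ := th d w 0

theorem jh_mul (d : UD G D) (w w' : W G) (h : deg G w' = 0) : jh d (w * w') = jh d w * jh d w' := by
  unfold jh
  rw [th_mul, h, add_zero]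

theorem jh_one (d : UD G D) : jh d (1 : W G) = 1 := th_one d 0

theorem jh_inv (d : UD G D) (w : W G) (h : deg G w = 0) : jh d w⁻¹ = (jh d w)⁻¹ := by
  unfold jh
  rw [th_inv, h, add_zero]

/-- The division subring generated by the elements `j(w)`, `w ∈ L`. -/
noncomputable def KL (d : UD G D) (L : Set (W G)) : Subfield D :=
  Subfield.closure {x | ∃ w ∈ L, x = ((jh d w : Dˣ) : D)}

theorem KL_le (S : Sys G D) (A : Finset V) (L : Set (W G)) (hL : ∀ w ∈ L, rt G A w = 1) :
    KL S.toUD L ≤ S.F A := by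
  unfold KL
  rw [Subfield.closure_le]
  rintro x ⟨w, hw, rfl⟩
  exact S.gen_mem A _ (th_mem S.toUD w 0) ((th_triv_iff S A w 0).2 (hL w hw))

theorem KL_triv (S : Sys G D) (A : Finset V) (L : Set (W G)) (hL : ∀ w ∈ L, rt G A w = 1) :
    ∀ x ∈ KL S.toUD L, x ≠ 0 → (S.v A).triv x :=
  fun x hx h0 => S.F_triv A x (KL_le S A L hL hx) h0

theorem KL_conj (d : UD G D) (L : Set (W G)) (hL : ∀ w ∈ L, deg G w = 0) (g : W G)
    (hg : deg G g = 0) (hn : ∀ w ∈ L, g * w * g⁻¹ ∈ L) :
    ∀ x ∈ KL d L, ((jh d g : Dˣ) : D) * x * (((jh d g)⁻¹ : Dˣ) : D) ∈ KL d L := by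
  have e1 : (((jh d g)⁻¹ : Dˣ) : D) * ((jh d g : Dˣ) : D) = 1 := Units.inv_mul _
  have e2 : ((jh d g : Dˣ) : D) * (((jh d g)⁻¹ : Dˣ) : D) = 1 := Units.mul_inv _
  intro x hx
  unfold KL at hx
  induction hx using Subfield.closure_induction with
  | mem x hx =>
    obtain ⟨w, hw, rfl⟩ := hx
    refine Subfield.subset_closure ⟨g * w * g⁻¹, hn w hw, ?_⟩
    rw [jh_mul d _ _ (by rw [deg_inv, hg]), jh_mul d _ _ (hL w hw), jh_inv d g hg]
    rfl
  | one =>
    rw [mul_one, e2]
    exact one_mem _
  | add x y _ _ hx hy =>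
    rw [mul_add, add_mul]
    exact add_mem hx hy
  | neg x _ hx =>
    rw [mul_neg, neg_mul]
    exact neg_mem hx
  | inv x _ hx =>
    have h1 : ((jh d g : Dˣ) : D) * x⁻¹ * (((jh d g)⁻¹ : Dˣ) : D) =
        (((jh d g : Dˣ) : D) * x * (((jh d g)⁻¹ : Dˣ) : D))⁻¹ := by
      rw [mul_inv_rev, mul_inv_rev, Units.val_inv_eq_inv_val, inv_inv, mul_assoc]
    rw [h1]
    exact inv_mem hx
  | mul x y _ _ hx hy =>
    have h1 : ((jh d g : Dˣ) : D) * (x * y) * (((jh d g)⁻¹ : Dˣ) : D) =
        (((jh d g : Dˣ) : D) * x * (((jh d g)⁻¹ : Dˣ) : D)) *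
          (((jh d g : Dˣ) : D) * y * (((jh d g)⁻¹ : Dˣ) : D)) := by
      calc ((jh d g : Dˣ) : D) * (x * y) * (((jh d g)⁻¹ : Dˣ) : D) =
          ((jh d g : Dˣ) : D) * x * 1 * y * (((jh d g)⁻¹ : Dˣ) : D) := by
            rw [mul_one]
            simp only [mul_assoc]
        _ = _ := by
            rw [← e1]
            simp only [mul_assoc]
    rw [h1]
    exact mul_mem hx hy

end sys

end SingerRA
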