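import Mathlib
import Pool.Agent.Lib_MP_394d50_vs.GRet

/-!
# Group side: the even part of the kernel of `W_A → W_{A \ u}` is a free group (the action)

`Y = W ⧸ W_C`, `C` = the vertices of `A \ u` adjacent to `u`, `y₀` = the coset of `1`, `F` = the
free group on `Y \ y₀`, `x y ∈ F` the generator of `y ≠ y₀`, `x y₀ = 1`. `W` acts on
`F × {0, 1}`: `v ∈ A \ u` by `(f, 0) ↦ (α_v f, 0)`, `(f, 1) ↦ (α_v f · x(v y₀)⁻¹, 1)`, with
`α_v (x y) = x(v y₀)⁻¹ x(v y)`, and `u` by `(f, i) ↦ (ι f, i + 1)`, `ι (x y) = (x y)⁻¹`.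
-/

namespace SingerRA

variable {V : Type} [DecidableEq V] (G : SimpleGraph V) (A : Finset V) (u : V)

/-- The cosets. -/
abbrev Yq : Type := W G ⧸ pW G (lkA G A u)

/-- The base coset. -/
noncomputable def y0 : Yq G A u := ((1 : W G) : W G ⧸ pW G (lkA G A u))

/-- The free group. -/
abbrev YF : Type := FreeGroup {y : Yq G A u // y ≠ y0 G A u}

open scoped Classical in
/-- The generators. -/
noncomputable def xq (y : Yq G A u) : YF G A u :=
  if h : y = y0 G A u then 1 else FreeGroup.of ⟨y, h⟩

theorem xq_y0 : xq G A u (y0 G A u) = 1 := by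
  unfold xq
  rw [dif_pos rfl]

theorem xq_of (y : {y : Yq G A u // y ≠ y0 G A u}) : xq G A u y.1 = FreeGroup.of y := by
  unfold xq
  rw [dif_neg y.2]

/-- The endomorphism of `w`. -/
noncomputable def alq (w : W G) : YF G A u →* YF G A u :=
  FreeGroup.lift fun y => (xq G A u (w • y0 G A u))⁻¹ * xq G A u (w • y.1)

theorem alq_xq (w : W G) (y : Yq G A u) :
    alq G A u w (xq G A u y) = (xq G A u (w • y0 G A u))⁻¹ * xq G A u (w • y) := by
  by_cases h : y = y0 G A u
  · rw [h, xq_y0, map_one, inv_mul_cancel]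
  · have h1 := xq_of G A u ⟨y, h⟩
    change xq G A u y = _ at h1
    rw [h1]
    unfold alq
    rw [FreeGroup.lift_apply_of]

/-- Two endomorphisms which agree on the elements `x y` are equal. -/
theorem yf_ext {M : Type} [Monoid M] (f g : YF G A u →* M)
    (h : ∀ y, f (xq G A u y) = g (xq G A u y)) : f = g := by
  refine FreeGroup.ext_hom _ _ fun y => ?_
  rw [← xq_of]
  exact h _

theorem alq_mul (w w' : W G) (f : YF G A u) :
    alq G A u w (alq G A u w' f) = alq G A u (w * w') f := by
  refine DFunLike.congr_fun (yf_ext G A u ((alq G A u w).comp (alq G A u w'))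
    (alq G A u (w * w')) fun y => ?_) f
  rw [MonoidHom.comp_apply, alq_xq, map_mul, map_inv, alq_xq, alq_xq, alq_xq, mul_smul, mul_smul,
    mul_inv_rev, inv_inv, mul_assoc, mul_inv_cancel_left]

theorem alq_one (f : YF G A u) : alq G A u 1 f = f := by
  refine DFunLike.congr_fun (yf_ext G A u (alq G A u 1) (MonoidHom.id _) fun y => ?_) f
  rw [alq_xq, one_smul, one_smul, xq_y0, inv_one, one_mul, MonoidHom.id_apply]

/-- The inversion of the generators. -/
noncomputable def iq : YF G A u →* YF G A u := FreeGroup.lift fun y => (FreeGroup.of y)⁻¹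

theorem iq_xq (y : Yq G A u) : iq G A u (xq G A u y) = (xq G A u y)⁻¹ := by
  by_cases h : y = y0 G A u
  · rw [h, xq_y0, map_one, inv_one]
  · have h1 := xq_of G A u ⟨y, h⟩
    change xq G A u y = _ at h1
    rw [h1]
    unfold iq
    rw [FreeGroup.lift_apply_of]

theorem iq_iq (f : YF G A u) : iq G A u (iq G A u f) = f := by
  refine DFunLike.congr_fun (yf_ext G A u ((iq G A u).comp (iq G A u)) (MonoidHom.id _)
    fun y => ?_) f
  rw [MonoidHom.comp_apply, iq_xq, map_inv, iq_xq, inv_inv, MonoidHom.id_apply]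

theorem iq_alq (w : W G) (hw : w • y0 G A u = y0 G A u) (f : YF G A u) :
    iq G A u (alq G A u w f) = alq G A u w (iq G A u f) := by
  refine DFunLike.congr_fun (yf_ext G A u ((iq G A u).comp (alq G A u w))
    ((alq G A u w).comp (iq G A u)) fun y => ?_) f
  rw [MonoidHom.comp_apply, MonoidHom.comp_apply, alq_xq, iq_xq, hw, xq_y0, inv_one, one_mul,
    iq_xq, map_inv, alq_xq, hw, xq_y0, inv_one, one_mul]

/-- The operator of `w`. -/
noncomputable def Tq (w : W G) : Function.End (YF G A u × Bool) := fun p =>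
  (alq G A u w p.1 * (if p.2 then (xq G A u (w • y0 G A u))⁻¹ else 1), p.2)

theorem Tq_mul (w w' : W G) (p : YF G A u × Bool) :
    Tq G A u w (Tq G A u w' p) = Tq G A u (w * w') p := by
  obtain ⟨f, b⟩ := p
  refine Prod.ext ?_ rfl
  show alq G A u w (alq G A u w' f * (if b then (xq G A u (w' • y0 G A u))⁻¹ else 1)) *
      (if b then (xq G A u (w • y0 G A u))⁻¹ else 1) =
    alq G A u (w * w') f * (if b then (xq G A u ((w * w') • y0 G A u))⁻¹ else 1)
  rw [map_mul, alq_mul]
  cases b
  · simp
  · simp only [if_true, map_inv, alq_xq, mul_smul, mul_inv_rev, inv_inv, mul_assoc,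
      mul_inv_cancel, mul_one]

theorem Tq_one (p : YF G A u × Bool) : Tq G A u 1 p = p := by
  obtain ⟨f, b⟩ := p
  refine Prod.ext ?_ rfl
  show alq G A u 1 f * (if b then (xq G A u ((1 : W G) • y0 G A u))⁻¹ else 1) = f
  rw [alq_one, one_smul, xq_y0, inv_one, ite_self, mul_one]

/-- The operator of `u`. -/
noncomputable def Sq : Function.End (YF G A u × Bool) := fun p => (iq G A u p.1, !p.2)

theorem Sq_Sq (p : YF G A u × Bool) : Sq G A u (Sq G A u p) = p := by
  obtain ⟨f, b⟩ := p
  refine Prod.ext ?_ ?_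
  · exact iq_iq G A u f
  · exact Bool.not_not b

theorem Sq_Tq (w : W G) (hw : w • y0 G A u = y0 G A u) (p : YF G A u × Bool) :
    Sq G A u (Tq G A u w p) = Tq G A u w (Sq G A u p) := by
  obtain ⟨f, b⟩ := p
  refine Prod.ext ?_ rfl
  show iq G A u (alq G A u w f * (if b then (xq G A u (w • y0 G A u))⁻¹ else 1)) =
    alq G A u w (iq G A u f) * (if (!b) then (xq G A u (w • y0 G A u))⁻¹ else 1)
  rw [hw, xq_y0, inv_one, ite_self, ite_self, mul_one, mul_one, iq_alq G A u w hw]

/-- The action of the generators. -/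
noncomputable def actq (v : V) : Function.End (YF G A u × Bool) :=
  if v = u then Sq G A u else if v ∈ A then Tq G A u (gen G v) else id

theorem smul_y0 (v : V) (hv : v ∈ lkA G A u) : gen G v • y0 G A u = y0 G A u := by
  have h2 : (gen G v)⁻¹ * 1 ∈ pW G (lkA G A u) := by
    rw [mul_one]
    exact inv_mem (Subgroup.subset_closure ⟨v, hv, rfl⟩)
  show ((gen G v * 1 : W G) : W G ⧸ pW G (lkA G A u)) = ((1 : W G) : W G ⧸ pW G (lkA G A u))
  rw [mul_one]
  exact QuotientGroup.eq.2 h2

theorem mem_lkA' (v : V) (hv : v ∈ A) (hu : v ≠ u) (h : G.Adj u v) : v ∈ lkA G A u := by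
  classical
  unfold lkA
  rw [Finset.mem_filter, Finset.mem_erase]
  exact ⟨⟨hu, hv⟩, h⟩

/-- The action of `W`. -/
noncomputable def homq : W G →* Function.End (YF G A u × Bool) :=
  (cs G).lift ⟨actq G A u, liftable_ofE _ (fun v => by
      funext s
      show actq G A u v (actq G A u v s) = s
      unfold actq
      split_ifs
      · exact Sq_Sq G A u s
      · rw [Tq_mul, gen_mul_self, Tq_one]
      · rfl)
    (fun v v' h => by
      have hne : v ≠ v' := h.ne
      funext s
      show actq G A u v (actq G A u v' s) = actq G A u v' (actq G A u v s)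
      unfold actq
      by_cases h1 : v = u
      · rw [if_pos h1, if_neg (fun h' => hne (h1.trans h'.symm))]
        by_cases h2 : v' ∈ A
        · rw [if_pos h2]
          refine Sq_Tq G A u _ (smul_y0 G A u v' (mem_lkA' G A u v' h2 ?_ ?_)) s
          · exact fun h' => hne (h1.trans h'.symm)
          · exact h1 ▸ h
        · rw [if_neg h2]
          rfl
      · by_cases h2 : v' = u
        · rw [if_pos h2, if_neg h1]
          by_cases h3 : v ∈ A
          · rw [if_pos h3]
            refine (Sq_Tq G A u _ (smul_y0 G A u v (mem_lkA' G A u v h3 h1 ?_)) s).symm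
            exact h2 ▸ h.symm
          · rw [if_neg h3]
            rfl
        · rw [if_neg h1, if_neg h2]
          by_cases h3 : v ∈ A
          · by_cases h4 : v' ∈ A
            · rw [if_pos h3, if_pos h4, Tq_mul, Tq_mul, comm_of_adj G v v' h]
            · rw [if_pos h3, if_neg h4]
              rfl
          · rw [if_neg h3]
            rfl)⟩

theorem homq_gen (v : V) : homq G A u (gen G v) = actq G A u v := by
  unfold homq gen
  rw [CoxeterSystem.lift_apply_simple]

theorem homq_mul (g h : W G) (s : YF G A u × Bool) :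
    homq G A u (g * h) s = homq G A u g (homq G A u h s) := by
  rw [map_mul]
  rfl

theorem homq_one (s : YF G A u × Bool) : homq G A u 1 s = s := by
  rw [map_one]
  rfl

theorem homq_pW (w : W G) (hw : w ∈ pW G (A.erase u)) : homq G A u w = Tq G A u w := by
  unfold pW par at hw
  have key : homq G A u w = Tq G A u w ∧ homq G A u w⁻¹ = Tq G A u w⁻¹ := by
    induction hw using Subgroup.closure_induction with
    | mem g hg =>
      obtain ⟨v, hv, rfl⟩ := hg
      rw [Finset.mem_coe, Finset.mem_erase] at hv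
      rw [gen_invE, and_self, homq_gen]
      unfold actq
      rw [if_neg hv.1, if_pos hv.2]
    | one =>
      rw [inv_one, and_self]
      funext s
      rw [homq_one, Tq_one]
    | mul g h _ _ ihg ihh =>
      refine ⟨?_, ?_⟩
      · funext s
        rw [homq_mul, ihg.1, ihh.1, Tq_mul]
      · rw [mul_inv_rev]
        funext s
        rw [homq_mul, ihg.2, ihh.2, Tq_mul]
    | inv g _ ih =>
      rw [inv_inv]
      exact ⟨ih.2, ih.1⟩
  exact key.1

/-- The element `u (w u w⁻¹)` acts on `F × 0` as the left multiplication by `x (w y₀)`. -/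
theorem homq_conj (w : W G) (hw : w ∈ pW G (A.erase u)) (f : YF G A u) :
    homq G A u (gen G u * (w * gen G u * w⁻¹)) (f, false) =
      (xq G A u (w • y0 G A u) * f, false) := by
  have hS : homq G A u (gen G u) = Sq G A u := by
    rw [homq_gen]
    unfold actq
    rw [if_pos rfl]
  rw [homq_mul, homq_mul, homq_mul, homq_pW G A u w hw, homq_pW G A u w⁻¹ (inv_mem hw), hS]
  have h1 : Sq G A u (Tq G A u w (Sq G A u (Tq G A u w⁻¹ (f, false)))) =
      (iq G A u (alq G A u w (iq G A u (alq G A u w⁻¹ f)) *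
        (xq G A u (w • y0 G A u))⁻¹), false) := by
    unfold Sq Tq
    simp
  rw [h1, map_mul, map_inv, iq_xq, inv_inv]
  refine Prod.ext ?_ rfl
  have h2 : iq G A u (alq G A u w (iq G A u (alq G A u w⁻¹ f))) =
      xq G A u (w • y0 G A u) * f * (xq G A u (w • y0 G A u))⁻¹ := by
    let c : YF G A u →* YF G A u := (MulAut.conj (xq G A u (w • y0 G A u))).toMonoidHom
    refine DFunLike.congr_fun (yf_ext G A u ((iq G A u).comp ((alq G A u w).comp
      ((iq G A u).comp (alq G A u w⁻¹)))) c fun y => ?_) f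
    rw [MonoidHom.comp_apply, MonoidHom.comp_apply, MonoidHom.comp_apply, alq_xq, map_mul,
      map_inv, iq_xq, iq_xq, inv_inv, map_mul, map_inv, alq_xq, alq_xq, smul_inv_smul,
      smul_inv_smul, xq_y0, mul_one, map_mul, map_inv, map_inv, map_mul, map_inv, iq_xq, iq_xq]
    show _ = xq G A u (w • y0 G A u) * xq G A u y * (xq G A u (w • y0 G A u))⁻¹
    simp [mul_assoc]
  show iq G A u (alq G A u w (iq G A u (alq G A u w⁻¹ f))) * xq G A u (w • y0 G A u) =
    xq G A u (w • y0 G A u) * f
  rw [h2, inv_mul_cancel_right]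

end SingerRA
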