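import Mathlib
import Pool.Agent.Lib_MP_394d50_vs.GFreeA

/-!
# Group side: the even part of the kernel of `W_A → W_{A \ u}` is a free group
-/

namespace SingerRA

variable {V : Type} [DecidableEq V] (G : SimpleGraph V) (A : Finset V) (u : V)

/-- The cosets which are reached by `W_{A \ u}`. -/
abbrev Ya : Type := {y : Yq G A u // y ≠ y0 G A u ∧ ∃ w ∈ pW G (A.erase u), w • y0 G A u = y}

/-- A representative. -/
noncomputable def ry (y : Ya G A u) : W G := y.2.2.choose

theorem ry_mem (y : Ya G A u) : ry G A u y ∈ pW G (A.erase u) := y.2.2.choose_spec.1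

theorem ry_y0 (y : Ya G A u) : ry G A u y • y0 G A u = y.1 := y.2.2.choose_spec.2

/-- The homomorphism from the free group. -/
noncomputable def fq : FreeGroup (Ya G A u) →* W G :=
  FreeGroup.lift fun y => gen G u * (ry G A u y * gen G u * (ry G A u y)⁻¹)

/-- The inclusion of the free groups. -/
noncomputable def jq : FreeGroup (Ya G A u) →* YF G A u :=
  FreeGroup.map fun y => (⟨y.1, y.2.1⟩ : {y : Yq G A u // y ≠ y0 G A u})

theorem jq_inj : Function.Injective (jq G A u) := by
  refine FreeGroup.map_injective ?_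
  intro y y' h
  have h1 : (⟨y.1, y.2.1⟩ : {y : Yq G A u // y ≠ y0 G A u}) = ⟨y'.1, y'.2.1⟩ := h
  have h2 : y.1 = y'.1 := congrArg (fun z : {y : Yq G A u // y ≠ y0 G A u} => z.1) h1
  exact Subtype.ext h2

theorem homq_fq (z : FreeGroup (Ya G A u)) (f : YF G A u) :
    homq G A u (fq G A u z) (f, false) = (jq G A u z * f, false) := by
  induction z using FreeGroup.induction_on generalizing f with
  | C1 => rw [map_one (fq G A u), map_one (jq G A u), homq_one, one_mul]
  | of y =>
    have h1 : fq G A u (FreeGroup.of y) =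
        gen G u * (ry G A u y * gen G u * (ry G A u y)⁻¹) := by
      unfold fq
      rw [FreeGroup.lift_apply_of]
    have h2 : jq G A u (FreeGroup.of y) = xq G A u y.1 := by
      unfold jq
      rw [FreeGroup.map.of]
      exact (xq_of G A u ⟨y.1, y.2.1⟩).symm
    rw [h1, h2, homq_conj G A u _ (ry_mem G A u y), ry_y0]
  | inv_of y ih =>
    have h1 := ih ((jq G A u (FreeGroup.of y))⁻¹ * f)
    rw [← mul_assoc, mul_inv_cancel, one_mul] at h1
    rw [map_inv (fq G A u), map_inv (jq G A u), ← h1, ← homq_mul, inv_mul_cancel, homq_one]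
  | mul x y ihx ihy => rw [map_mul (fq G A u), map_mul (jq G A u), homq_mul, ihy, ihx, mul_assoc]

theorem fq_inj : Function.Injective (fq G A u) := by
  intro z z' h
  have h1 := homq_fq G A u z 1
  rw [h, homq_fq, mul_one, mul_one] at h1
  exact jq_inj G A u (congrArg Prod.fst h1).symm

/-! ## The image -/

theorem conjU_mem (w : W G) (hw : w ∈ pW G (A.erase u)) :
    w * gen G u * w⁻¹ ∈ Subgroup.closure (conjU G A u) :=
  Subgroup.subset_closure ⟨w, hw, rfl⟩

theorem conj_closure (w : W G) (hw : w ∈ pW G (A.erase u)) (e : W G)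
    (he : e ∈ Subgroup.closure (conjU G A u)) :
    w * e * w⁻¹ ∈ Subgroup.closure (conjU G A u) := by
  induction he using Subgroup.closure_induction with
  | mem x hx =>
    obtain ⟨w', hw', rfl⟩ := hx
    have h1 : w * (w' * gen G u * w'⁻¹) * w⁻¹ = (w * w') * gen G u * (w * w')⁻¹ := by
      rw [mul_inv_rev]
      simp only [mul_assoc]
    rw [h1]
    exact conjU_mem G A u _ (mul_mem hw hw')
  | one =>
    rw [mul_one, mul_inv_cancel]
    exact one_mem _
  | mul x y _ _ hx hy =>
    have h1 : w * (x * y) * w⁻¹ = (w * x * w⁻¹) * (w * y * w⁻¹) := by group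
    rw [h1]
    exact mul_mem hx hy
  | inv x _ hx =>
    have h1 : w * x⁻¹ * w⁻¹ = (w * x * w⁻¹)⁻¹ := by group
    rw [h1]
    exact inv_mem hx

theorem pW_split (w : W G) (hw : w ∈ pW G A) :
    ∃ e ∈ Subgroup.closure (conjU G A u), ∃ w' ∈ pW G (A.erase u), w = e * w' := by
  unfold pW par at hw
  induction hw using Subgroup.closure_induction with
  | mem x hx =>
    obtain ⟨v, hv, rfl⟩ := hx
    rw [Finset.mem_coe] at hv
    by_cases h : v = u
    · subst h
      refine ⟨gen G v, ?_, 1, one_mem _, (mul_one _).symm⟩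
      have h1 := conjU_mem G A v 1 (one_mem _)
      rwa [one_mul, inv_one, mul_one] at h1
    · exact ⟨1, one_mem _, gen G v, Subgroup.subset_closure
        ⟨v, by rw [Finset.mem_coe, Finset.mem_erase]; exact ⟨h, hv⟩, rfl⟩, (one_mul _).symm⟩
  | one => exact ⟨1, one_mem _, 1, one_mem _, (mul_one _).symm⟩
  | mul x y _ _ hx hy =>
    obtain ⟨e, he, a, ha, rfl⟩ := hx
    obtain ⟨e', he', a', ha', rfl⟩ := hy
    refine ⟨e * (a * e' * a⁻¹), mul_mem he (conj_closure G A u a ha e' he'), a * a',
      mul_mem ha ha', ?_⟩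
    group
  | inv x _ hx =>
    obtain ⟨e, he, a, ha, rfl⟩ := hx
    refine ⟨a⁻¹ * e⁻¹ * (a⁻¹)⁻¹, conj_closure G A u a⁻¹ (inv_mem ha) _ (inv_mem he), a⁻¹,
      inv_mem ha, ?_⟩
    group

theorem rt_closure (e : W G) (he : e ∈ Subgroup.closure (conjU G A u)) :
    rt G (A.erase u) e = 1 := by
  induction he using Subgroup.closure_induction with
  | mem x hx =>
    obtain ⟨w, _, rfl⟩ := hx
    rw [map_mul, map_mul, rt_gen, if_neg (Finset.notMem_erase u A), mul_one, map_inv,
      mul_inv_cancel]
  | one => exact map_one _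
  | mul x y _ _ hx hy => rw [map_mul, hx, hy, mul_one]
  | inv x _ hx => rw [map_inv, hx, inv_one]

theorem mem_closure_of_rt (w : W G) (hw : w ∈ pW G A) (h : rt G (A.erase u) w = 1) :
    w ∈ Subgroup.closure (conjU G A u) := by
  obtain ⟨e, he, a, ha, rfl⟩ := pW_split G A u w hw
  rw [map_mul, rt_closure G A u e he, one_mul, rt_of_mem G _ a ha] at h
  rw [h, mul_one]
  exact he

theorem pW_lk_comm (a : W G) (ha : a ∈ pW G (lkA G A u)) :
    a * gen G u * a⁻¹ = gen G u := by
  have key : a * gen G u = gen G u * a := by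
    unfold pW par at ha
    induction ha using Subgroup.closure_induction with
    | mem x hx =>
      obtain ⟨v, hv, rfl⟩ := hx
      classical
      unfold lkA at hv
      rw [Finset.mem_coe, Finset.mem_filter] at hv
      exact comm_of_adj G v u hv.2.symm
    | one => rw [one_mul, mul_one]
    | mul x y _ _ hx hy => rw [mul_assoc, hy, ← mul_assoc, hx, mul_assoc]
    | inv x _ hx => exact (Commute.inv_left hx : Commute x⁻¹ (gen G u))
  rw [key, mul_inv_cancel_right]

theorem gen_conj_mem (w : W G) (hw : w ∈ pW G (A.erase u)) :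
    gen G u * (w * gen G u * w⁻¹) ∈ (fq G A u).range := by
  by_cases h : w • y0 G A u = y0 G A u
  · have h1 : ((w * 1 : W G) : W G ⧸ pW G (lkA G A u)) = ((1 : W G) : W G ⧸ pW G (lkA G A u)) := h
    rw [mul_one, QuotientGroup.eq, mul_one] at h1
    have h2 : w ∈ pW G (lkA G A u) := by
      have := inv_mem h1
      rwa [inv_inv] at this
    rw [pW_lk_comm G A u w h2, gen_mul_self]
    exact one_mem _
  · let y : Ya G A u := ⟨w • y0 G A u, h, w, hw, rfl⟩
    have h1 : ry G A u y • y0 G A u = w • y0 G A u := ry_y0 G A u y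
    have h2 : (((ry G A u y) * 1 : W G) : W G ⧸ pW G (lkA G A u)) =
        ((w * 1 : W G) : W G ⧸ pW G (lkA G A u)) := h1
    rw [mul_one, mul_one, QuotientGroup.eq] at h2
    have h3 := pW_lk_comm G A u _ h2
    have h4 : w * gen G u * w⁻¹ = ry G A u y * gen G u * (ry G A u y)⁻¹ := by
      calc w * gen G u * w⁻¹ = ry G A u y * (((ry G A u y)⁻¹ * w) * gen G u *
          ((ry G A u y)⁻¹ * w)⁻¹) * (ry G A u y)⁻¹ := by group
        _ = _ := by rw [h3]
    refine ⟨FreeGroup.of y, ?_⟩
    unfold fq
    rw [FreeGroup.lift_apply_of, h4]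

theorem gen_range (z : W G) (hz : z ∈ (fq G A u).range) :
    gen G u * z * gen G u ∈ (fq G A u).range := by
  obtain ⟨z, rfl⟩ := hz
  induction z using FreeGroup.induction_on with
  | C1 =>
    rw [map_one, mul_one, gen_mul_self]
    exact one_mem _
  | of y =>
    have h1 : fq G A u (FreeGroup.of y) =
        gen G u * (ry G A u y * gen G u * (ry G A u y)⁻¹) := by
      unfold fq
      rw [FreeGroup.lift_apply_of]
    have h4 : gen G u * fq G A u (FreeGroup.of y) * gen G u = (fq G A u (FreeGroup.of y))⁻¹ := by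
      rw [h1, ← mul_assoc, gen_mul_self, one_mul, mul_inv_rev, mul_inv_rev, mul_inv_rev, inv_inv,
        gen_invE]
      simp only [mul_assoc]
    rw [h4]
    exact inv_mem ⟨_, rfl⟩
  | inv_of y ih =>
    have h1 : gen G u * fq G A u (FreeGroup.of y)⁻¹ * gen G u =
        (gen G u * fq G A u (FreeGroup.of y) * gen G u)⁻¹ := by
      rw [map_inv, mul_inv_rev, mul_inv_rev, gen_invE, mul_assoc]
    rw [h1]
    exact inv_mem ih
  | mul x y ihx ihy =>
    have h1 : gen G u * fq G A u (x * y) * gen G u =
        (gen G u * fq G A u x * gen G u) * (gen G u * fq G A u y * gen G u) := by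
      calc gen G u * fq G A u (x * y) * gen G u =
          gen G u * fq G A u x * 1 * fq G A u y * gen G u := by
            rw [map_mul, mul_one]
            simp only [mul_assoc]
        _ = _ := by
            rw [← gen_mul_self G u]
            simp only [mul_assoc]
    rw [h1]
    exact mul_mem ihx ihy

theorem closure_range (e : W G) (he : e ∈ Subgroup.closure (conjU G A u)) :
    e ∈ (fq G A u).range ∨ gen G u * e ∈ (fq G A u).range := by
  induction he using Subgroup.closure_induction with
  | mem x hx =>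
    obtain ⟨w, hw, rfl⟩ := hx
    exact Or.inr (gen_conj_mem G A u w hw)
  | one => exact Or.inl (one_mem _)
  | mul x y _ _ hx hy =>
    rcases hx with hx | hx <;> rcases hy with hy | hy
    · exact Or.inl (mul_mem hx hy)
    · refine Or.inr ?_
      have h1 : gen G u * (x * y) = (gen G u * x * gen G u) * (gen G u * y) := by
        rw [mul_assoc (gen G u * x), ← mul_assoc (gen G u) (gen G u) y, gen_mul_self, one_mul,
          mul_assoc]
      rw [h1]
      exact mul_mem (gen_range G A u x hx) hy
    · refine Or.inr ?_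
      rw [← mul_assoc]
      exact mul_mem hx hy
    · refine Or.inl ?_
      have h1 : x * y = (gen G u * (gen G u * x) * gen G u) * (gen G u * y) := by
        rw [← mul_assoc (gen G u) (gen G u) x, gen_mul_self, one_mul, mul_assoc x,
          ← mul_assoc (gen G u) (gen G u) y, gen_mul_self, one_mul]
      rw [h1]
      exact mul_mem (gen_range G A u _ hx) hy
  | inv x _ hx =>
    rcases hx with hx | hx
    · exact Or.inl (inv_mem hx)
    · refine Or.inr ?_
      have h1 : gen G u * x⁻¹ = gen G u * (gen G u * x)⁻¹ * gen G u := by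
        rw [mul_inv_rev, gen_invE]
        rw [mul_assoc, mul_assoc, gen_mul_self, mul_one]
      rw [h1]
      exact gen_range G A u _ (inv_mem hx)

theorem deg_fq (z : FreeGroup (Ya G A u)) : deg G (fq G A u z) = 0 := by
  induction z using FreeGroup.induction_on with
  | C1 => rw [map_one, deg_one]
  | of y =>
    have h1 : fq G A u (FreeGroup.of y) =
        gen G u * (ry G A u y * gen G u * (ry G A u y)⁻¹) := by
      unfold fq
      rw [FreeGroup.lift_apply_of]
    rw [h1, deg_mul, deg_mul, deg_mul, deg_inv]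
    funext v
    simp only [Pi.add_apply, Pi.zero_apply]
    generalize deg G (gen G u) v = a
    generalize deg G (ry G A u y) v = b
    revert a b
    decide
  | inv_of y ih => rw [map_inv, deg_inv, ih]
  | mul x y ihx ihy => rw [map_mul, deg_mul, ihx, ihy, add_zero]

/-- The elements of `W_A` of degree `0` in the kernel of the retraction to `W_{A \ u}`. -/
theorem mem_range_fq (w : W G) (hw : w ∈ pW G A) (h : rt G (A.erase u) w = 1)
    (hd : deg G w = 0) : w ∈ (fq G A u).range := by
  rcases closure_range G A u w (mem_closure_of_rt G A u w hw h) with h1 | ⟨z, hz⟩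
  · exact h1
  · exfalso
    have h2 := deg_fq G A u z
    rw [hz, deg_mul, hd, add_zero, deg_gen] at h2
    have h3 := congrFun h2 u
    rw [ev_self, Pi.zero_apply] at h3
    exact absurd h3 (by decide)

/-- **Free quotients.** -/
theorem free_step (K : Subgroup (W G))
    (hK : ∀ w ∈ K, rt G (A.erase u) w = 1 ∧ deg G w = 0) :
    ∃ (S : Type) (q : K →* FreeGroup S), Function.Surjective q ∧
      ∀ w : K, q w = 1 ↔ rt G A w.1 = 1 := by
  classical
  let R : Subgroup (W G) := K.map (rt G A)
  let R' : Subgroup (FreeGroup (Ya G A u)) := R.comap (fq G A u)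
  have hR : ∀ w ∈ R, w ∈ (fq G A u).range := by
    rintro _ ⟨w, hw, rfl⟩
    refine mem_range_fq G A u _ (rt_mem G A w) ?_ (deg_rt_zero G A w (hK w hw).2)
    rw [rt_rt G A _ (Finset.erase_subset u A), (hK w hw).1]
  let e0 : R' →* R := ((fq G A u).comp R'.subtype).codRestrict R (fun z => z.2)
  have he0 : Function.Bijective e0 := by
    constructor
    · intro a b h
      have h1 : fq G A u a.1 = fq G A u b.1 := congrArg Subtype.val h
      exact Subtype.ext (fq_inj G A u h1)
    · rintro ⟨w, hw⟩
      obtain ⟨z, hz⟩ := hR w hw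
      refine ⟨⟨z, ?_⟩, Subtype.ext hz⟩
      show fq G A u z ∈ R
      rw [hz]
      exact hw
  let e : R' ≃* R := MulEquiv.ofBijective e0 he0
  let r : K →* R := ((rt G A).comp K.subtype).codRestrict R (fun w => ⟨w.1, w.2, rfl⟩)
  have hr : Function.Surjective r := by
    rintro ⟨_, w, hw, rfl⟩
    exact ⟨⟨w, hw⟩, rfl⟩
  let t : R' ≃* FreeGroup (IsFreeGroup.Generators R') := IsFreeGroup.toFreeGroup R'
  refine ⟨IsFreeGroup.Generators R', (t.toMonoidHom.comp e.symm.toMonoidHom).comp r, ?_, ?_⟩
  · exact (t.surjective.comp e.symm.surjective).comp hr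
  · intro w
    have h1 : ((t.toMonoidHom.comp e.symm.toMonoidHom).comp r) w = t (e.symm (r w)) := rfl
    rw [h1, EmbeddingLike.map_eq_one_iff, EmbeddingLike.map_eq_one_iff]
    constructor
    · intro h
      exact congrArg Subtype.val h
    · intro h
      exact Subtype.ext h

end SingerRA
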