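import Mathlib
import Pool.Agent.Lib_MP_394d50_vs.GFree
import Pool.Agent.Lib_MP_394d50_vs.EChain

/-!
# Group side: the chain of subgroups for a subgroup of the kernel of `W → (ℤ/2)^V`
-/

namespace SingerVS

open SingerRA

section

variable {V : Type} [DecidableEq V] {G : SimpleGraph V} {D : Type} [DivisionRing D]
variable {H : Type} [Group H]

/-- The homomorphism `h ↦ θ_{f h}(0)`. -/
noncomputable def jhom (d : UD G D) (f : H →* W G) (hf : ∀ h, deg G (f h) = 0) : H →* Dˣ where
  toFun h := jh d (f h)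
  map_one' := by rw [map_one, jh_one]
  map_mul' g h := by rw [map_mul, jh_mul d _ _ (hf h)]

theorem jhom_apply (d : UD G D) (f : H →* W G) (hf : ∀ h, deg G (f h) = 0) (h : H) :
    jhom d f hf h = th d (f h) 0 := rfl

/-- The decreasing family of sets of vertices. -/
noncomputable def Ai (V : Type) [Fintype V] (i : ℕ) : Finset V :=
  Finset.univ.filter fun v => i ≤ (Fintype.equivFin V v).1

theorem mem_Ai [Fintype V] (i : ℕ) (v : V) : v ∈ Ai V i ↔ i ≤ (Fintype.equivFin V v).1 := by
  unfold Ai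
  rw [Finset.mem_filter]
  exact and_iff_right (Finset.mem_univ v)

theorem Ai_succ [Fintype V] (i : ℕ) (hi : i < Fintype.card V) :
    Ai V (i + 1) = (Ai V i).erase ((Fintype.equivFin V).symm ⟨i, hi⟩) := by
  ext v
  rw [mem_Ai, Finset.mem_erase, mem_Ai]
  have h : v = (Fintype.equivFin V).symm ⟨i, hi⟩ ↔ (Fintype.equivFin V v).1 = i := by
    rw [Equiv.eq_symm_apply, Fin.ext_iff]
  rw [Ne, h]
  omega

/-- The chain of subgroups. -/
noncomputable def chnW [Fintype V] [Algebra (ZMod 2) D] (S : Sys G D) (f : H →* W G)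
    (hf : ∀ h, deg G (f h) = 0) (hinj : Function.Injective f) : Chn H (jhom S.toUD f hf) where
  r := Fintype.card V
  L i := ((rt G (Ai V i)).comp f).ker
  L_zero := by
    have h1 : Ai V 0 = Finset.univ := by
      ext v
      rw [mem_Ai]
      simp
    rw [eq_bot_iff]
    intro h hh
    rw [MonoidHom.mem_ker, MonoidHom.comp_apply, h1, rt_univ] at hh
    rw [Subgroup.mem_bot]
    exact hinj (by rw [hh, map_one])
  L_last := by
    have h1 : Ai V (Fintype.card V) = ∅ := by
      ext v
      rw [mem_Ai]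
      have := (Fintype.equivFin V v).2
      simp only [Finset.notMem_empty, iff_false]
      omega
    rw [eq_top_iff]
    intro h _
    rw [MonoidHom.mem_ker, MonoidHom.comp_apply, h1, rt_empty]
  le i hi := by
    intro h hh
    rw [MonoidHom.mem_ker, MonoidHom.comp_apply] at hh ⊢
    have h1 : Ai V (i + 1) ⊆ Ai V i := by
      rw [Ai_succ i hi]
      exact Finset.erase_subset _ _
    rw [← rt_rt G _ _ h1, hh, map_one]
  v i := S.v (Ai V i)
  free i hi := by
    let u := (Fintype.equivFin V).symm ⟨i, hi⟩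
    let L' : Subgroup H := ((rt G (Ai V (i + 1))).comp f).ker
    let K : Subgroup (W G) := L'.map f
    have hK : ∀ w ∈ K, rt G ((Ai V i).erase u) w = 1 ∧ deg G w = 0 := by
      rintro _ ⟨h, hh, rfl⟩
      have hh' : h ∈ ((rt G (Ai V (i + 1))).comp f).ker := hh
      rw [MonoidHom.mem_ker, MonoidHom.comp_apply, Ai_succ i hi] at hh'
      exact ⟨hh', hf h⟩
    obtain ⟨S, q, hqs, hq⟩ := free_step G (Ai V i) u K hK
    let f' : L' →* K := (f.comp L'.subtype).codRestrict K (fun h => ⟨h.1, h.2, rfl⟩)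
    have hf' : Function.Surjective f' := by
      rintro ⟨_, h, hh, rfl⟩
      exact ⟨⟨h, hh⟩, rfl⟩
    refine ⟨S, q.comp f', hqs.comp hf', fun h => ?_⟩
    rw [MonoidHom.comp_apply, hq, MonoidHom.mem_ker]
    rfl
  triv i hi a ha h0 := by
    have h1 : KJ (jhom S.toUD f hf) ((rt G (Ai V i)).comp f).ker ≤ S.F (Ai V i) := by
      unfold KJ
      rw [Subfield.closure_le]
      rintro x ⟨h, hh, rfl⟩
      exact S.gen_mem (Ai V i) _ (th_mem S.toUD (f h) 0)
        ((th_triv_iff S (Ai V i) (f h) 0).2 hh)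
    exact S.F_triv (Ai V i) a (h1 ha) h0
  faith i hi h _ hv := (th_triv_iff S (Ai V i) (f h) 0).1 hv

end

/-- **Block E.** -/
theorem FreeCx.exCo_rhoT {V : Type} [DecidableEq V] [Fintype V] {G : SimpleGraph V}
    {D : Type} [DivisionRing D] [Algebra (ZMod 2) D] (S : Sys G D) {H P : Type} [Group H]
    [DecidableEq P] [MulAction H P] {X : Set (Finset P)} (hX : FreeCx H X) {n : ℕ}
    (hL : LfR n X) (f : H →* W G) (hf : ∀ h, deg G (f h) = 0) (hinj : Function.Injective f)
    (k : ℕ) (hk : 1 ≤ k) (hkn : k ≤ n) : ExCo (rhoT (jhom S.toUD f hf)) X k :=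
  hX.exCo_of_chn hL (chnW S f hf hinj) k hk hkn

end SingerVS
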