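import Mathlib
import Pool.Agent.Lib_MP_394d50_all.OAsm
import Pool.Agent.Lib_MP_394d50_all.GMain
import Pool.Agent.Lib_MP_394d50_all.USys
import Pool.Agent.Lib_MP_394d50_vs.GChain

/-!
# Group side: the homomorphisms `H → N_c` and finite quotients of `H`
-/

namespace SingerVS

open SingerRA

section star

variable {V : Type} [DecidableEq V] {G : SimpleGraph V} {D : Type} [DivisionRing D] [StarRing D]

theorem star_th (d : UD G D) (ht : ∀ v, star ((d.t v : Dˣ) : D) = (((d.t v)⁻¹ : Dˣ) : D))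
    (w : W G) (χ : QV V) : star ((th d w χ : Dˣ) : D) = (((th d w χ)⁻¹ : Dˣ) : D) := by
  induction w using W_ind with
  | one => rw [th_one, Units.val_one, star_one, inv_one, Units.val_one]
  | gm v w ih =>
    have h1 : star ((th1 d.t v (χ + deg G w) : Dˣ) : D) =
        (((th1 d.t v (χ + deg G w))⁻¹ : Dˣ) : D) := by
      unfold th1
      split_ifs
      · rw [inv_inv, ← star_star (((d.t v : Dˣ)) : D), ht]
      · exact ht v
    rw [th_mul, th_gen, Units.val_mul, star_mul, ih, h1, mul_inv_rev, Units.val_mul]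

theorem star_jhom {H : Type} [Group H] (d : UD G D)
    (ht : ∀ v, star ((d.t v : Dˣ) : D) = (((d.t v)⁻¹ : Dˣ) : D)) (f : H →* W G)
    (hf : ∀ h, deg G (f h) = 0) (h : H) :
    star ((jhom d f hf h : Dˣ) : D) = (((jhom d f hf h)⁻¹ : Dˣ) : D) := star_th d ht (f h) 0

end star

section quo

variable {V : Type} [Fintype V] [DecidableEq V] (G : SimpleGraph V) (c : ℕ)
variable {H : Type} [Group H] (f : H →* W G) (hf : ∀ h, deg G (f h) = 0)

/-- The homomorphism to `N_c`. -/
noncomputable def thN : H →* Nc G c where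
  toFun h := thG (tN G c) (tN_comm G c) (f h) 0
  map_one' := by rw [map_one, thG_one]
  map_mul' g h := by rw [map_mul, thG_mul, hf h, add_zero]

theorem thN_apply (h : H) : thN G c f hf h = thG (tN G c) (tN_comm G c) (f h) 0 := rfl

/-- The homomorphism `jhom` for the division ring of fractions of `F₂[N_c]`. -/
theorem jhom_udN (h : H) :
    jhom (udN (tN G c) (tN_comm G c)) f hf h = unN (Nc G c) (thN G c f hf h) :=
  th_udN (tN G c) (tN_comm G c) (f h) 0

theorem jhom_preSys (S : PreSys G (DN (Nc G c)) c) (hS : S.t = (udN (tN G c) (tN_comm G c)).t)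
    (h : H) : jhom S.toUD f hf h = unN (Nc G c) (thN G c f hf h) := by
  have h1 : S.toUD = udN (tN G c) (tN_comm G c) := by
    cases hd : S.toUD with
    | mk t comm =>
      have h2 : t = (udN (tN G c) (tN_comm G c)).t := by
        rw [← hS, hd]
      subst h2
      rfl
  rw [h1, jhom_udN]

theorem thN_inj (hinj : Function.Injective f) (h : H) (hl : len G (f h) < c)
    (h1 : thN G c f hf h = 1) : h = 1 := by
  have h2 : f h ∈ pW G (Finset.univ : Finset V) := by
    have h3 := rt_mem G Finset.univ (f h)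
    rwa [rt_univ] at h3
  have h4 := tN_h3 G c Finset.univ (f h) h2 hl 0 (by
    rw [← thN_apply G c f hf, h1, map_one])
  exact hinj (by rw [h4, map_one])

/-- Finite quotients of `N_c` with Følner tiles which do not kill given elements. -/
theorem exists_quot (hinj : Function.Injective f) (S0 : Finset H)
    (hlen : ∀ h ∈ S0, len G (f h) < c) (T : Finset (Nc G c)) (ε : ℝ) (hε : 0 < ε)
    (hε1 : ε < 1) :
    ∃ (Q : Type) (_ : Group Q) (_ : Finite Q) (π : Nc G c →* Q) (F B : Finset (Nc G c)),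
      IsPGroup 2 Q ∧ Set.InjOn π F ∧ (∀ b ∈ B, ∀ s ∈ T, b * s ∈ F) ∧
      (1 - ε) * (Nat.card Q : ℝ) ≤ (B.card : ℝ) ∧
      ∀ h ∈ S0, h ≠ 1 → π (thN G c f hf h) ≠ 1 := by
  classical
  obtain ⟨Q, i1, i2, π, al, F, B, h1, _, h2, h3, h4⟩ :=
    folQ_tN G c (T ∪ (S0.image (thN G c f hf) ∪ {1})) ε hε
  refine ⟨Q, i1, i2, π, F, B, h1, h2, fun b hb s hs =>
    h3 b hb s (Finset.mem_union_left _ hs), h4, fun h hh hne h5 => ?_⟩
  have hB : B.Nonempty := by
    rw [Finset.nonempty_iff_ne_empty]
    rintro rfl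
    rw [Finset.card_empty, Nat.cast_zero] at h4
    have h6 : (0 : ℝ) < Nat.card Q := by exact_mod_cast Nat.card_pos
    have h7 : 0 < (1 - ε) * (Nat.card Q : ℝ) := mul_pos (by linarith) h6
    linarith
  obtain ⟨b, hb⟩ := hB
  have h6 : b * thN G c f hf h ∈ F := h3 b hb _ (Finset.mem_union_right _
    (Finset.mem_union_left _ (Finset.mem_image_of_mem _ hh)))
  have h7 : b * 1 ∈ F := h3 b hb _ (Finset.mem_union_right _
    (Finset.mem_union_right _ (Finset.mem_singleton_self _)))
  have h8 : b * thN G c f hf h = b * 1 := h2 h6 h7 (by rw [map_mul, map_mul, h5, map_one])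
  exact hne (thN_inj G c f hf hinj h (hlen h hh) (mul_left_cancel h8))

include hf in
/-- Residual finiteness. -/
theorem resfin (hinj : Function.Injective f) (B : Finset H) :
    ∃ (Q : Type) (_ : Group Q) (_ : Finite Q) (π : H →* Q), ∀ h ∈ B, h ≠ 1 → π h ≠ 1 := by
  classical
  obtain ⟨c, hc⟩ : ∃ c : ℕ, ∀ h ∈ B, len G (f h) < c := by
    refine ⟨B.sup (fun h => len G (f h)) + 1, fun h hh => ?_⟩
    exact Nat.lt_succ_of_le (Finset.le_sup (f := fun h => len G (f h)) hh)
  obtain ⟨Q, i1, i2, π, F, B', _, _, _, _, h5⟩ :=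
    exists_quot G c f hf hinj B hc ∅ (1 / 2) (by norm_num) (by norm_num)
  exact ⟨Q, i1, i2, π.comp (thN G c f hf), h5⟩

end quo

end SingerVS
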