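import Mathlib
import Pool.Agent.Lib_MP_394d50_vs.GQuo
import Pool.Agent.Lib_MP_394d50_vs.TDescV
import Pool.Agent.Lib_MP_394d50_vs.DZig
import Pool.Agent.Lib_MP_394d50_vs.VMat

/-!
# Large ranks of the boundary matrices over finite group rings
-/

namespace SingerVS

open SingerRA Filter Matrix
open scoped Pointwise

section

variable {V : Type} [Fintype V] [DecidableEq V] (G : SimpleGraph V)
variable {H P : Type} [Group H] [LinearOrder P] [MulAction H P] {X : Set (Finset P)}

/-- The division rings of fractions of the group rings of the groups `N_c`. -/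
abbrev Dc (c : ℕ) : Type := DN (Nc G c)

/-- The homomorphism from the group ring of `H` to the ultraproduct. -/
noncomputable def phiUP (f : H →* W G) (hf : ∀ h, deg G (f h) = 0) :
    MonoidAlgebra (ZMod 2) H →+* UP (Dc G) :=
  (upm (Dc G)).comp (RingHom.pi fun c => (io (Nc G c)).comp
    (MonoidAlgebra.mapDomainRingHom (ZMod 2) (thN G c f hf)))

theorem phiUP_gN (f : H →* W G) (hf : ∀ h, deg G (f h) = 0) (S : ∀ c, PreSys G (Dc G c) c)
    (hS : ∀ c, (S c).t = (udN (tN G c) (tN_comm G c)).t) (h : H) :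
    phiUP G f hf (gN h) = ((jhom (sysUP (Dc G) S).toUD f hf h : (UP (Dc G))ˣ) : UP (Dc G)) := by
  have h1 : jhom (sysUP (Dc G) S).toUD f hf h = unUP (Dc G) (fun c => jhom (S c).toUD f hf h) :=
    th_udUP (Dc G) S (f h) 0
  rw [h1, unUP_val]
  refine congrArg (upm (Dc G)) (funext fun c => ?_)
  rw [jhom_preSys G c f hf (S c) (hS c), unN_val]
  show io (Nc G c) (MonoidAlgebra.mapDomainRingHom (ZMod 2) (thN G c f hf) (gN h)) = _
  rw [ra_map_gN]
  rfl

/-- The exactness over the ultraproduct. -/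
theorem exact_up (hX : FreeCx H X) (ho : OrdInv H X) {n : ℕ} (hlf : LfR n X) (hac : Acyc X)
    (f : H →* W G) (hf : ∀ h, deg G (f h) = 0) (hinj : Function.Injective f)
    (S : ∀ c, PreSys G (Dc G c) c) (hS : ∀ c, (S c).t = (udN (tN G c) (tN_comm G c)).t) (k : ℕ)
    (hk : 2 * k ≠ n) :
    ExCo (rhoD (jhom (sysUP (Dc G) S).toUD f hf)) X (k + 1) ∨
      ExBd (rhoD (jhom (sysUP (Dc G) S).toUD f hf)) X (k + 1) := by
  have hco : ∀ i, 1 ≤ i → 2 * (i - 1) < n →
      ExCo (rhoD (jhom (sysUP (Dc G) S).toUD f hf)) X i := by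
    intro i h1 h2
    refine tateV _ ?_ hX ho (fun i h3 h4 => hX.exCo_rhoT (sysUP (Dc G) S) hlf f hf hinj i h3 h4)
      i h1 h2
    intro h
    refine star_jhom _ (fun v => ?_) f hf h
    show star (((sysUP (Dc G) S).t v : (UP (Dc G))ˣ) : UP (Dc G)) = _
    rw [sysUP_t, star_upm]
    show _ = upm (Dc G) (fun c => ((((S c).t v)⁻¹ : (Dc G c)ˣ) : Dc G c))
    refine congrArg (upm (Dc G)) (funext fun c => ?_)
    rw [hS c]
    exact star_unN (Nc G c) (tN G c v)
  rcases Nat.lt_or_ge (2 * k) n with h | h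
  · exact Or.inl (hco (k + 1) (by omega) (by omega))
  · by_cases hkn : k ≤ n
    · right
      have h1 := exBd_of_exCo hX hlf hac (k := n + 1 - k) (by omega) (by omega)
        (hco (n + 1 - k) (by omega) (by omega))
      have e : n + 2 - (n + 1 - k) = k + 1 := by omega
      rw [e] at h1
      exact h1
    · left
      intro c hc _
      refine ⟨0, Submodule.zero_mem _, ?_⟩
      rw [map_zero]
      funext σ
      symm
      refine hc.1 σ ?_
      rintro ⟨h1, h2⟩
      have := hlf.dim σ h1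
      omega

/-- Large ranks over finite group rings. -/
theorem ranks_vs (hX : FreeCx H X) (ho : OrdInv H X) {n : ℕ} (hlf : LfR n X) (hac : Acyc X)
    (f : H →* W G) (hf : ∀ h, deg G (f h) = 0) (hinj : Function.Injective f)
    {R : Finset (Finset P)} (hR : Reps H X R) (k : ℕ) (hk : 2 * k ≠ n) (T : Finset H) (ε : ℝ)
    (hε : 0 < ε) :
    ∃ (Q : Type) (_ : Group Q) (_ : Fintype Q) (g : H →* Q), (∀ h ∈ T, h ≠ 1 → g h ≠ 1) ∧
      ((Fintype.card (Rk R (k + 1)) : ℝ) - ε) * (Nat.card Q : ℝ) ≤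
        ((regM ((dmat hR k (k + 1)).map (MonoidAlgebra.mapDomainRingHom (ZMod 2) g))).rank : ℝ) +
        ((regM ((dmat hR (k + 1) (k + 2)).map
          (MonoidAlgebra.mapDomainRingHom (ZMod 2) g))).rank : ℝ) := by
  classical
  choose S hS using fun c => preSys_exists G c (tN G c) (tN_comm G c) piG (tN_h1 G c)
    (tN_h2 G c) (tN_h3 G c)
  have hφ := phiUP_gN G f hf S hS
  have hfaith : ∀ h : H, h ≠ 1 → ∀ᶠ c in (hyperfilter ℕ : Filter ℕ), thN G c f hf h ≠ 1 := by
    intro h hne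
    have h1 : ∀ᶠ c in (atTop : Filter ℕ), thN G c f hf h ≠ 1 := by
      filter_upwards [eventually_gt_atTop (len G (f h))] with c hc h2
      exact hne (thN_inj G c f hf hinj h hc h2)
    exact h1.filter_mono Nat.hyperfilter_le_atTop
  rcases exact_up G hX ho hlf hac f hf hinj S hS k hk with hex | hex
  · have h1 := exMat_of_exCo (jhom (sysUP (Dc G) S).toUD f hf) (phiUP G f hf) hX hR hφ hex
    obtain ⟨Q, i1, i2, g, h2, h3⟩ := ranks_of_up (fun c => Nc G c) (Dc G)
      (fun c => io (Nc G c)) (fun c => io_inj (Nc G c)) (fun c => folN_of_folQ _ (folQ_tN G c))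
      (fun c => thN G c f hf) hfaith _ _ h1 T ε hε
    exact ⟨Q, i1, i2, g, h2, h3⟩
  · have h1 := exMat_of_exBd (jhom (sysUP (Dc G) S).toUD f hf) (phiUP G f hf) hX hR hφ hex
    obtain ⟨Q, i1, i2, g, h2, h3⟩ := ranks_of_up (fun c => Nc G c) (Dc G)
      (fun c => io (Nc G c)) (fun c => io_inj (Nc G c)) (fun c => folN_of_folQ _ (folQ_tN G c))
      (fun c => thN G c f hf) hfaith _ _ h1 T ε hε
    refine ⟨Q, i1, i2, g, h2, ?_⟩
    rw [regM_bmat hX hR (k + 1) g, regM_bmat hX hR k g, Matrix.rank_transpose,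
      Matrix.rank_transpose] at h3
    exact h3.trans (le_of_eq (_root_.add_comm _ _))

end

end SingerVS
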