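import Mathlib
import Pool.Agent.Lib_MP_394d50_vs.LDefs

/-!
# Block L: sums over the orbits of a subgroup of finite index
-/

namespace SingerVS

theorem sum_orb_index {Γ C : Type} [Group Γ] [MulAction Γ C] (K : Subgroup Γ) [K.FiniteIndex]
    (hfree : ∀ (g : Γ) (c : C), g • c = c → g = 1) (hfin : Finite (Orb Γ C)) (φ : C → ℝ)
    (hφ : ∀ (g : Γ) c, φ (g • c) = φ c) :
    Finite (Orb K C) ∧
      ∑ᶠ o : Orb K C, φ o.out = K.index * ∑ᶠ o : Orb Γ C, φ o.out := by
  classical
  let R : Type := Quotient (QuotientGroup.rightRel K)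
  have hR : Finite R :=
    (QuotientGroup.quotientRightRelEquivQuotientLeftRel K).finite_iff.2 inferInstance
  have hRc : Nat.card R = K.index :=
    Nat.card_congr (QuotientGroup.quotientRightRelEquivQuotientLeftRel K)
  let F : Orb Γ C × R → Orb K C := fun x =>
    Quotient.mk (MulAction.orbitRel K C) (x.2.out • x.1.out)
  have hmk : ∀ o : Orb Γ C, Quotient.mk (MulAction.orbitRel Γ C) o.out = o := Quotient.out_eq
  have hinj : Function.Injective F := by
    rintro ⟨o, q⟩ ⟨o', q'⟩ h
    have h1 : (MulAction.orbitRel K C) (q.out • o.out) (q'.out • o'.out) := Quotient.exact h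
    obtain ⟨k, hk⟩ := MulAction.orbitRel_apply.mp h1
    have hk' : ((k : K) : Γ) • q'.out • o'.out = q.out • o.out := hk
    have ho : o = o' := by
      rw [← hmk o, ← hmk o']
      refine Quotient.sound (MulAction.orbitRel_apply.mpr ?_)
      refine ⟨q.out⁻¹ * ((k : Γ) * q'.out), ?_⟩
      show (q.out⁻¹ * ((k : Γ) * q'.out)) • o'.out = o.out
      rw [mul_smul, mul_smul, hk', inv_smul_smul]
    subst ho
    have h2 : (q.out⁻¹ * ((k : Γ) * q'.out)) • o.out = o.out := by
      rw [mul_smul, mul_smul, hk', inv_smul_smul]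
    have h3 := hfree _ _ h2
    rw [inv_mul_eq_one] at h3
    have h4 : q = q' := by
      have e1 : Quotient.mk (QuotientGroup.rightRel K) q.out = q := Quotient.out_eq q
      have e2 : Quotient.mk (QuotientGroup.rightRel K) q'.out = q' := Quotient.out_eq q'
      rw [← e1, ← e2]
      refine Quotient.sound ?_
      show (QuotientGroup.rightRel K) _ _
      rw [QuotientGroup.rightRel_apply, h3, mul_inv_rev, mul_inv_cancel_left]
      exact K.inv_mem k.2
    rw [h4]
  have hsurj : Function.Surjective F := by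
    intro o'
    let c : C := o'.out
    let o : Orb Γ C := Quotient.mk (MulAction.orbitRel Γ C) c
    have h1 : (MulAction.orbitRel Γ C) c o.out :=
      (MulAction.orbitRel Γ C).symm (Quotient.mk_out (s := MulAction.orbitRel Γ C) c)
    obtain ⟨g, hg⟩ := MulAction.orbitRel_apply.mp h1
    have hg' : g • o.out = c := hg
    let q : R := Quotient.mk (QuotientGroup.rightRel K) g
    have h2 : (QuotientGroup.rightRel K) q.out g := Quotient.mk_out (s := QuotientGroup.rightRel K) g
    rw [QuotientGroup.rightRel_apply] at h2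
    refine ⟨(o, q), ?_⟩
    have e1 : Quotient.mk (MulAction.orbitRel K C) o'.out = o' := Quotient.out_eq o'
    rw [← e1]
    refine Quotient.sound (MulAction.orbitRel_apply.mpr ⟨⟨q.out * g⁻¹, ?_⟩, ?_⟩)
    · have h3 := K.inv_mem h2
      rwa [mul_inv_rev, inv_inv] at h3
    · show (q.out * g⁻¹) • o'.out = q.out • o.out
      have h4 : o'.out = g • o.out := hg'.symm
      rw [mul_smul, h4, inv_smul_smul]
  have hout : ∀ x : Orb Γ C × R, φ (F x).out = φ x.1.out := by
    rintro ⟨o, q⟩
    have h1 : (MulAction.orbitRel K C) (F (o, q)).out (q.out • o.out) :=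
      Quotient.mk_out (s := MulAction.orbitRel K C) (q.out • o.out)
    obtain ⟨k, hk⟩ := MulAction.orbitRel_apply.mp h1
    have hk' : ((k : K) : Γ) • q.out • o.out = (F (o, q)).out := hk
    rw [← hk', hφ, hφ]
  let e : Orb Γ C × R ≃ Orb K C := Equiv.ofBijective F ⟨hinj, hsurj⟩
  have hfinK : Finite (Orb K C) := Finite.of_equiv _ e
  refine ⟨hfinK, ?_⟩
  have f1 : Fintype (Orb Γ C) := Fintype.ofFinite _
  have f2 : Fintype R := Fintype.ofFinite _
  have f3 : Fintype (Orb K C) := Fintype.ofFinite _
  rw [finsum_eq_sum_of_fintype, finsum_eq_sum_of_fintype, ← Equiv.sum_comp e,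
    Fintype.sum_prod_type]
  have h5 : ∀ o : Orb Γ C, ∑ q : R, φ (e (o, q)).out = (K.index : ℝ) * φ o.out := by
    intro o
    have h6 : ∀ q : R, φ (e (o, q)).out = φ o.out := fun q => hout (o, q)
    rw [Finset.sum_congr rfl fun q _ => h6 q, Finset.sum_const, nsmul_eq_mul, Finset.card_univ,
      ← Nat.card_eq_fintype_card, hRc]
  rw [Finset.sum_congr rfl fun o _ => h5 o, Finset.mul_sum]

end SingerVS
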