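import Mathlib
import Pool.Agent.Lib_MP_394d50_vs.LIdx
import Pool.Agent.Lib_MP_394d50_vs.LAt

/-!
# Block L: from a subgroup of finite index to the group
-/

namespace SingerVS

section

variable {Γ C : Type} [Group Γ] [MulAction Γ C] {I I' : CellCx C}

/-- Atiyah's formula for a group with a subgroup of finite index which preserves the
orientations. -/
theorem atiyah_index (K : Subgroup Γ) [K.FiniteIndex]
    (hfree : ∀ (g : Γ) (c : C), g • c = c → g = 1) (hfin : Finite (Orb Γ C))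
    (hdim : ∀ (g : Γ) c, I.dim (g • c) = I.dim c)
    (hloc : ∀ (g : Γ) c, locDim I (g • c) = locDim I c) (hd : ∀ c, I'.dim c = I.dim c)
    (hl : ∀ c, locDim I' c = locDim I c) (hF : FreeCell K I') :
    ∑ᶠ o : Orb Γ C, (-1 : ℝ) ^ I.dim o.out * locDim I o.out = (chi Γ I : ℝ) := by
  classical
  obtain ⟨hfK, h1⟩ := sum_orb_index K hfree hfin
    (fun c => (-1 : ℝ) ^ I.dim c * locDim I c) (fun g c => by
      show (-1 : ℝ) ^ I.dim (g • c) * locDim I (g • c) = _
      rw [hdim, hloc])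
  obtain ⟨-, h2⟩ := sum_orb_index K hfree hfin
    (fun c => (-1 : ℝ) ^ I.dim c) (fun g c => by
      show (-1 : ℝ) ^ I.dim (g • c) = _
      rw [hdim])
  have iK : Fintype (Orb K C) := Fintype.ofFinite _
  have iΓ : Fintype (Orb Γ C) := Fintype.ofFinite _
  have h3 := sum_locDim hF
  have h4 : ∑ᶠ o : Orb K C, (-1 : ℝ) ^ I.dim o.out * locDim I o.out =
      ∑ᶠ o : Orb K C, (-1 : ℝ) ^ I.dim o.out := by
    rw [finsum_eq_sum_of_fintype, finsum_eq_sum_of_fintype]
    have e1 : ∑ o : Orb K C, (-1 : ℝ) ^ I'.dim o.out * locDim I' o.out =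
        ∑ o : Orb K C, (-1 : ℝ) ^ I.dim o.out * locDim I o.out :=
      Finset.sum_congr rfl fun o _ => by rw [hd, hl]
    have e2 : ∑ o : Orb K C, (-1 : ℝ) ^ I'.dim o.out = ∑ o : Orb K C, (-1 : ℝ) ^ I.dim o.out :=
      Finset.sum_congr rfl fun o _ => by rw [hd]
    rw [← e1, ← e2]
    exact h3
  rw [h1, h2] at h4
  have h5 : (K.index : ℝ) ≠ 0 := Nat.cast_ne_zero.mpr Subgroup.FiniteIndex.index_ne_zero
  have h6 := mul_left_cancel₀ h5 h4
  rw [h6]
  unfold chi
  rw [finsum_eq_sum_of_fintype, finsum_eq_sum_of_fintype, Int.cast_sum]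
  refine Finset.sum_congr rfl fun o _ => ?_
  rw [Int.cast_pow, Int.cast_neg, Int.cast_one]

theorem l2Betti_nonneg (k : ℕ) : 0 ≤ l2Betti Γ I k := by
  classical
  unfold l2Betti
  refine finsum_nonneg fun o => ?_
  split_ifs
  · exact locDim_nonneg _
  · exact le_refl 0

/-- The conclusion: if the local dimensions vanish outside the middle dimension then the
`ℓ²`-Betti numbers vanish outside the middle dimension and the middle one is the Euler
characteristic up to sign. -/
theorem betti_final (K : Subgroup Γ) [K.FiniteIndex]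
    (hfree : ∀ (g : Γ) (c : C), g • c = c → g = 1) (hfin : Finite (Orb Γ C))
    (hdim : ∀ (g : Γ) c, I.dim (g • c) = I.dim c)
    (hloc : ∀ (g : Γ) c, locDim I (g • c) = locDim I c) (hd : ∀ c, I'.dim c = I.dim c)
    (hl : ∀ c, locDim I' c = locDim I c) (hF : FreeCell K I') (n : ℕ)
    (hz : ∀ c, 2 * I.dim c ≠ n → locDim I c = 0) :
    (∀ k, 2 * k ≠ n → l2Betti Γ I k = 0) ∧
      (∀ k, 2 * k = n → l2Betti Γ I k = (-1 : ℝ) ^ k * chi Γ I) ∧
      ((∀ k, l2Betti Γ I k = 0) ↔ chi Γ I = 0) ∧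
      ∀ k, 2 * k = n → 0 ≤ (-1 : ℤ) ^ k * chi Γ I := by
  classical
  have hS := atiyah_index K hfree hfin hdim hloc hd hl hF
  have h1 : ∀ k, 2 * k ≠ n → l2Betti Γ I k = 0 := by
    intro k hk
    unfold l2Betti
    refine finsum_eq_zero_of_forall_eq_zero fun o => ?_
    split_ifs with h
    · exact hz _ (by rw [h]; exact hk)
    · rfl
  have h2 : ∀ k, 2 * k = n → (-1 : ℝ) ^ k * l2Betti Γ I k = chi Γ I := by
    intro k hk
    rw [← hS]
    unfold l2Betti
    rw [mul_finsum]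
    refine finsum_congr fun o => ?_
    by_cases h : I.dim o.out = k
    · rw [if_pos h, h]
    · rw [if_neg h, hz o.out (fun h3 => h (by omega)), mul_zero, mul_zero]
  have hsq : ∀ k : ℕ, (-1 : ℝ) ^ k * (-1) ^ k = 1 := fun k => by
    rw [← mul_pow]
    norm_num
  have h3 : ∀ k, 2 * k = n → l2Betti Γ I k = (-1 : ℝ) ^ k * chi Γ I := by
    intro k hk
    rw [← h2 k hk, ← mul_assoc, hsq, one_mul]
  refine ⟨h1, h3, ⟨fun h4 => ?_, fun h4 k => ?_⟩, fun k hk => ?_⟩
  · rcases Nat.even_or_odd' n with ⟨k, hk | hk⟩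
    · have h5 := h2 k hk.symm
      rw [h4 k, mul_zero] at h5
      exact_mod_cast h5.symm
    · have h5 : ((chi Γ I : ℤ) : ℝ) = 0 := by
        rw [← hS]
        refine finsum_eq_zero_of_forall_eq_zero fun o => ?_
        rw [hz o.out (by omega), mul_zero]
      exact_mod_cast h5
  · by_cases hk : 2 * k = n
    · rw [h3 k hk, h4, Int.cast_zero, mul_zero]
    · exact h1 k hk
  · have h5 := l2Betti_nonneg (Γ := Γ) (I := I) k
    rw [h3 k hk] at h5
    exact_mod_cast h5

end

end SingerVS
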