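import Mathlib
import Pool.Agent.Lib_MP_394d50_vs.VBase

/-!
# Piece LKCOH: the cochains with arbitrary support of an acyclic complex are exact
(about 110 lines)

`pair_adj`: for `w` with finite support contained in `X` and any `c`:
`∑ᶠ τ, c τ * (bd X w) τ = ∑ᶠ τ, (dl X c) τ * w τ` up to the simplices that are not in `X`: precisely
`∑ᶠ s, c s * bd X w s = ∑ᶠ τ, dl X c τ * w τ` for `c ∈ Ch (ZMod 2) X k` (both sums are over the finite
set of the pairs `(s, p)`, `s ∈ X`, `p ∈ nb X s`, `w (insert p s) ≠ 0`; `FreeCx.nb_finite`,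
`FreeCx.mem_nb`). It may be easier to prove it for `w = Pi.single τ 1`, `τ ∈ X`, where it says
`∑_{s} c s * (bd X (Pi.single τ 1)) s = ∑_{p ∈ τ} c (τ.erase p)`, and to extend by linearity.

* `co_exact`: let `E` = the submodule of the `w ∈ Ch (ZMod 2) X (k - 1)` with finite support,
  `Z` = the `w ∈ Ch (ZMod 2) X k` with finite support. The linear form `⟨c, w⟩ = ∑ᶠ c τ * w τ` on `Z`
  vanishes on the `w` with `bd X w = 0` (`w = bd X w'` by `Acyc.high`, `⟨c, bd X w'⟩ = ⟨dl X c, w'⟩ = 0`),
  so it factors through `bd X : Z → E` and extends to a linear form `φ` on `E`, even to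
  `Finset P → ZMod 2` (`LinearMap.exists_extend`, or: `LinearMap.exists_leftInverse_of_injective`).
  Put `b s = φ (Pi.single s 1)` for `s ∈ X` with `k - 1` vertices, `0` otherwise. Then
  `dl X b τ = ∑_{p ∈ τ} b (τ.erase p) = φ (bd X (Pi.single τ 1)) = ⟨c, Pi.single τ 1⟩ = c τ`.
* `co_const`: for vertices `v`, `w` the chain `Pi.single {v} 1 + Pi.single {w} 1` has sum zero, so it is
  `bd X b`, `b` finite, and `c {v} + c {w} = ⟨c, bd X b⟩ = ⟨dl X c, b⟩ = 0`.
-/

namespace SingerVS

open scoped Pointwise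

variable {H P : Type} [Group H] [DecidableEq P] [MulAction H P] {X : Set (Finset P)}

open scoped Classical in
/-- the boundary of the simplex `τ`, a finite chain -/
noncomputable def lkB (X : Set (Finset P)) (τ : Finset P) : Finset P →₀ ZMod 2 :=
  if τ ∈ X then ∑ p ∈ τ, (if τ.erase p ∈ X then Finsupp.single (τ.erase p) 1 else 0) else 0

/-- the boundary map on the finite chains -/
noncomputable def lkD (X : Set (Finset P)) : (Finset P →₀ ZMod 2) →ₗ[ZMod 2] (Finset P →₀ ZMod 2) :=
  Finsupp.linearCombination (ZMod 2) (lkB X)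

theorem lkD_single (τ : Finset P) : lkD X (Finsupp.single τ 1) = lkB X τ := by
  rw [lkD, Finsupp.linearCombination_single, one_smul]

theorem FreeCx.lkB_apply (hX : FreeCx H X) (τ s : Finset P) :
    lkB X τ s = bd X (⇑(Finsupp.single τ (1 : ZMod 2))) s := by
  classical
  by_cases hs : s ∈ X
  · rw [bd_apply hs]
    by_cases hτ : τ ∈ X
    · rw [lkB, if_pos hτ, Finsupp.finsetSum_apply]
      have e1 : ∀ p ∈ τ, (if τ.erase p ∈ X then Finsupp.single (τ.erase p) (1 : ZMod 2) else 0) s =
          if τ.erase p = s then 1 else 0 := by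
        intro p _
        by_cases h : τ.erase p = s
        · rw [if_pos (h ▸ hs), if_pos h, h, Finsupp.single_eq_same]
        · rw [if_neg h]
          split_ifs
          · rw [Finsupp.single_apply, if_neg h]
          · rfl
      have e2 : ∀ p ∈ nb X s, (Finsupp.single τ (1 : ZMod 2)) (insert p s) =
          if insert p s = τ then 1 else 0 := by
        intro p _
        rw [Finsupp.single_apply]
        exact if_congr eq_comm rfl rfl
      rw [Finset.sum_congr rfl e1, Finset.sum_congr rfl e2, ← Finset.sum_filter,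
        ← Finset.sum_filter]
      refine Finset.sum_congr ?_ fun _ _ => rfl
      ext p
      rw [Finset.mem_filter, Finset.mem_filter, hX.mem_nb hs]
      constructor
      · rintro ⟨hp, rfl⟩
        refine ⟨⟨Finset.notMem_erase p τ, ?_⟩, Finset.insert_erase hp⟩
        rw [Finset.insert_erase hp]
        exact hτ
      · rintro ⟨⟨hp, -⟩, rfl⟩
        exact ⟨Finset.mem_insert_self p s, Finset.erase_insert hp⟩
    · rw [lkB, if_neg hτ]
      refine (Finset.sum_eq_zero fun p hp => ?_).symm
      rw [Finsupp.single_apply, if_neg]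
      rintro rfl
      exact hτ ((hX.mem_nb hs).mp hp).2
  · rw [bd_apply_not hs, lkB]
    split_ifs with hτ
    · rw [Finsupp.finsetSum_apply]
      refine Finset.sum_eq_zero fun p _ => ?_
      split_ifs with h
      · rw [Finsupp.single_apply, if_neg]
        rintro rfl
        exact hs h
      · rfl
    · rfl

theorem FreeCx.lkD_apply (hX : FreeCx H X) (w : Finset P →₀ ZMod 2) : ⇑(lkD X w) = bd X (⇑w) := by
  induction w using Finsupp.induction_linear with
  | zero =>
    rw [map_zero]
    show (0 : Finset P → ZMod 2) = bd X 0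
    rw [map_zero]
  | add f g hf hg => rw [map_add, Finsupp.coe_add, Finsupp.coe_add, map_add, hf, hg]
  | single τ r =>
    have e : Finsupp.single τ r = r • Finsupp.single τ (1 : ZMod 2) := by
      rw [Finsupp.smul_single, smul_eq_mul, mul_one]
    rw [e, map_smul, Finsupp.coe_smul, Finsupp.coe_smul, map_smul, lkD_single]
    refine congrArg (fun u => r • u) ?_
    funext s
    exact hX.lkB_apply τ s

/-- the pairing of a cochain with a finite chain -/
noncomputable def lkL (c : Finset P → ZMod 2) : (Finset P →₀ ZMod 2) →ₗ[ZMod 2] ZMod 2 :=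
  Finsupp.linearCombination (ZMod 2) c

omit [DecidableEq P] in
theorem lkL_single (c : Finset P → ZMod 2) (τ : Finset P) : lkL c (Finsupp.single τ 1) = c τ := by
  rw [lkL, Finsupp.linearCombination_single, one_smul]

/-- the boundary is adjoint to the coboundary -/
theorem lk_adj {k : ℕ} {c : Finset P → ZMod 2} (hc : c ∈ Ch (ZMod 2) X k) (w : Finset P →₀ ZMod 2) :
    lkL c (lkD X w) = lkL (dl X c) w := by
  classical
  induction w using Finsupp.induction_linear with
  | zero => rw [map_zero, map_zero, map_zero]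
  | add f g hf hg => rw [map_add, map_add, map_add, hf, hg]
  | single τ r =>
    have e : Finsupp.single τ r = r • Finsupp.single τ (1 : ZMod 2) := by
      rw [Finsupp.smul_single, smul_eq_mul, mul_one]
    rw [e, map_smul, map_smul, map_smul, lkD_single, lkL_single]
    refine congrArg (fun u => r • u) ?_
    by_cases hτ : τ ∈ X
    · rw [dl_apply hτ, lkB, if_pos hτ, map_sum]
      refine Finset.sum_congr rfl fun p _ => ?_
      split_ifs with h
      · rw [lkL_single]
      · rw [map_zero, hc _ fun h1 => h h1.1]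
    · rw [dl_apply_not hτ, lkB, if_neg hτ, map_zero]

theorem lk_fac {V W : Type} [AddCommGroup V] [Module (ZMod 2) V] [AddCommGroup W] [Module (ZMod 2) W]
    (f : V →ₗ[ZMod 2] W) (g : V →ₗ[ZMod 2] ZMod 2) (h : ∀ v, f v = 0 → g v = 0) :
    ∃ φ : W →ₗ[ZMod 2] ZMod 2, ∀ v, φ (f v) = g v := by
  have hker : g ∈ (LinearMap.ker f).dualAnnihilator := by
    rw [Submodule.mem_dualAnnihilator]
    exact fun w hw => h w hw
  rw [← LinearMap.range_dualMap_eq_dualAnnihilator_ker] at hker
  obtain ⟨φ, hφ⟩ := hker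
  exact ⟨φ, fun v => LinearMap.congr_fun hφ v⟩

theorem Acyc.co_exact (hX : FreeCx H X) (hac : Acyc X) {k : ℕ} (hk : 2 ≤ k)
    {c : Finset P → ZMod 2} (hc : c ∈ Ch (ZMod 2) X k) (h0 : dl X c = 0) :
    ∃ b ∈ Ch (ZMod 2) X (k - 1), dl X b = c := by
  classical
  set Z : Submodule (ZMod 2) (Finset P →₀ ZMod 2) :=
    Finsupp.supported (ZMod 2) (ZMod 2) {τ | τ ∈ X ∧ τ.card = k} with hZ
  have hker : ∀ v : Z, (lkD X).domRestrict Z v = 0 → (lkL c).domRestrict Z v = 0 := by
    rintro ⟨w, hw⟩ hw0
    have hw1 : lkD X w = 0 := hw0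
    have hw2 : bd X (⇑w) = 0 := by
      rw [← hX.lkD_apply w, hw1]
      rfl
    have hwc : (⇑w) ∈ Ch (ZMod 2) X k := by
      intro σ hσ
      by_contra hne
      exact hσ ((Finsupp.mem_supported _ _).mp hw (Finset.mem_coe.mpr (Finsupp.mem_support_iff.mpr hne)))
    obtain ⟨b, -, hbf, hb⟩ := hac.high k hk (⇑w) hwc w.hasFiniteSupport hw2
    have e1 : lkD X (Finsupp.ofSupportFinite b hbf) = w := by
      apply DFunLike.coe_injective
      rw [hX.lkD_apply]
      exact hb
    show lkL c w = 0
    rw [← e1, lk_adj hc, h0]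
    show Finsupp.linearCombination (ZMod 2) (0 : Finset P → ZMod 2) _ = 0
    rw [Finsupp.linearCombination_zero]
    rfl
  obtain ⟨φ, hφ⟩ := lk_fac (V := Z) (W := Finset P →₀ ZMod 2) ((lkD X).domRestrict Z)
    ((lkL c).domRestrict Z) hker
  have hφ' : ∀ τ, τ ∈ X → τ.card = k → φ (lkB X τ) = c τ := by
    intro τ hτ hk'
    have hm : Finsupp.single τ (1 : ZMod 2) ∈ Z :=
      Finsupp.single_mem_supported _ _ ⟨hτ, hk'⟩
    have h1 := hφ ⟨Finsupp.single τ (1 : ZMod 2), hm⟩
    have h2 : φ (lkD X (Finsupp.single τ 1)) = lkL c (Finsupp.single τ 1) := h1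
    rwa [lkD_single, lkL_single] at h2
  set b : Finset P → ZMod 2 :=
    fun s => if s ∈ X ∧ s.card = k - 1 then φ (Finsupp.single s 1) else 0 with hb
  have hbc : b ∈ Ch (ZMod 2) X (k - 1) := fun σ hσ => if_neg hσ
  refine ⟨b, hbc, ?_⟩
  funext τ
  by_cases hτ : τ ∈ X ∧ τ.card = k
  · rw [dl_apply hτ.1, ← hφ' τ hτ.1 hτ.2, lkB, if_pos hτ.1, map_sum]
    refine Finset.sum_congr rfl fun p hp => ?_
    have hcard : (τ.erase p).card = k - 1 := by rw [Finset.card_erase_of_mem hp, hτ.2]
    have hne : (τ.erase p).Nonempty := Finset.card_pos.mp (by omega)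
    have hm : τ.erase p ∈ X := hX.down τ hτ.1 _ (Finset.erase_subset p τ) hne
    rw [if_pos hm, hb]
    exact if_pos ⟨hm, hcard⟩
  · have h1 := hX.ch_dl hbc
    have h2 : k - 1 + 1 = k := by omega
    rw [h2] at h1
    rw [h1 τ hτ, hc τ hτ]

theorem Acyc.co_const (hX : FreeCx H X) (hac : Acyc X) {c : Finset P → ZMod 2}
    (hc : c ∈ Ch (ZMod 2) X 1) (h0 : dl X c = 0) {v w : P} (hv : {v} ∈ X) (hw : {w} ∈ X) :
    c {v} = c {w} := by
  classical
  by_cases hvw : v = w
  · rw [hvw]
  set u : Finset P →₀ ZMod 2 := Finsupp.single {v} 1 + Finsupp.single {w} 1 with hu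
  have huc : (⇑u) ∈ Ch (ZMod 2) X 1 := by
    intro σ hσ
    rw [hu, Finsupp.add_apply, Finsupp.single_apply, Finsupp.single_apply, if_neg, if_neg, add_zero]
    · rintro rfl
      exact hσ ⟨hw, Finset.card_singleton w⟩
    · rintro rfl
      exact hσ ⟨hv, Finset.card_singleton v⟩
  have hus : ∑ᶠ p : P, u {p} = 0 := by
    have h1 : Function.support (fun p : P => u {p}) ⊆ (({v, w} : Finset P) : Set P) := by
      intro p hp
      by_contra hne
      apply hp
      rw [Finset.coe_insert, Finset.coe_singleton, Set.mem_insert_iff, Set.mem_singleton_iff, not_or] at hne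
      show u {p} = 0
      rw [hu, Finsupp.add_apply, Finsupp.single_apply, Finsupp.single_apply, if_neg, if_neg, add_zero]
      · intro h
        exact hne.2 (Finset.singleton_injective h).symm
      · intro h
        exact hne.1 (Finset.singleton_injective h).symm
    rw [finsum_eq_sum_of_support_subset _ h1, Finset.sum_pair hvw, hu]
    have n1 : ({w} : Finset P) ≠ {v} := fun h => hvw (Finset.singleton_injective h).symm
    have n2 : ({v} : Finset P) ≠ {w} := fun h => hvw (Finset.singleton_injective h)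
    simp only [Finsupp.add_apply, Finsupp.single_apply, if_true, if_neg n1, if_neg n2, add_zero, zero_add]
    decide
  obtain ⟨b, -, hbf, hb⟩ := hac.conn (⇑u) huc u.hasFiniteSupport hus
  have e1 : lkD X (Finsupp.ofSupportFinite b hbf) = u := by
    apply DFunLike.coe_injective
    rw [hX.lkD_apply]
    exact hb
  have e2 : lkL c u = 0 := by
    rw [← e1, lk_adj hc, h0]
    show Finsupp.linearCombination (ZMod 2) (0 : Finset P → ZMod 2) _ = 0
    rw [Finsupp.linearCombination_zero]
    rfl
  rw [hu, map_add, lkL_single, lkL_single] at e2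
  exact CharTwo.add_eq_zero.mp e2

end SingerVS
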