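import Mathlib
import Pool.Agent.Lib_MP_394d50_vs.LkDefs

/-!
# Piece LKTOP: the top simplices of a homology manifold (about 170 lines)

`K = lk X σ`. For `ρ ∈ K`: `nb K ρ = nb X (ρ ∪ σ)` (`mem_nb_lk` below; `p ∉ ρ`, `insert p ρ ∈ K` iff
`p ∉ ρ ∪ σ`, `insert p (ρ ∪ σ) ∈ X`; the first set is finite, being contained in the second, so both
definitions of `nb` are in the `dif_pos` case).

* `pure`: among the finitely many simplices containing `σ` (or because cards are `≤ n + 1`) choose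
  `τ ⊇ σ`, `τ ∈ X` with `τ.card` maximal. Then `K = lk X τ` is `{∅}` (a non-empty `ρ ∈ K` gives the
  larger simplex `ρ ∪ τ`). If `τ.card < n + 1` then `m = n + 1 - τ.card ≠ 0`; the function
  `z = Pi.single ∅ 1` is in `Ch K 0`, `bd K z = 0` (`bd K z ∅ = ∑_{p ∈ nb K ∅} z {p} = 0`, and
  `bd K z ρ = 0` for `ρ ∉ K`), so it is `bd K w` with `w ∈ Ch K 1`; but `w = 0` since `K` has no
  element with one vertex: contradiction at `∅`.
* `nb_two`: `σ ∈ X`, `σ.card = n`; `K = lk X σ`, `m = 1`. `Ch K 2 = 0` by `dim` (`ρ ∈ K` has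
  `ρ.card + n ≤ n + 1`). By `pure` `nb X σ` is not empty. `z₀ ∈ Ch K 1` is not zero
  (`bd K 0 = 0 ≠ z₀`) and every cycle in `Ch K 1` is `0` or `z₀`. For `p ≠ q` in `nb X σ` the
  function `Pi.single {p} 1 + Pi.single {q} 1` is a cycle (`bd K z ∅ = 1 + 1 = 0`) and not zero, so it
  is `z₀`. Hence `nb X σ` does not have three different elements; if it had only one element `p`,
  `z₀ = Pi.single {p} 1` and `bd K z₀ ∅ = 1 ≠ 0`.
* `ones_cycle`: `bd X 1 σ = ∑_{p ∈ nb X σ} 1 = 2 = 0` for `σ.card = n`; for the other `σ ∈ X` every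
  term is zero (`insert p σ` does not have `n + 1` vertices).
* `top_local`: `K = lk X σ`, `m = n + 1 - σ.card`. `z ρ = f (ρ ∪ σ)` for `ρ ∈ K` with `m` vertices, `0`
  otherwise, is in `Ch K m` and a cycle (`bd K z ρ = bd X f (ρ ∪ σ)` by `nb K ρ = nb X (ρ ∪ σ)`, for
  `ρ ∈ K`). The same for the function `ones` (a cycle by `ones_cycle`; not zero by `pure`).
  Every cycle in `Ch K m` is `0` or `z₀` (because `Ch K (m+1) = 0` by `dim`), so `ones = z₀`, and `z` is
  `0` or `z₀`: `f` is constant on the simplices with `n + 1` vertices which contain `σ`.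
-/

namespace SingerVS

open scoped Pointwise

variable {H P : Type} [Group H] [DecidableEq P] [MulAction H P] {X : Set (Finset P)} {n : ℕ}

theorem mem_nb_lk (hX : FreeCx H X) {σ ρ : Finset P} (hρ : ρ ∈ lk X σ) :
    nb (lk X σ) ρ = nb X (ρ ∪ σ) := by
  classical
  have _ := hX
  have h1 : {p | p ∉ ρ ∧ insert p ρ ∈ lk X σ} = {p | p ∉ ρ ∪ σ ∧ insert p (ρ ∪ σ) ∈ X} := by
    ext p
    simp only [Set.mem_ofPred_eq, lk, Finset.disjoint_insert_left, Finset.insert_union,
      Finset.mem_union, not_or]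
    constructor
    · rintro ⟨a, ⟨b, c⟩, d⟩
      exact ⟨⟨a, b⟩, d⟩
    · rintro ⟨⟨a, b⟩, d⟩
      exact ⟨a, ⟨b, hρ.1⟩, d⟩
  unfold nb
  simp only [h1]

theorem lkTop_empty {σ : Finset P} (hσ : σ ∈ X) : (∅ : Finset P) ∈ lk X σ :=
  ⟨Finset.disjoint_empty_left σ, by rwa [Finset.empty_union]⟩

omit [DecidableEq P] in
theorem lkTop_char (z : Finset P → ZMod 2) : z + z = 0 := by
  funext ρ
  exact ZModModule.add_self (z ρ)

/-- the chains of dimension above the top vanish -/
theorem lkTop_above (hM : HomMfd n X) {σ : Finset P} {k : ℕ} (hk : n + 1 < k + σ.card)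
    {w : Finset P → ZMod 2} (hw : w ∈ Ch (ZMod 2) (lk X σ) k) : w = 0 := by
  funext ρ
  refine hw ρ ?_
  rintro ⟨h1, h2⟩
  have h3 := hM.dim _ h1.2
  rw [Finset.card_union_of_disjoint h1.1] at h3
  omega

theorem lkTop_cyc (hM : HomMfd n X) {σ : Finset P} (hσ : σ ∈ X) :
    ∃ z₀ : Finset P → ZMod 2, z₀ ≠ 0 ∧ z₀ ∈ Ch (ZMod 2) (lk X σ) (n + 1 - σ.card) ∧
      bd (lk X σ) z₀ = 0 ∧ ∀ z ∈ Ch (ZMod 2) (lk X σ) (n + 1 - σ.card), bd (lk X σ) z = 0 →
        z = 0 ∨ z = z₀ := by
  obtain ⟨_, z₀, h1, h2, h3, h4⟩ := hM.link σ hσ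
  refine ⟨z₀, ?_, h1, h2, ?_⟩
  · intro h5
    exact h3 0 (Submodule.zero_mem _) (by rw [map_zero, h5])
  · intro z hz hz0
    obtain ⟨w, hw, h6⟩ := h4 z hz hz0
    have h7 : w = 0 := lkTop_above hM (k := n + 1 - σ.card + 1) (by
      have := hM.dim σ hσ
      omega) hw
    rw [h7, map_zero] at h6
    rcases h6 with h6 | h6
    · exact Or.inl h6.symm
    · right
      have h8 : z + z₀ + z₀ = 0 + z₀ := by rw [← h6]
      rw [add_assoc, lkTop_char, add_zero, zero_add] at h8
      exact h8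

/-- Every simplex is contained in a simplex of dimension `n`. -/
theorem HomMfd.pure (hX : FreeCx H X) (hM : HomMfd n X) {σ : Finset P} (hσ : σ ∈ X) :
    ∃ τ ∈ X, σ ⊆ τ ∧ τ.card = n + 1 := by
  classical
  obtain ⟨τ, ⟨hτ, hστ⟩, hmax⟩ := Set.exists_max_image {τ | τ ∈ X ∧ σ ⊆ τ} Finset.card
    (hX.cof_finite hσ) ⟨σ, hσ, Finset.Subset.refl σ⟩
  refine ⟨τ, hτ, hστ, ?_⟩
  by_contra hne
  have hle := hM.dim τ hτ
  have hK : ∀ ρ ∈ lk X τ, ρ = ∅ := by
    intro ρ hρ
    have h1 := hmax (ρ ∪ τ) ⟨hρ.2, hστ.trans Finset.subset_union_right⟩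
    rw [Finset.card_union_of_disjoint hρ.1] at h1
    exact Finset.card_eq_zero.mp (by omega)
  have hz : (Pi.single ∅ 1 : Finset P → ZMod 2) ∈ Ch (ZMod 2) (lk X τ) 0 := by
    intro ρ hρ
    have h2 : ρ ≠ ∅ := by
      rintro rfl
      exact hρ ⟨lkTop_empty hτ, Finset.card_empty⟩
    exact Pi.single_eq_of_ne h2 1
  have hb : bd (lk X τ) (Pi.single ∅ 1 : Finset P → ZMod 2) = 0 := by
    funext ρ
    by_cases hρ : ρ ∈ lk X τ
    · rw [bd_apply hρ]
      refine Finset.sum_eq_zero fun p _ => ?_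
      exact Pi.single_eq_of_ne (Finset.insert_ne_empty p ρ) 1
    · exact bd_apply_not hρ
  obtain ⟨w, hw, hw'⟩ := (hM.link τ hτ).1 0 (by omega) _ hz hb
  have hw0 : w = 0 := by
    funext ρ
    refine hw ρ ?_
    rintro ⟨h3, h4⟩
    rw [hK ρ h3, Finset.card_empty] at h4
    exact absurd h4 (by norm_num)
  rw [hw0, map_zero] at hw'
  have h5 := congrFun hw' ∅
  rw [Pi.single_eq_same] at h5
  exact zero_ne_one h5

theorem lkTop_bd_single (hX : FreeCx H X) {σ : Finset P} (hσ : σ ∈ X) {p : P} (hp : p ∈ nb X σ) :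
    bd (lk X σ) (Pi.single {p} 1 : Finset P → ZMod 2) = Pi.single ∅ 1 := by
  classical
  funext ρ
  by_cases hρ : ρ ∈ lk X σ
  · rw [bd_apply hρ, mem_nb_lk hX hρ]
    by_cases h0 : ρ = ∅
    · subst h0
      rw [Finset.empty_union, Pi.single_eq_same, Finset.sum_eq_single p]
      · rw [insert_empty_eq, Pi.single_eq_same]
      · intro q _ hq
        rw [insert_empty_eq]
        exact Pi.single_eq_of_ne (fun h => hq (Finset.singleton_injective h)) 1
      · intro h
        exact absurd hp h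
    · rw [Pi.single_eq_of_ne h0]
      refine Finset.sum_eq_zero fun q hq => ?_
      refine Pi.single_eq_of_ne ?_ 1
      intro h
      have h1 := ((hX.mem_nb hρ.2).mp hq).1
      have h2 : q = p := Finset.mem_singleton.mp (h ▸ Finset.mem_insert_self q ρ)
      obtain ⟨r, hr⟩ := Finset.nonempty_iff_ne_empty.mpr h0
      have h3 : r = p := Finset.mem_singleton.mp (h ▸ Finset.mem_insert_of_mem hr)
      exact h1 (Finset.mem_union_left σ (by rw [h2, ← h3]; exact hr))
  · rw [bd_apply_not hρ]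
    have h0 : ρ ≠ ∅ := by
      rintro rfl
      exact hρ (lkTop_empty hσ)
    exact (Pi.single_eq_of_ne (M := fun _ : Finset P => ZMod 2) h0 1).symm

/-- Every simplex of dimension `n - 1` is contained in exactly two simplices of dimension `n`. -/
theorem HomMfd.nb_two (hX : FreeCx H X) (hM : HomMfd n X) {σ : Finset P} (hσ : σ ∈ X)
    (hc : σ.card = n) : (nb X σ).card = 2 := by
  classical
  obtain ⟨z₀, h1, h2, h3, h4⟩ := lkTop_cyc hM hσ
  have hm : n + 1 - σ.card = 1 := by omega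
  rw [hm] at h2 h4
  have hK1 : ∀ p ∈ nb X σ, {p} ∈ lk X σ := by
    intro p hp
    have h5 := (hX.mem_nb hσ).mp hp
    exact ⟨Finset.disjoint_singleton_left.mpr h5.1, h5.2⟩
  have hch : ∀ p ∈ nb X σ, (Pi.single {p} 1 : Finset P → ZMod 2) ∈ Ch (ZMod 2) (lk X σ) 1 := by
    intro p hp ρ hρ
    refine Pi.single_eq_of_ne ?_ 1
    rintro rfl
    exact hρ ⟨hK1 p hp, Finset.card_singleton p⟩
  have hpair : ∀ p ∈ nb X σ, ∀ q ∈ nb X σ, p ≠ q →
      (Pi.single {p} 1 + Pi.single {q} 1 : Finset P → ZMod 2) = z₀ := by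
    intro p hp q hq hpq
    rcases h4 _ (Submodule.add_mem _ (hch p hp) (hch q hq)) (by
      rw [map_add, lkTop_bd_single hX hσ hp, lkTop_bd_single hX hσ hq, lkTop_char]) with h5 | h5
    · exfalso
      have h6 := congrFun h5 {p}
      rw [Pi.add_apply, Pi.single_eq_same,
        Pi.single_eq_of_ne (fun h => hpq (Finset.singleton_injective h)), add_zero] at h6
      exact one_ne_zero h6
    · exact h5
  have hne : (nb X σ).Nonempty := by
    obtain ⟨τ, hτ, hστ, hτc⟩ := hM.pure hX hσ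
    obtain ⟨p, hp⟩ := Finset.card_pos.mp (show 0 < (τ \ σ).card by
      rw [Finset.card_sdiff_of_subset hστ]
      omega)
    rw [Finset.mem_sdiff] at hp
    exact ⟨p, (hX.mem_nb hσ).mpr ⟨hp.2, hX.down τ hτ _ (Finset.insert_subset hp.1 hστ)
      (Finset.insert_nonempty p σ)⟩⟩
  have hpos := Finset.card_pos.mpr hne
  have hn1 : (nb X σ).card ≠ 1 := by
    intro h5
    obtain ⟨p, hp⟩ := Finset.card_eq_one.mp h5
    apply h1
    have h6 := congrFun h3 ∅
    rw [bd_apply (lkTop_empty hσ), mem_nb_lk hX (lkTop_empty hσ), Finset.empty_union, hp,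
      Finset.sum_singleton, insert_empty_eq] at h6
    funext ρ
    by_cases hρ : ρ ∈ lk X σ ∧ ρ.card = 1
    · obtain ⟨q, hq⟩ := Finset.card_eq_one.mp hρ.2
      have h7 := hρ.1
      rw [hq] at h7
      have h8 : q ∈ nb X σ := (hX.mem_nb hσ).mpr
        ⟨Finset.disjoint_singleton_left.mp h7.1, h7.2⟩
      rw [hp, Finset.mem_singleton] at h8
      rw [hq, h8]
      exact h6
    · exact h2 ρ hρ
  have hn3 : ¬ 2 < (nb X σ).card := by
    intro h5
    obtain ⟨p, q, r, hp, hq, hr, hpq, hpr, hqr⟩ := Finset.two_lt_card_iff.mp h5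
    have h6 := (hpair p hp q hq hpq).trans (hpair p hp r hr hpr).symm
    have h7 := congrFun h6 {q}
    rw [Pi.add_apply, Pi.add_apply, Pi.single_eq_same (M := fun _ : Finset P => ZMod 2) ({q} : Finset P) 1,
      Pi.single_eq_of_ne (fun h => hpq.symm (Finset.singleton_injective h)),
      Pi.single_eq_of_ne (fun h => hqr (Finset.singleton_injective h)), add_zero, zero_add] at h7
    exact one_ne_zero h7
  omega

open scoped Classical in
/-- The sum of all simplices of dimension `n`. -/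
noncomputable def onesT (X : Set (Finset P)) (n : ℕ) : Finset P → ZMod 2 := fun σ =>
  if σ ∈ X ∧ σ.card = n + 1 then 1 else 0

theorem HomMfd.ones_cycle (hX : FreeCx H X) (hM : HomMfd n X) : bd X (onesT X n) = 0 := by
  classical
  funext σ
  by_cases hσ : σ ∈ X
  · rw [bd_apply hσ]
    show _ = (0 : ZMod 2)
    by_cases hc : σ.card = n
    · rw [Finset.sum_congr rfl (g := fun _ => (1 : ZMod 2))]
      · rw [Finset.sum_const, hM.nb_two hX hσ hc]
        decide
      · intro p hp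
        have h1 := (hX.mem_nb hσ).mp hp
        unfold onesT
        rw [if_pos ⟨h1.2, by rw [Finset.card_insert_of_notMem h1.1, hc]⟩]
    · refine Finset.sum_eq_zero fun p hp => ?_
      have h1 := (hX.mem_nb hσ).mp hp
      unfold onesT
      refine if_neg ?_
      rintro ⟨_, h2⟩
      rw [Finset.card_insert_of_notMem h1.1] at h2
      omega
  · exact bd_apply_not hσ

open scoped Classical in
/-- the restriction of a function to the link of `σ` -/
noncomputable def lkTop_pull (X : Set (Finset P)) (σ : Finset P) (m : ℕ) (g : Finset P → ZMod 2) :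
    Finset P → ZMod 2 := fun ρ => if ρ ∈ lk X σ ∧ ρ.card = m then g (ρ ∪ σ) else 0

theorem lkTop_pull_ch (σ : Finset P) (m : ℕ) (g : Finset P → ZMod 2) :
    lkTop_pull X σ m g ∈ Ch (ZMod 2) (lk X σ) m := fun _ hρ => if_neg hρ

/-- the restriction commutes with the boundary when `g` is supported on `q` vertices -/
theorem lkTop_pull_bd (hX : FreeCx H X) {σ : Finset P} {q m : ℕ} (hm : m + σ.card = q)
    {g : Finset P → ZMod 2} (hg0 : ∀ τ, τ.card ≠ q → g τ = 0) {ρ : Finset P}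
    (hρ : ρ ∈ lk X σ) : bd (lk X σ) (lkTop_pull X σ m g) ρ = bd X g (ρ ∪ σ) := by
  classical
  rw [bd_apply hρ, bd_apply hρ.2, mem_nb_lk hX hρ]
  refine Finset.sum_congr rfl fun p hp => ?_
  have h1 := (hX.mem_nb hρ.2).mp hp
  rw [Finset.mem_union, not_or] at h1
  have h2 : insert p ρ ∈ lk X σ := ⟨Finset.disjoint_insert_left.mpr ⟨h1.1.2, hρ.1⟩, by
    rw [Finset.insert_union]
    exact h1.2⟩
  unfold lkTop_pull
  by_cases h3 : (insert p ρ).card = m
  · rw [if_pos ⟨h2, h3⟩, Finset.insert_union]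
  · rw [if_neg (fun h => h3 h.2), ← Finset.insert_union]
    refine (hg0 _ ?_).symm
    rw [Finset.card_union_of_disjoint h2.1]
    omega

theorem lkTop_pull_apply {σ τ : Finset P} (hτ : τ ∈ X) (hστ : σ ⊆ τ) {m : ℕ}
    (hm : m + σ.card = τ.card) (g : Finset P → ZMod 2) :
    lkTop_pull X σ m g (τ \ σ) = g τ := by
  unfold lkTop_pull
  rw [if_pos, Finset.sdiff_union_of_subset hστ]
  refine ⟨⟨Finset.sdiff_disjoint, ?_⟩, ?_⟩
  · rw [Finset.sdiff_union_of_subset hστ]
    exact hτ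
  · rw [Finset.card_sdiff_of_subset hστ]
    omega

/-- A chain of top dimension whose boundary vanishes near `σ` is constant near `σ`. -/
theorem HomMfd.top_local (hX : FreeCx H X) (hM : HomMfd n X) {σ : Finset P} (hσ : σ ∈ X)
    {f : Finset P → ZMod 2} (hf : ∀ τ ∈ X, σ ⊆ τ → bd X f τ = 0)
    (hf0 : ∀ τ, τ.card ≠ n + 1 → f τ = 0) :
    ∀ τ ∈ X, ∀ τ' ∈ X, σ ⊆ τ → σ ⊆ τ' → τ.card = n + 1 → τ'.card = n + 1 → f τ = f τ' := by
  classical
  obtain ⟨z₀, h1, h2, h3, h4⟩ := lkTop_cyc hM hσ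
  have hle := hM.dim σ hσ
  have hm : n + 1 - σ.card + σ.card = n + 1 := by omega
  have hone : lkTop_pull X σ (n + 1 - σ.card) (onesT X n) = z₀ := by
    rcases h4 _ (lkTop_pull_ch σ _ (onesT X n)) (by
      funext ρ
      by_cases hρ : ρ ∈ lk X σ
      · rw [lkTop_pull_bd hX hm _ hρ, hM.ones_cycle hX]
        · rfl
        · intro τ hτ
          exact if_neg (fun h => hτ h.2)
      · exact bd_apply_not hρ) with h5 | h5
    · exfalso
      obtain ⟨τ, hτ, hστ, hτc⟩ := hM.pure hX hσ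
      have h6 := congrFun h5 (τ \ σ)
      rw [lkTop_pull_apply hτ hστ (by omega)] at h6
      unfold onesT at h6
      rw [if_pos ⟨hτ, hτc⟩] at h6
      exact one_ne_zero h6
    · exact h5
  intro τ hτ τ' hτ' hs hs' hc hc'
  rcases h4 _ (lkTop_pull_ch σ _ f) (by
      funext ρ
      by_cases hρ : ρ ∈ lk X σ
      · rw [lkTop_pull_bd hX hm hf0 hρ]
        exact hf _ hρ.2 Finset.subset_union_right
      · exact bd_apply_not hρ) with h5 | h5
  · rw [← lkTop_pull_apply hτ hs (m := n + 1 - σ.card) (by omega) f,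
      ← lkTop_pull_apply hτ' hs' (m := n + 1 - σ.card) (by omega) f, h5]
    rfl
  · rw [← hone] at h5
    rw [← lkTop_pull_apply hτ hs (m := n + 1 - σ.card) (by omega) f,
      ← lkTop_pull_apply hτ' hs' (m := n + 1 - σ.card) (by omega) f, h5,
      lkTop_pull_apply hτ hs (by omega), lkTop_pull_apply hτ' hs' (by omega)]
    unfold onesT
    rw [if_pos ⟨hτ, hc⟩, if_pos ⟨hτ', hc'⟩]

end SingerVS
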