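import Mathlib
import Pool.Agent.Lib_MP_394d50_vs.LkTop

/-!
# Piece LKCOL: exactness of the columns (about 90 lines)

`K = lk X σ`, `k = q - σ.card` (if `q < σ.card` then `f` vanishes on the cofaces of `σ` and `g = 0`
works), `m = n + 1 - σ.card ≠ k` since `q ≤ n`. Let `z ρ = f (ρ ∪ σ)` for `ρ ∈ K`, `ρ.card = k`, and `0`
otherwise; `z ∈ Ch K k`, `bd K z ρ = bd X f (ρ ∪ σ) = 0` for `ρ ∈ K` (`mem_nb_lk`; the function
`f` vanishes outside card `q`). `hM.link` gives `w ∈ Ch K (k + 1)` with `bd K w = z`. Put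
`g τ = w (τ \ σ)` if `τ ∈ X`, `σ ⊆ τ`, `τ.card = q + 1`, and `0` otherwise. For `τ ∈ X`, `σ ⊆ τ`:
`bd X g τ = ∑_{p ∈ nb X τ} w ((insert p τ) \ σ) = ∑_{p ∈ nb K (τ \ σ)} w (insert p (τ \ σ)) =
z (τ \ σ) = f τ` (for `τ.card = q`; for other cards both sides are zero).
-/

namespace SingerVS

open scoped Pointwise

variable {H P : Type} [Group H] [DecidableEq P] [MulAction H P] {X : Set (Finset P)} {n : ℕ}

theorem HomMfd.col (hX : FreeCx H X) (hM : HomMfd n X) {σ : Finset P} (hσ : σ ∈ X) {q : ℕ}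
    (hq : q ≤ n) {f : Finset P → ZMod 2} (hf0 : ∀ τ, ¬ (τ ∈ X ∧ τ.card = q ∧ σ ⊆ τ) → f τ = 0)
    (hf : ∀ τ ∈ X, σ ⊆ τ → bd X f τ = 0) :
    ∃ g : Finset P → ZMod 2, (∀ τ, ¬ (τ ∈ X ∧ τ.card = q + 1 ∧ σ ⊆ τ) → g τ = 0) ∧
      ∀ τ ∈ X, σ ⊆ τ → bd X g τ = f τ := by
  classical
  have hf0' : ∀ τ, τ.card ≠ q → f τ = 0 := fun τ hτ => hf0 τ (fun h => hτ h.2.1)
  rcases lt_or_ge q σ.card with hlt | hge
  · refine ⟨0, fun _ _ => rfl, ?_⟩
    intro τ _ hs
    rw [map_zero, hf0 τ]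
    · rfl
    rintro ⟨_, h2, _⟩
    have := Finset.card_le_card hs
    omega
  have hk : q - σ.card + σ.card = q := by omega
  have hle := hM.dim σ hσ
  obtain ⟨w, hw, hwz⟩ := (hM.link σ hσ).1 (q - σ.card) (by omega) _
    (lkTop_pull_ch σ (q - σ.card) f) (by
      funext ρ
      by_cases hρ : ρ ∈ lk X σ
      · rw [lkTop_pull_bd hX hk hf0' hρ]
        exact hf _ hρ.2 Finset.subset_union_right
      · exact bd_apply_not hρ)
  refine ⟨fun τ => if τ ∈ X ∧ τ.card = q + 1 ∧ σ ⊆ τ then w (τ \ σ) else 0,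
    fun τ hτ => if_neg hτ, ?_⟩
  intro τ hτ hs
  have hρu : τ \ σ ∪ σ = τ := Finset.sdiff_union_of_subset hs
  have hρ : τ \ σ ∈ lk X σ := ⟨Finset.sdiff_disjoint, by rw [hρu]; exact hτ⟩
  have hρc : (τ \ σ).card = τ.card - σ.card := Finset.card_sdiff_of_subset hs
  have hsc := Finset.card_le_card hs
  have e1 : bd X (fun τ => if τ ∈ X ∧ τ.card = q + 1 ∧ σ ⊆ τ then w (τ \ σ) else 0) τ =
      bd (lk X σ) w (τ \ σ) := by
    rw [bd_apply hτ, bd_apply hρ, mem_nb_lk hX hρ, hρu]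
    refine Finset.sum_congr rfl fun p hp => ?_
    have h1 := (hX.mem_nb hτ).mp hp
    have h2 : insert p τ \ σ = insert p (τ \ σ) :=
      Finset.insert_sdiff_of_notMem τ (fun h => h1.1 (hs h))
    have h3 : p ∉ τ \ σ := fun h => h1.1 (Finset.mem_sdiff.mp h).1
    by_cases h4 : τ.card = q
    · rw [if_pos ⟨h1.2, by rw [Finset.card_insert_of_notMem h1.1, h4],
        hs.trans (Finset.subset_insert p τ)⟩, h2]
    · rw [if_neg]
      · refine (hw _ ?_).symm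
        rintro ⟨_, h5⟩
        rw [Finset.card_insert_of_notMem h3] at h5
        omega
      · rintro ⟨_, h5, _⟩
        rw [Finset.card_insert_of_notMem h1.1] at h5
        omega
  rw [e1, hwz]
  unfold lkTop_pull
  by_cases h4 : τ.card = q
  · rw [if_pos ⟨hρ, by omega⟩, hρu]
  · rw [if_neg, hf0' τ h4]
    rintro ⟨_, h5⟩
    omega

end SingerVS
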