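import Mathlib
import Pool.Agent.Lib_MP_394d50_vs.LkDefs

/-!
# Piece LKPAIR: the differentials on the functions on the pairs `σ ⊆ τ`, exactness of the rows
(about 170 lines)

* `D1L_mem`, `D2L_mem`: supports (`τ.card = q`: for `D2L` the values at `τ` use `insert p τ` with
  `q + 1` vertices; for `D1L` the values at `σ ⊆ τ` use `σ.erase p ⊆ τ`; `σ ∈ X` because `dl` vanishes
  outside `X`; for `D1L` also `τ ∈ X` because otherwise `F s τ = 0` for all `s`).
* `D1L_D1L`, `D2L_D2L`: at `σ ⊆ τ` all the pairs that occur satisfy `s ⊆ t`, so the conditions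
  `if s ⊆ t` can be dropped and one uses `FreeCx.dl_dl`, `FreeCx.bd_bd` (or `sum_pairs_zero`).
* `D1L_D2L`: for `σ ⊆ τ` both sides are `∑_{p ∈ σ} ∑_{q ∈ nb X τ} F (σ.erase p) (insert q τ)`.
  (if `σ ∉ X` or `τ ∉ X` both sides vanish; if `σ.erase p = ∅`, then `dl`-terms `F ∅ _` occur on
  both sides: the statement is for `F ∈ PairL X p q`, where `F ∅ _ = 0`).
* `rowL` (exactness of the cochains of a simplex): for `τ ∈ X` choose `v τ ∈ τ`
  (`FreeCx.ne`). Put `G σ τ = F (insert (v τ) σ) τ` if `τ ∈ X`, `σ ⊆ τ`, `σ.Nonempty`, `v τ ∉ σ`, and `0`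
  otherwise. `G ∈ PairL X (p - 1) q`. `D1L G = F`: let `σ ⊆ τ`, `σ ∈ X` with `p` vertices (`p ≥ 2`, so that
  all `σ.erase x` are non-empty). If `v ∈ σ`, the only non-zero term of
  `∑_{x ∈ σ} G (σ.erase x) τ` is `x = v`, which is `F σ τ`. If `v ∉ σ`: the sum is
  `∑_{x ∈ σ} F (insert v (σ.erase x)) τ`, and `D1L F = 0` at `insert v σ ⊆ τ` (a simplex) says
  `F σ τ + ∑_{x ∈ σ} F (insert v (σ.erase x)) τ = 0`. If `σ` has another number of vertices, both
  sides vanish.
* `row_zero`: for `F ∈ PairL X 1 q` with `D1L X F = 0` the value `F {v} τ`, `v ∈ τ`, does not depend on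
  `v`: at `{v, w} ⊆ τ` (a simplex) `D1L F = F {w} τ + F {v} τ = 0`.
-/

namespace SingerVS

open scoped Pointwise

variable {H P : Type} [Group H] [DecidableEq P] [MulAction H P] {X : Set (Finset P)}
variable {p q : ℕ} {F : Finset P → Finset P → ZMod 2}

theorem D1L_mem (hX : FreeCx H X) (hF : F ∈ PairL X p q) : D1L X F ∈ PairL X (p + 1) q := by
  classical
  intro σ τ h
  rw [D1L_apply]
  split_ifs with hs
  · by_cases hσ : σ ∈ X
    · rw [dl_apply hσ]
      refine Finset.sum_eq_zero fun x hx => hF _ _ ?_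
      rintro ⟨_, h2, h3, h4, _⟩
      rw [Finset.card_erase_of_mem hx] at h2
      have h5 := Finset.card_pos.mpr (hX.ne σ hσ)
      exact h ⟨hσ, by omega, h3, h4, hs⟩
    · exact dl_apply_not hσ
  · rfl

theorem D2L_mem (hX : FreeCx H X) (hF : F ∈ PairL X p (q + 1)) : D2L X F ∈ PairL X p q := by
  classical
  intro σ τ h
  rw [D2L_apply]
  split_ifs with hs
  · by_cases hτ : τ ∈ X
    · rw [bd_apply hτ]
      refine Finset.sum_eq_zero fun x hx => hF _ _ ?_
      rintro ⟨h1, h2, _, h4, _⟩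
      rw [Finset.card_insert_of_notMem ((hX.mem_nb hτ).mp hx).1] at h4
      exact h ⟨h1, h2, hτ, by omega, hs⟩
    · exact bd_apply_not hτ
  · rfl

theorem D1L_D1L (hX : FreeCx H X) (hF : F ∈ PairL X p q) : D1L X (D1L X F) = 0 := by
  classical
  have _ := hF
  funext σ τ
  rw [D1L_apply]
  split_ifs with hs
  · have h1 := congrFun (hX.dl_dl (fun s => F s τ)) σ
    by_cases hσ : σ ∈ X
    · rw [dl_apply hσ] at h1 ⊢
      refine Eq.trans (Finset.sum_congr rfl fun x hx => ?_) h1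
      exact if_pos ((Finset.erase_subset x σ).trans hs)
    · exact dl_apply_not hσ
  · rfl

theorem D2L_D2L (hX : FreeCx H X) (hF : F ∈ PairL X p q) : D2L X (D2L X F) = 0 := by
  classical
  have _ := hF
  funext σ τ
  rw [D2L_apply]
  split_ifs with hs
  · have h1 := congrFun (hX.bd_bd (F σ)) τ
    by_cases hτ : τ ∈ X
    · rw [bd_apply hτ] at h1 ⊢
      refine Eq.trans (Finset.sum_congr rfl fun x hx => ?_) h1
      exact if_pos (hs.trans (Finset.subset_insert x τ))
    · exact bd_apply_not hτ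
  · rfl

theorem D1L_D2L (hX : FreeCx H X) (hF : F ∈ PairL X p q) :
    D1L X (D2L X F) = D2L X (D1L X F) := by
  classical
  have _ := hX
  have _ := hF
  funext σ τ
  rw [D1L_apply, D2L_apply]
  split_ifs with hs
  · by_cases hσ : σ ∈ X
    · by_cases hτ : τ ∈ X
      · rw [dl_apply hσ, bd_apply hτ]
        have e1 : ∀ x ∈ σ, D2L X F (σ.erase x) τ =
            ∑ y ∈ nb X τ, F (σ.erase x) (insert y τ) := by
          intro x _
          rw [D2L_apply, if_pos ((Finset.erase_subset x σ).trans hs), bd_apply hτ]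
        have e2 : ∀ y ∈ nb X τ, D1L X F σ (insert y τ) =
            ∑ x ∈ σ, F (σ.erase x) (insert y τ) := by
          intro y _
          rw [D1L_apply, if_pos (hs.trans (Finset.subset_insert y τ)), dl_apply hσ]
        rw [Finset.sum_congr rfl e2, Finset.sum_congr rfl e1, Finset.sum_comm]
      · rw [dl_apply hσ, bd_apply_not hτ]
        refine Finset.sum_eq_zero fun x _ => ?_
        rw [D2L_apply, bd_apply_not hτ, ite_self]
    · by_cases hτ : τ ∈ X
      · rw [dl_apply_not hσ, bd_apply hτ]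
        refine (Finset.sum_eq_zero fun y _ => ?_).symm
        rw [D1L_apply, dl_apply_not hσ, ite_self]
      · rw [dl_apply_not hσ, bd_apply_not hτ]
  · rfl

theorem rowL (hX : FreeCx H X) (hp : 2 ≤ p) (hF : F ∈ PairL X p q) (h0 : D1L X F = 0) :
    ∃ G ∈ PairL X (p - 1) q, D1L X G = F := by
  classical
  by_cases hP : Nonempty P
  swap
  · refine ⟨0, zero_mem _, ?_⟩
    rw [map_zero]
    funext σ τ
    refine (hF σ τ fun h => ?_).symm
    obtain ⟨v, _⟩ := hX.ne σ h.1
    exact hP ⟨v⟩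
  obtain ⟨v₀⟩ := hP
  have hv : ∀ τ : Finset P, ∃ v : P, τ ∈ X → v ∈ τ := by
    intro τ
    by_cases hτ : τ ∈ X
    · obtain ⟨v, hv⟩ := hX.ne τ hτ
      exact ⟨v, fun _ => hv⟩
    · exact ⟨v₀, fun h => absurd h hτ⟩
  choose v hv using hv
  let G : Finset P → Finset P → ZMod 2 := fun σ τ =>
    if τ ∈ X ∧ σ ⊆ τ ∧ σ.Nonempty ∧ v τ ∉ σ then F (insert (v τ) σ) τ else 0
  have hG : G ∈ PairL X (p - 1) q := by
    intro σ τ h
    show (if τ ∈ X ∧ σ ⊆ τ ∧ σ.Nonempty ∧ v τ ∉ σ then F (insert (v τ) σ) τ else 0) = 0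
    split_ifs with h1
    · refine hF _ _ ?_
      rintro ⟨h2, h3, _, h5, _⟩
      rw [Finset.card_insert_of_notMem h1.2.2.2] at h3
      exact h ⟨hX.down _ h2 _ (Finset.subset_insert _ _) h1.2.2.1, by omega, h1.1, h5, h1.2.1⟩
    · rfl
  refine ⟨G, hG, ?_⟩
  funext σ τ
  by_cases hall : σ ∈ X ∧ σ.card = p ∧ τ ∈ X ∧ τ.card = q ∧ σ ⊆ τ
  · obtain ⟨hσ, hσc, hτ, hτc, hs⟩ := hall
    rw [D1L_apply, if_pos hs, dl_apply hσ]
    have hne : ∀ x ∈ σ, (σ.erase x).Nonempty := by
      intro x hx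
      rw [← Finset.card_pos, Finset.card_erase_of_mem hx]
      omega
    by_cases hvσ : v τ ∈ σ
    · rw [Finset.sum_eq_single_of_mem (v τ) hvσ]
      · show (if τ ∈ X ∧ σ.erase (v τ) ⊆ τ ∧ (σ.erase (v τ)).Nonempty ∧ v τ ∉ σ.erase (v τ)
          then F (insert (v τ) (σ.erase (v τ))) τ else 0) = F σ τ
        rw [if_pos ⟨hτ, (Finset.erase_subset _ σ).trans hs, hne _ hvσ,
          Finset.notMem_erase (v τ) σ⟩, Finset.insert_erase hvσ]
      · intro x _ hxv
        refine if_neg fun h => h.2.2.2 ?_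
        exact Finset.mem_erase.mpr ⟨hxv.symm, hvσ⟩
    · have e1 : ∀ x ∈ σ, G (σ.erase x) τ = F ((insert (v τ) σ).erase x) τ := by
        intro x hx
        have hxv : v τ ≠ x := fun h => hvσ (h ▸ hx)
        show (if τ ∈ X ∧ σ.erase x ⊆ τ ∧ (σ.erase x).Nonempty ∧ v τ ∉ σ.erase x
          then F (insert (v τ) (σ.erase x)) τ else 0) = F ((insert (v τ) σ).erase x) τ
        rw [if_pos ⟨hτ, (Finset.erase_subset _ σ).trans hs, hne _ hx,
          fun h => hvσ (Finset.mem_of_mem_erase h)⟩, Finset.erase_insert_of_ne hxv]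
      have hsub : insert (v τ) σ ⊆ τ := Finset.insert_subset (hv τ hτ) hs
      have hI : insert (v τ) σ ∈ X := hX.down τ hτ _ hsub (Finset.insert_nonempty _ _)
      have h3 := congrFun (congrFun h0 (insert (v τ) σ)) τ
      rw [D1L_apply, if_pos hsub, dl_apply hI, Finset.sum_insert hvσ,
        Finset.erase_insert hvσ] at h3
      have h3' : F σ τ + ∑ x ∈ σ, F ((insert (v τ) σ).erase x) τ = 0 := h3
      have e2 : ∑ x ∈ σ, G (σ.erase x) τ = ∑ x ∈ σ, F ((insert (v τ) σ).erase x) τ :=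
        Finset.sum_congr rfl e1
      show ∑ x ∈ σ, G (σ.erase x) τ = F σ τ
      rw [e2]
      have h4 : F σ τ + F σ τ = 0 := ZModModule.add_self _
      exact add_left_cancel (h3'.trans h4.symm)
  · rw [hF σ τ hall]
    have h1 := D1L_mem hX hG
    have h2 : p - 1 + 1 = p := by omega
    rw [h2] at h1
    exact h1 σ τ hall

theorem row_zero (hX : FreeCx H X) (hF : F ∈ PairL X 1 q) (h0 : D1L X F = 0) {τ : Finset P}
    (hτ : τ ∈ X) {v w : P} (hv : v ∈ τ) (hw : w ∈ τ) : F {v} τ = F {w} τ := by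
  classical
  have _ := hF
  by_cases hvw : v = w
  · rw [hvw]
  have hsub : ({v, w} : Finset P) ⊆ τ := by
    intro x hx
    rcases Finset.mem_insert.mp hx with rfl | hx
    · exact hv
    · rw [Finset.mem_singleton] at hx
      rw [hx]
      exact hw
  have hI : ({v, w} : Finset P) ∈ X := hX.down τ hτ _ hsub (Finset.insert_nonempty _ _)
  have h3 := congrFun (congrFun h0 {v, w}) τ
  have hvw' : v ∉ ({w} : Finset P) := by
    rw [Finset.mem_singleton]
    exact hvw
  have e1 : ({v, w} : Finset P).erase v = {w} := Finset.erase_insert hvw'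
  have e2 : ({v, w} : Finset P).erase w = {v} := by
    rw [Finset.pair_comm]
    exact Finset.erase_insert (by
      rw [Finset.mem_singleton]
      exact Ne.symm hvw)
  rw [D1L_apply, if_pos hsub, dl_apply hI, Finset.sum_insert hvw', Finset.sum_singleton,
    e1, e2] at h3
  have h3' : F {w} τ + F {v} τ = 0 := h3
  have h4 : F {w} τ + F {w} τ = 0 := ZModModule.add_self _
  exact add_left_cancel (h3'.trans h4.symm)

end SingerVS
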