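import Mathlib
import Pool.Agent.Lib_MP_394d50_vs.LkTop
import Pool.Agent.Lib_MP_394d50_vs.LkCol
import Pool.Agent.Lib_MP_394d50_vs.LkCoh
import Pool.Agent.Lib_MP_394d50_vs.LkPair

/-!
# Poincaré duality: an acyclic homology manifold has the locally finite homology of `ℝⁿ`
-/

namespace SingerVS

open scoped Pointwise

variable {H P : Type} [Group H] [DecidableEq P] [MulAction H P] {X : Set (Finset P)} {n : ℕ}

/-- Exactness of the columns. -/
private theorem lz_col (hX : FreeCx H X) (hM : HomMfd n X) {p q : ℕ} (hq : q ≤ n)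
    {F : Finset P → Finset P → ZMod 2} (hF : F ∈ PairL X p q) (h0 : D2L X F = 0) :
    ∃ G ∈ PairL X p (q + 1), D2L X G = F := by
  classical
  have h1 : ∀ σ, ∃ g : Finset P → ZMod 2, σ ∈ X ∧ σ.card = p →
      (∀ τ, ¬ (τ ∈ X ∧ τ.card = q + 1 ∧ σ ⊆ τ) → g τ = 0) ∧
      ∀ τ ∈ X, σ ⊆ τ → bd X g τ = F σ τ := by
    intro σ
    by_cases hσ : σ ∈ X ∧ σ.card = p
    · obtain ⟨g, hg1, hg2⟩ := hM.col hX hσ.1 hq (f := F σ)
        (fun τ hτ => hF σ τ fun h => hτ ⟨h.2.2.1, h.2.2.2.1, h.2.2.2.2⟩) (fun τ hτ hs => by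
          have h2 := congrFun (congrFun h0 σ) τ
          rw [D2L_apply, if_pos hs] at h2
          exact h2)
      exact ⟨g, fun _ => ⟨hg1, hg2⟩⟩
    · exact ⟨0, fun h => absurd h hσ⟩
  choose g hg using h1
  refine ⟨fun σ τ => if σ ∈ X ∧ σ.card = p then g σ τ else 0, ?_, ?_⟩
  · intro σ τ h
    show (if σ ∈ X ∧ σ.card = p then g σ τ else 0) = 0
    by_cases hσ : σ ∈ X ∧ σ.card = p
    · rw [if_pos hσ]
      exact (hg σ hσ).1 τ fun h2 => h ⟨hσ.1, hσ.2, h2.1, h2.2.1, h2.2.2⟩
    · rw [if_neg hσ]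
  · funext σ τ
    rw [D2L_apply]
    by_cases hσ : σ ∈ X ∧ σ.card = p
    · by_cases hs : σ ⊆ τ
      · rw [if_pos hs]
        have e : (fun τ => if σ ∈ X ∧ σ.card = p then g σ τ else 0) = g σ := by
          funext t
          rw [if_pos hσ]
        show bd X (fun τ => if σ ∈ X ∧ σ.card = p then g σ τ else 0) τ = F σ τ
        rw [e]
        by_cases hτ : τ ∈ X
        · exact (hg σ hσ).2 τ hτ hs
        · rw [bd_apply_not hτ, hF σ τ fun h => hτ h.2.2.1]
      · rw [if_neg hs, hF σ τ fun h => hs h.2.2.2.2]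
    · rw [hF σ τ fun h => hσ ⟨h.1, h.2.1⟩]
      by_cases hs : σ ⊆ τ
      · have e : (fun τ => if σ ∈ X ∧ σ.card = p then g σ τ else 0) =
            (0 : Finset P → ZMod 2) := by
          funext t
          rw [if_neg hσ]
          rfl
        rw [if_pos hs]
        show bd X (fun τ => if σ ∈ X ∧ σ.card = p then g σ τ else 0) τ = 0
        rw [e, map_zero]
        rfl
      · rw [if_neg hs]

/-- The kernel in the top row. -/
private theorem lz_top (hX : FreeCx H X) (hM : HomMfd n X) {p : ℕ}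
    {F : Finset P → Finset P → ZMod 2} (hF : F ∈ PairL X p (n + 1)) (h0 : D2L X F = 0) :
    ∃ c ∈ Ch (ZMod 2) X p, ∀ σ ∈ X, σ.card = p → ∀ τ ∈ X, σ ⊆ τ → τ.card = n + 1 →
      F σ τ = c σ := by
  classical
  have h1 : ∀ σ, ∃ τ, σ ∈ X → τ ∈ X ∧ σ ⊆ τ ∧ τ.card = n + 1 := by
    intro σ
    by_cases hσ : σ ∈ X
    · obtain ⟨τ, h⟩ := hM.pure hX hσ
      exact ⟨τ, fun _ => h⟩
    · exact ⟨∅, fun h => absurd h hσ⟩
  choose t ht using h1
  refine ⟨fun σ => if σ ∈ X ∧ σ.card = p then F σ (t σ) else 0, fun σ hσ => if_neg hσ, ?_⟩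
  intro σ hσ hc τ hτ hs hcτ
  show F σ τ = if σ ∈ X ∧ σ.card = p then F σ (t σ) else 0
  rw [if_pos ⟨hσ, hc⟩]
  refine hM.top_local hX hσ (f := F σ) ?_ ?_ τ hτ (t σ) (ht σ hσ).1 hs (ht σ hσ).2.1 hcτ
    (ht σ hσ).2.2
  · intro τ' _ hs'
    have h2 := congrFun (congrFun h0 σ) τ'
    rw [D2L_apply, if_pos hs'] at h2
    exact h2
  · intro τ' hτ'
    exact hF σ τ' fun h => hτ' h.2.2.2.1

private theorem lz_two {M : Type} [AddCommGroup M] [Module (ZMod 2) M] (x : M) : x + x = 0 :=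
  ZModModule.add_self x

private theorem lz_T_top (hX : FreeCx H X) (hac : Acyc X) (hM : HomMfd n X) {p : ℕ} (hp : 2 ≤ p)
    {F : Finset P → Finset P → ZMod 2} (hF : F ∈ PairL X p (n + 1)) (h1 : D1L X F = 0)
    (h2 : D2L X F = 0) : ∃ u ∈ PairL X (p - 1) (n + 1), D1L X u = F ∧ D2L X u = 0 := by
  classical
  obtain ⟨c, hc, hcF⟩ := lz_top hX hM hF h2
  have hdc : dl X c = 0 := by
    funext σ
    by_cases hσ : σ ∈ X
    · by_cases hσc : σ.card = p + 1
      · obtain ⟨τ, hτ, hs, hcτ⟩ := hM.pure hX hσ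
        have h3 := congrFun (congrFun h1 σ) τ
        rw [D1L_apply, if_pos hs, dl_apply hσ] at h3
        rw [dl_apply hσ]
        refine Eq.trans (Finset.sum_congr rfl fun x hx => ?_) h3
        have hxX : σ.erase x ∈ X := hX.down σ hσ _ (Finset.erase_subset x σ) (by
          rw [← Finset.card_pos, Finset.card_erase_of_mem hx]
          omega)
        exact (hcF _ hxX (by rw [Finset.card_erase_of_mem hx]; omega) τ hτ
          ((Finset.erase_subset x σ).trans hs) hcτ).symm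
      · exact (hX.ch_dl hc) σ fun h => hσc h.2
    · exact dl_apply_not hσ
  obtain ⟨b, hb, hbc⟩ := hac.co_exact hX hp hc hdc
  refine ⟨fun σ τ => if σ ∈ X ∧ σ.card = p - 1 ∧ τ ∈ X ∧ τ.card = n + 1 ∧ σ ⊆ τ then b σ else 0,
    fun σ τ h => if_neg h, ?_, ?_⟩
  · funext σ τ
    rw [D1L_apply]
    by_cases hall : σ ∈ X ∧ σ.card = p ∧ τ ∈ X ∧ τ.card = n + 1 ∧ σ ⊆ τ
    · obtain ⟨hσ, hσc, hτ, hτc, hs⟩ := hall
      rw [if_pos hs, dl_apply hσ, hcF σ hσ hσc τ hτ hs hτc, ← hbc, dl_apply hσ]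
      refine Finset.sum_congr rfl fun x hx => ?_
      have hxc : (σ.erase x).card = p - 1 := by rw [Finset.card_erase_of_mem hx, hσc]
      have hxX : σ.erase x ∈ X := hX.down σ hσ _ (Finset.erase_subset x σ) (by
        rw [← Finset.card_pos, hxc]
        omega)
      exact if_pos ⟨hxX, hxc, hτ, hτc, (Finset.erase_subset x σ).trans hs⟩
    · rw [hF σ τ hall]
      split_ifs with hs
      · by_cases hσ : σ ∈ X
        · rw [dl_apply hσ]
          refine Finset.sum_eq_zero fun x hx => if_neg ?_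
          rintro ⟨_, hxc, hτ, hτc, _⟩
          rw [Finset.card_erase_of_mem hx] at hxc
          exact hall ⟨hσ, by omega, hτ, hτc, hs⟩
        · exact dl_apply_not hσ
      · rfl
  · funext σ τ
    rw [D2L_apply]
    split_ifs with hs
    · by_cases hall : σ ∈ X ∧ σ.card = p - 1 ∧ τ ∈ X ∧ τ.card = n
      · obtain ⟨hσ, hσc, hτ, hτc⟩ := hall
        rw [bd_apply hτ]
        have e : ∀ x ∈ nb X τ, (if σ ∈ X ∧ σ.card = p - 1 ∧ insert x τ ∈ X ∧
            (insert x τ).card = n + 1 ∧ σ ⊆ insert x τ then b σ else 0) = b σ := by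
          intro x hx
          obtain ⟨hx1, hx2⟩ := (hX.mem_nb hτ).mp hx
          exact if_pos ⟨hσ, hσc, hx2, by rw [Finset.card_insert_of_notMem hx1, hτc],
            hs.trans (Finset.subset_insert x τ)⟩
        rw [Finset.sum_congr rfl e, Finset.sum_const, hM.nb_two hX hτ hτc, two_smul]
        exact lz_two _
      · by_cases hτ : τ ∈ X
        · rw [bd_apply hτ]
          refine Finset.sum_eq_zero fun x hx => if_neg ?_
          rintro ⟨h3, h4, _, h6, _⟩
          rw [Finset.card_insert_of_notMem ((hX.mem_nb hτ).mp hx).1] at h6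
          exact hall ⟨h3, h4, hτ, by omega⟩
        · exact bd_apply_not hτ
    · rfl

/-- The zigzag. -/
private theorem lz_S (hX : FreeCx H X) (hac : Acyc X) (hM : HomMfd n X) : ∀ (d p q : ℕ),
    q + d = n → 1 ≤ p → ∀ F ∈ PairL X p q, D1L X F = 0 → D2L X F = 0 →
      ∃ y ∈ PairL X p (q + 1), D1L X y = 0 ∧ D2L X y = F := by
  intro d
  induction d with
  | zero =>
    intro p q hq hp F hF h1 h2
    obtain ⟨y, hy, hyF⟩ := lz_col hX hM (by omega) hF h2
    have hy1 : D1L X y ∈ PairL X (p + 1) (q + 1) := D1L_mem hX hy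
    have hq' : q + 1 = n + 1 := by omega
    have hy2 : D2L X (D1L X y) = 0 := by rw [← D1L_D2L hX hy, hyF, h1]
    rw [hq'] at hy1
    obtain ⟨u, hu, hu1, hu2⟩ := lz_T_top hX hac hM (p := p + 1) (by omega) hy1
      (D1L_D1L hX hy) hy2
    rw [← hq'] at hu
    refine ⟨y + u, add_mem hy hu, ?_, ?_⟩
    · rw [map_add, hu1]
      exact lz_two _
    · rw [map_add, hyF, hu2, add_zero]
  | succ d ih =>
    intro p q hq hp F hF h1 h2
    obtain ⟨y, hy, hyF⟩ := lz_col hX hM (by omega) hF h2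
    have hy1 : D1L X y ∈ PairL X (p + 1) (q + 1) := D1L_mem hX hy
    have hy2 : D2L X (D1L X y) = 0 := by rw [← D1L_D2L hX hy, hyF, h1]
    -- `T (p + 1, q + 1)` from `S (p + 1, q + 1)`
    obtain ⟨z, hz, hz1, hz2⟩ := ih (p + 1) (q + 1) (by omega) (by omega) _ hy1
      (D1L_D1L hX hy) hy2
    obtain ⟨w, hw, hwz⟩ := rowL hX (by omega) hz hz1
    have hp1 : p + 1 - 1 = p := by omega
    rw [hp1] at hw
    have hu : D2L X w ∈ PairL X p (q + 1) := D2L_mem hX hw
    refine ⟨y + D2L X w, add_mem hy hu, ?_, ?_⟩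
    · rw [map_add, D1L_D2L hX hw, hwz, hz2]
      exact lz_two _
    · rw [map_add, hyF, D2L_D2L hX hw, add_zero]

open scoped Classical in
/-- The function `({v}, τ) ↦ z τ` for `v ∈ τ`. -/
private noncomputable def lzE (X : Set (Finset P)) (z : Finset P → ZMod 2) :
    Finset P → Finset P → ZMod 2 := fun σ τ => if σ ∈ X ∧ σ.card = 1 ∧ σ ⊆ τ then z τ else 0

private theorem lzE_mem {q : ℕ} {z : Finset P → ZMod 2} (hz : z ∈ Ch (ZMod 2) X q) :
    lzE X z ∈ PairL X 1 q := by
  intro σ τ h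
  unfold lzE
  split_ifs with h1
  · exact hz τ fun h2 => h ⟨h1.1, h1.2.1, h2.1, h2.2, h1.2.2⟩
  · rfl

private theorem lzE_D1 (hX : FreeCx H X) {q : ℕ} {z : Finset P → ZMod 2}
    (hz : z ∈ Ch (ZMod 2) X q) : D1L X (lzE X z) = 0 := by
  funext σ τ
  rw [D1L_apply]
  split_ifs with hs
  · by_cases hσ : σ ∈ X
    · rw [dl_apply hσ]
      by_cases hc : σ.card = 2
      · by_cases hτ : τ ∈ X
        · have e : ∀ x ∈ σ, lzE X z (σ.erase x) τ = z τ := by
            intro x hx
            have hxc : (σ.erase x).card = 1 := by rw [Finset.card_erase_of_mem hx, hc]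
            have hxX : σ.erase x ∈ X := hX.down σ hσ _ (Finset.erase_subset x σ) (by
              rw [← Finset.card_pos, hxc]
              omega)
            exact if_pos ⟨hxX, hxc, (Finset.erase_subset x σ).trans hs⟩
          rw [Finset.sum_congr rfl e, Finset.sum_const, hc, two_smul]
          exact lz_two _
        · refine Finset.sum_eq_zero fun x _ => ?_
          unfold lzE
          rw [hz τ fun h => hτ h.1, ite_self]
      · refine Finset.sum_eq_zero fun x hx => if_neg ?_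
        rintro ⟨_, h2, _⟩
        rw [Finset.card_erase_of_mem hx] at h2
        have := Finset.card_pos.mpr (hX.ne σ hσ)
        omega
    · exact dl_apply_not hσ
  · rfl

private theorem lzE_D2 {q : ℕ} {z : Finset P → ZMod 2} (_ : z ∈ Ch (ZMod 2) X q) {v : P}
    (hv : {v} ∈ X) {τ : Finset P} (hvτ : v ∈ τ) : bd X (lzE X z {v}) τ = bd X z τ := by
  by_cases hτ : τ ∈ X
  · rw [bd_apply hτ, bd_apply hτ]
    refine Finset.sum_congr rfl fun x _ => ?_
    exact if_pos ⟨hv, Finset.card_singleton v, Finset.singleton_subset_iff.mpr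
      (Finset.mem_insert_of_mem hvτ)⟩
  · rw [bd_apply_not hτ, bd_apply_not hτ]

private theorem lzE_D2' {q : ℕ} {z : Finset P → ZMod 2} (hz : z ∈ Ch (ZMod 2) X q)
    (h0 : bd X z = 0) : D2L X (lzE X z) = 0 := by
  funext σ τ
  rw [D2L_apply]
  split_ifs with hs
  · by_cases hσ : σ ∈ X ∧ σ.card = 1
    · obtain ⟨v, rfl⟩ := Finset.card_eq_one.mp hσ.2
      rw [lzE_D2 hz hσ.1 (Finset.singleton_subset_iff.mp hs), h0]
      rfl
    · have e : lzE X z σ = 0 := by
        funext t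
        exact if_neg fun h => hσ ⟨h.1, h.2.1⟩
      rw [e, map_zero]
      rfl
  · rfl

/-- An acyclic homology manifold has the locally finite homology of `ℝⁿ`. -/
theorem HomMfd.lfR (hX : FreeCx H X) (hac : Acyc X) (hM : HomMfd n X) : LfR n X := by
  classical
  refine ⟨hM.dim, ?_, ?_⟩
  · intro k hk1 hkn c hc hbc
    obtain ⟨d, hd⟩ : ∃ d, k + d = n := ⟨n - k, by omega⟩
    obtain ⟨y, hy, hy1, hy2⟩ := lz_S hX hac hM d 1 k hd le_rfl _ (lzE_mem hc) (lzE_D1 hX hc)
      (lzE_D2' hc hbc)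
    -- a vertex of every simplex
    have hv : ∀ τ, ∃ v : P, τ ∈ X → v ∈ τ := by
      intro τ
      by_cases hτ : τ ∈ X
      · obtain ⟨v, hv⟩ := hX.ne τ hτ
        exact ⟨v, fun _ => hv⟩
      · obtain ⟨v, _⟩ := hac.pt
        exact ⟨v, fun h => absurd h hτ⟩
    choose v hv using hv
    refine ⟨fun τ => if τ ∈ X ∧ τ.card = k + 1 then y {v τ} τ else 0, fun τ hτ => if_neg hτ, ?_⟩
    funext τ
    by_cases hτ : τ ∈ X ∧ τ.card = k
    · have hvX : {v τ} ∈ X := hX.single_mem hτ.1 (hv τ hτ.1)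
      have h3 := congrFun (congrFun hy2 {v τ}) τ
      rw [D2L_apply, if_pos (Finset.singleton_subset_iff.mpr (hv τ hτ.1)), bd_apply hτ.1] at h3
      have h4 : lzE X c {v τ} τ = c τ := if_pos ⟨hvX, Finset.card_singleton _,
        Finset.singleton_subset_iff.mpr (hv τ hτ.1)⟩
      rw [← h4, ← h3, bd_apply hτ.1]
      refine Finset.sum_congr rfl fun x hx => ?_
      obtain ⟨hx1, hx2⟩ := (hX.mem_nb hτ.1).mp hx
      have h5 : (insert x τ).card = k + 1 := by rw [Finset.card_insert_of_notMem hx1, hτ.2]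
      show (if insert x τ ∈ X ∧ (insert x τ).card = k + 1 then
        y {v (insert x τ)} (insert x τ) else 0) = y {v τ} (insert x τ)
      rw [if_pos ⟨hx2, h5⟩]
      exact row_zero hX hy hy1 hx2 (hv _ hx2) (Finset.mem_insert_of_mem (hv τ hτ.1))
    · rw [hc τ hτ]
      have h6 : (fun τ => if τ ∈ X ∧ τ.card = k + 1 then y {v τ} τ else 0) ∈
          Ch (ZMod 2) X (k + 1) := fun t ht => if_neg ht
      exact hX.ch_bd h6 τ hτ
  · -- the fundamental cycle
    obtain ⟨v₀, hv₀⟩ := hac.pt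
    obtain ⟨τ₀, hτ₀, _, hτc⟩ := hM.pure hX hv₀
    have hones : onesT X n ∈ Ch (ZMod 2) X (n + 1) := fun σ hσ => if_neg hσ
    refine ⟨onesT X n, hones, ?_, hM.ones_cycle hX, ?_⟩
    · intro h
      have h1 := congrFun h τ₀
      have h2 : onesT X n τ₀ = 1 := if_pos ⟨hτ₀, hτc⟩
      rw [h2] at h1
      exact one_ne_zero h1
    · intro z hz hbz
      obtain ⟨c, hc, hcF⟩ := lz_top hX hM (lzE_mem hz) (lzE_D2' hz hbz)
      have hdc : dl X c = 0 := by
        funext σ
        by_cases hσ : σ ∈ X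
        · by_cases hσc : σ.card = 1 + 1
          · obtain ⟨τ, hτ, hs, hcτ⟩ := hM.pure hX hσ
            have h3 := congrFun (congrFun (lzE_D1 hX hz) σ) τ
            rw [D1L_apply, if_pos hs, dl_apply hσ] at h3
            rw [dl_apply hσ]
            refine Eq.trans (Finset.sum_congr rfl fun x hx => ?_) h3
            have hxX : σ.erase x ∈ X := hX.down σ hσ _ (Finset.erase_subset x σ) (by
              rw [← Finset.card_pos, Finset.card_erase_of_mem hx]
              omega)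
            exact (hcF _ hxX (by rw [Finset.card_erase_of_mem hx]; omega) τ hτ
              ((Finset.erase_subset x σ).trans hs) hcτ).symm
          · exact (hX.ch_dl hc) σ fun h => hσc h.2
        · exact dl_apply_not hσ
      have hval : ∀ τ, τ ∈ X → τ.card = n + 1 → z τ = c {v₀} := by
        intro τ hτ hcτ
        obtain ⟨v, hv⟩ := hX.ne τ hτ
        have hvX : {v} ∈ X := hX.single_mem hτ hv
        have h4 : lzE X z {v} τ = z τ := if_pos ⟨hvX, Finset.card_singleton _,
          Finset.singleton_subset_iff.mpr hv⟩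
        rw [← h4, hcF {v} hvX (Finset.card_singleton v) τ hτ
          (Finset.singleton_subset_iff.mpr hv) hcτ]
        exact hac.co_const hX hc hdc hvX hv₀
      have h01 : ∀ x : ZMod 2, x = 0 ∨ x = 1 := by decide
      rcases h01 (c {v₀}) with h | h
      · left
        funext τ
        by_cases hτ : τ ∈ X ∧ τ.card = n + 1
        · rw [hval τ hτ.1 hτ.2, h]
          rfl
        · exact hz τ hτ
      · right
        funext τ
        by_cases hτ : τ ∈ X ∧ τ.card = n + 1
        · rw [hval τ hτ.1 hτ.2, h]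
          exact (if_pos hτ).symm
        · rw [hz τ hτ]
          exact (if_neg hτ).symm

end SingerVS
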