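import Mathlib
import Pool.Agent.Lib_MP_394d50_vs.GQuo

/-!
# Invariant orders and subgroups of finite index

`Sep H X`: no element `h ≠ 1` maps a vertex of a simplex into the same simplex.
-/

namespace SingerVS

open SingerRA
open scoped Pointwise

section

variable {H P : Type} [Group H] [DecidableEq P] [MulAction H P] {X : Set (Finset P)}

/-- No element `h ≠ 1` maps a vertex of a simplex into the same simplex. -/
def Sep (H : Type) [Group H] {P : Type} [MulAction H P] (X : Set (Finset P)) : Prop :=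
  ∀ h : H, ∀ σ ∈ X, ∀ p ∈ σ, h • p ∈ σ → h = 1

/-- A copy of a type. -/
structure Cpy (P : Type) where
  /-- the element -/
  val : P

/-- A linear order which refines a linear order of the image of a map. -/
theorem exists_order_of_map (P O : Type) (m : P → O) : ∃ (lo : LinearOrder P) (r : O → O → Prop),
    ∀ x y : P, m x ≠ m y → (lo.lt x y ↔ r (m x) (m y)) := by
  classical
  letI l1 : LinearOrder O := IsWellOrder.linearOrder WellOrderingRel
  letI l2 : LinearOrder (Cpy P) := IsWellOrder.linearOrder WellOrderingRel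
  let F : P → O ×ₗ Cpy P := fun p => toLex (m p, ⟨p⟩)
  have hF : Function.Injective F := fun p q h => congrArg (fun x => (ofLex x).2.val) h
  let lo : LinearOrder P := LinearOrder.lift' F hF
  have hlt : ∀ x y : P, lo.lt x y ↔ m x < m y ∨ (m x = m y ∧ (⟨x⟩ : Cpy P) < ⟨y⟩) := by
    intro x y
    have h1 : lo.lt x y ↔ F x < F y := Iff.rfl
    rw [h1, Prod.Lex.lt_iff]
    rfl
  refine ⟨lo, fun a b => a < b, fun x y hne => ?_⟩
  rw [hlt]
  constructor
  · rintro (h | ⟨h, _⟩)
    · exact h
    · exact absurd h hne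
  · exact Or.inl

omit [DecidableEq P] in
/-- A linear order which is invariant on every simplex. -/
theorem Sep.exists_order (hs : Sep H X) : ∃ lo : LinearOrder P,
    ∀ h : H, ∀ σ ∈ X, ∀ x ∈ σ, ∀ y ∈ σ, lo.lt x y → lo.lt (h • x) (h • y) := by
  obtain ⟨lo, r, hr⟩ := exists_order_of_map P (MulAction.orbitRel.Quotient H P)
    (fun p => Quotient.mk (MulAction.orbitRel H P) p)
  refine ⟨lo, fun h σ hσ x hx y hy hxy => ?_⟩
  have hm : ∀ p : P, (Quotient.mk (MulAction.orbitRel H P) (h • p)) =
      Quotient.mk (MulAction.orbitRel H P) p := by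
    intro p
    exact Quotient.sound (MulAction.orbitRel_apply.mpr ⟨h, rfl⟩)
  have hne : Quotient.mk (MulAction.orbitRel H P) x ≠ Quotient.mk (MulAction.orbitRel H P) y := by
    intro h1
    have h3 : (MulAction.orbitRel H P) x y := Quotient.exact h1
    obtain ⟨g, hg⟩ := MulAction.orbitRel_apply.mp h3
    have hg' : g • y = x := hg
    have h4 : g = 1 := hs g σ hσ y hy (by rw [hg']; exact hx)
    rw [h4, one_smul] at hg'
    rw [hg'] at hxy
    exact lt_irrefl x hxy
  have h1 := (hr x y hne).1 hxy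
  refine (hr (h • x) (h • y) ?_).2 ?_
  · show Quotient.mk (MulAction.orbitRel H P) (h • x) ≠ Quotient.mk (MulAction.orbitRel H P) (h • y)
    rw [hm, hm]
    exact hne
  · show r (Quotient.mk (MulAction.orbitRel H P) (h • x))
      (Quotient.mk (MulAction.orbitRel H P) (h • y))
    rw [hm, hm]
    exact h1

/-- The restriction to a subgroup of finite index. -/
theorem FreeCx.of_finiteIndex (hX : FreeCx H X) (K : Subgroup H) (hK : K.FiniteIndex) :
    FreeCx K X := by
  classical
  obtain ⟨R, hR, hR'⟩ := hX.fin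
  refine ⟨hX.ne, hX.down, fun h σ hσ => hX.inv h.1 σ hσ, fun h σ hσ e =>
    Subtype.ext (hX.free h.1 σ hσ e), ?_⟩
  haveI : Finite (Quotient (QuotientGroup.rightRel K)) :=
    (QuotientGroup.quotientRightRelEquivQuotientLeftRel K).finite_iff.2 inferInstance
  haveI := Fintype.ofFinite (Quotient (QuotientGroup.rightRel K))
  let T : Finset H := Finset.univ.image fun q : Quotient (QuotientGroup.rightRel K) => q.out
  refine ⟨T.biUnion fun t => R.image fun r => t • r, ?_, ?_⟩
  · intro r hr
    rw [Finset.mem_biUnion] at hr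
    obtain ⟨t, _, hr⟩ := hr
    rw [Finset.mem_image] at hr
    obtain ⟨s, hs, rfl⟩ := hr
    exact hX.inv t s (hR s hs)
  · intro σ hσ
    obtain ⟨h, r, hr, rfl⟩ := hR' σ hσ
    have h1 : (QuotientGroup.rightRel K) (Quotient.out (Quotient.mk (QuotientGroup.rightRel K) h)) h :=
      Quotient.mk_out h
    have h2 : h * (Quotient.out (Quotient.mk (QuotientGroup.rightRel K) h))⁻¹ ∈ K :=
      QuotientGroup.rightRel_apply.1 h1
    refine ⟨⟨_, h2⟩, (Quotient.out (Quotient.mk (QuotientGroup.rightRel K) h)) • r, ?_, ?_⟩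
    · rw [Finset.mem_biUnion]
      exact ⟨_, Finset.mem_image_of_mem _ (Finset.mem_univ _), Finset.mem_image_of_mem _ hr⟩
    · show h • r = (h * (Quotient.out (Quotient.mk (QuotientGroup.rightRel K) h))⁻¹) •
        ((Quotient.out (Quotient.mk (QuotientGroup.rightRel K) h)) • r)
      rw [← mul_smul, inv_mul_cancel_right]

/-- The condition `Sep` after passing to a subgroup of finite index. -/
theorem FreeCx.exists_sep (hX : FreeCx H X)
    (hrf : ∀ B : Finset H, ∃ (Q : Type) (_ : Group Q) (_ : Finite Q) (π : H →* Q),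
      ∀ h ∈ B, h ≠ 1 → π h ≠ 1) :
    ∃ K : Subgroup H, K.FiniteIndex ∧ K.Normal ∧ Sep K X := by
  classical
  obtain ⟨R, hR, hR'⟩ := hX.fin
  -- the finite set of bad elements
  let hv : P → P → H := fun p q => if h : ∃ g : H, g • p = q then h.choose else 1
  let B : Finset H := R.biUnion fun r => r.biUnion fun p => r.image fun q => hv p q
  obtain ⟨Q, i1, i2, π, hπ⟩ := hrf B
  refine ⟨π.ker, ?_, inferInstance, ?_⟩
  · exact Subgroup.finiteIndex_ker π
  · intro h σ hσ p hp hhp
    obtain ⟨g, r, hr, rfl⟩ := hR' σ hσ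
    obtain ⟨p0, hp0, rfl⟩ := Finset.mem_smul_finset.1 hp
    have hhp' : h.1 • g • p0 ∈ g • r := hhp
    obtain ⟨q0, hq0, e⟩ := Finset.mem_smul_finset.1 hhp'
    have e1 : (g⁻¹ * h.1 * g) • p0 = q0 := by
      rw [mul_smul, mul_smul, ← e, inv_smul_smul]
    have hex : ∃ g : H, g • p0 = q0 := ⟨_, e1⟩
    have e2 : hv p0 q0 • p0 = q0 := by
      show (if h : ∃ g : H, g • p0 = q0 then h.choose else 1) • p0 = q0
      rw [dif_pos hex]
      exact hex.choose_spec
    have hp0' : {p0} ∈ X := hX.single_mem (hR r hr) hp0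
    have e3 : g⁻¹ * h.1 * g = hv p0 q0 := hX.vfree hp0' (e1.trans e2.symm)
    have e4 : hv p0 q0 ∈ B := by
      rw [Finset.mem_biUnion]
      refine ⟨r, hr, ?_⟩
      rw [Finset.mem_biUnion]
      exact ⟨p0, hp0, Finset.mem_image_of_mem _ hq0⟩
    have e5 : π (hv p0 q0) = 1 := by
      rw [← e3, map_mul, map_mul, (MonoidHom.mem_ker).1 h.2, mul_one, map_inv, inv_mul_cancel]
    have e6 : hv p0 q0 = 1 := by
      by_contra hne
      exact hπ _ e4 hne e5
    rw [e6] at e3
    have e7 : h.1 = 1 := by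
      calc h.1 = g * (g⁻¹ * h.1 * g) * g⁻¹ := by group
        _ = 1 := by rw [e3, mul_one, mul_inv_cancel]
    exact Subtype.ext e7

end

end SingerVS
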