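import Mathlib
import Pool.Agent.Lib_MP_394d50_vs.GQuo
import Pool.Agent.Lib_MP_394d50_vs.GCol
import Pool.Agent.Lib_MP_394d50_vs.Raag
import Pool.Agent.Lib_MP_394d50_vs.VStat

/-!
# The subgroup of finite index
-/

namespace SingerVS

open SingerRA
open scoped Pointwise

theorem VirtRA.cox {Γ : Type} [Group Γ] (h : VirtRA Γ) :
    ∃ (K : Subgroup Γ) (V : Type) (_ : Finite V) (G : SimpleGraph V), K.FiniteIndex ∧
      ∃ f : K →* W G, Function.Injective f := by
  obtain ⟨K, hK, V, hV, G, ⟨f, hf⟩ | ⟨f, hf⟩⟩ := h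
  · exact ⟨K, V × Bool, inferInstance, dblG G, hK, (toW G).comp f, (toW_injective G).comp hf⟩
  · exact ⟨K, V, hV, G, hK, f, hf⟩

/-- Change of the group along the inclusion of a subgroup of a subgroup. -/
theorem exists_map_subtype {Γ : Type} [Group Γ] (K : Subgroup Γ) (hK : K.FiniteIndex)
    (L : Subgroup K) (hL : L.FiniteIndex) {M : Type} [Group M] (f : L →* M)
    (hf : Function.Injective f) :
    ∃ K' : Subgroup Γ, K'.FiniteIndex ∧ (∀ x ∈ K', ∃ k ∈ L, (k : Γ) = x) ∧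
      ∃ f' : K' →* M, Function.Injective f' ∧ ∀ x, ∃ y, f' x = f y := by
  let e : L ≃* L.map K.subtype := L.equivMapOfInjective K.subtype K.subtype_injective
  refine ⟨L.map K.subtype, ⟨?_⟩, ?_, f.comp e.symm.toMonoidHom, hf.comp e.symm.injective,
    fun x => ⟨e.symm x, rfl⟩⟩
  · rw [Subgroup.index_map_subtype]
    exact mul_ne_zero hL.index_ne_zero hK.index_ne_zero
  · intro x hx
    obtain ⟨k, hk, e⟩ := Subgroup.mem_map.mp hx
    exact ⟨k, hk, e⟩

/-- The subgroup of finite index for which everything is in place. -/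
theorem exists_good {Γ P : Type} [Group Γ] [DecidableEq P] [MulAction Γ P] {X : Set (Finset P)}
    (hX : FreeCx Γ X) (hΓ : VirtRA Γ) :
    ∃ (K : Subgroup Γ) (V : Type) (_ : Fintype V) (_ : DecidableEq V) (G : SimpleGraph V)
      (f : K →* W G) (lo : LinearOrder P), K.FiniteIndex ∧ Function.Injective f ∧
      (∀ h, deg G (f h) = 0) ∧
      ∀ h : K, ∀ σ ∈ X, ∀ x ∈ σ, ∀ y ∈ σ, lo.lt x y → lo.lt (h • x) (h • y) := by
  classical
  obtain ⟨K0, V, hV, G, hK0, f0, hf0⟩ := hΓ.cox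
  have iV : Fintype V := Fintype.ofFinite V
  -- the kernel of the degree
  let d : K0 →* Multiplicative (V → ZMod 2) := (lab G).comp f0
  have hfin : Finite (Multiplicative (V → ZMod 2)) := inferInstanceAs (Finite (V → ZMod 2))
  have hd : d.ker.FiniteIndex := Subgroup.finiteIndex_ker d
  obtain ⟨K1, hK1f, _, f1, hf1, hf1'⟩ := exists_map_subtype K0 hK0 d.ker hd
    (f0.comp d.ker.subtype) (hf0.comp d.ker.subtype_injective)
  have hdeg1 : ∀ h, deg G (f1 h) = 0 := by
    intro h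
    obtain ⟨y, hy⟩ := hf1' h
    rw [hy]
    have h1 : d y.1 = 1 := y.2
    show (lab G (f0 y.1)).toAdd = 0
    have h2 : lab G (f0 y.1) = 1 := h1
    rw [h2]
    rfl
  -- the separating subgroup
  have hX1 : FreeCx K1 X := hX.of_finiteIndex K1 hK1f
  obtain ⟨K2, hK2, _, hsep⟩ := hX1.exists_sep (fun B => resfin G f1 hdeg1 hf1 B)
  obtain ⟨K3, hK3, hK3', f2, hf2, hf2'⟩ := exists_map_subtype K1 hK1f K2 hK2
    (f1.comp K2.subtype) (hf1.comp K2.subtype_injective)
  have hsep' : Sep K3 X := by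
    rintro ⟨h, hh⟩ σ hσ p hp hhp
    obtain ⟨k, hk, e'⟩ := hK3' h hh
    have h1 := hsep ⟨k, hk⟩ σ hσ p hp (by
      have h2 : ((⟨k, hk⟩ : K2) • p : P) = h • p := by
        rw [← e']
        rfl
      rw [h2]
      exact hhp)
    apply Subtype.ext
    show h = 1
    rw [← e']
    have h3 : k = 1 := congrArg Subtype.val h1
    rw [h3]
    rfl
  obtain ⟨lo, hlo⟩ := hsep'.exists_order
  refine ⟨K3, V, iV, inferInstance, G, f2, lo, hK3, hf2, ?_, hlo⟩
  · intro h
    obtain ⟨y, hy⟩ := hf2' h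
    rw [hy]
    exact hdeg1 y.1

end SingerVS
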