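import Mathlib
import Pool.Agent.Lib_MP_394d50_vs.VUp
import Pool.Agent.Lib_MP_394d50_vs.LMat

/-!
# Small gradients for the cell complex of the simplices
-/

namespace SingerVS

open SingerRA
open scoped Pointwise

section

variable {H P : Type} [Group H] [DecidableEq P] [MulAction H P] {X : Set (Finset P)}
variable [MulAction H {σ : Finset P // σ ∈ X}]

open scoped Classical in
/-- The representatives of the orbits of simplices. -/
noncomputable def repSet (H : Type) {P : Type} [Group H] (X : Set (Finset P))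
    [MulAction H {σ : Finset P // σ ∈ X}] [Fintype (Orb H {σ : Finset P // σ ∈ X})] :
    Finset (Finset P) :=
  Finset.univ.image (fun o : Orb H {σ : Finset P // σ ∈ X} => o.out.1)

variable [Fintype (Orb H {σ : Finset P // σ ∈ X})]

omit [DecidableEq P] [MulAction H P] in
theorem mem_repSet {r : Finset P} :
    r ∈ repSet H X ↔ ∃ o : Orb H {σ : Finset P // σ ∈ X}, o.out.1 = r := by
  unfold repSet
  simp

theorem reps_repSet (hsm : ∀ (h : H) (c : {σ : Finset P // σ ∈ X}), (h • c).1 = h • c.1) :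
    Reps H X (repSet H X) := by
  refine ⟨?_, ?_, ?_⟩
  · intro r hr
    obtain ⟨o, rfl⟩ := mem_repSet.mp hr
    exact o.out.2
  · intro σ hσ
    obtain ⟨h, o, e⟩ := exists_rep (H := H) (⟨σ, hσ⟩ : {σ : Finset P // σ ∈ X})
    refine ⟨h, o.out.1, mem_repSet.mpr ⟨o, rfl⟩, ?_⟩
    rw [← hsm, ← e]
  · intro r hr r' hr' h e
    obtain ⟨o, rfl⟩ := mem_repSet.mp hr
    obtain ⟨o', rfl⟩ := mem_repSet.mp hr'
    have h1 : h • o.out = o'.out := Subtype.ext ((hsm h o.out).trans e)
    have h2 : o = o' := by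
      have h3 : (MulAction.orbitRel H {σ : Finset P // σ ∈ X}).r o'.out o.out := ⟨h, h1⟩
      have h4 := Quotient.sound (s := MulAction.orbitRel H {σ : Finset P // σ ∈ X}) h3
      rw [Quotient.out_eq, Quotient.out_eq] at h4
      exact h4.symm
    rw [h2]

variable {I : CellCx {σ : Finset P // σ ∈ X}}

/-- The two index sets. -/
noncomputable def obEquiv (hX : FreeCx H X)
    (hdim : ∀ c : {σ : Finset P // σ ∈ X}, I.dim c = c.1.card - 1) (k : ℕ) :
    Ob H I k ≃ Rk (repSet H X) (k + 1) :=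
  Equiv.ofBijective (fun o => ⟨o.1.out.1, mem_repSet.mpr ⟨o.1, rfl⟩, by
    have h1 := o.2
    rw [hdim] at h1
    have h2 := Finset.card_pos.mpr (hX.ne _ o.1.out.2)
    omega⟩) (by
    constructor
    · intro o o' e
      have h1 : o.1.out.1 = o'.1.out.1 :=
        congrArg (fun z : Rk (repSet H X) (k + 1) => z.1) e
      have h2 : o.1.out = o'.1.out := Subtype.ext h1
      apply Subtype.ext
      rw [← Quotient.out_eq o.1, h2, Quotient.out_eq]
    · rintro ⟨r, hr, hk⟩
      obtain ⟨o, rfl⟩ := mem_repSet.mp hr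
      exact ⟨⟨o, by rw [hdim, hk]; rfl⟩, rfl⟩)

theorem obEquiv_val (hX : FreeCx H X)
    (hdim : ∀ c : {σ : Finset P // σ ∈ X}, I.dim c = c.1.card - 1) (k : ℕ) (o : Ob H I k) :
    (obEquiv hX hdim k o).1 = o.1.out.1 := rfl

open scoped Classical in
theorem dm_eq (hX : FreeCx H X)
    (hsm : ∀ (h : H) (c : {σ : Finset P // σ ∈ X}), (h • c).1 = h • c.1)
    (hdim : ∀ c : {σ : Finset P // σ ∈ X}, I.dim c = c.1.card - 1)
    (hinc : ∀ σ τ : {σ : Finset P // σ ∈ X}, ((I.inc σ τ : ℤ) : ZMod 2) =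
      ((τ.1.filter (fun p => τ.1.erase p = σ.1)).card : ZMod 2))
    (hF : FreeCell H I) (j k : ℕ) (o : Ob H I j) (o' : Ob H I k) :
    dm (ZMod 2) H I j k o o' = dmat (reps_repSet hsm) (j + 1) (k + 1) (obEquiv hX hdim j o)
      (obEquiv hX hdim k o') := by
  apply MonoidAlgebra.coeff_injective
  ext h
  rw [dmat_coeff hX (reps_repSet hsm), obEquiv_val, obEquiv_val]
  have h1 : (dm (ZMod 2) H I j k o o').coeff h =
      ((I.inc o.1.out (h • o'.1.out) : ℤ) : ZMod 2) := coeff_incM hF o.1 o'.1 h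
  rw [h1, hinc, hsm]
  congr 1
  symm
  refine Finset.card_bij (fun p _ => h • p) ?_ ?_ ?_
  · intro p hp
    obtain ⟨hp1, hp2⟩ := Finset.mem_filter.mp hp
    refine Finset.mem_filter.mpr ⟨Finset.smul_mem_smul_finset hp1, ?_⟩
    rw [← smul_erase, hp2, smul_inv_smul]
  · intro p _ q _ e
    exact MulAction.injective h e
  · intro q hq
    obtain ⟨hq1, hq2⟩ := Finset.mem_filter.mp hq
    refine ⟨h⁻¹ • q, Finset.mem_filter.mpr ⟨Finset.inv_smul_mem_iff.mpr hq1, ?_⟩,
      smul_inv_smul h q⟩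
    have h2 : h • o'.1.out.1.erase (h⁻¹ • q) = o.1.out.1 := by
      rw [smul_erase, smul_inv_smul, hq2]
    rw [← h2, inv_smul_smul]

theorem rank_regM_le (hX : FreeCx H X)
    (hsm : ∀ (h : H) (c : {σ : Finset P // σ ∈ X}), (h • c).1 = h • c.1)
    (hdim : ∀ c : {σ : Finset P // σ ∈ X}, I.dim c = c.1.card - 1)
    (hinc : ∀ σ τ : {σ : Finset P // σ ∈ X}, ((I.inc σ τ : ℤ) : ZMod 2) =
      ((τ.1.filter (fun p => τ.1.erase p = σ.1)).card : ZMod 2))
    (hF : FreeCell H I) (j k : ℕ) {Q : Type} [Group Q] [Fintype Q] (g : H →* Q) :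
    (regM ((dmat (reps_repSet hsm) (j + 1) (k + 1)).map
      (MonoidAlgebra.mapDomainRingHom (ZMod 2) g))).rank ≤ (dQ I g j k).rank := by
  classical
  have h1 : regM ((dmat (reps_repSet hsm) (j + 1) (k + 1)).map
      (MonoidAlgebra.mapDomainRingHom (ZMod 2) g)) =
      (dQ I g j k).submatrix (fun p => ((obEquiv hX hdim j).symm p.1, p.2))
        (fun p => ((obEquiv hX hdim k).symm p.1, p.2)) := by
    apply Matrix.ext
    intro p q
    have h2 := dm_eq hX hsm hdim hinc hF j k ((obEquiv hX hdim j).symm p.1)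
      ((obEquiv hX hdim k).symm q.1)
    rw [Equiv.apply_symm_apply, Equiv.apply_symm_apply] at h2
    show (MonoidAlgebra.mapDomainRingHom (ZMod 2) g (dmat (reps_repSet hsm) (j + 1) (k + 1)
      p.1 q.1)).coeff (p.2⁻¹ * q.2) = (MonoidAlgebra.mapDomain g (dm (ZMod 2) H I j k
        ((obEquiv hX hdim j).symm p.1) ((obEquiv hX hdim k).symm q.1))).coeff (p.2⁻¹ * q.2)
    rw [h2]
    rfl
  rw [h1]
  exact Matrix.rank_submatrix_le _ _ _

end

/-- Small gradients away from the middle dimension. -/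
theorem smallH_of {H P : Type} [Group H] [LinearOrder P] [MulAction H P] {X : Set (Finset P)}
    [MulAction H {σ : Finset P // σ ∈ X}] {I : CellCx {σ : Finset P // σ ∈ X}}
    (hX : FreeCx H X) (ho : OrdInv H X)
    (hsm : ∀ (h : H) (c : {σ : Finset P // σ ∈ X}), (h • c).1 = h • c.1)
    (hdim : ∀ c : {σ : Finset P // σ ∈ X}, I.dim c = c.1.card - 1)
    (hinc : ∀ σ τ : {σ : Finset P // σ ∈ X}, ((I.inc σ τ : ℤ) : ZMod 2) =
      ((τ.1.filter (fun p => τ.1.erase p = σ.1)).card : ZMod 2))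
    (hF : FreeCell H I) {n : ℕ} (hlf : LfR n X) (hac : Acyc X)
    {V : Type} [Fintype V] [DecidableEq V] (G : SimpleGraph V)
    (f : H →* W G) (hf : ∀ h, deg G (f h) = 0) (hinj : Function.Injective f)
    (k : ℕ) (hk : 2 * k ≠ n) : SmallH H I k := by
  intro iF T ε hε
  obtain ⟨Q, i1, i2, g, h1, h2⟩ := ranks_vs G hX ho hlf hac f hf hinj (reps_repSet hsm) k hk T ε hε
  refine ⟨Q, i1, i2, g, h1, ?_⟩
  have e1 : Fintype.card (Ob H I k) = Fintype.card (Rk (repSet H X) (k + 1)) :=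
    Fintype.card_congr (obEquiv hX hdim k)
  rw [e1, ← Nat.card_eq_fintype_card (α := Q)]
  refine h2.trans (add_le_add ?_ ?_)
  · rcases Nat.eq_zero_or_pos k with h0 | h0
    · subst h0
      have h3 : (regM ((dmat (reps_repSet hsm) 0 (0 + 1)).map
          (MonoidAlgebra.mapDomainRingHom (ZMod 2) g))).rank = 0 := by
        refine Nat.le_zero.mp ((Matrix.rank_le_card_height _).trans (le_of_eq ?_))
        rw [Fintype.card_eq_zero_iff]
        refine ⟨fun p => ?_⟩
        obtain ⟨r, hr, hk0⟩ := p.1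
        exact (Finset.card_pos.mpr (hX.ne r ((reps_repSet hsm).mem r hr))).ne' hk0
      rw [h3, Nat.cast_zero]
      exact Nat.cast_nonneg _
    · obtain ⟨m, rfl⟩ : ∃ m, k = m + 1 := ⟨k - 1, by omega⟩
      exact_mod_cast rank_regM_le hX hsm hdim hinc hF m (m + 1) g
  · exact_mod_cast rank_regM_le hX hsm hdim hinc hF k (k + 1) g

end SingerVS
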