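import Mathlib
import Pool.Agent.Lib_MP_394d50_vs.LSim
import Pool.Agent.Lib_MP_394d50_vs.LFinal
import Pool.Agent.Lib_MP_394d50_vs.LTr
import Pool.Agent.Lib_MP_394d50_vs.LkZig
import Pool.Agent.Lib_MP_394d50_vs.VSmall
import Pool.Agent.Lib_MP_394d50_vs.VFin
import Pool.Agent.Lib_MP_394d50_vs.VBr

/-!
# The main theorem
-/

namespace SingerVS

open SingerRA
open scoped Pointwise

/-- Small gradients, for a separate instance of decidable equality. -/
theorem smallH_dec {H P : Type} [Group H] [inst : DecidableEq P] [MulAction H P]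
    {X : Set (Finset P)} [MulAction H {σ : Finset P // σ ∈ X}]
    (hX : FreeCx H X)
    (hsm : ∀ (h : H) (c : {σ : Finset P // σ ∈ X}), (h • c).1 = h • c.1)
    {n : ℕ} (hlf : LfR n X) (hac : Acyc X)
    {V : Type} [Fintype V] [DecidableEq V] (G : SimpleGraph V)
    (f : H →* W G) (hf : ∀ h, deg G (f h) = 0) (hinj : Function.Injective f)
    (k : ℕ) (hk : 2 * k ≠ n) (lo : LinearOrder P)
    (ho : ∀ h : H, ∀ σ ∈ X, ∀ x ∈ σ, ∀ y ∈ σ, lo.lt x y → lo.lt (h • x) (h • y))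
    (hF : FreeCell H (@simpCx P inst X lo.lt)) : SmallH H (@simpCx P inst X lo.lt) k := by
  have e : inst = lo.toDecidableEq := Subsingleton.elim _ _
  subst e
  exact smallH_of hX ho hsm (fun _ => rfl) (fun σ τ => simpInc_mod2 _ σ.1 τ.1) hF hlf hac G f hf
    hinj k hk

theorem totOn_lt {P : Type} (lo : LinearOrder P) (σ : Finset P) : TotOn lo.lt σ := by
  refine ⟨fun x _ => lt_irrefl x, fun x _ y _ hxy => ⟨fun h => lt_asymm h, fun h => ?_⟩⟩
  exact lt_of_le_of_ne (not_lt.mp h) hxy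

/-- The local dimensions vanish outside the middle dimension. -/
theorem locDim_zero {Γ P : Type} [Group Γ] [inst : DecidableEq P] [MulAction Γ P]
    {X : Set (Finset P)} (hX : FreeCx Γ X) (hA : Acyc X) {n : ℕ} (hM : LfR n X)
    (hΓ : VirtRA Γ) :
    ∃ (K : Subgroup Γ) (r : P → P → Prop), K.FiniteIndex ∧ (∀ σ ∈ X, TotOn r σ) ∧
      (∀ h : K, ∀ σ ∈ X, ∀ x ∈ σ, ∀ y ∈ σ, r x y → r (h • x) (h • y)) ∧
      ∀ c : {σ : Finset P // σ ∈ X}, 2 * (c.1.card - 1) ≠ n →
        locDim (simpCx X r) c = 0 := by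
  obtain ⟨K, V, iV, iD, G, f, lo, hK, hinj, hdeg, hord⟩ := exists_good hX hΓ
  have hXK : @FreeCx K _ P inst _ X := @FreeCx.of_finiteIndex Γ P _ inst _ X hX K hK
  have hT : ∀ σ ∈ X, TotOn lo.lt σ := fun σ _ => totOn_lt lo σ
  let iA : MulAction K {σ : Finset P // σ ∈ X} := @simpAct P inst K _ _ X hXK.inv
  refine ⟨K, lo.lt, hK, hT, hord, ?_⟩
  intro c hc
  have hF : FreeCell K (@simpCx P inst X lo.lt) :=
    @freeCell_simp K P _ inst _ X iA hXK (fun _ _ => rfl) lo.lt hT hord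
  exact locDim_eq_zero_of_rk hF (c.1.card - 1)
    (@smallH_dec K P _ inst _ X iA hXK (fun _ _ => rfl) n hM hA V iV iD G f hdeg hinj
      (c.1.card - 1) hc lo hord hF) c rfl

section

variable {Γ P : Type} [Group Γ] [LinearOrder P] [MulAction Γ P] {X : Set (Finset P)}

/-- **The Singer conjecture for virtually special groups.** -/
theorem main_vs (hX : FreeCx Γ X) (hA : Acyc X) {n : ℕ} (hM : HomMfd n X ∨ LfR n X)
    (hΓ : VirtRA Γ) :
    (∀ k, 2 * k ≠ n → bettiX Γ X k = 0) ∧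
      (∀ k, 2 * k = n → bettiX Γ X k = (-1 : ℝ) ^ k * chiX Γ X) ∧
      ((∀ k, bettiX Γ X k = 0) ↔ chiX Γ X = 0) ∧
      ∀ k, 2 * k = n → 0 ≤ (-1 : ℤ) ^ k * chiX Γ X := by
  classical
  have hlf : LfR n X := hM.elim (fun h => HomMfd.lfR hX hA h) id
  obtain ⟨K, r, hK, hr, hinv, hz⟩ := locDim_zero hX hA hlf hΓ
  let iA : MulAction Γ {σ : Finset P // σ ∈ X} := simpAct hX.inv
  have hsm : ∀ (h : Γ) (c : {σ : Finset P // σ ∈ X}), (h • c).1 = h • c.1 := fun _ _ => rfl
  have hXK : FreeCx K X := hX.of_finiteIndex K hK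
  have hr0 : ∀ σ ∈ X, TotOn (fun x y : P => x < y) σ := fun σ _ => totOn_lt inferInstance σ
  have hloc := locDim_smul_simp (H := Γ) hX.inv hsm hr0
  have hord := locDim_order hr0 hr
  have hF : FreeCell K (simpCx X r) := freeCell_simp hXK (fun _ _ => rfl) hr hinv
  have hfree : ∀ (g : Γ) (c : {σ : Finset P // σ ∈ X}), g • c = c → g = 1 :=
    fun g c h => hX.free g c.1 c.2 (congrArg Subtype.val h)
  have hfin : Finite (Orb Γ {σ : Finset P // σ ∈ X}) := by
    obtain ⟨R, hR1, hR2⟩ := hX.fin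
    refine Finite.of_surjective (fun x : R =>
      (Quotient.mk (MulAction.orbitRel Γ {σ : Finset P // σ ∈ X}) ⟨x.1, hR1 x.1 x.2⟩ :
        Orb Γ {σ : Finset P // σ ∈ X})) ?_
    intro o
    obtain ⟨c, rfl⟩ := Quotient.exists_rep o
    obtain ⟨h, s, hs, e⟩ := hR2 c.1 c.2
    refine ⟨⟨s, hs⟩, Quotient.sound (MulAction.orbitRel_apply.mpr ⟨h⁻¹, ?_⟩)⟩
    refine Subtype.ext ?_
    show h⁻¹ • c.1 = s
    rw [e, inv_smul_smul]
  have key := betti_final (Γ := Γ) (I := simpCx X (fun x y : P => x < y)) (I' := simpCx X r) K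
    hfree hfin (fun g c => by
      show (g • c.1).card - 1 = c.1.card - 1
      rw [Finset.card_smul_finset]) hloc (fun _ => rfl) hord hF n (fun c hc => by
      rw [← hord c]
      exact hz c hc)
  rw [chiX_eq hX]
  have hb : ∀ k, bettiX Γ X k = l2Betti Γ (simpCx X (fun x y : P => x < y)) k :=
    fun k => bettiX_eq hX (fun g c => hloc g c) k
  simp only [hb]
  exact key

end

end SingerVS
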