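import Mathlib
import Pool.Agent.Lib_MP_394d50_vs.LFinal
import Pool.Agent.Lib_MP_394d50_vs.LSim
import Pool.Agent.Lib_MP_394d50_vs.LTr

/-!
# Block L: the conclusion for simplicial complexes
-/

namespace SingerVS

open scoped Pointwise

section

variable {Γ P : Type} [Group Γ] [DecidableEq P] [MulAction Γ P] {X : Set (Finset P)}

/-- If a subgroup of finite index, preserving an order of the vertices of each simplex, has small
gradients outside the middle dimension, then the `ℓ²`-Betti numbers of the group vanish outside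
the middle dimension, and the middle one is the Euler characteristic up to sign. -/
theorem singer_l2Betti [MulAction Γ {σ : Finset P // σ ∈ X}] (hX : FreeCx Γ X)
    (hsm : ∀ (h : Γ) (c : {σ : Finset P // σ ∈ X}), (h • c).1 = h • c.1)
    {r r' : P → P → Prop} (hr : ∀ σ ∈ X, TotOn r σ) (hr' : ∀ σ ∈ X, TotOn r' σ)
    (K : Subgroup Γ) [K.FiniteIndex]
    (hinv : ∀ h : K, ∀ σ ∈ X, ∀ x ∈ σ, ∀ y ∈ σ, r' x y → r' (h • x) (h • y))
    (hXK : FreeCx K X) (n : ℕ) (hS : ∀ k, 2 * k ≠ n → SmallH K (simpCx X r') k) :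
    (∀ k, 2 * k ≠ n → l2Betti Γ (simpCx X r) k = 0) ∧
      (∀ k, 2 * k = n → l2Betti Γ (simpCx X r) k = (-1 : ℝ) ^ k * chi Γ (simpCx X r)) ∧
      ((∀ k, l2Betti Γ (simpCx X r) k = 0) ↔ chi Γ (simpCx X r) = 0) ∧
      ∀ k, 2 * k = n → 0 ≤ (-1 : ℤ) ^ k * chi Γ (simpCx X r) := by
  have hF : FreeCell K (simpCx X r') := freeCell_simp hXK (fun h c => hsm h c) hr' hinv
  have hl : ∀ c, locDim (simpCx X r') c = locDim (simpCx X r) c := locDim_order hr hr'
  refine betti_final (I := simpCx X r) (I' := simpCx X r') K ?_ ?_ ?_ ?_ (fun _ => rfl) hl hF n ?_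
  · intro g c e
    refine hX.free g c.1 c.2 ?_
    rw [← hsm, e]
  · obtain ⟨R, hR, hR'⟩ := hX.fin
    have hfin : Finite {r // r ∈ R} := inferInstance
    refine Finite.of_surjective (fun z : {r // r ∈ R} =>
      (Quotient.mk'' ⟨z.1, hR z.1 z.2⟩ : MulAction.orbitRel.Quotient Γ
        {σ : Finset P // σ ∈ X})) ?_
    intro o
    induction o using Quotient.inductionOn' with
    | h c =>
      obtain ⟨h, z, hz, e⟩ := hR' c.1 c.2
      refine ⟨⟨z, hz⟩, ?_⟩
      refine (Quotient.sound' ?_ : Quotient.mk'' c = Quotient.mk'' _).symm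
      refine ⟨h, ?_⟩
      apply Subtype.ext
      show (h • (⟨z, hR z hz⟩ : {σ : Finset P // σ ∈ X})).1 = c.1
      rw [hsm, e]
  · intro g c
    show (g • c).1.card - 1 = c.1.card - 1
    rw [hsm, card_smul]
  · exact fun g c => locDim_smul_simp hX.inv hsm hr g c
  · intro c hc
    rw [← hl c]
    exact locDim_eq_zero_of_rk hF _ (hS _ hc) c rfl

omit [DecidableEq P] in
theorem totOn_lt (lo : LinearOrder P) (σ : Finset P) : TotOn lo.lt σ := by
  refine ⟨fun x _ => lt_irrefl x, fun x _ y _ hxy => ⟨fun h => lt_asymm h, fun h => ?_⟩⟩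
  rcases lt_trichotomy x y with h1 | h1 | h1
  · exact h1
  · exact absurd h1 hxy
  · exact absurd h1 h

end

end SingerVS
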